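import Pool.Agent.Helper65.CL.Defs

/-!
# Project CL (MP_65faa7): statements, part B (finite graphs, local limits, the vertex factor)
Paper proof: /team-store/MP_65faa7-v2.md, section B.
-/

set_option autoImplicit false

open scoped BigOperators ENNReal Topology
open Pool.LE Pool.NL Filter MeasureTheory

namespace Pool.CL

/-! ## Finite graphs -/

/-- the weighted two-point function is symmetric and positive definite -/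
def StPD : Prop := ∀ (V : Type) [DecidableEq V] (L : Finset V) (E : Finset (Sym2 V)) (D : ℕ) (p : ℝ)
  (ρ : V → ℝ), FG L E D → 0 ≤ p → p < 1 → (∀ y, 0 < ρ y ∧ ρ y ≤ 1) →
    PD L (GK L E p ρ) ∧ (∀ u v, 0 ≤ GK L E p ρ u v ∧ GK L E p ρ u v ≤ cp E p u v) ∧
    (∀ u v, GK L E p ρ u v = GK L E p ρ v u) ∧
    (∀ (k : V → ℝ) (u v : V), GT L E p ρ k u v = GT L E p ρ k v u)

/-- inverse of a positive definite kernel -/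
def StHinv : Prop := ∀ (V : Type) [DecidableEq V] (L : Finset V) (S : V → V → ℝ), PD L S →
  Inv L S (kinv L S) ∧ (∀ u v, kinv L S u v = kinv L S v u) ∧
  (∀ u v, u ∉ L ∨ v ∉ L → kinv L S u v = 0) ∧
  (∀ B : V → V → ℝ, Inv L S B → ∀ u ∈ L, ∀ v ∈ L, B u v = kinv L S u v)

/-- the exact identity `S_k G f = S_f G k` -/
def StStar : Prop := ∀ (V : Type) [DecidableEq V] (L : Finset V) (E : Finset (Sym2 V)) (D : ℕ) (p : ℝ)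
  (ρ : V → ℝ), FG L E D → 0 ≤ p → p < 1 → (∀ y, 0 < ρ y ∧ ρ y ≤ 1) → ∀ k f : V → ℝ,
    (∀ u ∈ L, ap L (SK L E p ρ k) (ap L (GK L E p ρ) f) u =
      ap L (SK L E p ρ f) (ap L (GK L E p ρ) k) u) ∧
    (∀ u v, SK L E p ρ k u v = SK L E p ρ k v u) ∧
    (∀ (c : ℝ) (u v : V), SK L E p ρ (fun y => c * k y) u v = c * SK L E p ρ k u v)

/-- differentiation with respect to the weights -/
def StDer : Prop := ∀ (V : Type) [DecidableEq V] (L : Finset V) (E : Finset (Sym2 V)) (D : ℕ) (p : ℝ)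
  (φ : V → ℝ), FG L E D → 0 ≤ p → p < 1 → (∀ y, 0 ≤ φ y) → ∀ (u v : V),
    Continuous (fun s : ℝ => GK L E p (fun y => Real.exp (-(s * φ y))) u v) ∧
    (∀ k : V → ℝ,
      ContinuousOn (fun s : ℝ => SK L E p (fun y => Real.exp (-(s * φ y))) k u v) (Set.Ici 0)) ∧
    (∀ θ : ℝ, 0 ≤ θ → HK L E p (fun y => Real.exp (-(θ * φ y))) u v =
      HK L E p (fun _ => 1) u v + ∫ s in (0 : ℝ)..θ, SK L E p (fun y => Real.exp (-(s * φ y))) φ u v)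

/-! ## The box -/

/-- basic facts in the box -/
def StBx : Prop := ∀ (d : ℕ) (C₁ B c₀ CL : ℝ), EnvC d C₁ B c₀ CL → ∃ n₀ : ℕ, 1 ≤ n₀ ∧ ∀ n : ℕ,
  n₀ ≤ n → ∀ (θ : ℝ) (ψ : Zd d → ℝ), 0 ≤ θ → θ ≤ 1 → U01 ψ →
    Inv (Bn d n) (Gx d n θ ψ) (Hx d n θ ψ) ∧ (∀ u v, Hx d n θ ψ u v = Hx d n θ ψ v u) ∧
    (∀ u v, Gx d n θ ψ u v = Gx d n θ ψ v u) ∧
    (∀ u v, 0 ≤ Gx d n θ ψ u v ∧ Gx d n θ ψ u v ≤ G0 d n u v ∧ G0 d n u v ≤ 1) ∧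
    (∀ u ∈ Bn d n, ∑ v ∈ Bn d n, G0 d n u v ≤ C₁ * (n : ℝ) ^ 2) ∧
    (∀ u ∈ Bn d n, ∑ v ∈ Bn d n, Qw (v - u) * |Hx d n θ ψ u v| ≤ CL) ∧
    (∀ (k : Zd d → ℝ) (η : ℝ), 0 < η →
      (∀ w ∈ Bn d n, ∑ y ∈ Bn d n, tau d (pH d) (y - w) * |k y| ≤ η) →
        ∀ u ∈ Bn d n, ∑ v ∈ Bn d n, Qw (v - u) * |Sx d n θ ψ k u v| ≤ CL * η) ∧
    (∀ (k : Zd d → ℝ) (K : ℝ), 0 < K → (∀ y, |k y| ≤ K) → ∀ u ∈ Bn d n,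
      ∑ v ∈ Bn d n, Qw (v - u) * |Sx d n θ ψ k u v| ≤ CL * (K * (C₁ * (n : ℝ) ^ 2)))

open Classical in
/-- few points close to the complement of the box -/
def StBd : Prop := ∀ (d : ℕ), 1 ≤ d → (∀ (n R : ℕ), 1 ≤ n →
    (((Bn d n).filter (fun u => ¬ deep d n R u)).card : ℝ) ≤ 2 * d * R * (n : ℝ) ^ (d - 1)) ∧
  (∀ (n R : ℕ) (u : Zd d), deep d n R u ↔ ∀ i, (R : ℤ) ≤ u i ∧ u i + R < n) ∧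
  (∀ (R : ℕ) (z : Zd d), z ∈ bx d R ↔ nrm z ≤ R) ∧ (∀ z w : Zd d, nrm (z + w) ≤ nrm z + nrm w) ∧
  (∀ z : Zd d, nrm (-z) = nrm z) ∧ (∀ z : Zd d, 2 * (1 + (nrm z : ℝ) ^ 2) ≤ Qw z)

/-- calculus of the filter `DF` -/
def StDF : Prop := ∀ d : ℕ, 1 ≤ d →
  (∀ P : Pt d → Prop, (∀ᶠ q in DF d, P q) ↔ ∃ R : ℕ, ∀ q, okp R q → P q) ∧
  (DF d).NeBot ∧
  (∀ (R : ℕ) (q : Pt d), okp R q → 2 * R + 1 ≤ q.n ∧ q.u ∈ Bn d q.n) ∧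
  (∀ x : Zd d, Tendsto (fun q : Pt d => (⟨q.n, q.θ, q.ψ, q.u + x⟩ : Pt d)) (DF d) (DF d)) ∧
  (∀ F : Pt d → ℝ, (∀ ε : ℝ, 0 < ε → ∃ R : ℕ, ∀ q q' : Pt d, okp R q → okp R q' →
    |F q - F q'| ≤ ε) → ∃ s : ℝ, Tendsto F (DF d) (𝓝 s)) ∧
  (∀ F : Pt d → ℝ, (∀ ε : ℝ, 0 < ε → ∃ (F' : Pt d → ℝ) (s' : ℝ), Tendsto F' (DF d) (𝓝 s') ∧
    ∀ᶠ q in DF d, |F q - F' q| ≤ ε) → ∃ s : ℝ, Tendsto F (DF d) (𝓝 s))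

/-- translations and monotonicity -/
def StTr : Prop := ∀ (d : ℕ) (p : ℝ), 0 ≤ p → p ≤ 1 →
  (∀ (E : Finset (Sym2 (Zd d))) (v : Zd d) (f : Finset (Sym2 (Zd d)) → ℝ),
    ex (trE v E) p f = ex E p (fun ω => f (trE v ω))) ∧
  (∀ (ω : Finset (Sym2 (Zd d))) (v a b : Zd d), con (trE v ω) (v + a) (v + b) ↔ con ω a b) ∧
  (∀ (E E' : Finset (Sym2 (Zd d))) (f : Finset (Sym2 (Zd d)) → ℝ), E ⊆ E' →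
    (∀ ω ω', ω ⊆ ω' → f ω ≤ f ω') → ex E p f ≤ ex E' p f) ∧
  (∀ (S : Finset (Zd d)) (v : Zd d), trE v (ES S) = ES (S.map (Equiv.addLeft v).toEmbedding))

/-- local limit of the two-point function -/
def StLocG : Prop := ∀ (d : ℕ) (C₁ B c₀ CL : ℝ), EnvC d C₁ B c₀ CL → ∀ x y : Zd d,
  Tendsto (fun q : Pt d => Gx d q.n q.θ q.ψ (q.u + x) (q.u + y)) (DF d)
    (𝓝 (tau d (pH d) (y - x)))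

/-- local limit of the three-point function -/
def StLoc3 : Prop := ∀ (d : ℕ) (C₁ B c₀ CL : ℝ), EnvC d C₁ B c₀ CL → ∀ x y z : Zd d,
  ∃ s : ℝ, Tendsto (fun q : Pt d => G3x d q.n q.θ q.ψ (q.u + x) (q.u + y) (q.u + z)) (DF d) (𝓝 s)

/-- local limit of the inverse -/
def StLocH : Prop := ∀ (d : ℕ) (C₁ B c₀ CL : ℝ), EnvC d C₁ B c₀ CL → ∀ x y : Zd d,
  ∃ s : ℝ, Tendsto (fun q : Pt d => Hx d q.n q.θ q.ψ (q.u + x) (q.u + y)) (DF d) (𝓝 s)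

/-- local limit of `S_f` -/
def StLocS : Prop := ∀ (d : ℕ) (C₁ B c₀ CL : ℝ), EnvC d C₁ B c₀ CL → ∀ (m : ℕ) (v : Zd d), 1 ≤ m →
  ∃ s : ℝ, Tendsto (fun q : Pt d => Sx d q.n q.θ q.ψ (tf m q.u) q.u (q.u + v)) (DF d) (𝓝 s)

/-- limit of the row sums of `S_f` -/
def StRow : Prop := ∀ (d : ℕ) (C₁ B c₀ CL : ℝ), EnvC d C₁ B c₀ CL → ∀ m : ℕ, 1 ≤ m →
  ∃ s : ℝ, Tendsto (fun q : Pt d => ∑ v ∈ Bn d q.n, Sx d q.n q.θ q.ψ (tf m q.u) q.u v)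
    (DF d) (𝓝 s)

/-- mass of the two-point function in a translated box -/
def StA1w : Prop := ∀ (d : ℕ) (C₁ B c₀ CL : ℝ), EnvC d C₁ B c₀ CL → ∃ C : ℝ, 1 ≤ C ∧
  ∀ (m : ℕ) (w : Zd d), 1 ≤ m → ∑ y ∈ bx d m, tau d (pH d) (y - w) ≤ C * (m : ℝ) ^ 2

/-- the two-point function applied to a tent -/
def StTent : Prop := ∀ (d : ℕ) (C₁ B c₀ CL : ℝ), EnvC d C₁ B c₀ CL → ∃ c C : ℝ, 0 < c ∧ 1 ≤ C ∧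
  (∀ m : ℕ, 1 ≤ m → ∃ t : Zd d → ℝ,
    (∀ z : Zd d, Tendsto (fun q : Pt d =>
      ap (Bn d q.n) (Gx d q.n q.θ q.ψ) (tf m q.u) (q.u + z)) (DF d) (𝓝 (t z))) ∧
    c * (m : ℝ) ^ 2 ≤ t 0 ∧ t 0 ≤ C * (m : ℝ) ^ 2 ∧ ∀ z, |t z - t 0| ≤ C * m * nrm z) ∧
  (∀ (m : ℕ) (u w : Zd d) (n : ℕ), 1 ≤ m →
    ∑ y ∈ Bn d n, tau d (pH d) (y - w) * |tf m u y| ≤ C * (m : ℝ) ^ 2)

/-- energy regularity (from helper26, part Rg) -/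
def StReg : Prop := ∀ (d : ℕ) (C₁ B c₀ CL : ℝ), EnvC d C₁ B c₀ CL → ∃ C : ℝ, 0 < C ∧
  ∀ (n : ℕ) (ψ : Zd d → ℝ) (w : Finset (Zd d) → ℝ) (u : Zd d → ℝ) (c a : ℝ), 1 ≤ n → U01 ψ →
    0 ≤ c → 0 ≤ a → (∀ S, 0 ≤ w S ∧ w S ≤ c) →
    (∀ x ∈ Bn d n, u x = eb d n (fun ω => w (cb d n ω x) * ms ψ (cb d n ω x))) →
    (∀ x ∈ Bn d n, |u x| ≤ a) → ∀ z : Zd d,
      ∑ x ∈ Bn d n, ind (x + z ∈ Bn d n) * (u (x + z) - u x) ^ 2 ≤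
        C * (1 + (nrm z : ℝ)) ^ 2 * (c * ∑ x ∈ Bn d n, ψ x * u x + a ^ 2 * (n : ℝ) ^ (d - 1))

/-- local regularity of `G ψ` -/
def StGrad : Prop := ∀ (d : ℕ) (C₁ B c₀ CL : ℝ), EnvC d C₁ B c₀ CL → ∀ (z : Zd d) (ε : ℝ), 0 < ε →
  ∃ n₀ : ℕ, 1 ≤ n₀ ∧ ∀ n : ℕ, n₀ ≤ n → ∀ (θ : ℝ) (ψ : Zd d → ℝ), 0 ≤ θ → θ ≤ 1 → U01 ψ →
    av d n (fun u => ind (u + z ∈ Bn d n) * |yx d n θ ψ (u + z) - yx d n θ ψ u|) ≤ ε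

/-- a kernel with bounded second moment applied to `y` is almost diagonal -/
def StLoc1 : Prop := ∀ (d : ℕ) (C₁ B c₀ CL : ℝ), EnvC d C₁ B c₀ CL → ∀ (K ε : ℝ), 0 < K → 0 < ε →
  ∃ n₀ : ℕ, 1 ≤ n₀ ∧ ∀ n : ℕ, n₀ ≤ n → ∀ (θ : ℝ) (ψ : Zd d → ℝ) (S : Zd d → Zd d → ℝ),
    0 ≤ θ → θ ≤ 1 → U01 ψ → (∀ u ∈ Bn d n, ∑ v ∈ Bn d n, Qw (v - u) * |S u v| ≤ K) →
      av d n (fun u => ∑ v ∈ Bn d n, |S u v| * |yx d n θ ψ v - yx d n θ ψ u|) ≤ ε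

/-- the vertex factor at scale `m` -/
def StVm : Prop := ∀ (d : ℕ) (C₁ B c₀ CL : ℝ), EnvC d C₁ B c₀ CL → ∃ C : ℝ, 0 < C ∧ ∀ m : ℕ, 1 ≤ m →
  ∃ Vm : ℝ, ∀ ε : ℝ, 0 < ε → ∃ n₀ : ℕ, 1 ≤ n₀ ∧ ∀ n : ℕ, n₀ ≤ n → ∀ (θ : ℝ) (ψ : Zd d → ℝ),
    0 ≤ θ → θ ≤ 1 → U01 ψ →
      av d n (fun u => |sx d n θ ψ u / (n : ℝ) ^ 2 - Vm * yx d n θ ψ u|) ≤ C / m + ε

/-- `V` is the vertex factor -/
def isVf (d : ℕ) (V : ℝ) : Prop := ∀ ε : ℝ, 0 < ε → ∃ n₀ : ℕ, 1 ≤ n₀ ∧ ∀ n : ℕ, n₀ ≤ n →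
  ∀ (θ : ℝ) (ψ : Zd d → ℝ), 0 ≤ θ → θ ≤ 1 → U01 ψ →
    av d n (fun u => |sx d n θ ψ u / (n : ℝ) ^ 2 - V * yx d n θ ψ u|) ≤ ε

/-- the vertex factor -/
def StVf : Prop := ∀ (d : ℕ) (C₁ B c₀ CL : ℝ), EnvC d C₁ B c₀ CL → ∃ V : ℝ, isVf d V

end Pool.CL
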