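import Pool.Agent.Helper65.CL.StB

/-!
# Project CL (MP_65faa7), module Bd: few points close to the complement of the box
-/

set_option autoImplicit false

open scoped BigOperators ENNReal Topology
open Pool.LE Pool.NL Filter MeasureTheory

namespace Pool.CL

private theorem mem_Bn' {d n : ℕ} (x : Zd d) : x ∈ Bn d n ↔ ∀ i, 0 ≤ x i ∧ x i < n := by
  simp [Bn, Fintype.mem_piFinset]

private theorem mem_bx' {d R : ℕ} (x : Zd d) : x ∈ bx d R ↔ ∀ i, -(R : ℤ) ≤ x i ∧ x i ≤ R := by
  simp [bx, Fintype.mem_piFinset]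

private theorem deep_iff (d n R : ℕ) (u : Zd d) :
    deep d n R u ↔ ∀ i, (R : ℤ) ≤ u i ∧ u i + R < n := by
  constructor
  · intro h i
    have h1 : (Pi.single i (R : ℤ) : Zd d) ∈ bx d R := by
      rw [mem_bx']
      intro j
      by_cases hj : j = i
      · subst hj; simp
      · simp [Pi.single_apply, hj]
    have h2 : (Pi.single i (-(R : ℤ)) : Zd d) ∈ bx d R := by
      rw [mem_bx']
      intro j
      by_cases hj : j = i
      · subst hj; simp
      · simp [Pi.single_apply, hj]
    have h3 := (mem_Bn' _).1 (h _ h1) i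
    have h4 := (mem_Bn' _).1 (h _ h2) i
    simp only [Pi.add_apply, Pi.single_eq_same] at h3 h4
    constructor
    · linarith [h4.1]
    · linarith [h3.2]
  · intro h y hy
    rw [mem_Bn']
    rw [mem_bx'] at hy
    intro i
    have h1 := h i
    have h2 := hy i
    simp only [Pi.add_apply]
    constructor
    · linarith [h1.1, h2.1]
    · linarith [h1.2, h2.2]

private theorem nrm_mem (d R : ℕ) (z : Zd d) : z ∈ bx d R ↔ nrm z ≤ R := by
  rw [mem_bx', nrm, Finset.sup_le_iff]
  constructor
  · intro h i _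
    have := h i
    omega
  · intro h i
    have := h i (Finset.mem_univ _)
    omega

private theorem strip_card (n R : ℕ) :
    (((Finset.Ico (0 : ℤ) (n : ℤ)).filter (fun a : ℤ => a < (R : ℤ) ∨ (n : ℤ) ≤ a + R)).card) ≤ 2 * R := by
  have hsub : (Finset.Ico (0 : ℤ) (n : ℤ)).filter (fun a : ℤ => a < (R : ℤ) ∨ (n : ℤ) ≤ a + R) ⊆
      Finset.Ico (0 : ℤ) (R : ℤ) ∪ Finset.Ico ((n : ℤ) - R) (n : ℤ) := by
    intro a ha
    rw [Finset.mem_filter, Finset.mem_Ico] at ha
    rw [Finset.mem_union, Finset.mem_Ico, Finset.mem_Ico]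
    rcases ha.2 with h | h
    · left; exact ⟨ha.1.1, h⟩
    · right; exact ⟨by linarith, ha.1.2⟩
  refine (Finset.card_le_card hsub).trans ((Finset.card_union_le _ _).trans ?_)
  rw [Int.card_Ico, Int.card_Ico]
  omega

open Classical in
private theorem bd_card (d n R : ℕ) (hd : 1 ≤ d) :
    (((Bn d n).filter (fun u => ¬ deep d n R u)).card) ≤ d * (2 * R * n ^ (d - 1)) := by
  have hsub : (Bn d n).filter (fun u => ¬ deep d n R u) ⊆
      (Finset.univ : Finset (Fin d)).biUnion (fun i => Fintype.piFinset fun j : Fin d =>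
        if j = i then (Finset.Ico (0 : ℤ) (n : ℤ)).filter (fun a : ℤ => a < (R : ℤ) ∨ (n : ℤ) ≤ a + R)
        else Finset.Ico (0 : ℤ) (n : ℤ)) := by
    intro u hu
    rw [Finset.mem_filter, deep_iff] at hu
    obtain ⟨hu1, hu2⟩ := hu
    push Not at hu2
    obtain ⟨i, hi⟩ := hu2
    rw [mem_Bn'] at hu1
    rw [Finset.mem_biUnion]
    refine ⟨i, Finset.mem_univ _, ?_⟩
    rw [Fintype.mem_piFinset]
    intro j
    by_cases hj : j = i
    · subst hj
      rw [if_pos rfl, Finset.mem_filter, Finset.mem_Ico]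
      refine ⟨hu1 j, ?_⟩
      by_cases h : (R : ℤ) ≤ u j
      · right; exact hi h
      · left; linarith
    · rw [if_neg hj, Finset.mem_Ico]
      exact hu1 j
  refine (Finset.card_le_card hsub).trans (Finset.card_biUnion_le.trans ?_)
  have hone : ∀ i ∈ (Finset.univ : Finset (Fin d)), (Fintype.piFinset fun j : Fin d =>
        if j = i then (Finset.Ico (0 : ℤ) (n : ℤ)).filter (fun a : ℤ => a < (R : ℤ) ∨ (n : ℤ) ≤ a + R)
        else Finset.Ico (0 : ℤ) (n : ℤ)).card ≤ 2 * R * n ^ (d - 1) := by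
    intro i _
    rw [Fintype.card_piFinset, ← Finset.mul_prod_erase Finset.univ _ (Finset.mem_univ i)]
    rw [if_pos rfl]
    refine Nat.mul_le_mul (strip_card n R) ?_
    apply le_of_eq
    rw [Finset.prod_congr rfl (g := fun _ => n)]
    · rw [Finset.prod_const, Finset.card_erase_of_mem (Finset.mem_univ _), Finset.card_univ,
        Fintype.card_fin]
    · intro j hj
      rw [if_neg (Finset.ne_of_mem_erase hj), Int.card_Ico]
      simp
  refine (Finset.sum_le_sum hone).trans ?_
  rw [Finset.sum_const, Finset.card_univ, Fintype.card_fin, smul_eq_mul]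

/-- few points close to the complement of the box -/
theorem hBd : StBd := by
  classical
  intro d hd
  refine ⟨?_, ?_, ?_, ?_, ?_, ?_⟩
  · intro n R _
    have h := bd_card d n R hd
    have h' : (((Bn d n).filter (fun u => ¬ deep d n R u)).card : ℝ) ≤
        ((d * (2 * R * n ^ (d - 1)) : ℕ) : ℝ) := by
      refine le_trans (le_of_eq ?_) (Nat.cast_le.2 h)
      congr!
    refine (le_of_eq ?_).trans (h'.trans (le_of_eq ?_))
    · congr!
    · push_cast; ring
  · intro n R u
    exact deep_iff d n R u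
  · intro R z
    exact nrm_mem d R z
  · intro z w
    rw [nrm, Finset.sup_le_iff]
    intro i hi
    have h1 : (z i).natAbs ≤ nrm z := Finset.le_sup (f := fun i => (z i).natAbs) hi
    have h2 : (w i).natAbs ≤ nrm w := Finset.le_sup (f := fun i => (w i).natAbs) hi
    have h3 := Int.natAbs_add_le (z i) (w i)
    simp only [Pi.add_apply]
    omega
  · intro z
    simp [nrm]
  · intro z
    have hne : (Finset.univ : Finset (Fin d)).Nonempty := ⟨⟨0, hd⟩, Finset.mem_univ _⟩
    obtain ⟨i, hi, he⟩ := Finset.exists_mem_eq_sup Finset.univ hne (fun i => (z i).natAbs)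
    have h1 : nrm z = (z i).natAbs := he
    have h2 : ((nrm z : ℕ) : ℝ) ^ 2 = (z i : ℝ) ^ 2 := by
      rw [h1]
      have : (((z i).natAbs : ℕ) : ℝ) = |(z i : ℝ)| := by
        rw [Nat.cast_natAbs, Int.cast_abs]
      rw [this, sq_abs]
    have h3 : (z i : ℝ) ^ 2 ≤ Pool.LE.sq z := by
      unfold Pool.LE.sq
      exact Finset.single_le_sum (f := fun i => (z i : ℝ) ^ 2) (fun j _ => sq_nonneg _) hi
    unfold Pool.LE.Qw
    rw [h2]
    linarith

end Pool.CL
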