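import Pool.Agent.Helper65.CL.StB
import Pool.Agent.Helper84.LE.M_Transl
import Pool.Agent.Helper84.LE.M_TauDom
import Pool.Agent.Helper84.LE.M_Box

/-! MP_65faa7, project CL: module Tr (translations and monotonicity). -/

set_option autoImplicit false
set_option linter.unusedSectionVars false

open scoped BigOperators ENNReal
open Pool.LE Pool.NL

namespace Pool.CL

theorem tr_ex_mono {V : Type} [DecidableEq V] {E E' : Finset (Sym2 V)} {p : ℝ} (h0 : 0 ≤ p)
    (h1 : p ≤ 1) (f : Finset (Sym2 V) → ℝ) (hE : E ⊆ E')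
    (hf : ∀ ω ω', ω ⊆ ω' → f ω ≤ f ω') : ex E p f ≤ ex E' p f := by
  unfold ex
  rw [← Ex_inter hE p f]
  unfold Ex
  refine Finset.sum_le_sum fun ω _ => ?_
  rw [smul_eq_mul, smul_eq_mul]
  exact mul_le_mul_of_nonneg_left (hf _ _ Finset.inter_subset_left) (wt_nonneg h0 h1 E' ω)

theorem tr_ES {d : ℕ} (S : Finset (Zd d)) (v : Zd d) :
    trE v (ES S) = ES (S.map (Equiv.addLeft v).toEmbedding) := by
  obtain ⟨-, -, -, -, h5, -, -, h8, -⟩ := hBox d
  have hm : ∀ a : Zd d, a ∈ S.map (Equiv.addLeft v).toEmbedding ↔ -v + a ∈ S := by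
    intro a
    rw [Finset.mem_map_equiv]
    rfl
  ext e
  induction e using Sym2.ind with
  | _ a b =>
    rw [mem_trE, h8, h8, hm, hm, ← h5 a b (-v)]

theorem hTr : StTr := by
  intro d p h0 h1
  refine ⟨?_, ?_, ?_, ?_⟩
  · intro E v f
    exact Ex_map (Equiv.addLeft v).toEmbedding E p f
  · intro ω v a b
    exact tsl_con (Equiv.addLeft v) ω a b
  · intro E E' f hE hf
    exact tr_ex_mono h0 h1 f hE hf
  · intro S v
    exact tr_ES S v

end Pool.CL
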