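import Pool.Agent.Helper65.CL.StB

/-!
# Project CL (MP_65faa7): statements, part D (the equation, convergence of the moments)
Paper proof: /team-store/MP_65faa7-v2.md, section D.
-/

set_option autoImplicit false

open scoped BigOperators ENNReal Topology
open Pool.LE Pool.NL Filter MeasureTheory

namespace Pool.CL

/-- `y_θ` is bounded, continuous in `θ` -/
def StY : Prop := ∀ (d : ℕ) (C₁ B c₀ CL : ℝ), EnvC d C₁ B c₀ CL → ∀ (n : ℕ) (ψ : Zd d → ℝ), 1 ≤ n →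
  U01 ψ → (∀ x : Zd d, Continuous (fun s : ℝ => yx d n s ψ x)) ∧
  (∀ (θ : ℝ) (x : Zd d), 0 ≤ θ → θ ≤ 1 → x ∈ Bn d n → 0 ≤ yx d n θ ψ x ∧ yx d n θ ψ x ≤ C₁ ∧
    yx d n θ ψ x = eb d n (fun ω => Real.exp (-(θ * ms ψ (cb d n ω x) / (n : ℝ) ^ 4)) *
      ms ψ (cb d n ω x)) / (n : ℝ) ^ 2)

/-- bounds for `T0` -/
def StT0 : Prop := ∀ (d : ℕ) (C₁ B c₀ CL : ℝ), EnvC d C₁ B c₀ CL → ∀ (n : ℕ) (f g : Zd d → ℝ), 1 ≤ n →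
  (∀ x ∈ Bn d n, |T0 d n f x - T0 d n g x| ≤ T0 d n (fun v => |f v - g v|) x) ∧
  (∀ (M : ℝ), (∀ v ∈ Bn d n, |f v| ≤ M) → ∀ x ∈ Bn d n, |T0 d n f x| ≤ C₁ * M) ∧
  av d n (fun x => |T0 d n f x - T0 d n g x|) ≤ C₁ * av d n (fun x => |f x - g x|)

/-- the approximate equation for `y_θ` -/
def isEq (d : ℕ) (V : ℝ) : Prop := ∀ ε : ℝ, 0 < ε → ∃ n₀ : ℕ, 1 ≤ n₀ ∧ ∀ n : ℕ, n₀ ≤ n →
  ∀ (θ : ℝ) (ψ : Zd d → ℝ), 0 ≤ θ → θ ≤ 1 → U01 ψ →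
    av d n (fun x => |yx d n θ ψ x - T0 d n (fun v => ψ v - V * (yx d n θ ψ v *
      ∫ s in (0 : ℝ)..θ, yx d n s ψ v)) x|) ≤ ε

/-- the exact equation for `y_θ` -/
def StYeq : Prop := ∀ (d : ℕ) (C₁ B c₀ CL : ℝ), EnvC d C₁ B c₀ CL → ∃ n₀ : ℕ, 1 ≤ n₀ ∧ ∀ n : ℕ,
  n₀ ≤ n → ∀ (θ : ℝ) (ψ : Zd d → ℝ), 0 ≤ θ → θ ≤ 1 → U01 ψ → ∀ x ∈ Bn d n,
    (∀ u v, ContinuousOn (fun s : ℝ => Sx d n s ψ ψ u v) (Set.Ici 0)) ∧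
    yx d n θ ψ x = T0 d n (fun u => ψ u - (∫ s in (0 : ℝ)..θ,
      ap (Bn d n) (Sx d n s ψ ψ) (yx d n θ ψ) u) / (n : ℝ) ^ 2) x

/-- the approximate equation holds with the vertex factor -/
def StD1 : Prop := ∀ (d : ℕ) (C₁ B c₀ CL : ℝ), EnvC d C₁ B c₀ CL → ∀ V : ℝ, isVf d V → isEq d V

/-- the coefficient functions -/
noncomputable def ar (d n : ℕ) (V : ℝ) (ψ : Zd d → ℝ) : ℕ → Zd d → ℝ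
  | 0 => T0 d n ψ
  | r + 1 => fun x => -V * T0 d n (fun v => ∑ i : Fin (r + 1),
      ar d n V ψ i v * ar d n V ψ (r - i) v / (((r - i : ℕ) : ℝ) + 1)) x

/-- bound for the coefficient functions -/
def StAr : Prop := ∀ (d : ℕ) (C₁ B c₀ CL : ℝ), EnvC d C₁ B c₀ CL → ∀ (n : ℕ) (V : ℝ) (ψ : Zd d → ℝ),
  1 ≤ n → U01 ψ → ∀ (r : ℕ), ∀ x ∈ Bn d n, |ar d n V ψ r x| ≤ C₁ * (4 * |V| * C₁ ^ 2) ^ r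

/-- the polynomial in `θ` given by the coefficient functions -/
noncomputable def arp (d n : ℕ) (V : ℝ) (ψ : Zd d → ℝ) (N : ℕ) (θ : ℝ) (x : Zd d) : ℝ :=
  ∑ r ∈ Finset.range N, ar d n V ψ r x * θ ^ r

/-- the polynomial solves the equation up to order `N` -/
def StArp : Prop := ∀ (d : ℕ) (C₁ B c₀ CL : ℝ), EnvC d C₁ B c₀ CL → ∀ V : ℝ, ∃ K : ℝ, 1 ≤ K ∧
  ∀ (n N : ℕ) (θ : ℝ) (ψ : Zd d → ℝ), 1 ≤ n → 1 ≤ N → 0 ≤ θ → K * θ ≤ 1 / 2 → U01 ψ → ∀ x ∈ Bn d n,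
    |arp d n V ψ N θ x| ≤ K ∧
    |arp d n V ψ N θ x - T0 d n (fun v => ψ v - V * (arp d n V ψ N θ v *
      ∫ s in (0 : ℝ)..θ, arp d n V ψ N s v)) x| ≤ K * (K * θ) ^ N

/-- comparison of `y_θ` with the polynomial -/
def StCmp : Prop := ∀ (d : ℕ) (C₁ B c₀ CL : ℝ), EnvC d C₁ B c₀ CL → ∀ V : ℝ, isEq d V →
  ∃ K : ℝ, 1 ≤ K ∧ ∀ N : ℕ, 1 ≤ N → ∀ ε : ℝ, 0 < ε → ∃ n₀ : ℕ, 1 ≤ n₀ ∧ ∀ n : ℕ, n₀ ≤ n →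
    ∀ (θ : ℝ) (ψ : Zd d → ℝ), 0 ≤ θ → K * θ ≤ 1 → U01 ψ →
      av d n (fun x => |yx d n θ ψ x - arp d n V ψ N θ x|) ≤ K * (K * θ) ^ N + ε

/-- moments of `ψ(C)` and the expansion of the average of `ψ y_θ` -/
def StMom : Prop := ∀ (d : ℕ) (C₁ B c₀ CL : ℝ), EnvC d C₁ B c₀ CL → ∃ K : ℝ, 1 ≤ K ∧
  ∀ (n : ℕ) (ψ : Zd d → ℝ), 1 ≤ n → U01 ψ → (∀ r : ℕ, 0 ≤ cr d n r ψ ∧ cr d n r ψ ≤ K ^ (r + 1)) ∧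
    (∀ (x : Zd d) (r : ℕ), x ∈ Bn d n → eb d n (fun ω => (ms ψ (cb d n ω x)) ^ (r + 1)) ≤
      K ^ (r + 1) * ((n : ℝ) ^ (2 + 4 * r) * (r.factorial : ℝ))) ∧
    (∀ (N : ℕ) (θ : ℝ), 0 ≤ θ → θ ≤ 1 →
      |av d n (fun x => ψ x * yx d n θ ψ x) - ∑ r ∈ Finset.range N, (-θ) ^ r * cr d n r ψ| ≤
        K * (K * θ) ^ N)

/-- a sequence of polynomials which is small near `0` has small coefficients -/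
def StPol : Prop := ∀ (b : ℕ → ℕ → ℝ) (K : ℝ), 1 ≤ K → (∀ r n, |b r n| ≤ K ^ (r + 1)) →
  (∀ N : ℕ, 1 ≤ N → ∀ ε : ℝ, 0 < ε → ∃ n₀ : ℕ, ∀ n : ℕ, n₀ ≤ n → ∀ θ : ℝ, 0 ≤ θ → K * θ ≤ 1 →
    |∑ r ∈ Finset.range N, θ ^ r * b r n| ≤ K * (K * θ) ^ N + ε) →
      ∀ r : ℕ, Tendsto (b r) atTop (𝓝 0)

/-- the moments are asymptotically given by the coefficient functions -/
def StCoe : Prop := ∀ (d : ℕ) (C₁ B c₀ CL : ℝ), EnvC d C₁ B c₀ CL → ∀ V : ℝ, isEq d V →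
  ∀ ψ : ℕ → Zd d → ℝ, (∀ n, U01 (ψ n)) → ∀ r : ℕ,
    Tendsto (fun n : ℕ => (-1) ^ r * cr d n r (ψ n) -
      av d n (fun x => ψ n x * ar d n V (ψ n) r x)) atTop (𝓝 0)

/-- closure properties of the class `CC` (from helper26) -/
def StCC : Prop := ∀ (d : ℕ) (C₁ B c₀ CL : ℝ), EnvC d C₁ B c₀ CL →
  (∀ c : ℝ, CC d (fun _ _ => c)) ∧
  (∀ f g : ℕ → Zd d → ℝ, CC d f → CC d g → CC d (fun n x => f n x + g n x)) ∧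
  (∀ f g : ℕ → Zd d → ℝ, CC d f → CC d g → CC d (fun n x => f n x * g n x)) ∧
  (∀ f : ℕ → Zd d → ℝ, CC d f → CC d (fun n => T0 d n (f n))) ∧
  (∀ f : ℕ → Zd d → ℝ, CC d f → ∃ c : ℝ, Tendsto (fun n : ℕ => av d n (f n)) atTop (𝓝 c))

/-- the coefficient functions are in the class `CC` -/
def StArC : Prop := ∀ (d : ℕ) (C₁ B c₀ CL : ℝ), EnvC d C₁ B c₀ CL → ∀ (V : ℝ) (ψ : ℕ → Zd d → ℝ),
  CC d ψ → ∀ r : ℕ, CC d (fun n => ar d n V (ψ n) r)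

/-- convergence of the moments -/
def StCrLim : Prop := ∀ (d : ℕ) (C₁ B c₀ CL : ℝ), EnvC d C₁ B c₀ CL → ∀ ψ : ℕ → Zd d → ℝ,
  (∀ n, U01 (ψ n)) → CC d ψ → ∀ r : ℕ, ∃ c : ℝ, Tendsto (fun n : ℕ => cr d n r (ψ n)) atTop (𝓝 c)

end Pool.CL
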