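import Pool.Agent.Helper65.CL.StB

/-!
# Project CL (MP_65faa7): module A1w
Mass of the two-point function in a translated box.
-/

set_option autoImplicit false

open scoped BigOperators ENNReal Topology
open Pool.LE Pool.NL Filter MeasureTheory

namespace Pool.CL

theorem a1w_cp (hBasic : StBasic) {V : Type} [DecidableEq V] (E : Finset (Sym2 V)) (p : ℝ)
    (h0 : 0 ≤ p) (h1 : p ≤ 1) (a b : V) :
    0 ≤ cp E p a b ∧ Pr E p (fun ω => con ω a b) = ENNReal.ofReal (cp E p a b) := by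
  obtain ⟨-, -, -, -, -, -, h, -⟩ := hBasic V E p h0 h1
  obtain ⟨h2, -, h4, -⟩ := h (fun ω => con ω a b)
  exact ⟨h2, h4⟩

theorem a1w_le (hBasic : StBasic) (hTD : StTauDom) (hTB : StTauBasic) (d : ℕ)
    (E : Finset (Sym2 (Zd d))) (hE : (E : Set (Sym2 (Zd d))) ⊆ latE d) (p : ℝ)
    (h0 : 0 ≤ p) (h1 : p ≤ 1) (a b : Zd d) : cp E p a b ≤ tau d p (b - a) := by
  have h := hTD d p E a b h0 h1 hE
  rw [(a1w_cp hBasic E p h0 h1 a b).2, ← (hTB d p h0 h1).2.2.2.1 (b - a)] at h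
  exact (ENNReal.ofReal_le_ofReal_iff ((hTB d p h0 h1).2.2.2.2 (b - a)).1).1 h

theorem a1w_con {V : Type} [DecidableEq V] (ω ω' : Finset (Sym2 V)) (h : ω ⊆ ω') (a b : V)
    (hc : con ω a b) : con ω' a b := by
  refine SimpleGraph.Reachable.mono ?_ hc
  exact SimpleGraph.fromEdgeSet_mono (by exact_mod_cast h)

theorem a1w_mono (hTr : StTr) (d : ℕ) (E E' : Finset (Sym2 (Zd d))) (hs : E ⊆ E') (p : ℝ)
    (h0 : 0 ≤ p) (h1 : p ≤ 1) (a b : Zd d) : cp E p a b ≤ cp E' p a b := by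
  refine (hTr d p h0 h1).2.2.1 E E' (fun ω => ind (con ω a b)) hs ?_
  intro ω ω' hω
  unfold ind
  by_cases hc : con ω a b
  · rw [if_pos hc, if_pos (a1w_con ω ω' hω a b hc)]
  · rw [if_neg hc]
    split_ifs <;> norm_num

/-- the connection probabilities in large boxes converge -/
theorem a1w_lim (hTr : StTr) (hBox : StBox) (hBasic : StBasic) (hTD : StTauDom)
    (hTB : StTauBasic) (hT : StTransl) (d : ℕ) (p : ℝ) (h0 : 0 ≤ p) (h1 : p ≤ 1) (a b : Zd d) :
    Tendsto (fun R : ℕ => cp (Eb d R) p a b) atTop (𝓝 (tau d p (b - a))) := by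
  obtain ⟨-, -, -, -, -, -, -, -, hlat, hEb, hfin, -⟩ := hBox d
  rw [tendsto_order]
  constructor
  · intro c hc
    by_cases hc0 : c < 0
    · exact Eventually.of_forall fun R =>
        lt_of_lt_of_le hc0 (a1w_cp hBasic (Eb d R) p h0 h1 a b).1
    · have hc1 : ENNReal.ofReal c < tauE d p (b - a) := by
        rw [← (hTB d p h0 h1).2.2.2.1 (b - a)]
        exact (ENNReal.ofReal_lt_ofReal_iff_of_nonneg (not_lt.1 hc0)).2 hc
      unfold tauE at hc1
      obtain ⟨R₀, hR₀⟩ := lt_iSup_iff.1 hc1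
      rw [(a1w_cp hBasic (Eb d R₀) p h0 h1 0 (b - a)).2,
        ENNReal.ofReal_lt_ofReal_iff_of_nonneg (not_lt.1 hc0)] at hR₀
      have h5 : cp (trE a (Eb d R₀)) p a b = cp (Eb d R₀) p 0 (b - a) := by
        have h6 := (hT d p (Eb d R₀) a 0 (b - a)).2
        rw [add_zero, add_sub_cancel, (a1w_cp hBasic _ p h0 h1 _ _).2,
          (a1w_cp hBasic _ p h0 h1 _ _).2] at h6
        exact (ENNReal.ofReal_eq_ofReal_iff (a1w_cp hBasic _ p h0 h1 _ _).1
          (a1w_cp hBasic _ p h0 h1 _ _).1).1 h6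
      obtain ⟨R₁, hR₁⟩ := hfin (trE a (Eb d R₀)) (by
        unfold Eb
        rw [(hTr d p h0 h1).2.2.2]
        exact hlat _)
      filter_upwards [eventually_ge_atTop R₁] with R hR
      calc c < cp (Eb d R₀) p 0 (b - a) := hR₀
        _ = cp (trE a (Eb d R₀)) p a b := h5.symm
        _ ≤ cp (Eb d R) p a b :=
          a1w_mono hTr d _ _ (hR₁.trans (hEb R₁ R hR)) p h0 h1 a b
  · intro c hc
    exact Eventually.of_forall fun R =>
      lt_of_le_of_lt (a1w_le hBasic hTD hTB d _ (hlat _) p h0 h1 a b) hc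

/-- Cauchy-Schwarz for positive definite kernels -/
theorem a1w_cs {V : Type} [DecidableEq V] (L : Finset V) (S : V → V → ℝ) (h : PD L S)
    (f g : V → ℝ) : (∑ u ∈ L, ∑ v ∈ L, f u * S u v * g v) ^ 2 ≤
      (∑ u ∈ L, ∑ v ∈ L, f u * S u v * f v) * (∑ u ∈ L, ∑ v ∈ L, g u * S u v * g v) := by
  have hnn : ∀ f : V → ℝ, 0 ≤ ∑ u ∈ L, ∑ v ∈ L, f u * S u v * f v := by
    intro f
    by_cases hf : ∃ u ∈ L, f u ≠ 0
    · exact (h.pos f hf).le
    · push Not at hf
      refine le_of_eq (Eq.symm (Finset.sum_eq_zero fun u hu => Finset.sum_eq_zero fun v _ => ?_))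
      rw [hf u hu]; ring
  have hsym : ∑ u ∈ L, ∑ v ∈ L, g u * S u v * f v = ∑ u ∈ L, ∑ v ∈ L, f u * S u v * g v := by
    rw [Finset.sum_comm]
    refine Finset.sum_congr rfl fun u hu => Finset.sum_congr rfl fun v hv => ?_
    rw [h.symm v hv u hu]; ring
  have hq : ∀ t : ℝ, 0 ≤ (∑ u ∈ L, ∑ v ∈ L, g u * S u v * g v) * (t * t) +
      (2 * ∑ u ∈ L, ∑ v ∈ L, f u * S u v * g v) * t +
      (∑ u ∈ L, ∑ v ∈ L, f u * S u v * f v) := by
    intro t
    have h1 := hnn (fun u => f u + t * g u)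
    have h2 : ∑ u ∈ L, ∑ v ∈ L, (f u + t * g u) * S u v * (f v + t * g v) =
        (∑ u ∈ L, ∑ v ∈ L, f u * S u v * f v) + t * (∑ u ∈ L, ∑ v ∈ L, f u * S u v * g v) +
        t * (∑ u ∈ L, ∑ v ∈ L, g u * S u v * f v) +
        (t * t) * (∑ u ∈ L, ∑ v ∈ L, g u * S u v * g v) := by
      simp only [Finset.mul_sum, ← Finset.sum_add_distrib]
      refine Finset.sum_congr rfl fun u _ => Finset.sum_congr rfl fun v _ => ?_
      ring
    rw [h2, hsym] at h1
    linarith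
  have h3 := discrim_le_zero hq
  unfold discrim at h3
  nlinarith

theorem a1w_sub {V : Type} [DecidableEq V] (L A B : Finset V) (hA : A ⊆ L) (hB : B ⊆ L)
    (S : V → V → ℝ) :
    (∑ u ∈ L, ∑ v ∈ L, (if u ∈ A then (1 : ℝ) else 0) * S u v * (if v ∈ B then (1 : ℝ) else 0)) =
      ∑ u ∈ A, ∑ v ∈ B, S u v := by
  rw [← Finset.sum_subset hA]
  · refine Finset.sum_congr rfl fun u hu => ?_
    rw [← Finset.sum_subset hB]
    · refine Finset.sum_congr rfl fun v hv => ?_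
      rw [if_pos hu, if_pos hv]; ring
    · intro v _ hv
      rw [if_neg hv]; ring
  · intro u _ hu
    refine Finset.sum_eq_zero fun v _ => ?_
    rw [if_neg hu]; ring

/-- boxes are finite graphs -/
theorem a1w_FG (hBox : StBox) (d : ℕ) (S : Finset (Zd d)) : FG S (ES S) (ES S).card := by
  obtain ⟨-, -, -, -, -, -, -, hES, -, -, -, -, hsq⟩ := hBox d
  refine ⟨?_, ?_, ?_⟩
  · intro e he v hv
    induction e using Sym2.ind with
    | _ x b =>
      obtain ⟨h1, h2, -⟩ := (hES S x b).1 he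
      rcases Sym2.mem_iff.1 hv with h | h
      · rw [h]; exact h1
      · rw [h]; exact h2
  · intro e he hd
    induction e using Sym2.ind with
    | _ x b =>
      obtain ⟨-, -, h3⟩ := (hES S x b).1 he
      have h4 := hsq x b h3
      have h5 : x = b := by simpa using hd
      rw [h5] at h4
      simp [Pool.LE.sq] at h4
  · intro v _
    exact Finset.card_filter_le _ _

theorem a1w_GK {V : Type} [DecidableEq V] (L : Finset V) (E : Finset (Sym2 V)) (p : ℝ) (u v : V) :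
    GK L E p (fun _ => 1) u v = cp E p u v := by
  unfold GK cp pr ex rp
  simp

/-- the mixed sum over two finite sets -/
theorem a1w_mix (hPD : StPD) (hBox : StBox) (d R : ℕ) (p : ℝ) (h0 : 0 ≤ p) (h1 : p < 1)
    (A B : Finset (Zd d)) (hA : A ⊆ bx d R) (hB : B ⊆ bx d R) :
    (∑ a ∈ A, ∑ b ∈ B, cp (Eb d R) p a b) ^ 2 ≤
      (∑ a ∈ A, ∑ b ∈ A, cp (Eb d R) p a b) * (∑ a ∈ B, ∑ b ∈ B, cp (Eb d R) p a b) := by
  have h := (hPD (Zd d) (bx d R) (Eb d R) (Eb d R).card p (fun _ => 1) (a1w_FG hBox d (bx d R))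
    h0 h1 (fun _ => ⟨one_pos, le_refl _⟩)).1
  have h2 := a1w_cs (bx d R) _ h (fun u => if u ∈ A then (1 : ℝ) else 0)
    (fun u => if u ∈ B then (1 : ℝ) else 0)
  simp only [a1w_GK] at h2
  rw [a1w_sub _ _ _ hA hB, a1w_sub _ _ _ hA hA, a1w_sub _ _ _ hB hB] at h2
  exact h2

/-- counting pairs with a given difference -/
theorem a1w_count (hBn : StBn) (hBox : StBox) (d m : ℕ) (F : Zd d → ℝ) (hF : ∀ z, 0 ≤ F z) :
    (m : ℝ) ^ d * ∑ y ∈ bx d m, F y ≤ ∑ a ∈ Bn d (2 * m), ∑ b ∈ Bn d (2 * m), F (b - a) := by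
  have hmem := (hBn d m).2.2.2.1
  have hmem2 := (hBn d (2 * m)).2.2.2.1
  have hcard := (hBn d m).2.1
  have hbx := (hBox d).2.1 m
  have h1 : (m : ℝ) ^ d * ∑ y ∈ bx d m, F y = ∑ q ∈ Bn d m ×ˢ bx d m, F q.2 := by
    rw [Finset.sum_product]
    simp only [Finset.sum_const, hcard, nsmul_eq_mul]
    push_cast
    ring
  have hinj : Set.InjOn (fun q : Zd d × Zd d => ((q.1 + fun i => max 0 (-(q.2 i)) : Zd d),
      (q.1 + (fun i => max 0 (-(q.2 i))) + q.2 : Zd d))) (Bn d m ×ˢ bx d m : Finset _) := by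
    rintro ⟨a, y⟩ _ ⟨a', y'⟩ _ h
    simp only [Prod.mk.injEq] at h
    obtain ⟨h2, h3⟩ := h
    rw [h2] at h3
    have h4 : y = y' := add_left_cancel h3
    subst h4
    have h5 : a = a' := add_right_cancel h2
    rw [h5]
  rw [h1, ← Finset.sum_product' (f := fun a b => F (b - a))]
  have h6 : ∑ q ∈ Bn d m ×ˢ bx d m, F q.2 = ∑ r ∈ (Bn d m ×ˢ bx d m).image
      (fun q : Zd d × Zd d => ((q.1 + fun i => max 0 (-(q.2 i)) : Zd d),
      (q.1 + (fun i => max 0 (-(q.2 i))) + q.2 : Zd d))), F (r.2 - r.1) := by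
    rw [Finset.sum_image hinj]
    refine Finset.sum_congr rfl fun q _ => ?_
    simp only [add_sub_cancel_left]
  rw [h6]
  refine Finset.sum_le_sum_of_subset_of_nonneg ?_ fun r _ _ => hF _
  intro r hr
  obtain ⟨⟨a, y⟩, hq, rfl⟩ := Finset.mem_image.1 hr
  obtain ⟨ha, hy⟩ := Finset.mem_product.1 hq
  rw [hmem] at ha
  rw [hbx] at hy
  rw [Finset.mem_product, hmem2, hmem2]
  simp only [Pi.add_apply]
  constructor
  · intro i
    have h7 := ha i
    have h8 := abs_le.1 (hy i)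
    push_cast
    rcases max_cases 0 (-(y i)) with h9 | h9 <;> constructor <;> linarith [h9.1, h7.1, h7.2]
  · intro i
    have h7 := ha i
    have h8 := abs_le.1 (hy i)
    push_cast
    rcases max_cases 0 (-(y i)) with h9 | h9 <;> constructor <;> linarith [h9.1, h7.1, h7.2]

/-- the mass of the two-point function in pairs of points of a box -/
theorem a1w_diag (hBn : StBn) (hBasic : StBasic) (hTD : StTauDom) (hTB : StTauBasic) (d : ℕ)
    (C₁ B c₀ : ℝ) (hE : Env d C₁ B c₀) (E : Finset (Sym2 (Zd d)))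
    (hl : (E : Set (Sym2 (Zd d))) ⊆ latE d) (n : ℕ) (hn : 1 ≤ n) (w : Zd d) :
    ∑ a ∈ Bn d n, ∑ b ∈ Bn d n, cp E (pH d) (a - w) (b - w) ≤
      (n : ℝ) ^ d * (C₁ * (n : ℝ) ^ 2) := by
  have h0 := hE.p0.le
  have h1 : pH d ≤ 1 := hE.p1.trans (by norm_num)
  have hcard := (hBn d n).2.1
  have h2 : ∀ a ∈ Bn d n, ∑ b ∈ Bn d n, cp E (pH d) (a - w) (b - w) ≤ C₁ * (n : ℝ) ^ 2 := by
    intro a ha
    refine le_trans ?_ (hE.A1 n hn)
    calc ∑ b ∈ Bn d n, cp E (pH d) (a - w) (b - w)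
        ≤ ∑ b ∈ Bn d n, tau d (pH d) (b - a) := by
          refine Finset.sum_le_sum fun b _ => ?_
          have h3 := a1w_le hBasic hTD hTB d E hl (pH d) h0 h1 (a - w) (b - w)
          rwa [sub_sub_sub_cancel_right] at h3
      _ = ∑ y ∈ (Bn d n).image (fun b => b - a), tau d (pH d) y := by
          rw [Finset.sum_image]
          intro x _ y _ h
          exact sub_left_injective h
      _ ≤ ∑ y ∈ bx d n, tau d (pH d) y := by
          refine Finset.sum_le_sum_of_subset_of_nonneg ?_ fun y _ _ =>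
            ((hTB d (pH d) h0 h1).2.2.2.2 y).1
          intro y hy
          obtain ⟨b, hb, rfl⟩ := Finset.mem_image.1 hy
          exact (hBn d n).2.2.2.2 a ha b hb
  calc ∑ a ∈ Bn d n, ∑ b ∈ Bn d n, cp E (pH d) (a - w) (b - w)
      ≤ ∑ a ∈ Bn d n, C₁ * (n : ℝ) ^ 2 := Finset.sum_le_sum h2
    _ = (n : ℝ) ^ d * (C₁ * (n : ℝ) ^ 2) := by
        rw [Finset.sum_const, hcard, nsmul_eq_mul]
        push_cast
        ring

theorem hA1w (hPD : StPD) (hTr : StTr) (hBd : StBd) (hBox : StBox) (hBn : StBn)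
    (hBasic : StBasic) (hTD : StTauDom) (hTB : StTauBasic) (hT : StTransl) : StA1w := by
  intro d C₁ B c₀ CL hE
  have hE1 := hE.env
  have hC := hE1.hC
  have h0 := hE1.p0.le
  have h1 : pH d ≤ 1 := hE1.p1.trans (by norm_num)
  have h1' : pH d < 1 := lt_of_le_of_lt hE1.p1 (by norm_num)
  have hd : 1 ≤ d := le_trans (by norm_num) hE1.hd
  have hnrm := (hBd d hd).2.2.1
  refine ⟨2 ^ d * (4 * C₁), ?_, ?_⟩
  · have : (1 : ℝ) ≤ 2 ^ d := one_le_pow₀ (by norm_num)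
    nlinarith
  intro m w hm
  have hm' : (0 : ℝ) < m := by exact_mod_cast hm
  have hτ : ∀ z, 0 ≤ tau d (pH d) z := fun z => ((hTB d (pH d) h0 h1).2.2.2.2 z).1
  -- the bound for the double sum
  have hdouble : ∑ a ∈ Bn d (2 * m), ∑ b ∈ Bn d (2 * m), tau d (pH d) (b - a - w) ≤
      ((2 * m : ℕ) : ℝ) ^ d * (C₁ * ((2 * m : ℕ) : ℝ) ^ 2) := by
    have hlim : Tendsto (fun R : ℕ => ∑ a ∈ Bn d (2 * m), ∑ b ∈ Bn d (2 * m),
        cp (Eb d R) (pH d) a (b - w)) atTop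
        (𝓝 (∑ a ∈ Bn d (2 * m), ∑ b ∈ Bn d (2 * m), tau d (pH d) (b - a - w))) := by
      refine tendsto_finsetSum _ fun a _ => tendsto_finsetSum _ fun b _ => ?_
      have h2 := a1w_lim hTr hBox hBasic hTD hTB hT d (pH d) h0 h1 a (b - w)
      rwa [sub_right_comm] at h2
    refine le_of_tendsto hlim ?_
    have hev : ∀ S : Finset (Zd d), ∀ᶠ R : ℕ in atTop, S ⊆ bx d R := by
      intro S
      have h3 : ∀ᶠ R : ℕ in atTop, ∀ x ∈ S, x ∈ bx d R := by
        rw [Filter.eventually_all_finset]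
        intro x _
        filter_upwards [eventually_ge_atTop (nrm x)] with R hR
        exact (hnrm R x).2 hR
      exact h3
    filter_upwards [hev (Bn d (2 * m)),
      hev ((Bn d (2 * m)).map (Equiv.subRight w).toEmbedding)] with R hR1 hR2
    have h4 := a1w_mix hPD hBox d R (pH d) h0 h1' _ _ hR1 hR2
    simp only [Finset.sum_map, Equiv.coe_toEmbedding, Equiv.subRight_apply] at h4
    have h5 := a1w_diag hBn hBasic hTD hTB d C₁ B c₀ hE1 (Eb d R)
      ((hBox d).2.2.2.2.2.2.2.2.1 _) (2 * m) (by omega) w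
    have h6 := a1w_diag hBn hBasic hTD hTB d C₁ B c₀ hE1 (Eb d R)
      ((hBox d).2.2.2.2.2.2.2.2.1 _) (2 * m) (by omega) 0
    simp only [sub_zero] at h6
    have h7 : 0 ≤ ((2 * m : ℕ) : ℝ) ^ d * (C₁ * ((2 * m : ℕ) : ℝ) ^ 2) := by positivity
    refine le_of_sq_le_sq ?_ h7
    refine h4.trans ?_
    rw [_root_.sq]
    have h8 : 0 ≤ ∑ a ∈ Bn d (2 * m), ∑ b ∈ Bn d (2 * m), cp (Eb d R) (pH d) (a - w) (b - w) :=
      Finset.sum_nonneg fun a _ => Finset.sum_nonneg fun b _ =>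
        (a1w_cp hBasic (Eb d R) (pH d) h0 h1 _ _).1
    exact mul_le_mul h6 h5 h8 h7
  have hcount := a1w_count hBn hBox d m (fun z => tau d (pH d) (z - w)) (fun z => hτ _)
  have h9 := hcount.trans hdouble
  have h10 : ((2 * m : ℕ) : ℝ) ^ d * (C₁ * ((2 * m : ℕ) : ℝ) ^ 2) =
      (m : ℝ) ^ d * (2 ^ d * (4 * C₁) * (m : ℝ) ^ 2) := by
    push_cast
    rw [mul_pow]
    ring
  rw [h10] at h9
  exact le_of_mul_le_mul_left h9 (by positivity)

end Pool.CL
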