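import Pool.Agent.Helper65.CL.StD

/-! # Project CL (MP_65faa7): module Coe (the moments and the coefficient functions) -/

set_option autoImplicit false
set_option linter.unusedSectionVars false

open scoped BigOperators ENNReal Topology
open Pool.LE Pool.NL Filter MeasureTheory

namespace Pool.CL

namespace CoeM

theorem av_zero {d : ℕ} (hd : d ≠ 0) (f : Zd d → ℝ) : av d 0 f = 0 := by
  unfold av
  rw [Nat.cast_zero, zero_pow hd, div_zero]

theorem card_Bn (d n : ℕ) : (Bn d n).card = n ^ d := by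
  unfold Bn
  rw [Fintype.card_piFinset]
  simp

theorem av_abs {d n : ℕ} (hn : 1 ≤ n) {f : Zd d → ℝ} {M : ℝ}
    (h : ∀ x ∈ Bn d n, |f x| ≤ M) : |av d n f| ≤ M := by
  have hn0 : (0 : ℝ) < (n : ℝ) ^ d := by positivity
  unfold av
  rw [abs_div, abs_of_pos hn0, div_le_iff₀ hn0]
  refine (Finset.abs_sum_le_sum_abs _ _).trans ?_
  refine (Finset.sum_le_card_nsmul _ _ _ h).trans ?_
  rw [card_Bn, nsmul_eq_mul, Nat.cast_pow, mul_comm]

theorem av_mono {d n : ℕ} {f g : Zd d → ℝ} (h : ∀ x ∈ Bn d n, f x ≤ g x) :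
    av d n f ≤ av d n g := by
  unfold av
  exact div_le_div_of_nonneg_right (Finset.sum_le_sum h) (by positivity)

theorem av_sub_le {d n : ℕ} {ψ f g : Zd d → ℝ} (hψ : U01 ψ) :
    |av d n (fun x => ψ x * f x) - av d n (fun x => ψ x * g x)| ≤
      av d n (fun x => |f x - g x|) := by
  unfold av
  have hn : (0 : ℝ) ≤ (n : ℝ) ^ d := by positivity
  rw [← sub_div, ← Finset.sum_sub_distrib, abs_div, abs_of_nonneg hn]
  refine div_le_div_of_nonneg_right ?_ (by positivity)
  refine (Finset.abs_sum_le_sum_abs _ _).trans (Finset.sum_le_sum fun x _ => ?_)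
  rw [← mul_sub, abs_mul, abs_of_nonneg (hψ x).1]
  exact mul_le_of_le_one_left (abs_nonneg _) (hψ x).2

theorem av_arp (d n N : ℕ) (V θ : ℝ) (ψ : Zd d → ℝ) :
    av d n (fun x => ψ x * arp d n V ψ N θ x) =
      ∑ r ∈ Finset.range N, θ ^ r * av d n (fun x => ψ x * ar d n V ψ r x) := by
  unfold av arp
  rw [Finset.sum_congr rfl fun x _ => Finset.mul_sum (Finset.range N)
    (fun r => ar d n V ψ r x * θ ^ r) (ψ x), Finset.sum_comm, Finset.sum_div]
  refine Finset.sum_congr rfl fun r _ => ?_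
  rw [mul_div_assoc', Finset.mul_sum]
  congr 1
  exact Finset.sum_congr rfl fun x _ => by ring

end CoeM

open CoeM in
theorem hCoe (_hY : StY) (hAr : StAr) (hCmp : StCmp) (hMom : StMom) (hPol : StPol) : StCoe := by
  intro d C₁ B c₀ CL hE V hV ψ hψ
  have hd : d ≠ 0 := by
    have := hE.env.hd
    omega
  obtain ⟨K₁, hK₁, hC⟩ := hCmp d C₁ B c₀ CL hE V hV
  obtain ⟨K₂, hK₂, hM⟩ := hMom d C₁ B c₀ CL hE
  have hC₁ : 1 ≤ C₁ := hE.env.hC
  have hQ : 0 ≤ 4 * |V| * C₁ ^ 2 := by positivity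
  set K : ℝ := K₁ + K₂ + C₁ + 4 * |V| * C₁ ^ 2 with hK
  have hK1 : 1 ≤ K := by rw [hK]; linarith
  refine hPol (fun r n => (-1) ^ r * cr d n r (ψ n) -
    av d n (fun x => ψ n x * ar d n V (ψ n) r x)) K hK1 ?_ ?_
  · intro r n
    rcases Nat.eq_zero_or_pos n with rfl | hn
    · have h1 : cr d 0 r (ψ 0) = 0 := by
        unfold cr
        rw [av_zero hd, zero_div]
      rw [h1, av_zero hd, mul_zero, sub_zero, abs_zero]
      positivity
    · have h1 : |cr d n r (ψ n)| ≤ K₂ ^ (r + 1) := by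
        rw [abs_of_nonneg ((hM n (ψ n) hn (hψ n)).1 r).1]
        exact ((hM n (ψ n) hn (hψ n)).1 r).2
      have h2 : |av d n (fun x => ψ n x * ar d n V (ψ n) r x)| ≤
          C₁ * (4 * |V| * C₁ ^ 2) ^ r := by
        refine av_abs hn fun x hx => ?_
        rw [abs_mul, abs_of_nonneg (hψ n x).1]
        exact (mul_le_of_le_one_left (abs_nonneg _) (hψ n x).2).trans
          (hAr d C₁ B c₀ CL hE n V (ψ n) hn (hψ n) r x hx)
      have h3 : |(-1 : ℝ) ^ r * cr d n r (ψ n)| ≤ K₂ ^ (r + 1) := by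
        rw [abs_mul, abs_pow, abs_neg, abs_one, one_pow, one_mul]
        exact h1
      have h4 : K₂ ^ r ≤ K ^ r := pow_le_pow_left₀ (by linarith) (by rw [hK]; linarith) r
      have h5 : (4 * |V| * C₁ ^ 2) ^ r ≤ K ^ r := pow_le_pow_left₀ hQ (by rw [hK]; linarith) r
      have h6 : 0 ≤ K ^ r := by positivity
      calc |(-1 : ℝ) ^ r * cr d n r (ψ n) - av d n (fun x => ψ n x * ar d n V (ψ n) r x)|
          ≤ K₂ ^ (r + 1) + C₁ * (4 * |V| * C₁ ^ 2) ^ r := (abs_sub _ _).trans (add_le_add h3 h2)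
        _ ≤ K₂ * K ^ r + C₁ * K ^ r := by
            refine add_le_add ?_ (mul_le_mul_of_nonneg_left h5 (by linarith))
            rw [pow_succ, mul_comm]
            exact mul_le_mul_of_nonneg_left h4 (by linarith)
        _ = (K₂ + C₁) * K ^ r := by ring
        _ ≤ K * K ^ r := mul_le_mul_of_nonneg_right (by rw [hK]; linarith) h6
        _ = K ^ (r + 1) := by rw [pow_succ, mul_comm]
  · intro N hN ε hε
    obtain ⟨n₀, hn₀, h⟩ := hC N hN ε hε
    refine ⟨n₀, fun n hn θ hθ hKθ => ?_⟩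
    have hn1 : 1 ≤ n := hn₀.trans hn
    have hθ1 : θ ≤ 1 := by nlinarith
    have hK₁θ : K₁ * θ ≤ 1 := by
      refine le_trans (mul_le_mul_of_nonneg_right ?_ hθ) hKθ
      rw [hK]; linarith
    have e : ∑ r ∈ Finset.range N, θ ^ r * ((-1) ^ r * cr d n r (ψ n) -
        av d n (fun x => ψ n x * ar d n V (ψ n) r x)) =
        ∑ r ∈ Finset.range N, (-θ) ^ r * cr d n r (ψ n) -
          av d n (fun x => ψ n x * arp d n V (ψ n) N θ x) := by
      rw [av_arp, ← Finset.sum_sub_distrib]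
      refine Finset.sum_congr rfl fun r _ => ?_
      rw [neg_pow θ r]
      ring
    have h1 := (hM n (ψ n) hn1 (hψ n)).2.2 N θ hθ hθ1
    have h2 := (av_sub_le (f := fun x => yx d n θ (ψ n) x)
      (g := fun x => arp d n V (ψ n) N θ x) (n := n) (hψ n)).trans
      (h n hn θ (ψ n) hθ hK₁θ (hψ n))
    have h3 : K₂ * (K₂ * θ) ^ N ≤ K₂ * (K * θ) ^ N := by
      refine mul_le_mul_of_nonneg_left (pow_le_pow_left₀ (by positivity) ?_ N) (by linarith)
      exact mul_le_mul_of_nonneg_right (by rw [hK]; linarith) hθ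
    have h4 : K₁ * (K₁ * θ) ^ N ≤ K₁ * (K * θ) ^ N := by
      refine mul_le_mul_of_nonneg_left (pow_le_pow_left₀ (by positivity) ?_ N) (by linarith)
      exact mul_le_mul_of_nonneg_right (by rw [hK]; linarith) hθ
    have h5 : 0 ≤ (K * θ) ^ N := by positivity
    have h6 : (K₁ + K₂) * (K * θ) ^ N ≤ K * (K * θ) ^ N :=
      mul_le_mul_of_nonneg_right (by rw [hK]; linarith) h5
    show |∑ r ∈ Finset.range N, θ ^ r * ((-1) ^ r * cr d n r (ψ n) -
        av d n (fun x => ψ n x * ar d n V (ψ n) r x))| ≤ K * (K * θ) ^ N + ε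
    rw [e]
    have h7 : |∑ r ∈ Finset.range N, (-θ) ^ r * cr d n r (ψ n) -
        av d n (fun x => ψ n x * arp d n V (ψ n) N θ x)| ≤
        |av d n (fun x => ψ n x * yx d n θ (ψ n) x) -
          ∑ r ∈ Finset.range N, (-θ) ^ r * cr d n r (ψ n)| +
        |av d n (fun x => ψ n x * yx d n θ (ψ n) x) -
          av d n (fun x => ψ n x * arp d n V (ψ n) N θ x)| := by
      rw [abs_sub_comm (av d n (fun x => ψ n x * yx d n θ (ψ n) x))
        (∑ r ∈ Finset.range N, (-θ) ^ r * cr d n r (ψ n))]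
      exact abs_sub_le _ _ _
    refine h7.trans ((add_le_add h1 h2).trans ?_)
    linarith

end Pool.CL

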