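import Pool.Agent.Helper65.CL.StD

/-!
# Project CL (MP_65faa7): statements, part E (environment, final statements)
-/

set_option autoImplicit false

open scoped BigOperators ENNReal Topology
open Pool.LE Pool.NL Filter MeasureTheory

namespace Pool.CL

/-- the weighted lace expansion (helper69) -/
def StLTd : Prop := ∃ d₁ : ℕ, ∀ d : ℕ, d₁ ≤ d → ∃ CL : ℝ, 1 ≤ CL ∧ LTb d CL

/-- the environment exists -/
def StEnvC : Prop := ∃ d₀ : ℕ, ∀ d : ℕ, d₀ ≤ d → ∃ C₁ B c₀ CL : ℝ, EnvC d C₁ B c₀ CL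

/-- the largest zero-boundary cluster in the box (helper22, from `StCrLim`, `StMom`, `StReg`) -/
def StZbox : Prop := ∀ (d : ℕ) (C₁ B c₀ CL : ℝ), EnvC d C₁ B c₀ CL → ∃ a : ℝ, 0 < a ∧
  ∀ ε : ℝ, 0 < ε →
    Tendsto (fun n : ℕ => pB d n (pH d) (fun ω => ∀ x ∈ Bn d n,
      (XB d n ω x : ℝ) ≤ (a + ε) * (n : ℝ) ^ 4 * Real.log n)) atTop (𝓝 1) ∧
    Tendsto (fun n : ℕ => pB d n (pH d) (fun ω => ∃ x ∈ Bn d n,
      (a - ε) * (n : ℝ) ^ 4 * Real.log n ≤ XB d n ω x)) atTop (𝓝 1)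

/-- the limit of the largest zero-boundary cluster -/
def StZfin : Prop := ∃ d₀ : ℕ, ∀ d : ℕ, d₀ ≤ d → ∃ a : ℝ, 0 < a ∧ ∀ ε : ℝ, 0 < ε →
  Tendsto (fun n : ℕ => PU d {ω | |(maxZ d n (pcU d) ω : ℝ) / ((n : ℝ) ^ 4 * Real.log n) - a| < ε})
    atTop (𝓝 1)

end Pool.CL
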