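import Pool.Agent.Helper65.CL.StD

/-!
# Project CL (MP_65faa7): module Ar, the bound for the coefficient functions
-/

set_option autoImplicit false

open scoped BigOperators ENNReal Topology
open Pool.LE Pool.NL Filter MeasureTheory

namespace Pool.CL

/-- Bound of the coefficient functions by Catalan numbers. -/
theorem ar_catalan (hT0 : StT0) (d : ℕ) (C₁ B c₀ CL : ℝ) (h : EnvC d C₁ B c₀ CL) (n : ℕ) (V : ℝ)
    (ψ : Zd d → ℝ) (hn : 1 ≤ n) (hψ : U01 ψ) : ∀ r : ℕ, ∀ x ∈ Bn d n,
    |ar d n V ψ r x| ≤ C₁ * (|V| * C₁ ^ 2) ^ r * (catalan r : ℝ) := by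
  have hC : 1 ≤ C₁ := h.env.hC
  have hC0 : 0 ≤ C₁ := by linarith
  intro r
  induction r using Nat.strong_induction_on with
  | _ r ih =>
    intro x hx
    cases r with
    | zero =>
      have h1 := (hT0 d C₁ B c₀ CL h n ψ ψ hn).2.1 1 (fun v _ => by
        rw [abs_of_nonneg (hψ v).1]; exact (hψ v).2) x hx
      have h2 : ar d n V ψ 0 x = T0 d n ψ x := by rw [ar]
      rw [h2]
      simpa using h1
    | succ r =>
      have hrec : ar d n V ψ (r + 1) x = -V * T0 d n (fun v => ∑ i : Fin (r + 1),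
          ar d n V ψ i v * ar d n V ψ (r - i) v / (((r - i : ℕ) : ℝ) + 1)) x := by
        rw [ar]
      have hM : ∀ v ∈ Bn d n, |∑ i : Fin (r + 1),
          ar d n V ψ i v * ar d n V ψ (r - i) v / (((r - i : ℕ) : ℝ) + 1)| ≤
          C₁ ^ 2 * (|V| * C₁ ^ 2) ^ r * (catalan (r + 1) : ℝ) := by
        intro v hv
        refine (Finset.abs_sum_le_sum_abs _ _).trans ?_
        rw [catalan_succ]
        push_cast
        rw [Finset.mul_sum]
        refine Finset.sum_le_sum fun i _ => ?_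
        have hi : (i : ℕ) ≤ r := Nat.lt_succ_iff.mp i.2
        have e1 := ih i (by omega) v hv
        have e2 := ih (r - i) (by omega) v hv
        have h0 : 0 ≤ |V| * C₁ ^ 2 := by positivity
        rw [abs_div, abs_mul, abs_of_pos (by positivity : (0 : ℝ) < ((r - i : ℕ) : ℝ) + 1)]
        refine (div_le_self (by positivity) (by
          have : (0 : ℝ) ≤ ((r - i : ℕ) : ℝ) := Nat.cast_nonneg _
          linarith)).trans ?_
        refine (mul_le_mul e1 e2 (abs_nonneg _) (by positivity)).trans (le_of_eq ?_)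
        have hp : (|V| * C₁ ^ 2) ^ r = (|V| * C₁ ^ 2) ^ (i : ℕ) * (|V| * C₁ ^ 2) ^ (r - i) := by
          rw [← pow_add]; congr 1; omega
        rw [hp]
        ring
      have h1 := (hT0 d C₁ B c₀ CL h n _ (fun _ => 0) hn).2.1 _ hM x hx
      rw [hrec, abs_mul, abs_neg]
      refine (mul_le_mul_of_nonneg_left h1 (abs_nonneg V)).trans (le_of_eq ?_)
      ring

theorem catalan_le_four_pow (r : ℕ) : catalan r ≤ 4 ^ r := by
  rw [catalan_eq_centralBinom_div]
  exact (Nat.div_le_self _ _).trans (Nat.centralBinom_le_four_pow r)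

theorem hAr (hT0 : StT0) : StAr := by
  intro d C₁ B c₀ CL h n V ψ hn hψ r x hx
  have hC : 1 ≤ C₁ := h.env.hC
  have h1 := ar_catalan hT0 d C₁ B c₀ CL h n V ψ hn hψ r x hx
  refine h1.trans ?_
  have h2 : (catalan r : ℝ) ≤ 4 ^ r := by exact_mod_cast catalan_le_four_pow r
  have h3 : (0 : ℝ) ≤ C₁ * (|V| * C₁ ^ 2) ^ r := by positivity
  refine (mul_le_mul_of_nonneg_left h2 h3).trans (le_of_eq ?_)
  rw [mul_assoc C₁, ← mul_pow]
  congr 2
  ring

end Pool.CL
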