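import Pool.Agent.Helper65.CL.StD

/-!
# Project CL (MP_65faa7), module ArC: the coefficient functions are in the class `CC`
-/

set_option autoImplicit false

open scoped BigOperators ENNReal Topology
open Pool.LE Pool.NL Filter MeasureTheory

namespace Pool.CL

theorem hArC (hCC : StCC) : StArC := by
  intro d C₁ B c₀ CL hE V ψ hψ
  obtain ⟨c1, c2, c3, c4, -⟩ := hCC d C₁ B c₀ CL hE
  have hsum : ∀ (ι : Type) (s : Finset ι) (f : ι → ℕ → Zd d → ℝ), (∀ i ∈ s, CC d (f i)) →
      CC d (fun n x => ∑ i ∈ s, f i n x) := by
    intro ι s f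
    classical
    induction s using Finset.induction_on with
    | empty =>
      intro _
      simpa using c1 0
    | insert a s ha ih =>
      intro hf
      have h1 := c2 (f a) (fun n x => ∑ i ∈ s, f i n x) (hf a (Finset.mem_insert_self a s))
        (ih fun i hi => hf i (Finset.mem_insert_of_mem hi))
      have h2 : (fun n x => ∑ i ∈ insert a s, f i n x) =
          fun (n : ℕ) (x : Zd d) => f a n x + ∑ i ∈ s, f i n x := by
        funext n x
        rw [Finset.sum_insert ha]
      rw [h2]
      exact h1
  intro r
  induction r using Nat.strong_induction_on with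
  | _ r ih =>
    cases r with
    | zero =>
      have h : (fun n => ar d n V (ψ n) 0) = fun n => T0 d n (ψ n) := by
        funext n
        rw [ar]
      rw [h]
      exact c4 ψ hψ
    | succ r =>
      set g : ℕ → Zd d → ℝ := fun n v => ∑ i : Fin (r + 1),
        ar d n V (ψ n) i v * ar d n V (ψ n) (r - i) v / (((r - i : ℕ) : ℝ) + 1) with hg
      have h : (fun n => ar d n V (ψ n) (r + 1)) = fun n x => -V * T0 d n (g n) x := by
        funext n x
        rw [ar]
      rw [h]
      have hgC : CC d g := by
        rw [hg]
        refine hsum (Fin (r + 1)) Finset.univ (fun i n v =>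
          ar d n V (ψ n) i v * ar d n V (ψ n) (r - i) v / (((r - i : ℕ) : ℝ) + 1)) fun i _ => ?_
        have h1 := c3 _ _ (ih (i : ℕ) i.2) (ih (r - i) (by omega))
        have h2 := c3 _ _ h1 (c1 (((r - i : ℕ) : ℝ) + 1)⁻¹)
        exact h2
      exact c3 _ _ (c1 (-V)) (c4 g hgC)

end Pool.CL
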