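import Pool.Agent.Helper65.CL.StD

/-!
# Project CL (MP_65faa7): module Arp, the polynomial solves the equation up to order `N`
-/

set_option autoImplicit false

open scoped BigOperators ENNReal Topology
open Pool.LE Pool.NL Filter MeasureTheory

namespace Pool.CL

namespace ArpAux

/-- the terms of high order -/
noncomputable def hi (a : ℕ → ℝ) (M : ℕ) (θ : ℝ) : ℝ :=
  ∑ q ∈ (Finset.range (M + 1) ×ˢ Finset.range (M + 1)).filter (fun q => ¬ (q.1 + q.2 < M)),
    a q.1 * a q.2 * θ ^ (q.1 + q.2 + 1) / ((q.2 : ℝ) + 1)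

/-- the coefficients of the product -/
noncomputable def bb (a : ℕ → ℝ) (r : ℕ) : ℝ :=
  ∑ i : Fin (r + 1), a i * a (r - i) / (((r - i : ℕ) : ℝ) + 1)

theorem bb_eq (a : ℕ → ℝ) (r : ℕ) :
    bb a r = ∑ q ∈ Finset.HasAntidiagonal.antidiagonal r, a q.1 * a q.2 / ((q.2 : ℝ) + 1) := by
  rw [Finset.Nat.sum_antidiagonal_eq_sum_range_succ_mk, Finset.sum_range]
  rfl

theorem prod_split (a : ℕ → ℝ) (M : ℕ) (θ : ℝ) :
    (∑ i ∈ Finset.range (M + 1), a i * θ ^ i) *
      (∑ j ∈ Finset.range (M + 1), a j * (θ ^ (j + 1) / ((j : ℝ) + 1))) =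
    (∑ r ∈ Finset.range M, θ ^ (r + 1) * bb a r) + hi a M θ := by
  rw [Finset.sum_mul_sum, ← Finset.sum_product']
  rw [← Finset.sum_filter_add_sum_filter_not (Finset.range (M + 1) ×ˢ Finset.range (M + 1))
    (fun q => q.1 + q.2 < M)]
  congr 1
  · rw [← Finset.sum_fiberwise_of_maps_to (g := fun q : ℕ × ℕ => q.1 + q.2)
      (t := Finset.range M)]
    · refine Finset.sum_congr rfl fun r hr => ?_
      have hr' := Finset.mem_range.mp hr
      rw [bb_eq, Finset.mul_sum]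
      have hset : (Finset.filter (fun q : ℕ × ℕ => q.1 + q.2 = r)
          (Finset.filter (fun q : ℕ × ℕ => q.1 + q.2 < M)
            (Finset.range (M + 1) ×ˢ Finset.range (M + 1)))) = Finset.HasAntidiagonal.antidiagonal r := by
        ext ⟨i, j⟩
        simp only [Finset.mem_filter, Finset.mem_product, Finset.mem_range,
          Finset.HasAntidiagonal.mem_antidiagonal]
        constructor
        · rintro ⟨_, h⟩; exact h
        · intro h; omega
      rw [hset]
      refine Finset.sum_congr rfl fun q hq => ?_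
      have hq' := Finset.HasAntidiagonal.mem_antidiagonal.mp hq
      rw [← hq']
      have : ((q.2 : ℝ) + 1) ≠ 0 := by positivity
      field_simp
      ring
    · intro q hq
      simp only [Finset.mem_filter] at hq
      exact Finset.mem_range.mpr hq.2
  · unfold hi
    refine Finset.sum_congr rfl fun q _ => ?_
    have : ((q.2 : ℝ) + 1) ≠ 0 := by positivity
    field_simp
    ring

theorem hi_le (a : ℕ → ℝ) (M : ℕ) (θ C c : ℝ) (hC : 0 ≤ C) (hc : 1 ≤ c) (hθ : 0 ≤ θ)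
    (hcθ : 2 * (c * θ) ≤ 1) (ha : ∀ r, |a r| ≤ C * c ^ r) :
    |hi a M θ| ≤ 2 * C ^ 2 * (2 * (c * θ)) ^ (M + 1) := by
  unfold hi
  have hc0 : 0 ≤ c := by linarith
  have h0 : 0 ≤ 2 * (c * θ) := by positivity
  refine (Finset.abs_sum_le_sum_abs _ _).trans ?_
  have h1 : ∀ q ∈ (Finset.range (M + 1) ×ˢ Finset.range (M + 1)).filter
      (fun q => ¬ (q.1 + q.2 < M)),
      |a q.1 * a q.2 * θ ^ (q.1 + q.2 + 1) / ((q.2 : ℝ) + 1)| ≤
      C ^ 2 * (2 * (c * θ)) ^ (M + 1) * (1 / 2 * ((1 / 2) ^ q.1 * (1 / 2) ^ q.2)) := by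
    intro q hq
    simp only [Finset.mem_filter] at hq
    have hq2 : M + 1 ≤ q.1 + q.2 + 1 := by omega
    rw [abs_div, abs_mul, abs_mul, abs_of_pos (by positivity : (0 : ℝ) < (q.2 : ℝ) + 1),
      abs_of_nonneg (by positivity : (0 : ℝ) ≤ θ ^ (q.1 + q.2 + 1))]
    refine (div_le_self (by positivity) (by
      have : (0 : ℝ) ≤ (q.2 : ℝ) := Nat.cast_nonneg _
      linarith)).trans ?_
    have e1 : |a q.1| * |a q.2| ≤ (C * c ^ q.1) * (C * c ^ q.2) :=
      mul_le_mul (ha _) (ha _) (abs_nonneg _) (by positivity)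
    have e2 : |a q.1| * |a q.2| * θ ^ (q.1 + q.2 + 1) ≤
        (C * c ^ q.1) * (C * c ^ q.2) * θ ^ (q.1 + q.2 + 1) :=
      mul_le_mul_of_nonneg_right e1 (by positivity)
    refine e2.trans ?_
    have e3 : (C * c ^ q.1) * (C * c ^ q.2) * θ ^ (q.1 + q.2 + 1) ≤
        C ^ 2 * (c * θ) ^ (q.1 + q.2 + 1) := by
      have e4 : C ^ 2 * (c * θ) ^ (q.1 + q.2 + 1) =
          c * ((C * c ^ q.1) * (C * c ^ q.2) * θ ^ (q.1 + q.2 + 1)) := by
        rw [mul_pow, pow_succ c, pow_add c]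
        ring
      rw [e4]
      exact le_mul_of_one_le_left (by positivity) hc
    refine e3.trans ?_
    have e5 : (c * θ) ^ (q.1 + q.2 + 1) =
        (2 * (c * θ)) ^ (q.1 + q.2 + 1) * (1 / 2 * ((1 / 2) ^ q.1 * (1 / 2) ^ q.2)) := by
      have : (1 / 2 * ((1 / 2) ^ q.1 * (1 / 2) ^ q.2) : ℝ) = (1 / 2) ^ (q.1 + q.2 + 1) := by
        rw [pow_succ, pow_add]; ring
      rw [this, ← mul_pow]
      congr 1
      ring
    rw [e5, ← mul_assoc]
    refine mul_le_mul_of_nonneg_right ?_ (by positivity)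
    exact mul_le_mul_of_nonneg_left (pow_le_pow_of_le_one h0 hcθ hq2) (by positivity)
  refine (Finset.sum_le_sum h1).trans ?_
  rw [← Finset.mul_sum]
  have h2 : ∑ q ∈ (Finset.range (M + 1) ×ˢ Finset.range (M + 1)).filter
      (fun q => ¬ (q.1 + q.2 < M)), (1 / 2 * ((1 / 2) ^ q.1 * (1 / 2) ^ q.2) : ℝ) ≤ 2 := by
    refine (Finset.sum_le_sum_of_subset_of_nonneg (Finset.filter_subset _ _)
      (fun _ _ _ => by positivity)).trans ?_
    rw [← Finset.mul_sum, Finset.sum_product' (f := fun i j => ((1 / 2) ^ i * (1 / 2) ^ j : ℝ)),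
      ← Finset.sum_mul_sum]
    have hg := sum_geometric_two_le (M + 1)
    have hg0 : (0 : ℝ) ≤ ∑ i ∈ Finset.range (M + 1), (1 / (2 : ℝ)) ^ i :=
      Finset.sum_nonneg fun _ _ => by positivity
    nlinarith
  have h3 : (0 : ℝ) ≤ C ^ 2 * (2 * (c * θ)) ^ (M + 1) := by positivity
  refine (mul_le_mul_of_nonneg_left h2 h3).trans (le_of_eq (by ring))

theorem T0_congr {d n : ℕ} {f g : Zd d → ℝ} (h : ∀ v ∈ Bn d n, f v = g v) (x : Zd d) :
    T0 d n f x = T0 d n g x := by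
  unfold T0 ap
  congr 1
  exact Finset.sum_congr rfl fun v hv => by rw [h v hv]

theorem T0_sub {d n : ℕ} (f g : Zd d → ℝ) (x : Zd d) :
    T0 d n (fun v => f v - g v) x = T0 d n f x - T0 d n g x := by
  unfold T0 ap
  rw [← sub_div, ← Finset.sum_sub_distrib]
  congr 1
  exact Finset.sum_congr rfl fun v _ => by ring

theorem T0_add {d n : ℕ} (f g : Zd d → ℝ) (x : Zd d) :
    T0 d n (fun v => f v + g v) x = T0 d n f x + T0 d n g x := by
  unfold T0 ap
  rw [← add_div, ← Finset.sum_add_distrib]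
  congr 1
  exact Finset.sum_congr rfl fun v _ => by ring

theorem T0_mul {d n : ℕ} (c : ℝ) (f : Zd d → ℝ) (x : Zd d) :
    T0 d n (fun v => c * f v) x = c * T0 d n f x := by
  unfold T0 ap
  rw [← mul_div_assoc, Finset.mul_sum]
  congr 1
  exact Finset.sum_congr rfl fun v _ => by ring

theorem T0_sum {d n : ℕ} {ι : Type} (s : Finset ι) (f : ι → Zd d → ℝ) (x : Zd d) :
    T0 d n (fun v => ∑ i ∈ s, f i v) x = ∑ i ∈ s, T0 d n (f i) x := by
  unfold T0 ap
  rw [← Finset.sum_div, Finset.sum_comm]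
  congr 1
  exact Finset.sum_congr rfl fun v _ => by rw [Finset.mul_sum]

theorem int_arp (d n : ℕ) (V : ℝ) (ψ : Zd d → ℝ) (N : ℕ) (θ : ℝ) (v : Zd d) :
    ∫ s in (0 : ℝ)..θ, arp d n V ψ N s v =
      ∑ j ∈ Finset.range N, ar d n V ψ j v * (θ ^ (j + 1) / ((j : ℝ) + 1)) := by
  unfold arp
  rw [intervalIntegral.integral_finsetSum]
  · refine Finset.sum_congr rfl fun j _ => ?_
    rw [intervalIntegral.integral_const_mul, integral_pow]
    simp
  · intro j _
    exact (Continuous.intervalIntegrable (by fun_prop) _ _)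

end ArpAux

open ArpAux in
theorem hArp (hT0 : StT0) (hAr : StAr) : StArp := by
  intro d C₁ B c₀ CL h V
  have hC : 1 ≤ C₁ := h.env.hC
  have hC0 : 0 ≤ C₁ := by linarith
  have hV : 0 ≤ |V| := abs_nonneg V
  refine ⟨2 * (4 * |V| * C₁ ^ 2 + 1) + 2 * |V| * C₁ ^ 3 + 2 * C₁, ?_, ?_⟩
  · have h1 : 0 ≤ 4 * |V| * C₁ ^ 2 := by positivity
    have h2 : 0 ≤ 2 * |V| * C₁ ^ 3 := by positivity
    linarith
  intro n N θ ψ hn hN hθ hKθ hψ x hx
  set c : ℝ := 4 * |V| * C₁ ^ 2 + 1 with hcdef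
  set K : ℝ := 2 * c + 2 * |V| * C₁ ^ 3 + 2 * C₁ with hKdef
  have h1 : 0 ≤ 4 * |V| * C₁ ^ 2 := by positivity
  have h2 : 0 ≤ 2 * |V| * C₁ ^ 3 := by positivity
  have hc : 1 ≤ c := by rw [hcdef]; linarith
  have hKc : 2 * c ≤ K := by rw [hKdef]; linarith
  have hKV : 2 * |V| * C₁ ^ 3 ≤ K := by rw [hKdef]; linarith
  have hK1 : 2 * C₁ ≤ K := by rw [hKdef]; linarith
  have hK0 : 0 ≤ K := by linarith
  have hcθ : 2 * (c * θ) ≤ K * θ := by
    have := mul_le_mul_of_nonneg_right hKc hθ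
    linarith
  have hcθ1 : 2 * (c * θ) ≤ 1 := by linarith
  have hcθ0 : 0 ≤ c * θ := by positivity
  have ha : ∀ v ∈ Bn d n, ∀ r, |ar d n V ψ r v| ≤ C₁ * c ^ r := by
    intro v hv r
    refine (hAr d C₁ B c₀ CL h n V ψ hn hψ r v hv).trans ?_
    refine mul_le_mul_of_nonneg_left (pow_le_pow_left₀ h1 (by rw [hcdef]; linarith) r) hC0
  obtain ⟨M, rfl⟩ : ∃ M, N = M + 1 := ⟨N - 1, by omega⟩
  constructor
  · unfold arp
    refine (Finset.abs_sum_le_sum_abs _ _).trans ?_
    have h3 : ∀ r ∈ Finset.range (M + 1), |ar d n V ψ r x * θ ^ r| ≤ C₁ * (1 / 2) ^ r := by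
      intro r _
      rw [abs_mul, abs_of_nonneg (by positivity : (0 : ℝ) ≤ θ ^ r)]
      refine (mul_le_mul_of_nonneg_right (ha x hx r) (by positivity)).trans ?_
      rw [mul_assoc, ← mul_pow]
      refine mul_le_mul_of_nonneg_left (pow_le_pow_left₀ hcθ0 (by linarith) r) hC0
    refine (Finset.sum_le_sum h3).trans ?_
    rw [← Finset.mul_sum]
    refine (mul_le_mul_of_nonneg_left (sum_geometric_two_le (M + 1)) hC0).trans ?_
    linarith
  · have hkey : T0 d n (fun v => ψ v - V * (arp d n V ψ (M + 1) θ v *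
        ∫ s in (0 : ℝ)..θ, arp d n V ψ (M + 1) s v)) x =
        arp d n V ψ (M + 1) θ x - V * T0 d n (fun v => hi (fun r => ar d n V ψ r v) M θ) x := by
      have e1 : ∀ v, ψ v - V * (arp d n V ψ (M + 1) θ v *
          ∫ s in (0 : ℝ)..θ, arp d n V ψ (M + 1) s v) =
          ψ v - V * ((∑ r ∈ Finset.range M, θ ^ (r + 1) * bb (fun r => ar d n V ψ r v) r) +
            hi (fun r => ar d n V ψ r v) M θ) := by
        intro v
        rw [int_arp]
        unfold arp
        rw [prod_split (fun r => ar d n V ψ r v) M θ]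
      simp_rw [e1]
      rw [T0_sub, T0_mul, T0_add, T0_sum]
      simp_rw [T0_mul]
      have e2 : ∀ r, ar d n V ψ (r + 1) x =
          -V * T0 d n (fun v => bb (fun r => ar d n V ψ r v) r) x := by
        intro r
        rw [ar]
        rfl
      have e3 : arp d n V ψ (M + 1) θ x = T0 d n ψ x +
          ∑ r ∈ Finset.range M, ar d n V ψ (r + 1) x * θ ^ (r + 1) := by
        unfold arp
        rw [Finset.sum_range_succ']
        have : ar d n V ψ 0 x = T0 d n ψ x := by rw [ar]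
        rw [this]
        ring
      rw [e3]
      simp_rw [e2]
      rw [mul_add, Finset.mul_sum]
      have e4 : ∑ r ∈ Finset.range M, -V * T0 d n (fun v => bb (fun r => ar d n V ψ r v) r) x *
          θ ^ (r + 1) = - ∑ r ∈ Finset.range M, V * (θ ^ (r + 1) *
            T0 d n (fun v => bb (fun r => ar d n V ψ r v) r) x) := by
        rw [← Finset.sum_neg_distrib]
        exact Finset.sum_congr rfl fun r _ => by ring
      rw [e4]
      ring
    rw [hkey]
    have hR : ∀ v ∈ Bn d n, |hi (fun r => ar d n V ψ r v) M θ| ≤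
        2 * C₁ ^ 2 * (2 * (c * θ)) ^ (M + 1) := fun v hv =>
      hi_le _ M θ C₁ c hC0 hc hθ hcθ1 (ha v hv)
    have h4 := (hT0 d C₁ B c₀ CL h n _ (fun _ => 0) hn).2.1 _ hR x hx
    have h5 : arp d n V ψ (M + 1) θ x - (arp d n V ψ (M + 1) θ x -
        V * T0 d n (fun v => hi (fun r => ar d n V ψ r v) M θ) x) =
        V * T0 d n (fun v => hi (fun r => ar d n V ψ r v) M θ) x := by ring
    rw [h5, abs_mul]
    refine (mul_le_mul_of_nonneg_left h4 hV).trans ?_
    have h6 : |V| * (C₁ * (2 * C₁ ^ 2 * (2 * (c * θ)) ^ (M + 1))) =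
        2 * |V| * C₁ ^ 3 * (2 * (c * θ)) ^ (M + 1) := by ring
    rw [h6]
    exact mul_le_mul hKV (pow_le_pow_left₀ (by positivity) hcθ (M + 1)) (by positivity) hK0

end Pool.CL
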