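import Pool.Agent.Helper65.CL.StB
import Pool.Agent.Helper22.NL.M_Basic
import Pool.Agent.Helper22.NL.M_Clu
import Pool.Agent.Helper22.NL.M_Hh
import Pool.Agent.Helper22.NL.M_Bn
import Pool.Agent.Helper22.NL.M_CpTau
import Pool.Agent.Helper22.NL.M_Hub
import Pool.Agent.Helper84.LE.M_Box
import Pool.Agent.Helper84.LE.M_WalkBox
import Pool.Agent.Helper84.LE.M_Transl
import Pool.Agent.Helper84.LE.M_CoefLoc
import Pool.Agent.Helper84.LE.M_CoefLoc0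
import Pool.Agent.Helper84.LE.M_SymT
import Pool.Agent.Helper84.LE.M_TauSum
import Pool.Agent.Helper84.LE.M_TauDom
import Pool.Agent.Helper84.LE.M_TauBasic

/-!
# Project CL (MP_65faa7): basic facts in the box
-/

set_option autoImplicit false

open scoped BigOperators ENNReal Topology
open Pool.LE Pool.NL Filter MeasureTheory

namespace Pool.CL

namespace BxM

theorem tauBasic : StTauBasic := by
  have hBox : StBox := LE.hBox
  have hW := LE.hWalkBox hBox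
  have hT := LE.hTransl
  have hCLc := LE.hCoefLoc (LE.hCoefLoc0 hW) hT
  exact LE.hTauBasic (LE.hTauSum hCLc hBox hW) LE.hSymT

theorem tauDom : StTauDom := LE.hTauDom LE.hTransl LE.hBox

theorem bnF : StBn := NL.hBn LE.hBox

theorem cpTau : StCpTau := NL.hCpTau tauDom tauBasic NL.hBasic bnF

theorem hubF : StHub := NL.hHub cpTau bnF tauBasic

theorem hhF : StHh := NL.hHh NL.hBasic NL.hClu

/-- sums of `tau` over a translated box -/
theorem sum_tau {d : ℕ} {C₁ B c₀ : ℝ} (env : Env d C₁ B c₀) (n : ℕ) (hn : 1 ≤ n) (w : Zd d)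
    (hw : w ∈ Bn d n) : ∑ y ∈ Bn d n, tau d (pH d) (y - w) ≤ C₁ * (n : ℝ) ^ 2 := by
  have h0 : 0 ≤ pH d := env.p0.le
  have h1 : pH d ≤ 1 := env.p1.trans (by norm_num)
  obtain ⟨-, -, -, -, htau⟩ := tauBasic d (pH d) h0 h1
  obtain ⟨-, -, -, -, hsub⟩ := bnF d n
  refine le_trans ?_ (env.A1 n hn)
  have hinj : Set.InjOn (fun y : Zd d => y - w) (Bn d n : Set (Zd d)) := by
    intro a _ b _ h
    exact sub_left_injective h
  rw [← Finset.sum_image (f := fun z => tau d (pH d) z) hinj]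
  apply Finset.sum_le_sum_of_subset_of_nonneg
  · intro z hz
    obtain ⟨y, hy, rfl⟩ := Finset.mem_image.mp hz
    exact hsub w hw y hy
  · intro z _ _
    exact (htau z).1

theorem rho_pos {d : ℕ} (n : ℕ) (θ : ℝ) (ψ : Zd d → ℝ) (y : Zd d) : 0 < rho n θ ψ y :=
  Real.exp_pos _

theorem rho_le {d : ℕ} (n : ℕ) (θ : ℝ) (ψ : Zd d → ℝ) (h0 : 0 ≤ θ) (hψ : U01 ψ) (y : Zd d) :
    rho n θ ψ y ≤ 1 := by
  unfold rho
  rw [← Real.exp_zero]
  apply Real.exp_le_exp.mpr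
  have : 0 ≤ θ * ψ y / (n : ℝ) ^ 4 := div_nonneg (mul_nonneg h0 (hψ y).1) (by positivity)
  linarith

/-- lower bound for the product of the weights -/
theorem rp_ge {d : ℕ} (n : ℕ) (θ : ℝ) (ψ : Zd d → ℝ) (h0 : 0 ≤ θ) (h1 : θ ≤ 1) (hψ : U01 ψ)
    (C : Finset (Zd d)) : 1 - (1 / (n : ℝ) ^ 4) * (C.card : ℝ) ≤ rp (rho n θ ψ) C := by
  unfold rp rho
  rw [← Real.exp_sum]
  have h2 := Real.add_one_le_exp (∑ x ∈ C, -(θ * ψ x / (n : ℝ) ^ 4))
  refine le_trans ?_ h2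
  have h3 : ∑ x ∈ C, θ * ψ x / (n : ℝ) ^ 4 ≤ ∑ _x ∈ C, 1 / (n : ℝ) ^ 4 := by
    apply Finset.sum_le_sum
    intro x _
    apply div_le_div_of_nonneg_right _ (by positivity)
    have h4 := (hψ x).2
    have h5 := (hψ x).1
    nlinarith
  rw [Finset.sum_const, nsmul_eq_mul] at h3
  rw [Finset.sum_neg_distrib]
  linarith

end BxM

open BxM

theorem hBx (hPD : StPD) (hHinv : StHinv) : StBx := by
  intro d C₁ B c₀ CL envC
  have env := envC.env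
  refine ⟨max 1 ⌈8 * C₁⌉₊, le_max_left _ _, ?_⟩
  intro n hn θ ψ hθ0 hθ1 hψ
  have hn1 : 1 ≤ n := le_trans (le_max_left _ _) hn
  have hn8 : 8 * C₁ ≤ (n : ℝ) ^ 2 := by
    have h1 : (⌈8 * C₁⌉₊ : ℝ) ≤ n := by exact_mod_cast le_trans (le_max_right _ _) hn
    have h2 : 8 * C₁ ≤ n := le_trans (Nat.le_ceil _) h1
    have h3 : (1 : ℝ) ≤ n := by exact_mod_cast hn1
    nlinarith
  have hnpos : (0 : ℝ) < n := by
    have h3 : (1 : ℝ) ≤ n := by exact_mod_cast hn1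
    linarith
  have hp0 : 0 ≤ pH d := env.p0.le
  have hp1 : pH d < 1 := by
    have := envC.half
    linarith
  have hC0 : 0 < C₁ := lt_of_lt_of_le one_pos env.hC
  obtain ⟨hFG, -, hlat, -, -⟩ := bnF d n
  have hρ : ∀ y, 0 < rho n θ ψ y ∧ rho n θ ψ y ≤ 1 :=
    fun y => ⟨rho_pos n θ ψ y, rho_le n θ ψ hθ0 hψ y⟩
  obtain ⟨hpd, hb, hsymm, -⟩ := hPD (Zd d) (Bn d n) (ES (Bn d n)) (2 * d) (pH d) (rho n θ ψ) hFG
    hp0 hp1 hρ
  obtain ⟨hinv, hksym, -, -⟩ := hHinv (Zd d) (Bn d n) (GK (Bn d n) (ES (Bn d n)) (pH d) (rho n θ ψ)) hpd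
  obtain ⟨hhX, hcp, -, -, -⟩ := hhF (Zd d) (Bn d n) (ES (Bn d n)) (2 * d) (pH d) hFG hp0 hp1.le
  have hlow : ∀ v ∈ Bn d n, 7 / 8 ≤
      ex (ES (Bn d n)) (pH d) (fun ω => rp (rho n θ ψ) (clu (Bn d n) ω v)) := by
    intro v hv
    obtain ⟨hmono, hconst, -, hsub, hmul, -⟩ := NL.hBasic (Zd d) (ES (Bn d n)) (pH d) hp0 hp1.le
    have h1 : ex (ES (Bn d n)) (pH d) (fun ω => 1 - (1 / (n : ℝ) ^ 4) * (Xc (Bn d n) ω v : ℝ)) ≤
        ex (ES (Bn d n)) (pH d) (fun ω => rp (rho n θ ψ) (clu (Bn d n) ω v)) := by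
      apply hmono
      intro ω _
      exact rp_ge n θ ψ hθ0 hθ1 hψ (clu (Bn d n) ω v)
    refine le_trans ?_ h1
    rw [hsub (fun _ => 1) (fun ω => (1 / (n : ℝ) ^ 4) * (Xc (Bn d n) ω v : ℝ)), hconst, hmul, ← hhX]
    have h2 := hubF d C₁ B c₀ env n hn1 v hv
    have h3 : (1 / (n : ℝ) ^ 4) * hh (Bn d n) (ES (Bn d n)) (pH d) v ≤
        (1 / (n : ℝ) ^ 4) * (C₁ * (n : ℝ) ^ 2) :=
      mul_le_mul_of_nonneg_left h2 (by positivity)
    have h4 : (1 / (n : ℝ) ^ 4) * (C₁ * (n : ℝ) ^ 2) = C₁ / (n : ℝ) ^ 2 := by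
      field_simp
    have h5 : C₁ / (n : ℝ) ^ 2 ≤ 1 / 8 := by
      rw [div_le_div_iff₀ (by positivity) (by norm_num)]
      linarith
    linarith
  have hins : ∀ e ∈ ES (Bn d n), ∀ v ∈ e, v ∈ Bn d n := hFG.inside
  refine ⟨hinv, hksym, hsymm, ?_, ?_, ?_, ?_, ?_⟩
  · intro u v
    exact ⟨(hb u v).1, (hb u v).2, (hcp u v).2.2⟩
  · intro u hu
    exact hubF d C₁ B c₀ env n hn1 u hu
  · intro u hu
    have h := (envC.lt (Bn d n) (ES (Bn d n)) (rho n θ ψ) (fun _ => 0) 1 hlat hins hρ hlow one_pos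
      (by intro w _; simp)).1
    exact h u hu
  · intro k η hη hk u hu
    exact (envC.lt (Bn d n) (ES (Bn d n)) (rho n θ ψ) k η hlat hins hρ hlow hη hk).2 u hu
  · intro k K hK hk u hu
    have hη : 0 < K * (C₁ * (n : ℝ) ^ 2) := by positivity
    refine (envC.lt (Bn d n) (ES (Bn d n)) (rho n θ ψ) k (K * (C₁ * (n : ℝ) ^ 2)) hlat hins hρ hlow
      hη ?_).2 u hu
    intro w hw
    obtain ⟨-, -, -, -, htau⟩ := tauBasic d (pH d) hp0 hp1.le
    calc ∑ y ∈ Bn d n, tau d (pH d) (y - w) * |k y|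
        ≤ ∑ y ∈ Bn d n, tau d (pH d) (y - w) * K := by
          apply Finset.sum_le_sum
          intro y _
          exact mul_le_mul_of_nonneg_left (hk y) (htau _).1
      _ = (∑ y ∈ Bn d n, tau d (pH d) (y - w)) * K := by rw [Finset.sum_mul]
      _ ≤ (C₁ * (n : ℝ) ^ 2) * K := mul_le_mul_of_nonneg_right (sum_tau env n hn1 w hw) hK.le
      _ = K * (C₁ * (n : ℝ) ^ 2) := by ring

end Pool.CL
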