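import Pool.Agent.Helper65.CL.StD

/-!
# Project CL (MP_65faa7), module Cmp: comparison of `y_θ` with the polynomial
-/

set_option autoImplicit false

open scoped BigOperators ENNReal Topology
open Pool.LE Pool.NL Filter MeasureTheory

namespace Pool.CL

namespace CmpM

theorem av_mono {d n : ℕ} {f g : Zd d → ℝ} (h : ∀ x ∈ Bn d n, f x ≤ g x) :
    av d n f ≤ av d n g := by
  unfold av
  exact div_le_div_of_nonneg_right (Finset.sum_le_sum h) (by positivity)

theorem av_add {d n : ℕ} (f g : Zd d → ℝ) :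
    av d n (fun x => f x + g x) = av d n f + av d n g := by
  unfold av
  rw [Finset.sum_add_distrib, add_div]

theorem av_mul {d n : ℕ} (c : ℝ) (f : Zd d → ℝ) : av d n (fun x => c * f x) = c * av d n f := by
  unfold av
  rw [← Finset.mul_sum, mul_div_assoc]

theorem av_int {d n : ℕ} (F : ℝ → Zd d → ℝ) (hF : ∀ x, Continuous (fun t => F t x)) (s : ℝ) :
    av d n (fun x => ∫ t in (0 : ℝ)..s, F t x) = ∫ t in (0 : ℝ)..s, av d n (F t) := by
  unfold av
  rw [intervalIntegral.integral_div,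
    intervalIntegral.integral_finsetSum (fun x _ => (hF x).intervalIntegrable _ _)]

theorem av_const {d n : ℕ} (hn : 1 ≤ n) (c : ℝ) : av d n (fun _ => c) = c := by
  have hn0 : (n : ℝ) ≠ 0 := by
    have : (1 : ℝ) ≤ n := by exact_mod_cast hn
    linarith
  unfold av Bn
  rw [Finset.sum_const, Fintype.card_piFinset]
  simp only [Int.card_Ico, sub_zero, Int.toNat_natCast, Finset.prod_const, Finset.card_univ,
    Fintype.card_fin, nsmul_eq_mul, Nat.cast_pow]
  field_simp

theorem av_nonneg {d n : ℕ} {f : Zd d → ℝ} (h : ∀ x ∈ Bn d n, 0 ≤ f x) : 0 ≤ av d n f := by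
  unfold av
  exact div_nonneg (Finset.sum_nonneg h) (by positivity)

theorem arp_cont (d n : ℕ) (V : ℝ) (ψ : Zd d → ℝ) (N : ℕ) (x : Zd d) :
    Continuous (fun s => arp d n V ψ N s x) := by
  unfold arp
  exact continuous_finsetSum _ fun r _ => continuous_const.mul (continuous_pow r)

/-- the elementary estimate -/
theorem prod_est {y P I J C K s Z : ℝ} (hI : |I| ≤ C * s) (hP : |P| ≤ K) (hZ : |I - J| ≤ Z)
    (hK : 0 ≤ K) : |y * I - P * J| ≤ C * s * |y - P| + K * Z := by
  have h1 : y * I - P * J = (y - P) * I + P * (I - J) := by ring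
  rw [h1]
  refine (abs_add_le _ _).trans ?_
  rw [abs_mul, abs_mul]
  have h2 : |y - P| * |I| ≤ C * s * |y - P| := by
    rw [mul_comm (C * s)]
    exact mul_le_mul_of_nonneg_left hI (abs_nonneg _)
  have h3 : |P| * |I - J| ≤ K * Z := mul_le_mul hP hZ (abs_nonneg _) hK
  linarith

end CmpM

open CmpM in
theorem hCmp (hY : StY) (hT0 : StT0) (hAr : StAr) (hArp : StArp) : StCmp := by
  intro d C₁ B c₀ CL hE V hV
  obtain ⟨K₀, hK₀, hP⟩ := hArp d C₁ B c₀ CL hE V
  have hC1 : 1 ≤ C₁ := hE.env.hC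
  set K : ℝ := 2 * K₀ + 2 * |V| * C₁ * (C₁ + K₀) with hK
  have hVC : 0 ≤ |V| * C₁ * (C₁ + K₀) := by positivity
  have hK1 : 2 * K₀ ≤ K := by
    rw [hK]; nlinarith
  refine ⟨K, by linarith, fun N hN ε hε => ?_⟩
  obtain ⟨n₀, hn₀, hn⟩ := hV (ε / 2) (by linarith)
  refine ⟨n₀, hn₀, fun n hnn θ ψ hθ hKθ hψ => ?_⟩
  have hn1 : 1 ≤ n := hn₀.trans hnn
  obtain ⟨hyc, hyb⟩ := hY d C₁ B c₀ CL hE n ψ hn1 hψ
  have hθ1 : θ ≤ 1 := by nlinarith
  have hK0θ : K₀ * θ ≤ 1 / 2 := by nlinarith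
  have hVθ : |V| * C₁ * (C₁ + K₀) * θ ≤ 1 / 2 := by
    have : 2 * (|V| * C₁ * (C₁ + K₀)) * θ ≤ K * θ := by
      refine mul_le_mul_of_nonneg_right ?_ hθ
      rw [hK]; nlinarith
    linarith
  -- the difference
  set D : ℝ → Zd d → ℝ := fun s x => |yx d n s ψ x - arp d n V ψ N s x| with hD
  have hDc : ∀ x, Continuous (fun s => D s x) := fun x =>
    ((hyc x).sub (arp_cont d n V ψ N x)).abs
  set a : ℝ → ℝ := fun s => av d n (D s) with ha
  have hac : Continuous a := by
    rw [ha]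
    unfold av
    exact (continuous_finsetSum _ fun x _ => hDc x).div_const _
  have ha0 : ∀ s, 0 ≤ a s := fun s => av_nonneg fun x _ => abs_nonneg _
  obtain ⟨m, hm, hmax⟩ := isCompact_Icc.exists_isMaxOn (Set.nonempty_Icc.2 hθ)
    (hac.continuousOn (s := Set.Icc 0 θ))
  have hm0 : 0 ≤ m := hm.1
  have hmθ : m ≤ θ := hm.2
  have hmx : ∀ s, 0 ≤ s → s ≤ θ → a s ≤ a m := fun s h0 h1 => hmax ⟨h0, h1⟩
  -- the integral of `a`
  have hint : ∫ t in (0 : ℝ)..m, a t ≤ m * a m := by
    have h1 : ∫ t in (0 : ℝ)..m, a t ≤ ∫ _ in (0 : ℝ)..m, a m := by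
      refine intervalIntegral.integral_mono_on hm0 (hac.intervalIntegrable _ _)
        (continuous_const.intervalIntegrable _ _) ?_
      intro t ht
      exact hmx t ht.1 (ht.2.trans hmθ)
    rw [intervalIntegral.integral_const, sub_zero, smul_eq_mul] at h1
    exact h1
  -- the three parts
  set Fy : Zd d → ℝ := fun v => ψ v - V * (yx d n m ψ v * ∫ s in (0 : ℝ)..m, yx d n s ψ v) with hFy
  set FP : Zd d → ℝ := fun v => ψ v - V * (arp d n V ψ N m v *
    ∫ s in (0 : ℝ)..m, arp d n V ψ N s v) with hFP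
  have h1 : av d n (fun x => |yx d n m ψ x - T0 d n Fy x|) ≤ ε / 2 :=
    hn n hnn m ψ hm0 (hmθ.trans hθ1) hψ
  have h2 : av d n (fun x => |T0 d n Fy x - T0 d n FP x|) ≤
      C₁ * av d n (fun x => |Fy x - FP x|) := (hT0 d C₁ B c₀ CL hE n Fy FP hn1).2.2
  have h3 : av d n (fun x => |arp d n V ψ N m x - T0 d n FP x|) ≤ K₀ * (K₀ * m) ^ N := by
    rw [← av_const (d := d) hn1 (K₀ * (K₀ * m) ^ N)]
    exact av_mono fun x hx => (hP n N m ψ hn1 hN hm0 (by nlinarith) hψ x hx).2
  have h4 : a m ≤ av d n (fun x => |yx d n m ψ x - T0 d n Fy x|) +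
      av d n (fun x => |T0 d n Fy x - T0 d n FP x|) +
      av d n (fun x => |arp d n V ψ N m x - T0 d n FP x|) := by
    rw [← av_add, ← av_add]
    refine av_mono fun x _ => ?_
    show |yx d n m ψ x - arp d n V ψ N m x| ≤ _
    have e1 := abs_sub_le (yx d n m ψ x) (T0 d n Fy x) (arp d n V ψ N m x)
    have e2 := abs_sub_le (T0 d n Fy x) (T0 d n FP x) (arp d n V ψ N m x)
    rw [abs_sub_comm (T0 d n FP x)] at e2
    linarith
  have h5 : av d n (fun x => |Fy x - FP x|) ≤ |V| * (C₁ * m * a m + K₀ * (m * a m)) := by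
    calc av d n (fun x => |Fy x - FP x|)
        ≤ av d n (fun x => |V| * (C₁ * m * D m x + K₀ * ∫ t in (0 : ℝ)..m, D t x)) := by
          refine av_mono fun x hx => ?_
          have e1 : Fy x - FP x = V * (arp d n V ψ N m x * (∫ s in (0 : ℝ)..m, arp d n V ψ N s x) -
              yx d n m ψ x * ∫ s in (0 : ℝ)..m, yx d n s ψ x) := by
            rw [hFy, hFP]; ring
          rw [e1, abs_mul, abs_sub_comm]
          refine mul_le_mul_of_nonneg_left ?_ (abs_nonneg _)
          refine prod_est ?_ ((hP n N m ψ hn1 hN hm0 (by nlinarith) hψ x hx).1) ?_ (by linarith)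
          · have := intervalIntegral.norm_integral_le_of_norm_le_const (a := (0 : ℝ)) (b := m)
              (f := fun s => yx d n s ψ x) (C := C₁) ?_
            · rw [Real.norm_eq_abs, sub_zero, abs_of_nonneg hm0] at this
              exact this
            · intro t ht
              rw [Set.uIoc_of_le hm0] at ht
              obtain ⟨g1, g2, -⟩ := hyb t x ht.1.le (ht.2.trans (hmθ.trans hθ1)) hx
              rw [Real.norm_eq_abs, abs_of_nonneg g1]
              exact g2
          · rw [← intervalIntegral.integral_sub ((hyc x).intervalIntegrable _ _)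
              ((arp_cont d n V ψ N x).intervalIntegrable _ _)]
            exact intervalIntegral.abs_integral_le_integral_abs hm0
      _ = |V| * (C₁ * m * a m + K₀ * ∫ t in (0 : ℝ)..m, a t) := by
          rw [av_mul, av_add, av_mul, av_mul, av_int D hDc]
      _ ≤ |V| * (C₁ * m * a m + K₀ * (m * a m)) := by
          refine mul_le_mul_of_nonneg_left ?_ (abs_nonneg _)
          have := mul_le_mul_of_nonneg_left hint (by linarith : (0 : ℝ) ≤ K₀)
          linarith
  have h6 : a m ≤ ε / 2 + |V| * C₁ * (C₁ + K₀) * θ * a m + K₀ * (K₀ * θ) ^ N := by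
    have e1 : C₁ * (|V| * (C₁ * m * a m + K₀ * (m * a m))) ≤ |V| * C₁ * (C₁ + K₀) * θ * a m := by
      have : |V| * C₁ * (C₁ + K₀) * m * a m ≤ |V| * C₁ * (C₁ + K₀) * θ * a m :=
        mul_le_mul_of_nonneg_right (mul_le_mul_of_nonneg_left hmθ hVC) (ha0 m)
      nlinarith
    have e2 : K₀ * (K₀ * m) ^ N ≤ K₀ * (K₀ * θ) ^ N := by
      refine mul_le_mul_of_nonneg_left ?_ (by linarith)
      refine pow_le_pow_left₀ (by positivity) ?_ N
      exact mul_le_mul_of_nonneg_left hmθ (by linarith)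
    have e3 := mul_le_mul_of_nonneg_left h5 (by linarith : (0 : ℝ) ≤ C₁)
    linarith
  have h7 : |V| * C₁ * (C₁ + K₀) * θ * a m ≤ 1 / 2 * a m :=
    mul_le_mul_of_nonneg_right hVθ (ha0 m)
  have h8 : a m ≤ ε + 2 * K₀ * (K₀ * θ) ^ N := by linarith
  have h9 : 2 * K₀ * (K₀ * θ) ^ N ≤ K * (K * θ) ^ N := by
    refine mul_le_mul hK1 ?_ (by positivity) (by linarith)
    refine pow_le_pow_left₀ (by positivity) ?_ N
    exact mul_le_mul_of_nonneg_right (by linarith) hθ
  have h10 : a θ ≤ a m := hmx θ hθ le_rfl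
  show a θ ≤ _
  linarith

end Pool.CL
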