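import Pool.Agent.Helper65.CL.StD

/-! # Project CL, module CrLim: convergence of the moments -/

set_option autoImplicit false

open scoped BigOperators ENNReal Topology
open Pool.LE Pool.NL Filter MeasureTheory

namespace Pool.CL

theorem hCrLim (hVf : StVf) (hD1 : StD1) (hCC : StCC) (hCoe : StCoe) (hArC : StArC) : StCrLim := by
  intro d C₁ B c₀ CL henv ψ hψ hC r
  obtain ⟨V, hV⟩ := hVf d C₁ B c₀ CL henv
  have hE : isEq d V := hD1 d C₁ B c₀ CL henv V hV
  obtain ⟨-, -, hmul, -, hav⟩ := hCC d C₁ B c₀ CL henv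
  obtain ⟨l, hl⟩ := hav _ (hmul ψ (fun n => ar d n V (ψ n) r) hC (hArC d C₁ B c₀ CL henv V ψ hC r))
  have h1 := hCoe d C₁ B c₀ CL henv V hE ψ hψ r
  have h2 : Tendsto (fun n : ℕ => (-1) ^ r * cr d n r (ψ n)) atTop (𝓝 (0 + l)) := by
    refine (h1.add hl).congr fun n => ?_
    exact sub_add_cancel _ _
  rw [zero_add] at h2
  refine ⟨(-1) ^ r * l, (h2.const_mul ((-1 : ℝ) ^ r)).congr fun n => ?_⟩
  rw [← mul_assoc, ← mul_pow]
  norm_num

end Pool.CL
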