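import Pool.Agent.Helper65.CL.StD

/-! # Project CL (MP_65faa7): module D1 (the approximate equation holds with the vertex factor) -/

set_option autoImplicit false
set_option linter.unusedSectionVars false

open scoped BigOperators ENNReal Topology
open Pool.LE Pool.NL Filter MeasureTheory

namespace Pool.CL

namespace D1M

variable {d : ℕ}

theorem sum_le_of_av {n : ℕ} (hn : 1 ≤ n) {f : Zd d → ℝ} {c : ℝ} (h : av d n f ≤ c) :
    ∑ x ∈ Bn d n, f x ≤ c * (n : ℝ) ^ d := by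
  unfold av at h
  have h1 : (0 : ℝ) < (n : ℝ) ^ d := by
    have h2 : (0 : ℝ) < n := by exact_mod_cast hn
    positivity
  rw [div_le_iff₀ h1] at h
  exact h

theorem av_le_of_sum {n : ℕ} (hn : 1 ≤ n) {f : Zd d → ℝ} {c : ℝ}
    (h : ∑ x ∈ Bn d n, f x ≤ c * (n : ℝ) ^ d) : av d n f ≤ c := by
  unfold av
  have h1 : (0 : ℝ) < (n : ℝ) ^ d := by
    have h2 : (0 : ℝ) < n := by exact_mod_cast hn
    positivity
  rw [div_le_iff₀ h1]
  exact h

/-- the integrand at one point -/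
theorem point {n : ℕ} {C₁ V : ℝ} {u : Zd d} (S : Zd d → Zd d → ℝ) (y : Zd d → ℝ) (z : ℝ)
    (hy : 0 ≤ y u ∧ y u ≤ C₁) :
    |V * (y u * z) - ap (Bn d n) S y u / (n : ℝ) ^ 2| ≤
      C₁ * |(∑ v ∈ Bn d n, S u v) / (n : ℝ) ^ 2 - V * z| +
        ∑ v ∈ Bn d n, |S u v / (n : ℝ) ^ 2| * |y v - y u| := by
  have h1 : ap (Bn d n) S y u / (n : ℝ) ^ 2 = (∑ v ∈ Bn d n, S u v) / (n : ℝ) ^ 2 * y u +
      ∑ v ∈ Bn d n, S u v / (n : ℝ) ^ 2 * (y v - y u) := by
    unfold ap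
    rw [Finset.sum_div, Finset.sum_div, Finset.sum_mul, ← Finset.sum_add_distrib]
    exact Finset.sum_congr rfl fun v _ => by ring
  have h2 : V * (y u * z) - ap (Bn d n) S y u / (n : ℝ) ^ 2 =
      -(y u * ((∑ v ∈ Bn d n, S u v) / (n : ℝ) ^ 2 - V * z)) -
        ∑ v ∈ Bn d n, S u v / (n : ℝ) ^ 2 * (y v - y u) := by
    rw [h1]
    ring
  rw [h2]
  refine le_trans (abs_sub _ _) (add_le_add ?_ ?_)
  · rw [abs_neg, abs_mul, abs_of_nonneg hy.1]
    exact mul_le_mul_of_nonneg_right hy.2 (abs_nonneg _)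
  · refine le_trans (Finset.abs_sum_le_sum_abs _ _) (Finset.sum_le_sum fun v _ => ?_)
    rw [abs_mul]

end D1M

open D1M in
theorem hD1 (hBx : StBx) (_hBd : StBd) (hLoc1 : StLoc1) (hY : StY) (hT0 : StT0) (hYeq : StYeq) :
    StD1 := by
  intro d C₁ B c₀ CL hE V hV ε hε
  have hC : 1 ≤ C₁ := hE.env.hC
  have hC0 : 0 < C₁ := lt_of_lt_of_le zero_lt_one hC
  have hCL : 1 ≤ CL := hE.hCL
  have hCL0 : 0 < CL := lt_of_lt_of_le zero_lt_one hCL
  set ε₁ : ℝ := ε / (2 * C₁ * C₁) with hε₁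
  set ε₂ : ℝ := ε / (2 * C₁) with hε₂
  have hε₁0 : 0 < ε₁ := by positivity
  have hε₂0 : 0 < ε₂ := by positivity
  have hεs : C₁ * (C₁ * ε₁ + ε₂) = ε := by
    rw [hε₁, hε₂]
    field_simp
    ring
  obtain ⟨n₁, hn₁, hBx'⟩ := hBx d C₁ B c₀ CL hE
  obtain ⟨n₂, hn₂, hV'⟩ := hV ε₁ hε₁0
  obtain ⟨n₃, hn₃, hL'⟩ := hLoc1 d C₁ B c₀ CL hE (CL * C₁) ε₂ (by positivity) hε₂0
  obtain ⟨n₄, hn₄, hYe⟩ := hYeq d C₁ B c₀ CL hE
  refine ⟨max (max n₁ n₂) (max n₃ n₄), ?_, ?_⟩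
  · exact le_trans hn₁ (le_trans (le_max_left _ _) (le_max_left _ _))
  intro n hn θ ψ h0 h1 hψ
  have hnn₁ : n₁ ≤ n := le_trans (le_trans (le_max_left _ _) (le_max_left _ _)) hn
  have hnn₂ : n₂ ≤ n := le_trans (le_trans (le_max_right _ _) (le_max_left _ _)) hn
  have hnn₃ : n₃ ≤ n := le_trans (le_trans (le_max_left _ _) (le_max_right _ _)) hn
  have hnn₄ : n₄ ≤ n := le_trans (le_trans (le_max_right _ _) (le_max_right _ _)) hn
  have hn1 : 1 ≤ n := le_trans hn₁ hnn₁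
  have hn0 : (0 : ℝ) < n := by exact_mod_cast hn1
  have hn2 : (0 : ℝ) < (n : ℝ) ^ 2 := by positivity
  have hnd : (0 : ℝ) < (n : ℝ) ^ d := by positivity
  obtain ⟨hYc, hYb⟩ := hY d C₁ B c₀ CL hE n ψ hn1 hψ
  -- the two functions
  set F : Zd d → ℝ := fun u => ψ u - (∫ s in (0 : ℝ)..θ,
      ap (Bn d n) (Sx d n s ψ ψ) (yx d n θ ψ) u) / (n : ℝ) ^ 2 with hF
  set G : Zd d → ℝ := fun v => ψ v - V * (yx d n θ ψ v * ∫ s in (0 : ℝ)..θ, yx d n s ψ v) with hG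
  set h : ℝ → Zd d → ℝ := fun s u => V * (yx d n θ ψ u * yx d n s ψ u) -
      ap (Bn d n) (Sx d n s ψ ψ) (yx d n θ ψ) u / (n : ℝ) ^ 2 with hh
  have hA : ∀ u ∈ Bn d n, ContinuousOn
      (fun s : ℝ => ap (Bn d n) (Sx d n s ψ ψ) (yx d n θ ψ) u) (Set.uIcc 0 θ) := by
    intro u hu
    obtain ⟨hc, -⟩ := hYe n hnn₄ θ ψ h0 h1 hψ u hu
    have h2 : Set.uIcc 0 θ ⊆ Set.Ici (0 : ℝ) := by
      rw [Set.uIcc_of_le h0]
      exact Set.Icc_subset_Ici_self
    unfold ap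
    exact continuousOn_finsetSum _ fun v _ => ((hc u v).mono h2).mul continuousOn_const
  have hhc : ∀ u ∈ Bn d n, ContinuousOn (fun s : ℝ => h s u) (Set.uIcc 0 θ) := by
    intro u hu
    refine ContinuousOn.sub ?_ ((hA u hu).div_const _)
    exact (continuousOn_const.mul (continuousOn_const.mul (hYc u).continuousOn))
  -- the difference is the integral of h
  have hFG : ∀ u ∈ Bn d n, F u - G u = ∫ s in (0 : ℝ)..θ, h s u := by
    intro u hu
    have i1 : IntervalIntegrable (fun s : ℝ => V * (yx d n θ ψ u * yx d n s ψ u)) volume 0 θ :=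
      (continuous_const.mul (continuous_const.mul (hYc u))).intervalIntegrable _ _
    have i2 : IntervalIntegrable (fun s : ℝ =>
        ap (Bn d n) (Sx d n s ψ ψ) (yx d n θ ψ) u / (n : ℝ) ^ 2) volume 0 θ :=
      ((hA u hu).div_const _).intervalIntegrable
    simp only [hh, hF, hG]
    rw [intervalIntegral.integral_sub i1 i2, intervalIntegral.integral_const_mul,
      intervalIntegral.integral_const_mul, intervalIntegral.integral_div]
    ring
  -- average of h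
  have hav : ∀ s ∈ Set.Icc (0 : ℝ) θ, ∑ u ∈ Bn d n, |h s u| ≤ (C₁ * ε₁ + ε₂) * (n : ℝ) ^ d := by
    intro s hs
    have hs1 : s ≤ 1 := le_trans hs.2 h1
    have hv := sum_le_of_av hn1 (hV' n hnn₂ s ψ hs.1 hs1 hψ)
    obtain ⟨-, -, -, -, -, -, -, hS⟩ := hBx' n hnn₁ s ψ hs.1 hs1 hψ
    have hS1 := hS ψ 1 one_pos (fun y => by
      rw [abs_of_nonneg (hψ y).1]
      exact (hψ y).2)
    have hl := sum_le_of_av hn1 (hL' n hnn₃ θ ψ (fun u v => Sx d n s ψ ψ u v / (n : ℝ) ^ 2)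
      h0 h1 hψ (by
        intro u hu
        have h2 := hS1 u hu
        have h3 : ∑ v ∈ Bn d n, Qw (v - u) * |Sx d n s ψ ψ u v / (n : ℝ) ^ 2| =
            (∑ v ∈ Bn d n, Qw (v - u) * |Sx d n s ψ ψ u v|) / (n : ℝ) ^ 2 := by
          rw [Finset.sum_div]
          refine Finset.sum_congr rfl fun v _ => ?_
          rw [abs_div, abs_of_pos hn2, mul_div_assoc]
        rw [h3, div_le_iff₀ hn2]
        refine le_trans h2 (le_of_eq ?_)
        ring))
    have h4 : ∀ u ∈ Bn d n, |h s u| ≤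
        C₁ * |sx d n s ψ u / (n : ℝ) ^ 2 - V * yx d n s ψ u| +
          ∑ v ∈ Bn d n, |Sx d n s ψ ψ u v / (n : ℝ) ^ 2| * |yx d n θ ψ v - yx d n θ ψ u| := by
      intro u hu
      obtain ⟨hy0, hy1, -⟩ := hYb θ u h0 h1 hu
      exact point (Sx d n s ψ ψ) (yx d n θ ψ) (yx d n s ψ u) ⟨hy0, hy1⟩
    refine le_trans (Finset.sum_le_sum h4) ?_
    rw [Finset.sum_add_distrib, ← Finset.mul_sum]
    have h5 := mul_le_mul_of_nonneg_left hv hC0.le
    linarith
  -- conclusion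
  have hmain : av d n (fun u => |F u - G u|) ≤ C₁ * ε₁ + ε₂ := by
    refine av_le_of_sum hn1 ?_
    have h2 : ∀ u ∈ Bn d n, |F u - G u| ≤ ∫ s in (0 : ℝ)..θ, |h s u| := by
      intro u hu
      rw [hFG u hu]
      exact intervalIntegral.abs_integral_le_integral_abs h0
    refine le_trans (Finset.sum_le_sum h2) ?_
    rw [← intervalIntegral.integral_finsetSum fun u hu => (hhc u hu).abs.intervalIntegrable]
    have h3 : ∫ s in (0 : ℝ)..θ, ∑ u ∈ Bn d n, |h s u| ≤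
        ∫ _ in (0 : ℝ)..θ, (C₁ * ε₁ + ε₂) * (n : ℝ) ^ d := by
      refine intervalIntegral.integral_mono_on h0 ?_ ?_ hav
      · exact (continuousOn_finsetSum _ fun u hu => (hhc u hu).abs).intervalIntegrable
      · exact continuous_const.intervalIntegrable _ _
    refine le_trans h3 ?_
    rw [intervalIntegral.integral_const, smul_eq_mul, sub_zero]
    have h4 : 0 ≤ (C₁ * ε₁ + ε₂) * (n : ℝ) ^ d := by positivity
    nlinarith
  obtain ⟨-, -, hT⟩ := hT0 d C₁ B c₀ CL hE n F G hn1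
  have hfin : av d n (fun x => |yx d n θ ψ x - T0 d n G x|) =
      av d n (fun x => |T0 d n F x - T0 d n G x|) := by
    unfold av
    congr 1
    refine Finset.sum_congr rfl fun x hx => ?_
    have h5 : yx d n θ ψ x = T0 d n F x := (hYe n hnn₄ θ ψ h0 h1 hψ x hx).2
    change |yx d n θ ψ x - T0 d n G x| = |T0 d n F x - T0 d n G x|
    rw [h5]
  rw [hfin]
  refine le_trans hT ?_
  rw [← hεs]
  exact mul_le_mul_of_nonneg_left hmain hC0.le

end Pool.CL
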