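import Pool.Agent.Helper65.CL.StB

/-!
# Project CL, module DF: calculus of the filter `DF`
-/

set_option autoImplicit false

open scoped BigOperators ENNReal Topology
open Pool.LE Pool.NL Filter MeasureTheory

namespace Pool.CL

theorem natAbs_le_nrm {d : ℕ} (x : Zd d) (i : Fin d) : |x i| ≤ (nrm x : ℤ) := by
  have h : (x i).natAbs ≤ nrm x := Finset.le_sup (f := fun i => (x i).natAbs) (Finset.mem_univ i)
  have h2 : |x i| = ((x i).natAbs : ℤ) := (Int.natCast_natAbs _).symm
  rw [h2]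
  exact_mod_cast h

theorem hDF (hBd : StBd) : StDF := by
  intro d hd
  obtain ⟨-, hdeep, -, -, -, -⟩ := hBd d hd
  have hmono : ∀ R R' : ℕ, R ≤ R' → ∀ q : Pt d, okp R' q → okp R q := by
    intro R R' hR q hq
    obtain ⟨h0, h1, h2, h3⟩ := hq
    refine ⟨h0, h1, h2, ?_⟩
    rw [hdeep] at h3 ⊢
    intro i
    obtain ⟨a, b⟩ := h3 i
    constructor <;> omega
  have hmem : ∀ P : Pt d → Prop, (∀ᶠ q in DF d, P q) ↔ ∃ R : ℕ, ∀ q, okp R q → P q := by
    intro P
    have hdir : Directed (fun x1 x2 : Filter (Pt d) => x1 ≥ x2)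
        (fun R : ℕ => 𝓟 {q : Pt d | okp R q}) := by
      intro a b
      refine ⟨max a b, ?_, ?_⟩
      · exact principal_mono.mpr (fun q hq => hmono a _ (le_max_left a b) q hq)
      · exact principal_mono.mpr (fun q hq => hmono b _ (le_max_right a b) q hq)
    have h := mem_iInf_of_directed hdir {q | P q}
    unfold DF
    constructor
    · intro hP
      obtain ⟨R, hR⟩ := h.mp hP
      exact ⟨R, fun q hq => (mem_principal.mp hR) hq⟩
    · rintro ⟨R, hR⟩
      exact h.mpr ⟨R, mem_principal.mpr (fun q hq => hR q hq)⟩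
  have hne : (DF d).NeBot := by
    constructor
    intro hbot
    have hf : ∀ᶠ q in DF d, False := by rw [hbot]; exact eventually_bot
    obtain ⟨R, hR⟩ := (hmem (fun _ => False)).mp hf
    refine hR (⟨2 * R + 1, 0, 0, fun _ => (R : ℤ)⟩ : Pt d) ⟨le_refl _, zero_le_one, ?_, ?_⟩
    · intro y
      exact ⟨le_refl _, zero_le_one⟩
    · rw [hdeep]
      intro i
      constructor
      · exact le_refl _
      · push_cast
        omega
  have hcau : ∀ F : Pt d → ℝ, (∀ ε : ℝ, 0 < ε → ∃ R : ℕ, ∀ q q' : Pt d, okp R q → okp R q' →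
      |F q - F q'| ≤ ε) → ∃ s : ℝ, Tendsto F (DF d) (𝓝 s) := by
    intro F hF
    haveI := hne
    have hc : Cauchy (map F (DF d)) := by
      rw [Metric.cauchy_iff]
      refine ⟨inferInstance, fun ε hε => ?_⟩
      obtain ⟨R, hR⟩ := hF (ε / 2) (by linarith)
      refine ⟨F '' {q | okp R q}, ?_, ?_⟩
      · exact image_mem_map ((hmem _).mpr ⟨R, fun q hq => hq⟩)
      · rintro _ ⟨q, hq, rfl⟩ _ ⟨q', hq', rfl⟩
        rw [Real.dist_eq]
        have := hR q q' hq hq'
        linarith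
    exact cauchy_map_iff_exists_tendsto.mp hc
  refine ⟨hmem, hne, ?_, ?_, hcau, ?_⟩
  · intro R q hq
    have h3 := hq.2.2.2
    rw [hdeep] at h3
    constructor
    · obtain ⟨a, b⟩ := h3 ⟨0, hd⟩
      have : (2 * R + 1 : ℤ) ≤ q.n := by omega
      exact_mod_cast this
    · unfold Bn
      rw [Fintype.mem_piFinset]
      intro i
      obtain ⟨a, b⟩ := h3 i
      rw [Finset.mem_Ico]
      constructor <;> omega
  · intro x
    intro s hs
    obtain ⟨R, hR⟩ := (hmem (fun q => q ∈ s)).mp hs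
    refine (hmem _).mpr ⟨R + nrm x, fun q hq => ?_⟩
    apply hR
    obtain ⟨h0, h1, h2, h3⟩ := hq
    refine ⟨h0, h1, h2, ?_⟩
    rw [hdeep] at h3 ⊢
    intro i
    obtain ⟨a, b⟩ := h3 i
    have hx := abs_le.mp (natAbs_le_nrm x i)
    obtain ⟨c1, c2⟩ := hx
    simp only [Pi.add_apply]
    push_cast at a b
    constructor <;> omega
  · intro F hF
    apply hcau
    intro ε hε
    obtain ⟨F', s', hF', hev⟩ := hF (ε / 4) (by linarith)
    have h1 : ∀ᶠ q in DF d, |F' q - s'| < ε / 4 := by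
      have := Metric.tendsto_nhds.mp hF' (ε / 4) (by linarith)
      filter_upwards [this] with q hq
      rw [Real.dist_eq] at hq
      exact hq
    obtain ⟨R, hR⟩ := (hmem _).mp (h1.and hev)
    refine ⟨R, fun q q' hq hq' => ?_⟩
    obtain ⟨a1, a2⟩ := hR q hq
    obtain ⟨b1, b2⟩ := hR q' hq'
    rw [abs_le] at a2 b2 ⊢
    rw [abs_lt] at a1 b1
    constructor
    · linarith [a1.1, a1.2, a2.1, a2.2, b1.1, b1.2, b2.1, b2.2]
    · linarith [a1.1, a1.2, a2.1, a2.2, b1.1, b1.2, b2.1, b2.2]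

end Pool.CL
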