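import Pool.Agent.Helper65.CL.StB

/-!
# Project CL, module Der: differentiation with respect to the weights
-/

set_option autoImplicit false

open scoped BigOperators ENNReal Topology
open Pool.LE Pool.NL Filter MeasureTheory

namespace Pool.CL

section Der

variable {V : Type} [DecidableEq V]

theorem der_rp_exp (φ : V → ℝ) (s : ℝ) (C : Finset V) :
    rp (fun y => Real.exp (-(s * φ y))) C = Real.exp (-(s * ms φ C)) := by
  unfold rp ms
  rw [← Real.exp_sum, Finset.sum_neg_distrib, Finset.mul_sum]

theorem der_GK (L : Finset V) (E : Finset (Sym2 V)) (p : ℝ) (φ : V → ℝ) (u v : V) (s : ℝ) :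
    HasDerivAt (fun s : ℝ => GK L E p (fun y => Real.exp (-(s * φ y))) u v)
      (- GT L E p (fun y => Real.exp (-(s * φ y))) φ u v) s := by
  unfold GK GT ex Ex
  simp only [der_rp_exp, smul_eq_mul]
  rw [← Finset.sum_neg_distrib]
  apply HasDerivAt.fun_sum
  intro ω _
  have h : HasDerivAt (fun s : ℝ => Real.exp (-(s * ms φ (clu L ω u))))
      (Real.exp (-(s * ms φ (clu L ω u))) * (-(1 * ms φ (clu L ω u)))) s :=
    (((hasDerivAt_id s).mul_const _).neg).exp
  have h2 := (h.const_mul (ind (con ω u v))).const_mul (wt E p ω)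
  refine h2.congr_deriv ?_
  ring

theorem der_GT_cont (L : Finset V) (E : Finset (Sym2 V)) (p : ℝ) (φ k : V → ℝ) (u v : V) :
    Continuous (fun s : ℝ => GT L E p (fun y => Real.exp (-(s * φ y))) k u v) := by
  unfold GT ex Ex
  simp only [der_rp_exp, smul_eq_mul]
  refine continuous_finset_sum _ (fun ω _ => ?_)
  fun_prop

theorem der_kinv_cont (L : Finset V) (G : ℝ → V → V → ℝ)
    (hG : ∀ u v, Continuous (fun s => G s u v))
    (hinv : ∀ s : ℝ, 0 ≤ s → Inv L (G s) (kinv L (G s))) (u v : V) :
    ContinuousOn (fun s => kinv L (G s) u v) (Set.Ici 0) := by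
  classical
  by_cases h : u ∈ L ∧ v ∈ L
  · have hdet : ∀ s : ℝ, 0 ≤ s →
        (Matrix.of fun a b : {x // x ∈ L} => G s a.1 b.1).det ≠ 0 := by
      intro s hs
      have h1 : (Matrix.of fun a b : {x // x ∈ L} => G s a.1 b.1) *
          (Matrix.of fun a b : {x // x ∈ L} => kinv L (G s) a.1 b.1) = 1 := by
        ext a b
        have h2 := (hinv s hs a.1 a.2 b.1 b.2).1
        unfold kk at h2
        rw [Matrix.mul_apply]
        simp only [Matrix.of_apply]
        have h3 : ∑ w : {x // x ∈ L}, G s a.1 w.1 * kinv L (G s) w.1 b.1 =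
            ∑ w ∈ L, G s a.1 w * kinv L (G s) w b.1 :=
          Finset.sum_coe_sort L (fun w => G s a.1 w * kinv L (G s) w b.1)
        rw [h3, h2, Matrix.one_apply]
        unfold ind
        by_cases hab : a = b
        · rw [if_pos hab, if_pos (congrArg Subtype.val hab)]
        · rw [if_neg hab, if_neg (fun hh => hab (Subtype.ext hh))]
      exact (Matrix.isUnit_det_of_right_inverse h1).ne_zero
    have heq : (fun s => kinv L (G s) u v) = fun s =>
        ((Matrix.of fun a b : {x // x ∈ L} => G s a.1 b.1).det)⁻¹ *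
          (Matrix.of fun a b : {x // x ∈ L} => G s a.1 b.1).adjugate ⟨u, h.1⟩ ⟨v, h.2⟩ := by
      funext s
      unfold kinv
      rw [dif_pos h, Matrix.inv_def, Matrix.smul_apply, Ring.inverse_eq_inv', smul_eq_mul]
    rw [heq]
    have hM : Continuous (fun s : ℝ => (Matrix.of fun a b : {x // x ∈ L} => G s a.1 b.1)) := by
      refine continuous_matrix (fun a b => ?_)
      simp only [Matrix.of_apply]
      exact hG a.1 b.1
    have hd : Continuous (fun s : ℝ => (Matrix.of fun a b : {x // x ∈ L} => G s a.1 b.1).det) :=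
      hM.matrix_det
    have ha : Continuous (fun s : ℝ =>
        (Matrix.of fun a b : {x // x ∈ L} => G s a.1 b.1).adjugate ⟨u, h.1⟩ ⟨v, h.2⟩) :=
      (hM.matrix_adjugate).matrix_elem _ _
    exact (hd.continuousOn.inv₀ (fun s hs => hdet s hs)).mul ha.continuousOn
  · have heq : (fun s => kinv L (G s) u v) = fun _ => (0 : ℝ) := by
      funext s
      unfold kinv
      rw [dif_neg h]
    rw [heq]
    exact continuousOn_const

theorem der_diff (L : Finset V) (A B A' B' : V → V → ℝ) (h : Inv L A B) (h' : Inv L A' B')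
    (u v : V) (hu : u ∈ L) (hv : v ∈ L) :
    B' u v - B u v = ∑ a ∈ L, ∑ b ∈ L, B' u a * ((A a b - A' a b) * B b v) := by
  classical
  have e1 : ∑ a ∈ L, ∑ b ∈ L, B' u a * (A a b * B b v) = B' u v := by
    have : ∀ a ∈ L, ∑ b ∈ L, B' u a * (A a b * B b v) = if a = v then B' u v else 0 := by
      intro a ha
      rw [← Finset.mul_sum]
      have h2 := (h a ha v hv).1
      unfold kk at h2
      rw [h2]
      unfold ind
      by_cases hav : a = v
      · rw [if_pos hav, if_pos hav, hav, mul_one]
      · rw [if_neg hav, if_neg hav, mul_zero]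
    rw [Finset.sum_congr rfl this, Finset.sum_ite_eq' L v, if_pos hv]
  have e2 : ∑ a ∈ L, ∑ b ∈ L, B' u a * (A' a b * B b v) = B u v := by
    rw [Finset.sum_comm]
    have : ∀ b ∈ L, ∑ a ∈ L, B' u a * (A' a b * B b v) = if b = u then B u v else 0 := by
      intro b hb
      have h2 := (h' u hu b hb).2
      unfold kk at h2
      have h3 : ∑ a ∈ L, B' u a * (A' a b * B b v) = (∑ a ∈ L, B' u a * A' a b) * B b v := by
        rw [Finset.sum_mul]
        refine Finset.sum_congr rfl (fun a _ => ?_)
        ring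
      rw [h3, h2]
      unfold ind
      by_cases hub : u = b
      · rw [if_pos hub, if_pos hub.symm, one_mul, hub]
      · rw [if_neg hub, if_neg (fun hh => hub hh.symm), zero_mul]
    rw [Finset.sum_congr rfl this, Finset.sum_ite_eq' L u, if_pos hu]
  rw [← e1, ← e2, ← Finset.sum_sub_distrib]
  refine Finset.sum_congr rfl (fun a _ => ?_)
  rw [← Finset.sum_sub_distrib]
  refine Finset.sum_congr rfl (fun b _ => ?_)
  ring

end Der

theorem hDer (hPD : StPD) (hHinv : StHinv) : StDer := by
  intro V _ L E D p φ hFG hp0 hp1 hφ u v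
  have hρ : ∀ s : ℝ, 0 ≤ s → ∀ y, 0 < Real.exp (-(s * φ y)) ∧ Real.exp (-(s * φ y)) ≤ 1 := by
    intro s hs y
    refine ⟨Real.exp_pos _, ?_⟩
    rw [← Real.exp_zero]
    exact Real.exp_le_exp.mpr (by nlinarith [mul_nonneg hs (hφ y)])
  have hI : ∀ s : ℝ, 0 ≤ s → Inv L (GK L E p (fun y => Real.exp (-(s * φ y))))
      (HK L E p (fun y => Real.exp (-(s * φ y)))) := by
    intro s hs
    exact (hHinv V L _ (hPD V L E D p _ hFG hp0 hp1 (hρ s hs)).1).1
  have h0 : ∀ s : ℝ, 0 ≤ s → ∀ a b : V, a ∉ L ∨ b ∉ L →
      HK L E p (fun y => Real.exp (-(s * φ y))) a b = 0 := by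
    intro s hs
    exact (hHinv V L _ (hPD V L E D p _ hFG hp0 hp1 (hρ s hs)).1).2.2.1
  have hGc : ∀ a b : V, Continuous (fun s : ℝ => GK L E p (fun y => Real.exp (-(s * φ y))) a b) := by
    intro a b
    rw [continuous_iff_continuousAt]
    intro s
    exact (der_GK L E p φ a b s).continuousAt
  have hHc : ∀ a b : V, ContinuousOn (fun s : ℝ =>
      HK L E p (fun y => Real.exp (-(s * φ y))) a b) (Set.Ici 0) := by
    intro a b
    exact der_kinv_cont L (fun s => GK L E p (fun y => Real.exp (-(s * φ y)))) hGc hI a b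
  have hSc : ∀ (k : V → ℝ) (a b : V), ContinuousOn (fun s : ℝ =>
      SK L E p (fun y => Real.exp (-(s * φ y))) k a b) (Set.Ici 0) := by
    intro k a b
    unfold SK kk
    refine continuousOn_finset_sum _ (fun w _ => (hHc a w).mul ?_)
    refine continuousOn_finset_sum _ (fun w' _ => ?_)
    exact (der_GT_cont L E p φ k w w').continuousOn.mul (hHc w' b)
  have hder : ∀ s : ℝ, 0 < s → HasDerivAt (fun s : ℝ =>
      HK L E p (fun y => Real.exp (-(s * φ y))) u v)
      (SK L E p (fun y => Real.exp (-(s * φ y))) φ u v) s := by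
    intro s hs
    have hpos : ∀ᶠ t in 𝓝[≠] s, 0 < t :=
      nhdsWithin_le_nhds (eventually_gt_nhds hs)
    by_cases huv : u ∈ L ∧ v ∈ L
    · rw [hasDerivAt_iff_tendsto_slope]
      have hlim : Tendsto (fun t : ℝ => ∑ a ∈ L, ∑ b ∈ L,
          HK L E p (fun y => Real.exp (-(t * φ y))) u a *
            ((-(slope (fun s : ℝ => GK L E p (fun y => Real.exp (-(s * φ y))) a b) s t)) *
              HK L E p (fun y => Real.exp (-(s * φ y))) b v)) (𝓝[≠] s)
          (𝓝 (∑ a ∈ L, ∑ b ∈ L, HK L E p (fun y => Real.exp (-(s * φ y))) u a *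
            ((-(- GT L E p (fun y => Real.exp (-(s * φ y))) φ a b)) *
              HK L E p (fun y => Real.exp (-(s * φ y))) b v))) := by
        refine tendsto_finset_sum _ (fun a _ => tendsto_finset_sum _ (fun b _ => ?_))
        refine Tendsto.mul ?_ (Tendsto.mul ?_ tendsto_const_nhds)
        · have hc : ContinuousAt (fun s : ℝ => HK L E p (fun y => Real.exp (-(s * φ y))) u a) s :=
            (hHc u a).continuousAt (Ici_mem_nhds hs)
          exact hc.tendsto.mono_left nhdsWithin_le_nhds
        · exact (hasDerivAt_iff_tendsto_slope.mp (der_GK L E p φ a b s)).neg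
      have hval : ∑ a ∈ L, ∑ b ∈ L, HK L E p (fun y => Real.exp (-(s * φ y))) u a *
            ((-(- GT L E p (fun y => Real.exp (-(s * φ y))) φ a b)) *
              HK L E p (fun y => Real.exp (-(s * φ y))) b v) =
          SK L E p (fun y => Real.exp (-(s * φ y))) φ u v := by
        unfold SK kk
        refine Finset.sum_congr rfl (fun a _ => ?_)
        rw [← Finset.mul_sum]
        refine congrArg _ (Finset.sum_congr rfl (fun b _ => ?_))
        rw [neg_neg]
      rw [hval] at hlim
      refine hlim.congr' ?_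
      filter_upwards [hpos, self_mem_nhdsWithin] with t ht hts
      have hts' : t - s ≠ 0 := sub_ne_zero.mpr hts
      have hd := der_diff L _ _ _ _ (hI s hs.le) (hI t ht.le) u v huv.1 huv.2
      rw [slope_def_field, hd, Finset.sum_div]
      refine Finset.sum_congr rfl (fun a _ => ?_)
      rw [Finset.sum_div]
      refine Finset.sum_congr rfl (fun b _ => ?_)
      rw [slope_def_field]
      field_simp
      ring
    · have hz : u ∉ L ∨ v ∉ L := by tauto
      have hS : SK L E p (fun y => Real.exp (-(s * φ y))) φ u v = 0 := by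
        unfold SK kk
        refine Finset.sum_eq_zero (fun a _ => ?_)
        rcases hz with hz | hz
        · rw [h0 s hs.le u a (Or.inl hz), zero_mul]
        · have : ∑ w ∈ L, GT L E p (fun y => Real.exp (-(s * φ y))) φ a w *
              HK L E p (fun y => Real.exp (-(s * φ y))) w v = 0 := by
            refine Finset.sum_eq_zero (fun b _ => ?_)
            rw [h0 s hs.le b v (Or.inr hz), mul_zero]
          rw [this, mul_zero]
      rw [hS]
      have hev : (fun s : ℝ => HK L E p (fun y => Real.exp (-(s * φ y))) u v) =ᶠ[𝓝 s]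
          fun _ => (0 : ℝ) := by
        filter_upwards [eventually_gt_nhds hs] with t ht
        exact h0 t ht.le u v hz
      exact (hasDerivAt_const s (0 : ℝ)).congr_of_eventuallyEq hev
  refine ⟨hGc u v, fun k => hSc k u v, ?_⟩
  intro θ hθ
  have hint : IntervalIntegrable (fun s : ℝ =>
      SK L E p (fun y => Real.exp (-(s * φ y))) φ u v) volume 0 θ := by
    apply ContinuousOn.intervalIntegrable
    rw [Set.uIcc_of_le hθ]
    exact (hSc φ u v).mono Set.Icc_subset_Ici_self
  have hft := intervalIntegral.integral_eq_sub_of_hasDerivAt_of_le hθ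
    ((hHc u v).mono Set.Icc_subset_Ici_self)
    (fun s hs => hder s hs.1) hint
  rw [hft]
  have hone : (fun y : V => Real.exp (-(0 * φ y))) = fun _ => (1 : ℝ) := by
    funext y
    simp
  rw [hone]
  ring

end Pool.CL
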