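import Pool.Agent.Helper65.CL.StD
import Pool.Agent.Helper22.NL.M_Bn
import Pool.Agent.Helper84.LE.M_Box

/-! MP_65faa7, project CL: module Grad (local regularity of `y_θ` in average). -/

set_option autoImplicit false

open scoped BigOperators ENNReal Topology
open Pool.LE Pool.NL Filter MeasureTheory

namespace Pool.CL

theorem grad_card (d n : ℕ) : ((Bn d n).card : ℝ) = (n : ℝ) ^ d := by
  obtain ⟨-, h, -⟩ := hBn hBox d n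
  rw [h]
  push_cast
  rfl

theorem grad_ind_sq (A : Prop) : ind A ^ 2 = ind A := by
  unfold ind
  by_cases h : A <;> simp [h]

/-- Cauchy-Schwarz in the box -/
theorem grad_cs (d n : ℕ) (A : Zd d → Prop) (f : Zd d → ℝ) :
    (∑ x ∈ Bn d n, ind (A x) * |f x|) ^ 2 ≤ (n : ℝ) ^ d * ∑ x ∈ Bn d n, ind (A x) * (f x) ^ 2 := by
  have h1 := Finset.sum_mul_sq_le_sq_mul_sq (Bn d n) (fun _ => (1 : ℝ)) (fun x => ind (A x) * |f x|)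
  have h2 : ∑ x ∈ Bn d n, (ind (A x) * |f x|) ^ 2 = ∑ x ∈ Bn d n, ind (A x) * (f x) ^ 2 := by
    refine Finset.sum_congr rfl fun x _ => ?_
    rw [mul_pow, grad_ind_sq, sq_abs]
  have h3 : ∑ _x ∈ Bn d n, (1 : ℝ) ^ 2 = (n : ℝ) ^ d := by
    rw [one_pow, Finset.sum_const, nsmul_eq_mul, mul_one, grad_card]
  rw [h2, h3] at h1
  have h4 : ∑ x ∈ Bn d n, (1 : ℝ) * (ind (A x) * |f x|) = ∑ x ∈ Bn d n, ind (A x) * |f x| :=
    Finset.sum_congr rfl fun x _ => one_mul _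
  rwa [h4] at h1

theorem hGrad (hReg : StReg) (hY : StY) : StGrad := by
  intro d C₁ B c₀ CL hE z ε hε
  obtain ⟨C, hC0, hC⟩ := hReg d C₁ B c₀ CL hE
  have hd : 21 ≤ d := hE.env.hd
  have hC1 : 1 ≤ C₁ := hE.env.hC
  have hC1' : 0 ≤ C₁ := by linarith
  set K : ℝ := C * (1 + (nrm z : ℝ)) ^ 2 * (C₁ + C₁ ^ 2) with hK
  have hK0 : 0 ≤ K := by positivity
  obtain ⟨n₀, hn₀⟩ := exists_nat_ge (K / ε ^ 2)
  refine ⟨max 1 n₀, le_max_left _ _, ?_⟩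
  intro n hn θ ψ h0 h1 hψ
  have hn1 : 1 ≤ n := (le_max_left _ _).trans hn
  have hnK : K / ε ^ 2 ≤ n := by
    refine hn₀.trans ?_
    exact_mod_cast (le_max_right 1 n₀).trans hn
  have hn1' : (1 : ℝ) ≤ n := by exact_mod_cast hn1
  have hnpos : (0 : ℝ) < n := by linarith
  obtain ⟨-, hy⟩ := hY d C₁ B c₀ CL hE n ψ hn1 hψ
  have hms : ∀ S : Finset (Zd d), 0 ≤ ms ψ S := fun S => Finset.sum_nonneg fun y _ => (hψ y).1
  have hw : ∀ S : Finset (Zd d), 0 ≤ Real.exp (-(θ * ms ψ S / (n : ℝ) ^ 4)) ∧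
      Real.exp (-(θ * ms ψ S / (n : ℝ) ^ 4)) ≤ 1 := by
    intro S
    refine ⟨(Real.exp_pos _).le, Real.exp_le_one_iff.2 ?_⟩
    have h2 := hms S
    have h3 : 0 ≤ θ * ms ψ S / (n : ℝ) ^ 4 := by positivity
    linarith
  have hu : ∀ x ∈ Bn d n, (n : ℝ) ^ 2 * yx d n θ ψ x = eb d n (fun ω =>
      Real.exp (-(θ * ms ψ (cb d n ω x) / (n : ℝ) ^ 4)) * ms ψ (cb d n ω x)) := by
    intro x hx
    rw [(hy θ x h0 h1 hx).2.2]
    field_simp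
  have ha : ∀ x ∈ Bn d n, |(n : ℝ) ^ 2 * yx d n θ ψ x| ≤ C₁ * (n : ℝ) ^ 2 := by
    intro x hx
    obtain ⟨h2, h3, -⟩ := hy θ x h0 h1 hx
    rw [abs_of_nonneg (by positivity), mul_comm]
    exact mul_le_mul_of_nonneg_right h3 (by positivity)
  have key := hC n ψ (fun S => Real.exp (-(θ * ms ψ S / (n : ℝ) ^ 4)))
    (fun x => (n : ℝ) ^ 2 * yx d n θ ψ x) 1 (C₁ * (n : ℝ) ^ 2) hn1 hψ zero_le_one (by positivity)
    hw hu ha z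
  set S : ℝ := ∑ x ∈ Bn d n, ind (x + z ∈ Bn d n) * (yx d n θ ψ (x + z) - yx d n θ ψ x) ^ 2 with hS
  have e1 : ∑ x ∈ Bn d n, ind (x + z ∈ Bn d n) * ((n : ℝ) ^ 2 * yx d n θ ψ (x + z) -
      (n : ℝ) ^ 2 * yx d n θ ψ x) ^ 2 = (n : ℝ) ^ 4 * S := by
    rw [hS, Finset.mul_sum]
    refine Finset.sum_congr rfl fun x _ => ?_
    ring
  have e2 : ∑ x ∈ Bn d n, ψ x * ((n : ℝ) ^ 2 * yx d n θ ψ x) ≤ (n : ℝ) ^ d * ((n : ℝ) ^ 2 * C₁) := by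
    calc ∑ x ∈ Bn d n, ψ x * ((n : ℝ) ^ 2 * yx d n θ ψ x)
        ≤ ∑ _x ∈ Bn d n, (n : ℝ) ^ 2 * C₁ := by
          refine Finset.sum_le_sum fun x hx => ?_
          obtain ⟨h2, h3, -⟩ := hy θ x h0 h1 hx
          calc ψ x * ((n : ℝ) ^ 2 * yx d n θ ψ x) ≤ 1 * ((n : ℝ) ^ 2 * yx d n θ ψ x) :=
                mul_le_mul_of_nonneg_right (hψ x).2 (by positivity)
            _ = (n : ℝ) ^ 2 * yx d n θ ψ x := one_mul _
            _ ≤ (n : ℝ) ^ 2 * C₁ := mul_le_mul_of_nonneg_left h3 (by positivity)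
      _ = (n : ℝ) ^ d * ((n : ℝ) ^ 2 * C₁) := by
          rw [Finset.sum_const, nsmul_eq_mul, grad_card]
  obtain ⟨e, rfl⟩ : ∃ e, d = e + 1 := ⟨d - 1, by omega⟩
  have e3 : (n : ℝ) ^ 4 * S ≤ (n : ℝ) ^ 4 * (K * (n : ℝ) ^ e) := by
    have h5 : (n : ℝ) ^ 4 * S ≤ C * (1 + (nrm z : ℝ)) ^ 2 *
        (1 * ∑ x ∈ Bn (e + 1) n, ψ x * ((n : ℝ) ^ 2 * yx (e + 1) n θ ψ x) +
          (C₁ * (n : ℝ) ^ 2) ^ 2 * (n : ℝ) ^ (e + 1 - 1)) := by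
      rw [← e1]
      exact key
    have h6 : (n : ℝ) ^ (e + 1) * ((n : ℝ) ^ 2 * C₁) ≤ C₁ * (n : ℝ) ^ (e + 4) := by
      have h7 : (n : ℝ) ^ (e + 3) ≤ (n : ℝ) ^ (e + 4) := pow_le_pow_right₀ hn1' (by omega)
      calc (n : ℝ) ^ (e + 1) * ((n : ℝ) ^ 2 * C₁) = C₁ * (n : ℝ) ^ (e + 3) := by ring
        _ ≤ C₁ * (n : ℝ) ^ (e + 4) := mul_le_mul_of_nonneg_left h7 hC1'
    have h8 : (C₁ * (n : ℝ) ^ 2) ^ 2 * (n : ℝ) ^ (e + 1 - 1) = C₁ ^ 2 * (n : ℝ) ^ (e + 4) := by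
      rw [Nat.add_sub_cancel]
      ring
    calc (n : ℝ) ^ 4 * S ≤ _ := h5
      _ ≤ C * (1 + (nrm z : ℝ)) ^ 2 * (C₁ * (n : ℝ) ^ (e + 4) + C₁ ^ 2 * (n : ℝ) ^ (e + 4)) := by
          refine mul_le_mul_of_nonneg_left ?_ (by positivity)
          rw [h8, one_mul]
          exact add_le_add (e2.trans h6) le_rfl
      _ = (n : ℝ) ^ 4 * (K * (n : ℝ) ^ e) := by
          rw [hK]
          ring
  have e4 : S ≤ K * (n : ℝ) ^ e := le_of_mul_le_mul_left e3 (by positivity)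
  have e5 := grad_cs (e + 1) n (fun x => x + z ∈ Bn (e + 1) n)
    (fun x => yx (e + 1) n θ ψ (x + z) - yx (e + 1) n θ ψ x)
  set A : ℝ := ∑ x ∈ Bn (e + 1) n, ind (x + z ∈ Bn (e + 1) n) *
    |yx (e + 1) n θ ψ (x + z) - yx (e + 1) n θ ψ x| with hA
  have e6 : A ^ 2 ≤ (n : ℝ) ^ (e + 1) * (K * (n : ℝ) ^ e) :=
    e5.trans (mul_le_mul_of_nonneg_left e4 (by positivity))
  have hKn : K ≤ ε ^ 2 * n := by
    rw [div_le_iff₀ (by positivity)] at hnK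
    linarith [mul_comm (n : ℝ) (ε ^ 2)]
  have e7 : A ^ 2 ≤ (ε * (n : ℝ) ^ (e + 1)) ^ 2 := by
    calc A ^ 2 ≤ (n : ℝ) ^ (e + 1) * (K * (n : ℝ) ^ e) := e6
      _ ≤ (n : ℝ) ^ (e + 1) * (ε ^ 2 * n * (n : ℝ) ^ e) := by
          refine mul_le_mul_of_nonneg_left ?_ (by positivity)
          exact mul_le_mul_of_nonneg_right hKn (by positivity)
      _ = (ε * (n : ℝ) ^ (e + 1)) ^ 2 := by ring
  have e8 : A ≤ ε * (n : ℝ) ^ (e + 1) := by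
    refine le_of_sq_le_sq ?_ (by positivity)
    exact e7
  show A / (n : ℝ) ^ (e + 1) ≤ ε
  rw [div_le_iff₀ (by positivity)]
  exact e8

end Pool.CL
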