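import Pool.Agent.Helper65.CL.StB

/-! # Project CL (MP_65faa7): module Hinv (inverse of a positive definite kernel) -/

set_option autoImplicit false
set_option linter.unusedSectionVars false

open scoped BigOperators ENNReal Topology
open Pool.LE Pool.NL Filter MeasureTheory

namespace Pool.CL

namespace HinvM

variable {V : Type} [DecidableEq V]

/-- the kernel restricted to `L` as a matrix -/
def mat (L : Finset V) (S : V → V → ℝ) : Matrix {x // x ∈ L} {x // x ∈ L} ℝ :=
  Matrix.of fun a b => S a.1 b.1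

open Classical in
theorem kinv_eq {L : Finset V} (S : V → V → ℝ) {u v : V} (hu : u ∈ L) (hv : v ∈ L) :
    kinv L S u v = (mat L S)⁻¹ ⟨u, hu⟩ ⟨v, hv⟩ := by
  unfold kinv mat
  rw [dif_pos ⟨hu, hv⟩]

theorem kinv_out {L : Finset V} (S : V → V → ℝ) {u v : V} (h : u ∉ L ∨ v ∉ L) :
    kinv L S u v = 0 := by
  unfold kinv
  rw [dif_neg]
  rintro ⟨h1, h2⟩
  rcases h with h | h
  · exact h h1
  · exact h h2

open Classical in
theorem det_ne {L : Finset V} {S : V → V → ℝ} (h : PD L S) : (mat L S).det ≠ 0 := by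
  intro h0
  obtain ⟨v, hv, hM⟩ := Matrix.exists_mulVec_eq_zero_iff.2 h0
  obtain ⟨a, ha⟩ := Function.ne_iff.1 hv
  have h1 := h.pos (fun x => if hx : x ∈ L then v ⟨x, hx⟩ else 0) ⟨a.1, a.2, by
    rw [dif_pos a.2]
    exact ha⟩
  have h2 : ∑ x ∈ L, ∑ y ∈ L, (if hx : x ∈ L then v ⟨x, hx⟩ else 0) * S x y *
      (if hy : y ∈ L then v ⟨y, hy⟩ else 0) = 0 := by
    rw [← Finset.sum_attach]
    refine Finset.sum_eq_zero fun x _ => ?_
    have h3 : ∑ y ∈ L, S x.1 y * (if hy : y ∈ L then v ⟨y, hy⟩ else 0) = 0 := by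
      rw [← Finset.sum_attach]
      have h4 := congrFun hM x
      rw [Pi.zero_apply] at h4
      rw [← h4]
      unfold Matrix.mulVec dotProduct
      rw [← Finset.univ_eq_attach]
      refine Finset.sum_congr rfl fun y _ => ?_
      rw [dif_pos y.2]
      rfl
    rw [Finset.sum_congr rfl fun y _ => mul_assoc _ _ _, ← Finset.mul_sum, h3, mul_zero]
  rw [h2] at h1
  exact lt_irrefl _ h1

open Classical in
theorem sum_mat {L : Finset V} (A B : Matrix {x // x ∈ L} {x // x ∈ L} ℝ) (f g : V → V → ℝ)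
    (hf : ∀ a b : {x // x ∈ L}, f a.1 b.1 = A a b) (hg : ∀ a b : {x // x ∈ L}, g a.1 b.1 = B a b)
    (u v : {x // x ∈ L}) : kk L f g u.1 v.1 = (A * B) u v := by
  unfold kk
  rw [Matrix.mul_apply, ← Finset.sum_attach, ← Finset.univ_eq_attach]
  exact Finset.sum_congr rfl fun w _ => by rw [hf, hg]

theorem one_ind {L : Finset V} [DecidableEq {x // x ∈ L}] (u v : {x // x ∈ L}) :
    (1 : Matrix {x // x ∈ L} {x // x ∈ L} ℝ) u v = ind (u.1 = v.1) := by
  unfold ind
  by_cases h : u = v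
  · subst h
    simp
  · have h1 : u.1 ≠ v.1 := fun h' => h (Subtype.ext h')
    rw [Matrix.one_apply_ne h, if_neg h1]

end HinvM

open HinvM in
open Classical in
theorem hHinv : StHinv := by
  intro V _ L S h
  have hdet : IsUnit (mat L S).det := isUnit_iff_ne_zero.2 (det_ne h)
  have hk : ∀ a b : {x // x ∈ L}, kinv L S a.1 b.1 = (mat L S)⁻¹ a b :=
    fun a b => kinv_eq S a.2 b.2
  have hs : ∀ a b : {x // x ∈ L}, S a.1 b.1 = mat L S a b := fun a b => rfl
  have hsym : (mat L S).transpose = mat L S := by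
    ext a b
    exact h.symm b.1 b.2 a.1 a.2
  refine ⟨?_, ?_, fun u v huv => kinv_out S huv, ?_⟩
  · intro u hu v hv
    constructor
    · rw [sum_mat (mat L S) (mat L S)⁻¹ S (kinv L S) hs hk ⟨u, hu⟩ ⟨v, hv⟩,
        Matrix.mul_nonsing_inv _ hdet]
      exact one_ind _ _
    · rw [sum_mat (mat L S)⁻¹ (mat L S) (kinv L S) S hk hs ⟨u, hu⟩ ⟨v, hv⟩,
        Matrix.nonsing_inv_mul _ hdet]
      exact one_ind _ _
  · intro u v
    by_cases hu : u ∈ L
    · by_cases hv : v ∈ L
      · rw [kinv_eq S hu hv, kinv_eq S hv hu]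
        have h1 : ((mat L S)⁻¹).transpose = (mat L S)⁻¹ := by
          rw [Matrix.transpose_nonsing_inv, hsym]
        have h2 := congrFun (congrFun h1 ⟨v, hv⟩) ⟨u, hu⟩
        rw [Matrix.transpose_apply] at h2
        exact h2
      · rw [kinv_out S (Or.inr hv), kinv_out S (Or.inl hv)]
    · rw [kinv_out S (Or.inl hu), kinv_out S (Or.inr hu)]
  · intro B hB u hu v hv
    rw [kinv_eq S hu hv]
    have h1 : (mat L B) * (mat L S) = 1 := by
      ext a b
      rw [← sum_mat (mat L B) (mat L S) B S (fun _ _ => rfl) hs a b, (hB a.1 a.2 b.1 b.2).2]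
      exact (one_ind a b).symm
    rw [Matrix.inv_eq_left_inv h1]
    rfl

end Pool.CL
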