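import Pool.Agent.Helper65.CL.StD

/-! Project CL, module Loc1: a kernel with bounded second moment applied to `y` is almost diagonal. -/

set_option autoImplicit false

open scoped BigOperators ENNReal Topology
open Pool.LE Pool.NL Filter MeasureTheory

namespace Pool.CL

namespace Loc1M

theorem card_Bn (d n : ℕ) : ((Bn d n).card : ℝ) = (n : ℝ) ^ d := by
  unfold Bn
  rw [Fintype.card_piFinset]
  simp

theorem sum_shift {d : ℕ} (n r : ℕ) (u : Zd d) (g : Zd d → ℝ)
    (hb : ∀ z : Zd d, z ∈ bx d r ↔ nrm z ≤ r) :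
    ∑ v ∈ Bn d n, (if nrm (v - u) ≤ r then g v else 0) =
      ∑ z ∈ bx d r, ind (u + z ∈ Bn d n) * g (u + z) := by
  classical
  have e : ∀ z : Zd d, ind (u + z ∈ Bn d n) * g (u + z) =
      if u + z ∈ Bn d n then g (u + z) else 0 := by
    intro z
    unfold ind
    by_cases h : u + z ∈ Bn d n
    · rw [if_pos h, if_pos h, one_mul]
    · rw [if_neg h, if_neg h, zero_mul]
  rw [Finset.sum_congr rfl (fun z _ => e z), ← Finset.sum_filter, ← Finset.sum_filter]
  apply Finset.sum_nbij' (fun v => v - u) (fun z => u + z)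
  · intro v hv
    rw [Finset.mem_filter] at hv ⊢
    rw [hb]
    refine ⟨hv.2, ?_⟩
    rw [add_sub_cancel]
    exact hv.1
  · intro z hz
    rw [Finset.mem_filter] at hz ⊢
    rw [hb] at hz
    refine ⟨hz.2, ?_⟩
    rw [add_sub_cancel_left]
    exact hz.1
  · intro v _
    rw [add_sub_cancel]
  · intro z _
    rw [add_sub_cancel_left]
  · intro v _
    rw [add_sub_cancel]

end Loc1M

open Loc1M

theorem hLoc1 (hBd : StBd) (hY : StY) (hGrad : StGrad) : StLoc1 := by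
  classical
  intro d C₁ B c₀ CL hE K ε hK hε
  have hd : 1 ≤ d := le_trans (by norm_num) hE.env.hd
  have hC : 0 < C₁ := lt_of_lt_of_le zero_lt_one hE.env.hC
  obtain ⟨-, -, hb1, -, -, hb2⟩ := hBd d hd
  -- the radius
  obtain ⟨r, hr⟩ := exists_nat_gt (2 * C₁ * K / ε)
  have hr1 : 1 ≤ r := by
    have h : (0 : ℝ) < r := lt_trans (by positivity) hr
    exact_mod_cast h
  have hr1' : (1 : ℝ) ≤ r := by exact_mod_cast hr1
  have hrq : C₁ * K / (1 + (r : ℝ) ^ 2) ≤ ε / 2 := by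
    rw [div_le_iff₀ (by positivity)]
    rw [div_lt_iff₀ hε] at hr
    have h1 : (r : ℝ) ≤ 1 + (r : ℝ) ^ 2 := by nlinarith
    have h2 := mul_le_mul_of_nonneg_left h1 hε.le
    linarith
  -- the small parameter
  set ε' : ℝ := ε / (2 * (K * ((bx d r).card + 1))) with hε'
  have hε'0 : 0 < ε' := by positivity
  have hg := fun z => hGrad d C₁ B c₀ CL hE z ε' hε'0
  choose N _ hN2 using hg
  refine ⟨max ((bx d r).sup N) 1, le_max_right _ _, ?_⟩
  intro n hn θ ψ S hθ0 hθ1 hψ hS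
  have hn1 : 1 ≤ n := le_trans (le_max_right _ _) hn
  have hn0 : (0 : ℝ) < n := by exact_mod_cast hn1
  have hnd : (0 : ℝ) < (n : ℝ) ^ d := by positivity
  have hNz : ∀ z ∈ bx d r, N z ≤ n := fun z hz =>
    le_trans (Finset.le_sup hz) (le_trans (le_max_left _ _) hn)
  have hy := fun x hx => (hY d C₁ B c₀ CL hE n ψ hn1 hψ).2 θ x hθ0 hθ1 hx
  -- pointwise
  have hpt : ∀ u ∈ Bn d n, ∑ v ∈ Bn d n, |S u v| * |yx d n θ ψ v - yx d n θ ψ u| ≤
      K * (∑ z ∈ bx d r, ind (u + z ∈ Bn d n) * |yx d n θ ψ (u + z) - yx d n θ ψ u|) +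
        C₁ * K / (1 + (r : ℝ) ^ 2) := by
    intro u hu
    have h1 : ∀ v ∈ Bn d n, |S u v| * |yx d n θ ψ v - yx d n θ ψ u| ≤
        K * (if nrm (v - u) ≤ r then |yx d n θ ψ v - yx d n θ ψ u| else 0) +
          (C₁ / (1 + (r : ℝ) ^ 2)) * (Qw (v - u) * |S u v|) := by
      intro v hv
      have hq := hb2 (v - u)
      have hq2 : (2 : ℝ) ≤ Qw (v - u) := by nlinarith [sq_nonneg (nrm (v - u) : ℝ)]
      have hs0 : 0 ≤ |S u v| := abs_nonneg _
      have hqs : Qw (v - u) * |S u v| ≤ K := by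
        refine le_trans ?_ (hS u hu)
        apply Finset.single_le_sum (f := fun v => Qw (v - u) * |S u v|) _ hv
        intro w _
        have hq' := hb2 (w - u)
        have : (0 : ℝ) ≤ Qw (w - u) := by nlinarith [sq_nonneg (nrm (w - u) : ℝ)]
        exact mul_nonneg this (abs_nonneg _)
      have hsK : |S u v| ≤ K := by nlinarith
      by_cases hnr : nrm (v - u) ≤ r
      · rw [if_pos hnr]
        have h2 : |S u v| * |yx d n θ ψ v - yx d n θ ψ u| ≤ K * |yx d n θ ψ v - yx d n θ ψ u| :=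
          mul_le_mul_of_nonneg_right hsK (abs_nonneg _)
        have h3 : 0 ≤ (C₁ / (1 + (r : ℝ) ^ 2)) * (Qw (v - u) * |S u v|) := by positivity
        linarith
      · rw [if_neg hnr, mul_zero, zero_add]
        have hyv := hy v hv
        have hyu := hy u hu
        have h2 : |yx d n θ ψ v - yx d n θ ψ u| ≤ C₁ := by
          rw [abs_le]
          constructor
          · linarith [hyv.1, hyu.2.1]
          · linarith [hyv.2.1, hyu.1]
        have hrr : (r : ℝ) ≤ nrm (v - u) := by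
          have : r ≤ nrm (v - u) := by omega
          exact_mod_cast this
        have hq3 : (1 + (r : ℝ) ^ 2) ≤ Qw (v - u) := by nlinarith
        have h4 : |S u v| ≤ (Qw (v - u) * |S u v|) / (1 + (r : ℝ) ^ 2) := by
          rw [le_div_iff₀ (by positivity), mul_comm]
          exact mul_le_mul_of_nonneg_right hq3 hs0
        calc |S u v| * |yx d n θ ψ v - yx d n θ ψ u| ≤ |S u v| * C₁ :=
              mul_le_mul_of_nonneg_left h2 hs0
          _ ≤ ((Qw (v - u) * |S u v|) / (1 + (r : ℝ) ^ 2)) * C₁ :=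
              mul_le_mul_of_nonneg_right h4 hC.le
          _ = (C₁ / (1 + (r : ℝ) ^ 2)) * (Qw (v - u) * |S u v|) := by ring
    refine (Finset.sum_le_sum h1).trans ?_
    rw [Finset.sum_add_distrib, ← Finset.mul_sum, ← Finset.mul_sum,
      sum_shift n r u (fun v => |yx d n θ ψ v - yx d n θ ψ u|) (fun z => hb1 r z)]
    apply add_le_add le_rfl
    calc (C₁ / (1 + (r : ℝ) ^ 2)) * ∑ v ∈ Bn d n, Qw (v - u) * |S u v|
        ≤ (C₁ / (1 + (r : ℝ) ^ 2)) * K := mul_le_mul_of_nonneg_left (hS u hu) (by positivity)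
      _ = C₁ * K / (1 + (r : ℝ) ^ 2) := by ring
  -- averages
  have hsum : ∑ u ∈ Bn d n, ∑ v ∈ Bn d n, |S u v| * |yx d n θ ψ v - yx d n θ ψ u| ≤
      K * (∑ z ∈ bx d r, ∑ u ∈ Bn d n,
        ind (u + z ∈ Bn d n) * |yx d n θ ψ (u + z) - yx d n θ ψ u|) +
        (n : ℝ) ^ d * (C₁ * K / (1 + (r : ℝ) ^ 2)) := by
    refine (Finset.sum_le_sum hpt).trans ?_
    rw [Finset.sum_add_distrib, ← Finset.mul_sum, Finset.sum_comm, Finset.sum_const, nsmul_eq_mul,
      card_Bn]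
  have hav : ∀ z ∈ bx d r, ∑ u ∈ Bn d n,
      ind (u + z ∈ Bn d n) * |yx d n θ ψ (u + z) - yx d n θ ψ u| ≤ ε' * (n : ℝ) ^ d := by
    intro z hz
    have h := hN2 z n (hNz z hz) θ ψ hθ0 hθ1 hψ
    unfold av at h
    rwa [div_le_iff₀ hnd] at h
  unfold av
  rw [div_le_iff₀ hnd]
  refine hsum.trans ?_
  have h5 : ∑ z ∈ bx d r, ∑ u ∈ Bn d n,
      ind (u + z ∈ Bn d n) * |yx d n θ ψ (u + z) - yx d n θ ψ u| ≤
      ((bx d r).card : ℝ) * (ε' * (n : ℝ) ^ d) := by
    refine (Finset.sum_le_sum hav).trans ?_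
    rw [Finset.sum_const, nsmul_eq_mul]
  have h6 : K * (((bx d r).card : ℝ) * ε') ≤ ε / 2 := by
    have e1 : K * (((bx d r).card : ℝ) + 1) * ε' = ε / 2 := by
      rw [hε']
      have : K * (((bx d r).card : ℝ) + 1) ≠ 0 := by positivity
      field_simp
    nlinarith
  calc K * (∑ z ∈ bx d r, ∑ u ∈ Bn d n,
        ind (u + z ∈ Bn d n) * |yx d n θ ψ (u + z) - yx d n θ ψ u|) +
        (n : ℝ) ^ d * (C₁ * K / (1 + (r : ℝ) ^ 2))
      ≤ K * (((bx d r).card : ℝ) * (ε' * (n : ℝ) ^ d)) +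
        (n : ℝ) ^ d * (C₁ * K / (1 + (r : ℝ) ^ 2)) :=
        add_le_add (mul_le_mul_of_nonneg_left h5 hK.le) le_rfl
    _ = (K * (((bx d r).card : ℝ) * ε') + C₁ * K / (1 + (r : ℝ) ^ 2)) * (n : ℝ) ^ d := by ring
    _ ≤ ε * (n : ℝ) ^ d := by
        apply mul_le_mul_of_nonneg_right _ hnd.le
        linarith

end Pool.CL
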