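import Pool.Agent.Helper65.CL.StB
import Pool.Agent.Helper22.NL.M_Basic
import Pool.Agent.Helper22.NL.M_Clu
import Pool.Agent.Helper22.NL.M_Hh
import Pool.Agent.Helper22.NL.M_Bn
import Pool.Agent.Helper84.LE.M_Box

/-!
# Project CL (MP_65faa7), module Loc3: local limit of the three-point function
-/

set_option autoImplicit false

open scoped BigOperators ENNReal Topology
open Pool.LE Pool.NL Filter MeasureTheory

namespace Pool.CL

namespace Loc3M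

theorem esmono {d : ℕ} {S S' : Finset (Zd d)} (h : S ⊆ S') : ES S ⊆ ES S' := by
  obtain ⟨-, -, -, -, -, -, -, hES, -⟩ := hBox d
  intro e he
  induction e using Sym2.ind with
  | _ a b =>
    rw [hES] at he ⊢
    exact ⟨h he.1, h he.2.1, he.2.2⟩

theorem ind_nonneg (A : Prop) : 0 ≤ ind A := by
  unfold ind
  split_ifs <;> norm_num

theorem ind_le_one (A : Prop) : ind A ≤ 1 := by
  unfold ind
  split_ifs <;> norm_num

theorem ind_mono {A B : Prop} (h : A → B) : ind A ≤ ind B := by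
  unfold ind
  split_ifs with h1 h2
  · exact le_refl _
  · exact absurd (h h1) h2
  · norm_num
  · exact le_refl _

theorem con_mono' {V : Type} [DecidableEq V] {ω η : Finset (Sym2 V)} (h : ω ⊆ η) {a b : V}
    (hc : con ω a b) : con η a b := con_mono h hc

theorem rp_bounds {d n : ℕ} {θ : ℝ} {ψ : Zd d → ℝ} (h0 : 0 ≤ θ) (h1 : θ ≤ 1) (hψ : U01 ψ)
    (C : Finset (Zd d)) : rp (rho n θ ψ) C ≤ 1 ∧ 0 ≤ rp (rho n θ ψ) C ∧
      1 - rp (rho n θ ψ) C ≤ (C.card : ℝ) / (n : ℝ) ^ 4 := by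
  have e1 : rp (rho n θ ψ) C = Real.exp (∑ y ∈ C, -(θ * ψ y / (n : ℝ) ^ 4)) := by
    unfold rp rho
    rw [Real.exp_sum]
  have hn4 : (0 : ℝ) ≤ (n : ℝ) ^ 4 := by positivity
  have e2 : ∀ y, 0 ≤ θ * ψ y / (n : ℝ) ^ 4 ∧ θ * ψ y / (n : ℝ) ^ 4 ≤ 1 / (n : ℝ) ^ 4 := by
    intro y
    obtain ⟨h2, h3⟩ := hψ y
    refine ⟨by positivity, ?_⟩
    gcongr
    nlinarith
  have e3 : ∑ y ∈ C, -(θ * ψ y / (n : ℝ) ^ 4) ≤ 0 :=
    Finset.sum_nonpos fun y _ => by linarith [(e2 y).1]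
  have e4 : -((C.card : ℝ) / (n : ℝ) ^ 4) ≤ ∑ y ∈ C, -(θ * ψ y / (n : ℝ) ^ 4) := by
    rw [Finset.sum_neg_distrib, neg_le_neg_iff]
    calc ∑ y ∈ C, θ * ψ y / (n : ℝ) ^ 4 ≤ ∑ _y ∈ C, 1 / (n : ℝ) ^ 4 :=
          Finset.sum_le_sum fun y _ => (e2 y).2
      _ = (C.card : ℝ) / (n : ℝ) ^ 4 := by
          rw [Finset.sum_const, nsmul_eq_mul]
          ring
  refine ⟨?_, ?_, ?_⟩
  · rw [e1]
    exact Real.exp_le_one_iff.2 e3
  · rw [e1]
    exact (Real.exp_pos _).le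
  · rw [e1]
    have := Real.add_one_le_exp (∑ y ∈ C, -(θ * ψ y / (n : ℝ) ^ 4))
    linarith

/-- the weight does not matter -/
theorem weight_bound (hBx : StBx) {d : ℕ} {C₁ B c₀ CL : ℝ} (hE : EnvC d C₁ B c₀ CL) :
    ∃ n₀ : ℕ, 1 ≤ n₀ ∧ ∀ n : ℕ, n₀ ≤ n → ∀ (θ : ℝ) (ψ : Zd d → ℝ), 0 ≤ θ → θ ≤ 1 → U01 ψ →
      ∀ (a : Zd d) (A : Finset (Sym2 (Zd d)) → Prop), a ∈ Bn d n →
        |eb d n (fun ω => ind (A ω) * rp (rho n θ ψ) (cb d n ω a)) -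
          eb d n (fun ω => ind (A ω))| ≤ C₁ / (n : ℝ) ^ 2 := by
  obtain ⟨n₀, hn₀, hbx⟩ := hBx d C₁ B c₀ CL hE
  refine ⟨n₀, hn₀, fun n hn θ ψ h0 h1 hψ a A ha => ?_⟩
  obtain ⟨-, -, -, -, hG, -⟩ := hbx n hn θ ψ h0 h1 hψ
  have p0 : 0 ≤ pH d := hE.env.p0.le
  have p1 : pH d ≤ 1 := by linarith [hE.env.p1]
  obtain ⟨bm, -, -, bs, bc, -⟩ := hBasic (Zd d) (ES (Bn d n)) (pH d) p0 p1
  obtain ⟨hFG, -⟩ := hBn hBox d n
  obtain ⟨hX, -⟩ := hHh hBasic hClu (Zd d) (Bn d n) (ES (Bn d n)) (2 * d) (pH d) hFG p0 p1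
  have hn1 : (1 : ℝ) ≤ n := by exact_mod_cast hn₀.trans hn
  have e1 : eb d n (fun ω => ind (A ω)) - eb d n (fun ω => ind (A ω) * rp (rho n θ ψ) (cb d n ω a)) =
      ex (ES (Bn d n)) (pH d) (fun ω => ind (A ω) - ind (A ω) * rp (rho n θ ψ) (cb d n ω a)) := by
    unfold eb
    rw [bs]
  have e2 : 0 ≤ ex (ES (Bn d n)) (pH d)
      (fun ω => ind (A ω) - ind (A ω) * rp (rho n θ ψ) (cb d n ω a)) := by
    have h2 := bm (fun _ => 0)
      (fun ω => ind (A ω) - ind (A ω) * rp (rho n θ ψ) (cb d n ω a)) (fun ω _ => by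
        obtain ⟨h3, h4, -⟩ := rp_bounds (n := n) h0 h1 hψ (cb d n ω a)
        have h5 := ind_nonneg (A ω)
        nlinarith)
    obtain ⟨-, bk, -⟩ := hBasic (Zd d) (ES (Bn d n)) (pH d) p0 p1
    rwa [bk 0] at h2
  have e3 : ex (ES (Bn d n)) (pH d)
      (fun ω => ind (A ω) - ind (A ω) * rp (rho n θ ψ) (cb d n ω a)) ≤
      1 / (n : ℝ) ^ 4 * hh (Bn d n) (ES (Bn d n)) (pH d) a := by
    rw [hX a, ← bc]
    refine bm _ _ fun ω _ => ?_
    obtain ⟨h3, h4, h5⟩ := rp_bounds (n := n) h0 h1 hψ (cb d n ω a)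
    have h6 := ind_nonneg (A ω)
    have h7 := ind_le_one (A ω)
    have h8 : ((cb d n ω a).card : ℝ) = (Xc (Bn d n) ω a : ℝ) := rfl
    have h9 : 1 / (n : ℝ) ^ 4 * (Xc (Bn d n) ω a : ℝ) = ((cb d n ω a).card : ℝ) / (n : ℝ) ^ 4 := by
      rw [h8]
      ring
    rw [h9]
    nlinarith
  have e4 : hh (Bn d n) (ES (Bn d n)) (pH d) a ≤ C₁ * (n : ℝ) ^ 2 := hG a ha
  have e5 : 1 / (n : ℝ) ^ 4 * hh (Bn d n) (ES (Bn d n)) (pH d) a ≤ C₁ / (n : ℝ) ^ 2 := by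
    calc 1 / (n : ℝ) ^ 4 * hh (Bn d n) (ES (Bn d n)) (pH d) a
        ≤ 1 / (n : ℝ) ^ 4 * (C₁ * (n : ℝ) ^ 2) := by gcongr
      _ = C₁ / (n : ℝ) ^ 2 := by
          field_simp
  rw [abs_sub_comm, e1, abs_of_nonneg e2]
  exact e3.trans e5

end Loc3M

open Loc3M

theorem hLoc3 (hTr : StTr) (hBd : StBd) (hDF : StDF) (hBx : StBx) : StLoc3 := by
  intro d C₁ B c₀ CL hE x y z
  have hd : 1 ≤ d := by
    have := hE.env.hd
    omega
  have p0 : 0 ≤ pH d := hE.env.p0.le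
  have p1 : pH d ≤ 1 := by linarith [hE.env.p1]
  obtain ⟨hT1, hT2, hT3, hT4⟩ := hTr d (pH d) p0 p1
  obtain ⟨-, -, hnrm, -⟩ := hBd d hd
  obtain ⟨hev, -, hok, -⟩ := hDF d hd
  obtain ⟨n₀, hn₀, hW⟩ := weight_bound hBx hE
  obtain ⟨-, -, -, -, -, -, -, -, hlat, hEb, hfin, -⟩ := hBox d
  have hindm : ∀ ω ω' : Finset (Sym2 (Zd d)), ω ⊆ ω' →
      ind (con ω x y ∧ con ω x z) ≤ ind (con ω' x y ∧ con ω' x z) := fun ω ω' h =>
    ind_mono fun h2 => ⟨con_mono h h2.1, con_mono h h2.2⟩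
  set s : ℕ → ℝ := fun R => ex (Eb d R) (pH d) (fun ω => ind (con ω x y ∧ con ω x z)) with hs
  have hmono : Monotone s := fun R R' h => hT3 _ _ _ (hEb R R' h) hindm
  have hle1 : ∀ R, s R ≤ 1 := by
    intro R
    obtain ⟨bm, bk, -⟩ := hBasic (Zd d) (Eb d R) (pH d) p0 p1
    have := bm (fun ω => ind (con ω x y ∧ con ω x z)) (fun _ => 1) (fun ω _ => ind_le_one _)
    rwa [bk 1] at this
  have hbdd : BddAbove (Set.range s) := ⟨1, by rintro _ ⟨R, rfl⟩; exact hle1 R⟩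
  have hlim : Tendsto s atTop (𝓝 (⨆ R, s R)) := tendsto_atTop_ciSup hmono hbdd
  refine ⟨⨆ R, s R, ?_⟩
  rw [Metric.tendsto_nhds]
  intro ε hε
  rw [hev]
  -- choose the distance
  obtain ⟨R₁, hR₁⟩ := (Metric.tendsto_atTop.1 hlim) (ε / 2) (by linarith)
  obtain ⟨N, hN⟩ := exists_nat_gt (2 * C₁ / ε)
  have hC1 : 1 ≤ C₁ := hE.env.hC
  refine ⟨max (max R₁ (nrm x)) (max n₀ (max N 1)), fun q hq => ?_⟩
  set R := max (max R₁ (nrm x)) (max n₀ (max N 1)) with hR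
  have hRR₁ : R₁ ≤ R := le_trans (le_max_left _ _) (le_max_left _ _)
  have hRx : nrm x ≤ R := le_trans (le_max_right _ _) (le_max_left _ _)
  have hRn : n₀ ≤ R := le_trans (le_max_left _ _) (le_max_right _ _)
  have hRN : N ≤ R := le_trans (le_trans (le_max_left _ _) (le_max_right _ _)) (le_max_right _ _)
  obtain ⟨hqn, -⟩ := hok R q hq
  obtain ⟨q0, q1, q2, q3⟩ := hq
  have hux : q.u + x ∈ Bn d q.n := q3 x ((hnrm R x).2 hRx)
  have hw := hW q.n (by omega) q.θ q.ψ q0 q1 q2 (q.u + x)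
    (fun ω => con ω (q.u + x) (q.u + y) ∧ con ω (q.u + x) (q.u + z)) hux
  -- the translated box
  set S' : Finset (Zd d) := (Bn d q.n).map (Equiv.addLeft (-q.u)).toEmbedding with hS'
  have hmap : S'.map (Equiv.addLeft q.u).toEmbedding = Bn d q.n := by
    ext w
    simp only [hS', Finset.mem_map, Equiv.coe_toEmbedding, Equiv.coe_addLeft]
    constructor
    · rintro ⟨_, ⟨v, hv, rfl⟩, rfl⟩
      rwa [add_neg_cancel_left]
    · intro hwB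
      exact ⟨-q.u + w, ⟨w, hwB, rfl⟩, by rw [add_neg_cancel_left]⟩
  have hE' : trE q.u (ES S') = ES (Bn d q.n) := by rw [hT4, hmap]
  have key : eb d q.n (fun ω => ind (con ω (q.u + x) (q.u + y) ∧ con ω (q.u + x) (q.u + z))) =
      ex (ES S') (pH d) (fun ω => ind (con ω x y ∧ con ω x z)) := by
    unfold eb
    rw [← hE', hT1]
    congr 1
    funext ω
    rw [hT2, hT2]
  have low : s R ≤ ex (ES S') (pH d) (fun ω => ind (con ω x y ∧ con ω x z)) := by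
    refine hT3 _ _ _ ?_ hindm
    refine esmono ?_
    intro w hwb
    rw [hS', Finset.mem_map]
    refine ⟨q.u + w, q3 w hwb, ?_⟩
    exact neg_add_cancel_left q.u w
  have up : ex (ES S') (pH d) (fun ω => ind (con ω x y ∧ con ω x z)) ≤ ⨆ R, s R := by
    obtain ⟨R', hR'⟩ := hfin (ES S') (hlat S')
    exact (hT3 _ _ _ hR' hindm).trans (le_ciSup hbdd R')
  have h1 := hR₁ R hRR₁
  rw [Real.dist_eq] at h1 ⊢
  have h2 : s R ≤ ⨆ R, s R := le_ciSup hbdd R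
  rw [abs_sub_comm, abs_of_nonneg (by linarith)] at h1
  have h3 : |ex (ES S') (pH d) (fun ω => ind (con ω x y ∧ con ω x z)) - ⨆ R, s R| < ε / 2 := by
    rw [abs_sub_comm, abs_of_nonneg (by linarith)]
    linarith
  rw [key] at hw
  have h4 : C₁ / (q.n : ℝ) ^ 2 ≤ ε / 2 := by
    have hqN : (N : ℝ) ≤ q.n := by exact_mod_cast (by omega : N ≤ q.n)
    have hq1 : (1 : ℝ) ≤ q.n := by exact_mod_cast (by omega : 1 ≤ q.n)
    have h5 : 2 * C₁ / ε < q.n := hN.trans_le hqN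
    rw [div_lt_iff₀ hε] at h5
    rw [div_le_iff₀ (by positivity)]
    have h6 : (q.n : ℝ) ≤ (q.n : ℝ) ^ 2 := by nlinarith
    nlinarith
  have h7 : G3x d q.n q.θ q.ψ (q.u + x) (q.u + y) (q.u + z) =
      eb d q.n (fun ω => ind (con ω (q.u + x) (q.u + y) ∧ con ω (q.u + x) (q.u + z)) *
        rp (rho q.n q.θ q.ψ) (cb d q.n ω (q.u + x))) := rfl
  rw [h7]
  calc _ ≤ |eb d q.n (fun ω => ind (con ω (q.u + x) (q.u + y) ∧ con ω (q.u + x) (q.u + z)) *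
        rp (rho q.n q.θ q.ψ) (cb d q.n ω (q.u + x))) -
        ex (ES S') (pH d) (fun ω => ind (con ω x y ∧ con ω x z))| +
        |ex (ES S') (pH d) (fun ω => ind (con ω x y ∧ con ω x z)) - ⨆ R, s R| :=
        abs_sub_le _ _ _
    _ < ε := by linarith

end Pool.CL
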