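import Pool.Agent.Helper65.CL.StB
import Pool.Agent.Helper84.LE.M_Box
import Pool.Agent.Helper84.LE.M_Transl
import Pool.Agent.Helper84.LE.M_CoefLoc
import Pool.Agent.Helper84.LE.M_CoefLoc0
import Pool.Agent.Helper84.LE.M_WalkBox
import Pool.Agent.Helper84.LE.M_TauSum
import Pool.Agent.Helper84.LE.M_SymT
import Pool.Agent.Helper84.LE.M_TauBasic
import Pool.Agent.Helper84.LE.M_TauDom
import Pool.Agent.Helper22.NL.M_Basic
import Pool.Agent.Helper22.NL.M_Bn
import Pool.Agent.Helper22.NL.M_Clu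
import Pool.Agent.Helper22.NL.M_Hh
import Pool.Agent.Helper22.NL.M_CpTau

/-!
# Project CL (MP_65faa7), module LocG: local limit of the weighted two-point function
-/

set_option autoImplicit false

open scoped BigOperators ENNReal Topology
open Pool.LE Pool.NL Filter MeasureTheory

namespace Pool.CL

namespace LocGM

theorem cpTau : StCpTau := by
  have hBox : StBox := Pool.LE.hBox
  have hW := Pool.LE.hWalkBox hBox
  have hT := Pool.LE.hTransl
  have hCLc := Pool.LE.hCoefLoc (Pool.LE.hCoefLoc0 hW) hT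
  have hTS := Pool.LE.hTauSum hCLc hBox hW
  have hTauDom : StTauDom := Pool.LE.hTauDom hT hBox
  have hTauBasic : StTauBasic := Pool.LE.hTauBasic hTS Pool.LE.hSymT
  exact Pool.NL.hCpTau hTauDom hTauBasic Pool.NL.hBasic (Pool.NL.hBn hBox)

theorem con_mono {V : Type} [DecidableEq V] {ω η : Finset (Sym2 V)} (h : ω ⊆ η) {x y : V}
    (hc : con ω x y) : con η x y := by
  refine SimpleGraph.Reachable.mono ?_ hc
  exact SimpleGraph.fromEdgeSet_mono (by exact_mod_cast h)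

theorem ind_mono {A B : Prop} (h : A → B) : ind A ≤ ind B := by
  unfold ind
  by_cases hA : A
  · rw [if_pos hA, if_pos (h hA)]
  · rw [if_neg hA]
    split_ifs <;> norm_num

theorem ind_nn (A : Prop) : 0 ≤ ind A := by
  unfold ind
  split_ifs <;> norm_num

theorem ind_le (A : Prop) : ind A ≤ 1 := by
  unfold ind
  split_ifs <;> norm_num

theorem ES_mono {d : ℕ} {S S' : Finset (Zd d)} (h : S ⊆ S') : ES S ⊆ ES S' := by
  have hES := (Pool.LE.hBox d).2.2.2.2.2.2.2.1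
  intro e he
  induction e using Sym2.ind with
  | _ x b =>
    have h1 := (hES S x b).1 he
    exact (hES S' x b).2 ⟨h h1.1, h h1.2.1, h1.2.2⟩

/-- approximation of `tau` by a finite box -/
theorem tau_approx {d : ℕ} {p : ℝ} (h0 : 0 ≤ p) (h1 : p ≤ 1) (z : Zd d) {ε : ℝ} (hε : 0 < ε) :
    ∃ r : ℕ, tau d p z - ε ≤ pr (Eb d r) p (fun ω => con ω 0 z) := by
  have hb := fun r : ℕ => (Pool.NL.hBasic (Zd d) (Eb d r) p h0 h1).2.2.2.2.2.2.1
    (fun ω => con ω 0 z)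
  by_cases hs : tau d p z - ε ≤ 0
  · exact ⟨0, hs.trans (hb 0).1⟩
  push Not at hs
  have h2 : ENNReal.ofReal (tau d p z - ε) < tauE d p z := by
    have h3 : tauE d p z ≠ ⊤ := by
      have h4 : tauE d p z ≤ 1 := by
        refine iSup_le fun r => ?_
        rw [(hb r).2.2.1]
        exact ENNReal.ofReal_le_one.2 (hb r).2.1
      exact ne_top_of_le_ne_top ENNReal.one_ne_top h4
    rw [← ENNReal.ofReal_toReal h3]
    refine (ENNReal.ofReal_lt_ofReal_iff ?_).2 ?_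
    · have : 0 < tau d p z := by linarith
      exact this
    · show tau d p z - ε < tau d p z
      linarith
  obtain ⟨r, hr⟩ := lt_iSup_iff.1 h2
  refine ⟨r, ?_⟩
  rw [(hb r).2.2.1] at hr
  exact (ENNReal.ofReal_lt_ofReal_iff_of_nonneg hs.le).1 hr |>.le

end LocGM

open LocGM

theorem hLocG (hTr : StTr) (hBd : StBd) (hDF : StDF) (hBx : StBx) : StLocG := by
  classical
  intro d C₁ B c₀ CL hE x y
  have hd : 1 ≤ d := le_trans (by norm_num) hE.env.hd
  have hp0 : 0 ≤ pH d := hE.env.p0.le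
  have hp1 : pH d ≤ 1 := hE.env.p1.trans (by norm_num)
  obtain ⟨hev, -, hokp, -, -, -⟩ := hDF d hd
  obtain ⟨-, hdeep, hnrm, hnadd, -, -⟩ := hBd d hd
  obtain ⟨n₀, hn₀, hbx⟩ := hBx d C₁ B c₀ CL hE
  obtain ⟨hex, hcon, hexm, htrE⟩ := hTr d (pH d) hp0 hp1
  have hC : 0 ≤ C₁ := zero_le_one.trans hE.env.hC
  rw [Metric.tendsto_nhds]
  intro ε hε
  obtain ⟨r, hr⟩ := tau_approx hp0 hp1 (y - x) (half_pos (half_pos hε))
  obtain ⟨N, hN⟩ := exists_nat_gt (C₁ / (ε / 4))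
  rw [hev]
  refine ⟨nrm x + nrm y + r + n₀ + N + 1, fun q hq => ?_⟩
  obtain ⟨hn1, hu⟩ := hokp _ q hq
  obtain ⟨hθ0, hθ1, hψ, hdp⟩ := hq
  set R : ℕ := nrm x + nrm y + r + n₀ + N + 1 with hR
  have hn : n₀ ≤ q.n := by omega
  have hnpos : 1 ≤ q.n := by omega
  have hnN : N ≤ q.n := by omega
  obtain ⟨-, -, -, hG, hsum, -, -, -⟩ := hbx q.n hn q.θ q.ψ hθ0 hθ1 hψ
  set a : Zd d := q.u + x with ha
  set b : Zd d := q.u + y with hb
  have haB : a ∈ Bn d q.n := hdp x ((hnrm R x).2 (by omega))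
  have hbB : b ∈ Bn d q.n := hdp y ((hnrm R y).2 (by omega))
  have hba : b - a = y - x := by
    rw [ha, hb]
    abel
  -- upper bound
  have hup : Gx d q.n q.θ q.ψ a b ≤ tau d (pH d) (y - x) := by
    refine (hG a b).2.1.trans ?_
    have := cpTau d q.n (pH d) a b hp0 hp1
    rwa [hba] at this
  -- lower bound for G0
  have hlow : tau d (pH d) (y - x) - ε / 2 / 2 ≤ G0 d q.n a b := by
    refine hr.trans ?_
    have hsub : trE a (Eb d r) ⊆ ES (Bn d q.n) := by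
      have h1 : trE a (Eb d r) = ES ((bx d r).map (Equiv.addLeft a).toEmbedding) := htrE (bx d r) a
      rw [h1]
      refine LocGM.ES_mono fun w hw => ?_
      obtain ⟨z, hz, rfl⟩ := Finset.mem_map.1 hw
      show a + z ∈ Bn d q.n
      rw [ha, add_assoc]
      refine hdp (x + z) ((hnrm R (x + z)).2 ?_)
      have h2 := hnadd x z
      have h3 := (hnrm r z).1 hz
      omega
    have h1 := hexm (trE a (Eb d r)) (ES (Bn d q.n)) (fun ω => ind (con ω a b)) hsub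
      (fun ω ω' hω => LocGM.ind_mono (LocGM.con_mono hω))
    rw [hex (Eb d r) a (fun ω => ind (con ω a b))] at h1
    refine le_trans (le_of_eq ?_) h1
    show ex (Eb d r) (pH d) (fun ω => ind (con ω 0 (y - x))) = _
    have h2 : (fun ω : Finset (Sym2 (Zd d)) => ind (con ω 0 (y - x))) =
        fun ω => ind (con (trE a ω) a b) := by
      funext ω
      have h3 := hcon ω a 0 (y - x)
      rw [add_zero] at h3
      have h4 : a + (y - x) = b := by
        rw [← hba]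
        abel
      rw [h4] at h3
      rw [propext h3]
    rw [h2]
  -- comparison of Gx and G0
  have hFG := (Pool.NL.hBn Pool.LE.hBox d q.n).1
  have hB := Pool.NL.hBasic (Zd d) (ES (Bn d q.n)) (pH d) hp0 hp1
  obtain ⟨hmono, -, -, hsubx, hmul, -, -, -, -, -⟩ := hB
  have hnr : (0 : ℝ) < (q.n : ℝ) := by exact_mod_cast hnpos
  have hcmp : G0 d q.n a b - Gx d q.n q.θ q.ψ a b ≤ C₁ / (q.n : ℝ) ^ 2 := by
    have h1 : G0 d q.n a b - Gx d q.n q.θ q.ψ a b =
        ex (ES (Bn d q.n)) (pH d) (fun ω => ind (con ω a b) - ind (con ω a b) *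
          rp (rho q.n q.θ q.ψ) (clu (Bn d q.n) ω a)) :=
      (hsubx (fun ω => ind (con ω a b)) (fun ω => ind (con ω a b) *
          rp (rho q.n q.θ q.ψ) (clu (Bn d q.n) ω a))).symm
    rw [h1]
    have h2 : ex (ES (Bn d q.n)) (pH d) (fun ω => ind (con ω a b) - ind (con ω a b) *
          rp (rho q.n q.θ q.ψ) (clu (Bn d q.n) ω a)) ≤
        ex (ES (Bn d q.n)) (pH d) (fun ω => 1 / (q.n : ℝ) ^ 4 * (Xc (Bn d q.n) ω a : ℝ)) := by
      refine hmono _ _ fun ω _ => ?_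
      have h3 : rp (rho q.n q.θ q.ψ) (clu (Bn d q.n) ω a) =
          Real.exp (-∑ z ∈ clu (Bn d q.n) ω a, q.θ * q.ψ z / (q.n : ℝ) ^ 4) := by
        unfold rp rho
        rw [← Finset.sum_neg_distrib, Real.exp_sum]
      have h4 : ∑ z ∈ clu (Bn d q.n) ω a, q.θ * q.ψ z / (q.n : ℝ) ^ 4 ≤
          1 / (q.n : ℝ) ^ 4 * (Xc (Bn d q.n) ω a : ℝ) := by
        have h5 : ∀ z ∈ clu (Bn d q.n) ω a, q.θ * q.ψ z / (q.n : ℝ) ^ 4 ≤ 1 / (q.n : ℝ) ^ 4 := by
          intro z _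
          refine div_le_div_of_nonneg_right ?_ (by positivity)
          have h6 := hψ z
          calc q.θ * q.ψ z ≤ 1 * 1 := mul_le_mul hθ1 h6.2 h6.1 zero_le_one
            _ = 1 := one_mul 1
        refine (Finset.sum_le_card_nsmul _ _ _ h5).trans (le_of_eq ?_)
        rw [nsmul_eq_mul, mul_comm]
        rfl
      have h7 : 0 ≤ ∑ z ∈ clu (Bn d q.n) ω a, q.θ * q.ψ z / (q.n : ℝ) ^ 4 :=
        Finset.sum_nonneg fun z _ => div_nonneg (mul_nonneg hθ0 (hψ z).1) (by positivity)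
      have h8 := Real.add_one_le_exp (-∑ z ∈ clu (Bn d q.n) ω a, q.θ * q.ψ z / (q.n : ℝ) ^ 4)
      have h9 : 1 - rp (rho q.n q.θ q.ψ) (clu (Bn d q.n) ω a) ≤
          1 / (q.n : ℝ) ^ 4 * (Xc (Bn d q.n) ω a : ℝ) := by
        rw [h3]
        linarith
      have h10 : 0 ≤ 1 / (q.n : ℝ) ^ 4 * (Xc (Bn d q.n) ω a : ℝ) := by positivity
      have h11 : ind (con ω a b) - ind (con ω a b) *
          rp (rho q.n q.θ q.ψ) (clu (Bn d q.n) ω a) =
          ind (con ω a b) * (1 - rp (rho q.n q.θ q.ψ) (clu (Bn d q.n) ω a)) := by ring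
      rw [h11]
      calc ind (con ω a b) * (1 - rp (rho q.n q.θ q.ψ) (clu (Bn d q.n) ω a))
          ≤ ind (con ω a b) * (1 / (q.n : ℝ) ^ 4 * (Xc (Bn d q.n) ω a : ℝ)) :=
            mul_le_mul_of_nonneg_left h9 (ind_nn _)
        _ ≤ 1 * (1 / (q.n : ℝ) ^ 4 * (Xc (Bn d q.n) ω a : ℝ)) :=
            mul_le_mul_of_nonneg_right (ind_le _) h10
        _ = _ := one_mul _
    refine h2.trans ?_
    rw [hmul]
    have h12 := (Pool.NL.hHh Pool.NL.hBasic Pool.NL.hClu (Zd d) (Bn d q.n) (ES (Bn d q.n)) (2 * d)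
      (pH d) hFG hp0 hp1).1 a
    rw [← h12]
    have h13 : hh (Bn d q.n) (ES (Bn d q.n)) (pH d) a ≤ C₁ * (q.n : ℝ) ^ 2 := hsum a haB
    calc 1 / (q.n : ℝ) ^ 4 * hh (Bn d q.n) (ES (Bn d q.n)) (pH d) a
        ≤ 1 / (q.n : ℝ) ^ 4 * (C₁ * (q.n : ℝ) ^ 2) :=
          mul_le_mul_of_nonneg_left h13 (by positivity)
      _ = C₁ / (q.n : ℝ) ^ 2 := by
          field_simp
  have hCn : C₁ / (q.n : ℝ) ^ 2 ≤ ε / 4 := by
    have h1 : C₁ / (ε / 4) < (q.n : ℝ) := hN.trans_le (by exact_mod_cast hnN)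
    have h2 : C₁ < (q.n : ℝ) * (ε / 4) := (div_lt_iff₀ (by positivity)).1 h1
    have h3 : (1 : ℝ) ≤ (q.n : ℝ) := by exact_mod_cast hnpos
    rw [div_le_iff₀ (by positivity)]
    have h4 : (q.n : ℝ) ≤ (q.n : ℝ) ^ 2 := by nlinarith
    have h5 : (q.n : ℝ) * (ε / 4) ≤ (q.n : ℝ) ^ 2 * (ε / 4) :=
      mul_le_mul_of_nonneg_right h4 (by positivity)
    linarith
  rw [Real.dist_eq, abs_lt]
  constructor
  · linarith
  · linarith

end Pool.CL
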