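import Pool.Agent.Helper65.CL.StB

/-! MP_65faa7, project CL: module LocH (local limit of the inverse kernel). -/

set_option autoImplicit false

open scoped BigOperators ENNReal Topology
open Pool.LE Pool.NL Filter

namespace Pool.CL

theorem locH_ind_true {A : Prop} (h : A) : ind A = 1 := by
  unfold ind
  exact if_pos h

theorem locH_ind_false {A : Prop} (h : ¬ A) : ind A = 0 := by
  unfold ind
  exact if_neg h

theorem locH_shift {d : ℕ} (A X : Finset (Zd d)) (u : Zd d) (f : Zd d → ℝ) (h : ∀ x ∈ X, u + x ∈ A) :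
    ∑ x ∈ X, f (u + x) = ∑ a ∈ A.filter (fun a => a - u ∈ X), f a := by
  refine Finset.sum_nbij' (fun x => u + x) (fun a => a - u) ?_ ?_ ?_ ?_ ?_
  · intro x hx
    rw [Finset.mem_filter]
    exact ⟨h x hx, by rw [add_sub_cancel_left]; exact hx⟩
  · intro a ha
    exact (Finset.mem_filter.1 ha).2
  · intro x _
    exact add_sub_cancel_left u x
  · intro a _
    exact add_sub_cancel u a
  · intro x _
    rfl

/-- abstract comparison of two inverse kernels -/
theorem locH_cmp {d : ℕ} (A A' : Finset (Zd d)) (G H G' H' : Zd d → Zd d → ℝ) (u u' v : Zd d) (X Y : Finset (Zd d))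
    (C e1 t2 t3 : ℝ) (he1 : 0 ≤ e1) (hI : Inv A G H) (hI' : Inv A' G' H')
    (hXA : ∀ x ∈ X, u + x ∈ A) (hXA' : ∀ x ∈ X, u' + x ∈ A') (hYA : ∀ y ∈ Y, u + y ∈ A) (hYA' : ∀ y ∈ Y, u' + y ∈ A')
    (hv : v ∈ X) (h0X : (0 : Zd d) ∈ X) (hG : ∀ a b, |G a b| ≤ 1) (hG' : ∀ a b, |G' a b| ≤ 1)
    (hrow : ∑ a ∈ A, |H u a| ≤ C) (hrow' : ∑ b ∈ A', |H' b (u' + v)| ≤ C)
    (htail : ∑ a ∈ A.filter (fun a => ¬ a - u ∈ X), |H u a| ≤ t2)
    (htail' : ∑ b ∈ A'.filter (fun b => ¬ b - u' ∈ Y), |H' b (u' + v)| ≤ t3)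
    (hclose : ∀ x ∈ X, ∀ y ∈ Y, |G' (u' + x) (u' + y) - G (u + x) (u + y)| ≤ e1) :
    |H u (u + v) - H' u' (u' + v)| ≤ (C * e1 + t2) * C + (C + 1) * t3 := by
  have huA : u ∈ A := by
    have := hXA 0 h0X
    rwa [add_zero] at this
  have huA' : u' ∈ A' := by
    have := hXA' 0 h0X
    rwa [add_zero] at this
  have hXrow : ∑ x ∈ X, |H u (u + x)| ≤ C := by
    rw [locH_shift A X u (fun a => |H u a|) hXA]
    refine le_trans ?_ hrow
    exact Finset.sum_le_sum_of_subset_of_nonneg (Finset.filter_subset _ _) fun _ _ _ => abs_nonneg _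
  set e : Zd d → ℝ := fun b => ∑ x ∈ X, H u (u + x) * G' (u' + x) b - ind (b = u') with he
  have hid : H u (u + v) - H' u' (u' + v) = ∑ b ∈ A', e b * H' b (u' + v) := by
    have h1 : ∑ b ∈ A', e b * H' b (u' + v) = ∑ b ∈ A', ∑ x ∈ X, H u (u + x) * (G' (u' + x) b * H' b (u' + v)) -
        ∑ b ∈ A', ind (b = u') * H' b (u' + v) := by
      rw [← Finset.sum_sub_distrib]
      refine Finset.sum_congr rfl fun b _ => ?_
      rw [he]
      simp only
      rw [sub_mul, Finset.sum_mul]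
      congr 1
      exact Finset.sum_congr rfl fun x _ => mul_assoc _ _ _
    have h2 : ∑ b ∈ A', ind (b = u') * H' b (u' + v) = H' u' (u' + v) := by
      rw [Finset.sum_eq_single u']
      · rw [locH_ind_true rfl, one_mul]
      · intro b _ hb
        rw [locH_ind_false hb, zero_mul]
      · intro h
        exact absurd huA' h
    have h3 : ∑ b ∈ A', ∑ x ∈ X, H u (u + x) * (G' (u' + x) b * H' b (u' + v)) = H u (u + v) := by
      rw [Finset.sum_comm]
      have h4 : ∀ x ∈ X, ∑ b ∈ A', H u (u + x) * (G' (u' + x) b * H' b (u' + v)) =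
          H u (u + x) * ind (u' + x = u' + v) := by
        intro x hx
        rw [← Finset.mul_sum]
        congr 1
        exact (hI' (u' + x) (hXA' x hx) (u' + v) (hXA' v hv)).1
      rw [Finset.sum_congr rfl h4, Finset.sum_eq_single v]
      · rw [locH_ind_true rfl, mul_one]
      · intro x _ hx
        rw [locH_ind_false, mul_zero]
        intro h
        exact hx (add_left_cancel h)
      · intro h
        exact absurd hv h
    rw [h1, h2, h3]
  have hebd : ∀ b, |e b| ≤ C + 1 := by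
    intro b
    have h1 : |∑ x ∈ X, H u (u + x) * G' (u' + x) b| ≤ C := by
      refine (Finset.abs_sum_le_sum_abs _ _).trans (le_trans (Finset.sum_le_sum fun x _ => ?_) hXrow)
      rw [abs_mul]
      exact mul_le_of_le_one_right (abs_nonneg _) (hG' _ _)
    have h2 : |ind (b = u')| ≤ 1 := by
      by_cases h : b = u'
      · rw [locH_ind_true h, abs_one]
      · rw [locH_ind_false h, abs_zero]
        exact zero_le_one
    exact (abs_sub _ _).trans (add_le_add h1 h2)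
  have heY : ∀ y ∈ Y, |e (u' + y)| ≤ C * e1 + t2 := by
    intro y hy
    have h1 : ∑ a ∈ A, H u a * G a (u + y) = ind (u' + y = u') := by
      have h2 := (hI u huA (u + y) (hYA y hy)).2
      have h3 : (u = u + y) = (u' + y = u') := by
        apply propext
        rw [left_eq_add, add_eq_left]
      rw [← h3]
      exact h2
    have h2 : ∑ a ∈ A, H u a * G a (u + y) = ∑ x ∈ X, H u (u + x) * G (u + x) (u + y) +
        ∑ a ∈ A.filter (fun a => ¬ a - u ∈ X), H u a * G a (u + y) := by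
      rw [locH_shift A X u (fun a => H u a * G a (u + y)) hXA]
      exact (Finset.sum_filter_add_sum_filter_not A (fun a => a - u ∈ X) _).symm
    have h3 : e (u' + y) = ∑ x ∈ X, H u (u + x) * (G' (u' + x) (u' + y) - G (u + x) (u + y)) -
        ∑ a ∈ A.filter (fun a => ¬ a - u ∈ X), H u a * G a (u + y) := by
      rw [he]
      simp only
      rw [← h1, h2]
      simp only [mul_sub, Finset.sum_sub_distrib]
      ring
    rw [h3]
    refine (abs_sub _ _).trans (add_le_add ?_ ?_)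
    · refine (Finset.abs_sum_le_sum_abs _ _).trans ?_
      calc ∑ x ∈ X, |H u (u + x) * (G' (u' + x) (u' + y) - G (u + x) (u + y))|
          ≤ ∑ x ∈ X, |H u (u + x)| * e1 := Finset.sum_le_sum fun x hx => by
            rw [abs_mul]
            exact mul_le_mul_of_nonneg_left (hclose x hx y hy) (abs_nonneg _)
        _ = (∑ x ∈ X, |H u (u + x)|) * e1 := (Finset.sum_mul _ _ _).symm
        _ ≤ C * e1 := mul_le_mul_of_nonneg_right hXrow he1
    · refine (Finset.abs_sum_le_sum_abs _ _).trans (le_trans (Finset.sum_le_sum fun a _ => ?_) htail)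
      rw [abs_mul]
      exact mul_le_of_le_one_right (abs_nonneg _) (hG _ _)
  have hC0 : 0 ≤ C := (Finset.sum_nonneg fun _ _ => abs_nonneg _).trans hrow
  have ht2 : 0 ≤ t2 := (Finset.sum_nonneg fun _ _ => abs_nonneg _).trans htail
  have hK : 0 ≤ C * e1 + t2 := add_nonneg (mul_nonneg hC0 he1) ht2
  rw [hid]
  refine (Finset.abs_sum_le_sum_abs _ _).trans ?_
  rw [← Finset.sum_filter_add_sum_filter_not A' (fun b => b - u' ∈ Y)]
  refine add_le_add ?_ ?_
  · calc ∑ b ∈ A'.filter (fun b => b - u' ∈ Y), |e b * H' b (u' + v)|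
        ≤ ∑ b ∈ A'.filter (fun b => b - u' ∈ Y), (C * e1 + t2) * |H' b (u' + v)| :=
          Finset.sum_le_sum fun b hb => by
            rw [abs_mul]
            have h1 := heY (b - u') (Finset.mem_filter.1 hb).2
            rw [add_sub_cancel] at h1
            exact mul_le_mul_of_nonneg_right h1 (abs_nonneg _)
      _ = (C * e1 + t2) * ∑ b ∈ A'.filter (fun b => b - u' ∈ Y), |H' b (u' + v)| := (Finset.mul_sum _ _ _).symm
      _ ≤ (C * e1 + t2) * C := mul_le_mul_of_nonneg_left (le_trans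
          (Finset.sum_le_sum_of_subset_of_nonneg (Finset.filter_subset _ _) fun _ _ _ => abs_nonneg _) hrow') hK
  · calc ∑ b ∈ A'.filter (fun b => ¬ b - u' ∈ Y), |e b * H' b (u' + v)|
        ≤ ∑ b ∈ A'.filter (fun b => ¬ b - u' ∈ Y), (C + 1) * |H' b (u' + v)| :=
          Finset.sum_le_sum fun b _ => by
            rw [abs_mul]
            exact mul_le_mul_of_nonneg_right (hebd b) (abs_nonneg _)
      _ = (C + 1) * ∑ b ∈ A'.filter (fun b => ¬ b - u' ∈ Y), |H' b (u' + v)| := (Finset.mul_sum _ _ _).symm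
      _ ≤ (C + 1) * t3 := mul_le_mul_of_nonneg_left htail' ((abs_nonneg _).trans (hebd u'))

theorem locH_tail {d : ℕ} (A : Finset (Zd d)) (w : Zd d) (h : Zd d → ℝ) (C : ℝ) (N : ℕ) (P : Zd d → Prop) [DecidablePred P]
    (hQ : ∀ z : Zd d, 2 * (1 + (nrm z : ℝ) ^ 2) ≤ Qw z) (hsum : ∑ a ∈ A, Qw (a - w) * |h a| ≤ C)
    (hP : ∀ a ∈ A, P a → N ≤ nrm (a - w)) : ∑ a ∈ A.filter P, |h a| ≤ C / (1 + (N : ℝ) ^ 2) := by
  have hpos : (0 : ℝ) < 1 + (N : ℝ) ^ 2 := by positivity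
  rw [le_div_iff₀ hpos, mul_comm, Finset.mul_sum]
  refine le_trans (Finset.sum_le_sum fun a ha => ?_) (le_trans (Finset.sum_le_sum_of_subset_of_nonneg
    (Finset.filter_subset P A) fun a _ _ => ?_) hsum)
  · rw [Finset.mem_filter] at ha
    refine mul_le_mul_of_nonneg_right ?_ (abs_nonneg _)
    have h1 : (N : ℝ) ≤ nrm (a - w) := by exact_mod_cast hP a ha.1 ha.2
    have h2 := hQ (a - w)
    have h3 : (N : ℝ) ^ 2 ≤ (nrm (a - w) : ℝ) ^ 2 := pow_le_pow_left₀ (Nat.cast_nonneg N) h1 2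
    nlinarith [sq_nonneg (nrm (a - w) : ℝ)]
  · have h2 := hQ (a - w)
    exact mul_nonneg (by nlinarith [sq_nonneg (nrm (a - w) : ℝ)]) (abs_nonneg _)

theorem hLocH (hBx : StBx) (hBd : StBd) (hDF : StDF) (hLocG : StLocG) : StLocH := by
  classical
  intro d C₁ B c₀ CL env x₀ y₀
  have hd : 1 ≤ d := by
    have := env.env.hd
    omega
  obtain ⟨-, hdeep, hbx, hnadd, -, hQ⟩ := hBd d hd
  obtain ⟨hev, -, hokp, hshift, hcauchy, -⟩ := hDF d hd
  suffices h : ∀ v : Zd d, ∃ s : ℝ, Tendsto (fun q : Pt d => Hx d q.n q.θ q.ψ q.u (q.u + v)) (DF d) (𝓝 s) by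
    obtain ⟨s, hs⟩ := h (y₀ - x₀)
    refine ⟨s, ?_⟩
    have h1 := hs.comp (hshift x₀)
    refine h1.congr fun q => ?_
    change Hx d q.n q.θ q.ψ (q.u + x₀) (q.u + x₀ + (y₀ - x₀)) = _
    rw [show q.u + x₀ + (y₀ - x₀) = q.u + y₀ by abel]
  intro v
  apply hcauchy
  intro ε hε
  obtain ⟨n₀, -, hb⟩ := hBx d C₁ B c₀ CL env
  have hCL := env.hCL
  have hC0 : 0 < CL := by linarith
  obtain ⟨N2, hN2⟩ := exists_nat_gt (3 * CL ^ 2 / ε)
  obtain ⟨N3, hN3⟩ := exists_nat_gt (3 * ((CL + 1) * CL) / ε)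
  set R2 : ℕ := max (nrm v) N2 with hR2
  set R3 : ℕ := R2 + N3 + nrm v with hR3
  set e1 : ℝ := ε / (3 * CL ^ 2) with he1
  have he1p : 0 < e1 := by positivity
  have hclose : ∀ᶠ q in DF d, ∀ x ∈ bx d R2, ∀ y ∈ bx d R3,
      |Gx d q.n q.θ q.ψ (q.u + x) (q.u + y) - tau d (pH d) (y - x)| ≤ e1 / 2 := by
    rw [Filter.eventually_all_finset]
    intro x _
    rw [Filter.eventually_all_finset]
    intro y _
    have h1 := hLocG d C₁ B c₀ CL env x y
    have h2 := (Metric.tendsto_nhds.1 h1) (e1 / 2) (by positivity)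
    refine h2.mono fun q hq => ?_
    rw [Real.dist_eq] at hq
    exact hq.le
  obtain ⟨R1, hR1⟩ := (hev _).1 hclose
  refine ⟨R1 + R3 + n₀, fun q q' hq hq' => ?_⟩
  have mono : ∀ (q : Pt d) (R : ℕ), okp (R1 + R3 + n₀) q → R ≤ R1 + R3 + n₀ → okp R q := by
    intro q R hq hR
    refine ⟨hq.1, hq.2.1, hq.2.2.1, fun y hy => hq.2.2.2 y ?_⟩
    rw [hbx] at hy ⊢
    omega
  have hn : ∀ q : Pt d, okp (R1 + R3 + n₀) q → n₀ ≤ q.n := by
    intro q hq
    have := (hokp _ q hq).1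
    omega
  obtain ⟨hI, -, -, hG, -, hH, -, -⟩ := hb q.n (hn q hq) q.θ q.ψ hq.1 hq.2.1 hq.2.2.1
  obtain ⟨hI', hS', -, hG', -, hH', -, -⟩ := hb q'.n (hn q' hq') q'.θ q'.ψ hq'.1 hq'.2.1 hq'.2.2.1
  have hd3 := (mono q R3 hq (by omega)).2.2.2
  have hd3' := (mono q' R3 hq' (by omega)).2.2.2
  have hd2 := (mono q R2 hq (by omega)).2.2.2
  have hd2' := (mono q' R2 hq' (by omega)).2.2.2
  have hvX : v ∈ bx d R2 := by
    rw [hbx]
    exact le_max_left _ _
  have h0X : (0 : Zd d) ∈ bx d R2 := by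
    rw [hbx]
    have : nrm (0 : Zd d) = 0 := by
      unfold nrm
      simp
    omega
  have habs : ∀ (n : ℕ) (θ : ℝ) (ψ : Zd d → ℝ), (∀ a b, 0 ≤ Gx d n θ ψ a b ∧ Gx d n θ ψ a b ≤ G0 d n a b ∧ G0 d n a b ≤ 1) →
      ∀ a b, |Gx d n θ ψ a b| ≤ 1 := by
    intro n θ ψ h a b
    obtain ⟨h1, h2, h3⟩ := h a b
    rw [abs_of_nonneg h1]
    exact h2.trans h3
  have hu : q.u ∈ Bn d q.n := (hokp _ q hq).2
  have hw' : q'.u + v ∈ Bn d q'.n := hd2' v hvX
  have hrow : ∑ a ∈ Bn d q.n, |Hx d q.n q.θ q.ψ q.u a| ≤ CL := by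
    have h1 := locH_tail (Bn d q.n) q.u (fun a => Hx d q.n q.θ q.ψ q.u a) CL 0 (fun _ => True) hQ (hH q.u hu)
      (fun _ _ _ => Nat.zero_le _)
    simpa using h1
  have hH'' : ∑ b ∈ Bn d q'.n, Qw (b - (q'.u + v)) * |Hx d q'.n q'.θ q'.ψ b (q'.u + v)| ≤ CL := by
    have h1 := hH' (q'.u + v) hw'
    refine le_trans (le_of_eq ?_) h1
    exact Finset.sum_congr rfl fun b _ => by rw [hS' b (q'.u + v)]
  have hrow' : ∑ b ∈ Bn d q'.n, |Hx d q'.n q'.θ q'.ψ b (q'.u + v)| ≤ CL := by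
    have h1 := locH_tail (Bn d q'.n) (q'.u + v) (fun b => Hx d q'.n q'.θ q'.ψ b (q'.u + v)) CL 0 (fun _ => True) hQ hH''
      (fun _ _ _ => Nat.zero_le _)
    simpa using h1
  have htail := locH_tail (Bn d q.n) q.u (fun a => Hx d q.n q.θ q.ψ q.u a) CL R2 (fun a => ¬ a - q.u ∈ bx d R2) hQ (hH q.u hu)
    (fun a _ ha => by
      rw [hbx] at ha
      omega)
  have htail' := locH_tail (Bn d q'.n) (q'.u + v) (fun b => Hx d q'.n q'.θ q'.ψ b (q'.u + v)) CL N3
    (fun b => ¬ b - q'.u ∈ bx d R3) hQ hH''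
    (fun b _ hb => by
      rw [hbx] at hb
      have h1 := hnadd (b - (q'.u + v)) v
      rw [show b - (q'.u + v) + v = b - q'.u by abel] at h1
      omega)
  have hcmp := locH_cmp (Bn d q.n) (Bn d q'.n) (Gx d q.n q.θ q.ψ) (Hx d q.n q.θ q.ψ) (Gx d q'.n q'.θ q'.ψ)
    (Hx d q'.n q'.θ q'.ψ) q.u q'.u v (bx d R2) (bx d R3) CL e1 (CL / (1 + (R2 : ℝ) ^ 2)) (CL / (1 + (N3 : ℝ) ^ 2))
    he1p.le hI hI' hd2 hd2' hd3 hd3' hvX h0X (habs _ _ _ hG) (habs _ _ _ hG') hrow hrow' htail htail' (by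
      intro x hx y hy
      have h1 := hR1 q (mono q R1 hq (by omega)) x hx y hy
      have h2 := hR1 q' (mono q' R1 hq' (by omega)) x hx y hy
      have h3 := abs_sub_le (Gx d q'.n q'.θ q'.ψ (q'.u + x) (q'.u + y)) (tau d (pH d) (y - x))
        (Gx d q.n q.θ q.ψ (q.u + x) (q.u + y))
      rw [abs_sub_comm (tau d (pH d) (y - x))] at h3
      linarith)
  refine hcmp.trans ?_
  have hR2N : (N2 : ℝ) ≤ R2 := by exact_mod_cast le_max_right _ _
  have g1 : CL * e1 * CL = ε / 3 := by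
    rw [he1]
    field_simp
  have g2 : CL / (1 + (R2 : ℝ) ^ 2) * CL ≤ ε / 3 := by
    have h1 : 3 * CL ^ 2 < ε * R2 := by
      have := (div_lt_iff₀ hε).1 hN2
      nlinarith
    have hpos : (0 : ℝ) < 1 + (R2 : ℝ) ^ 2 := by positivity
    rw [div_mul_eq_mul_div, div_le_iff₀ hpos]
    nlinarith [sq_nonneg ((R2 : ℝ) - 1), sq_nonneg (R2 : ℝ)]
  have g3 : (CL + 1) * (CL / (1 + (N3 : ℝ) ^ 2)) ≤ ε / 3 := by
    have h1 : 3 * ((CL + 1) * CL) < ε * N3 := by
      have := (div_lt_iff₀ hε).1 hN3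
      nlinarith
    have hpos : (0 : ℝ) < 1 + (N3 : ℝ) ^ 2 := by positivity
    rw [mul_div_assoc', div_le_iff₀ hpos]
    nlinarith [sq_nonneg ((N3 : ℝ) - 1), sq_nonneg (N3 : ℝ)]
  nlinarith [g1, g2, g3]

end Pool.CL
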