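import Pool.Agent.Helper65.CL.StB
import Pool.Agent.Helper22.NL.M_Basic
import Pool.Agent.Helper22.NL.M_Clu

/-! MP_65faa7, project CL: module LocS (local limit of `S_f`). -/

set_option autoImplicit false

open scoped BigOperators ENNReal Topology
open Pool.LE Pool.NL Filter MeasureTheory

namespace Pool.CL

namespace LocSM

theorem tf_nonneg {d : ℕ} (m : ℕ) (u y : Zd d) : 0 ≤ tf m u y := le_max_left _ _

theorem tf_le_one {d : ℕ} (m : ℕ) (u y : Zd d) : tf m u y ≤ 1 := by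
  unfold tf
  refine max_le zero_le_one ?_
  have : (0 : ℝ) ≤ (nrm (y - u) : ℝ) / m := by positivity
  linarith

theorem tf_shift {d : ℕ} (m : ℕ) (u y : Zd d) : tf m u (u + y) = tf m 0 y := by
  unfold tf
  rw [add_sub_cancel_left, sub_zero]

theorem tf_zero {d : ℕ} (m : ℕ) (hm : 1 ≤ m) (u y : Zd d) (h : m < nrm (y - u)) :
    tf m u y = 0 := by
  unfold tf
  refine max_eq_left ?_
  have hm' : (0 : ℝ) < m := by exact_mod_cast hm
  have : (1 : ℝ) ≤ (nrm (y - u) : ℝ) / m := by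
    rw [le_div_iff₀ hm', one_mul]
    exact_mod_cast h.le
  linarith

theorem rho_mem {d : ℕ} (n : ℕ) (θ : ℝ) (ψ : Zd d → ℝ) (h0 : 0 ≤ θ) (hψ : U01 ψ) (y : Zd d) :
    0 ≤ rho n θ ψ y ∧ rho n θ ψ y ≤ 1 := by
  unfold rho
  refine ⟨(Real.exp_pos _).le, ?_⟩
  rw [Real.exp_le_one_iff]
  have h1 : 0 ≤ ψ y := (hψ y).1
  have : 0 ≤ θ * ψ y / (n : ℝ) ^ 4 := by positivity
  linarith

theorem rp_mem {d : ℕ} (n : ℕ) (θ : ℝ) (ψ : Zd d → ℝ) (h0 : 0 ≤ θ) (hψ : U01 ψ)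
    (C : Finset (Zd d)) : 0 ≤ rp (rho n θ ψ) C ∧ rp (rho n θ ψ) C ≤ 1 := by
  unfold rp
  exact ⟨Finset.prod_nonneg fun y _ => (rho_mem n θ ψ h0 hψ y).1,
    Finset.prod_le_one (fun y _ => (rho_mem n θ ψ h0 hψ y).1)
      (fun y _ => (rho_mem n θ ψ h0 hψ y).2)⟩

theorem g3_mem {d : ℕ} (hp0 : 0 ≤ pH d) (hp1 : pH d ≤ 1) (n : ℕ) (θ : ℝ)
    (ψ : Zd d → ℝ) (h0 : 0 ≤ θ) (hψ : U01 ψ) (x y z : Zd d) : |G3x d n θ ψ x y z| ≤ 1 := by
  unfold G3x eb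
  have key : ∀ ω, 0 ≤ ind (con ω x y ∧ con ω x z) * rp (rho n θ ψ) (cb d n ω x) ∧
      ind (con ω x y ∧ con ω x z) * rp (rho n θ ψ) (cb d n ω x) ≤ 1 := by
    intro ω
    have h1 := rp_mem n θ ψ h0 hψ (cb d n ω x)
    exact ⟨mul_nonneg (Basic.ind_nonneg _) h1.1,
      mul_le_one₀ (Basic.ind_le_one _) h1.1 h1.2⟩
  have h1 := Basic.ex_mono (E := ES (Bn d n)) hp0 hp1 (f := fun _ => (0 : ℝ))
    (g := fun ω => ind (con ω x y ∧ con ω x z) * rp (rho n θ ψ) (cb d n ω x))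
    (fun ω _ => (key ω).1)
  have h2 := Basic.ex_mono (E := ES (Bn d n)) hp0 hp1
    (f := fun ω => ind (con ω x y ∧ con ω x z) * rp (rho n θ ψ) (cb d n ω x))
    (g := fun _ => (1 : ℝ)) (fun ω _ => (key ω).2)
  rw [Basic.ex_const] at h1 h2
  rw [abs_le]
  exact ⟨by linarith, h2⟩

theorem GT_exp {d : ℕ} (m : ℕ) (hm : 1 ≤ m) (n : ℕ) (θ : ℝ) (ψ : Zd d → ℝ) (u : Zd d)
    (hbx : ∀ z : Zd d, z ∈ bx d m ↔ nrm z ≤ m) (hu : ∀ y ∈ bx d m, u + y ∈ Bn d n)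
    (a c : Zd d) : GT (Bn d n) (ES (Bn d n)) (pH d) (rho n θ ψ) (tf m u) a c =
      ∑ y ∈ bx d m, tf m 0 y * G3x d n θ ψ a c (u + y) := by
  unfold GT G3x eb
  simp_rw [← Basic.ex_mul]
  rw [← Basic.ex_sum]
  congr 1
  funext ω
  have h1 : ms (tf m u) (clu (Bn d n) ω a) = ∑ y ∈ bx d m, ind (con ω a (u + y)) * tf m 0 y := by
    unfold ms clu
    rw [Finset.sum_filter]
    have e2 : ∑ y ∈ (bx d m).image (fun y => u + y), ind (con ω a y) * tf m u y =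
        ∑ y ∈ Bn d n, ind (con ω a y) * tf m u y := by
      refine Finset.sum_subset ?_ ?_
      · intro y hy
        obtain ⟨z, hz, rfl⟩ := Finset.mem_image.1 hy
        exact hu z hz
      · intro y _ hy
        rw [tf_zero m hm u y ?_, mul_zero]
        by_contra h
        exact hy (Finset.mem_image.2 ⟨y - u, (hbx _).2 (not_lt.1 h), add_sub_cancel _ _⟩)
    rw [Finset.sum_image (fun x _ y _ h => add_left_cancel h)] at e2
    simp_rw [tf_shift] at e2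
    rw [e2]
    refine Finset.sum_congr rfl fun y _ => ?_
    unfold ind
    split_ifs <;> simp
  rw [h1, Finset.sum_mul, Finset.mul_sum]
  refine Finset.sum_congr rfl fun y _ => ?_
  have h2 : ind (con ω a c ∧ con ω a (u + y)) = ind (con ω a c) * ind (con ω a (u + y)) := by
    unfold ind
    by_cases h3 : con ω a c <;> by_cases h4 : con ω a (u + y) <;> simp [h3, h4]
  rw [h2]
  unfold cb
  ring

theorem trunc {V : Type} [DecidableEq V] (L A : Finset V) (hA : A ⊆ L) (T : V → V → ℝ)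
    (h1 h2 : V → ℝ) (K S1 S2 δ1 δ2 : ℝ) (hK : 0 ≤ K) (hT : ∀ a c, |T a c| ≤ K)
    (hS1 : ∑ a ∈ L, |h1 a| ≤ S1) (hS2 : ∑ a ∈ L, |h2 a| ≤ S2)
    (hd1 : ∑ a ∈ L \ A, |h1 a| ≤ δ1) (hd2 : ∑ a ∈ L \ A, |h2 a| ≤ δ2) :
    |∑ a ∈ L, h1 a * ∑ c ∈ L, T a c * h2 c - ∑ a ∈ A, h1 a * ∑ c ∈ A, T a c * h2 c| ≤
      K * (δ1 * S2 + S1 * δ2) := by
  have hin : ∀ (M : Finset V) (a : V), |∑ c ∈ M, T a c * h2 c| ≤ K * ∑ c ∈ M, |h2 c| := by
    intro M a
    rw [Finset.mul_sum]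
    refine (Finset.abs_sum_le_sum_abs _ _).trans (Finset.sum_le_sum fun c _ => ?_)
    rw [abs_mul]
    exact mul_le_mul_of_nonneg_right (hT a c) (abs_nonneg _)
  have e1 : ∑ a ∈ L, h1 a * ∑ c ∈ L, T a c * h2 c - ∑ a ∈ A, h1 a * ∑ c ∈ A, T a c * h2 c =
      ∑ a ∈ L \ A, h1 a * ∑ c ∈ L, T a c * h2 c + ∑ a ∈ A, h1 a * ∑ c ∈ L \ A, T a c * h2 c := by
    rw [← Finset.sum_sdiff hA (f := fun a => h1 a * ∑ c ∈ L, T a c * h2 c)]
    have e2 : ∑ a ∈ A, h1 a * ∑ c ∈ L, T a c * h2 c = ∑ a ∈ A, h1 a * ∑ c ∈ L \ A, T a c * h2 c +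
        ∑ a ∈ A, h1 a * ∑ c ∈ A, T a c * h2 c := by
      rw [← Finset.sum_add_distrib]
      refine Finset.sum_congr rfl fun a _ => ?_
      rw [← mul_add, Finset.sum_sdiff hA]
    rw [e2]
    ring
  have hA0 : ∑ a ∈ A, |h1 a| ≤ S1 :=
    (Finset.sum_le_sum_of_subset_of_nonneg hA (fun a _ _ => abs_nonneg _)).trans hS1
  have hS2' : 0 ≤ S2 := (Finset.sum_nonneg fun a _ => abs_nonneg _).trans hS2
  have hd2' : 0 ≤ δ2 := (Finset.sum_nonneg fun a _ => abs_nonneg _).trans hd2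
  have b1 : |∑ a ∈ L \ A, h1 a * ∑ c ∈ L, T a c * h2 c| ≤ δ1 * (K * S2) := by
    refine (Finset.abs_sum_le_sum_abs _ _).trans ?_
    refine le_trans (Finset.sum_le_sum (g := fun a => |h1 a| * (K * S2)) fun a _ => ?_) ?_
    · rw [abs_mul]
      exact mul_le_mul_of_nonneg_left
        ((hin L a).trans (mul_le_mul_of_nonneg_left hS2 hK)) (abs_nonneg _)
    · rw [← Finset.sum_mul]
      exact mul_le_mul_of_nonneg_right hd1 (mul_nonneg hK hS2')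
  have b2 : |∑ a ∈ A, h1 a * ∑ c ∈ L \ A, T a c * h2 c| ≤ S1 * (K * δ2) := by
    refine (Finset.abs_sum_le_sum_abs _ _).trans ?_
    refine le_trans (Finset.sum_le_sum (g := fun a => |h1 a| * (K * δ2)) fun a _ => ?_) ?_
    · rw [abs_mul]
      exact mul_le_mul_of_nonneg_left
        ((hin (L \ A) a).trans (mul_le_mul_of_nonneg_left hd2 hK)) (abs_nonneg _)
    · rw [← Finset.sum_mul]
      exact mul_le_mul_of_nonneg_right hA0 (mul_nonneg hK hd2')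
  rw [e1]
  refine (abs_add_le _ _).trans ((add_le_add b1 b2).trans (le_of_eq ?_))
  ring

/-- tail bound from a weighted bound -/
theorem tail {V : Type} (L A : Finset V) [DecidableEq V] (w h : V → ℝ) (CL t : ℝ) (ht : 0 < t)
    (hw0 : ∀ a, 0 ≤ w a) (hw : ∀ a ∈ L \ A, t ≤ w a) (hs : ∑ a ∈ L, w a * |h a| ≤ CL) :
    ∑ a ∈ L \ A, |h a| ≤ CL / t := by
  rw [le_div_iff₀ ht, Finset.sum_mul]
  refine le_trans ?_ hs
  refine le_trans (Finset.sum_le_sum (g := fun a => w a * |h a|) fun a ha => ?_) ?_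
  · rw [mul_comm]
    exact mul_le_mul_of_nonneg_right (hw a ha) (abs_nonneg _)
  · exact Finset.sum_le_sum_of_subset_of_nonneg Finset.sdiff_subset
      (fun a _ _ => mul_nonneg (hw0 a) (abs_nonneg _))

end LocSM

open LocSM in
theorem hLocS (hBx : StBx) (hBd : StBd) (hDF : StDF) (hLocH : StLocH) (hLoc3 : StLoc3) :
    StLocS := by
  intro d C₁ B c₀ CL hE m v hm
  have hd1 : 1 ≤ d := by
    have := hE.env.hd
    omega
  have hp0 : 0 ≤ pH d := hE.env.p0.le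
  have hp1 : pH d ≤ 1 := by linarith [hE.env.p1]
  obtain ⟨-, -, hbx, htri, hneg, hQw⟩ := hBd d hd1
  obtain ⟨hev, -, hbox, -, -, hlim⟩ := hDF d hd1
  obtain ⟨n₀, hn₀, hX⟩ := hBx d C₁ B c₀ CL hE
  refine hlim _ fun ε hε => ?_
  have hCL := hE.hCL
  have hK : (0 : ℝ) ≤ ((bx d m).card : ℝ) := Nat.cast_nonneg _
  obtain ⟨R1, hR1⟩ := exists_nat_gt (2 * ((bx d m).card : ℝ) * CL ^ 2 / ε)
  have hconv : ∃ s', Tendsto (fun q : Pt d => ∑ a ∈ bx d (R1 + nrm v),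
      Hx d q.n q.θ q.ψ (q.u + 0) (q.u + a) * ∑ c ∈ bx d (R1 + nrm v),
        (∑ y ∈ bx d m, tf m 0 y * G3x d q.n q.θ q.ψ (q.u + a) (q.u + c) (q.u + y)) *
          Hx d q.n q.θ q.ψ (q.u + c) (q.u + v)) (DF d) (𝓝 s') := by
    choose sH hsH using hLocH d C₁ B c₀ CL hE
    choose s3 hs3 using hLoc3 d C₁ B c₀ CL hE
    refine ⟨∑ a ∈ bx d (R1 + nrm v), sH 0 a * ∑ c ∈ bx d (R1 + nrm v),
      (∑ y ∈ bx d m, tf m 0 y * s3 a c y) * sH c v, ?_⟩
    refine tendsto_finsetSum _ fun a _ => ?_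
    refine (hsH 0 a).mul ?_
    refine tendsto_finsetSum _ fun c _ => ?_
    refine Tendsto.mul ?_ (hsH c v)
    refine tendsto_finsetSum _ fun y _ => ?_
    exact (hs3 a c y).const_mul _
  obtain ⟨s', hs'⟩ := hconv
  refine ⟨_, s', hs', ?_⟩
  rw [hev]
  refine ⟨R1 + nrm v + m + n₀, fun q hq => ?_⟩
  obtain ⟨hn, huB⟩ := hbox _ q hq
  obtain ⟨h0, h1, hψ, hdeep⟩ := hq
  have hin : ∀ y : Zd d, nrm y ≤ R1 + nrm v + m + n₀ → q.u + y ∈ Bn d q.n := fun y hy =>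
    hdeep y ((hbx _ y).2 hy)
  have huv : q.u + v ∈ Bn d q.n := hin v (by omega)
  obtain ⟨-, hsymH, -, -, -, hHs, -, -⟩ := hX q.n (by omega) q.θ q.ψ h0 h1 hψ
  have hQ1 : ∀ z : Zd d, 1 ≤ Qw z := by
    intro z
    have h2 := hQw z
    nlinarith [sq_nonneg (nrm z : ℝ)]
  have hQ0 : ∀ z : Zd d, 0 ≤ Qw z := fun z => zero_le_one.trans (hQ1 z)
  have hT : ∀ a c, |GT (Bn d q.n) (ES (Bn d q.n)) (pH d) (rho q.n q.θ q.ψ) (tf m q.u) a c| ≤
      ((bx d m).card : ℝ) := by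
    intro a c
    rw [GT_exp m hm q.n q.θ q.ψ q.u (hbx m) (fun y hy => hin y (by
      have := (hbx m y).1 hy
      omega)) a c]
    refine (Finset.abs_sum_le_sum_abs _ _).trans ?_
    refine (Finset.sum_le_card_nsmul _ _ 1 fun y _ => ?_).trans (by simp)
    rw [abs_mul, abs_of_nonneg (tf_nonneg m 0 y)]
    exact mul_le_one₀ (tf_le_one m 0 y) (abs_nonneg _)
      (g3_mem hp0 hp1 q.n q.θ q.ψ h0 hψ _ _ _)
  have hA : (bx d (R1 + nrm v)).image (fun y => q.u + y) ⊆ Bn d q.n := by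
    intro a ha
    obtain ⟨y, hy, rfl⟩ := Finset.mem_image.1 ha
    exact hin y (by
      have := (hbx _ y).1 hy
      omega)
  have hout : ∀ a ∈ Bn d q.n \ (bx d (R1 + nrm v)).image (fun y => q.u + y),
      R1 + nrm v < nrm (a - q.u) := by
    intro a ha
    by_contra h
    rw [Finset.mem_sdiff] at ha
    exact ha.2 (Finset.mem_image.2 ⟨a - q.u, (hbx _ _).2 (not_lt.1 h), add_sub_cancel _ _⟩)
  have ht : (0 : ℝ) < 1 + (R1 : ℝ) := by positivity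
  have hqb : ∀ z : Zd d, R1 ≤ nrm z → 1 + (R1 : ℝ) ≤ Qw z := by
    intro z hz
    have h2 := hQw z
    have h3 : (R1 : ℝ) ≤ nrm z := by exact_mod_cast hz
    nlinarith [sq_nonneg ((nrm z : ℝ) - 1), sq_nonneg (nrm z : ℝ)]
  -- the four sums
  have hs1 := hHs q.u huB
  have hs2 := hHs (q.u + v) huv
  have hs2' : ∑ c ∈ Bn d q.n, Qw (c - (q.u + v)) * |Hx d q.n q.θ q.ψ c (q.u + v)| ≤ CL := by
    refine le_trans (le_of_eq (Finset.sum_congr rfl fun c _ => ?_)) hs2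
    rw [hsymH c (q.u + v)]
  have hfull : ∀ (h : Zd d → ℝ) (w : Zd d), ∑ c ∈ Bn d q.n, Qw (c - w) * |h c| ≤ CL →
      ∑ c ∈ Bn d q.n, |h c| ≤ CL := by
    intro h w hw
    refine le_trans (Finset.sum_le_sum fun c _ => ?_) hw
    nlinarith [hQ1 (c - w), abs_nonneg (h c)]
  have key := trunc (Bn d q.n) ((bx d (R1 + nrm v)).image (fun y => q.u + y)) hA
    (GT (Bn d q.n) (ES (Bn d q.n)) (pH d) (rho q.n q.θ q.ψ) (tf m q.u))
    (fun a => Hx d q.n q.θ q.ψ q.u a) (fun c => Hx d q.n q.θ q.ψ c (q.u + v))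
    ((bx d m).card : ℝ) CL CL (CL / (1 + R1)) (CL / (1 + R1)) hK hT
    (hfull (fun a => Hx d q.n q.θ q.ψ q.u a) q.u hs1)
    (hfull (fun c => Hx d q.n q.θ q.ψ c (q.u + v)) (q.u + v) hs2')
    (tail _ _ (fun a => Qw (a - q.u)) _ CL (1 + R1) ht (fun a => hQ0 _)
      (fun a ha => hqb _ (by
        have := hout a ha
        omega)) hs1)
    (tail _ _ (fun a => Qw (a - (q.u + v))) _ CL (1 + R1) ht (fun a => hQ0 _)
      (fun a ha => hqb _ (by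
        have h3 := hout a ha
        have h4 := htri (a - (q.u + v)) v
        have h5 : a - (q.u + v) + v = a - q.u := by abel
        rw [h5] at h4
        omega)) hs2')
  have hF : Sx d q.n q.θ q.ψ (tf m q.u) q.u (q.u + v) = ∑ a ∈ Bn d q.n,
      Hx d q.n q.θ q.ψ q.u a * ∑ c ∈ Bn d q.n,
        GT (Bn d q.n) (ES (Bn d q.n)) (pH d) (rho q.n q.θ q.ψ) (tf m q.u) a c *
          Hx d q.n q.θ q.ψ c (q.u + v) := rfl
  have hF' : (∑ a ∈ bx d (R1 + nrm v),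
      Hx d q.n q.θ q.ψ (q.u + 0) (q.u + a) * ∑ c ∈ bx d (R1 + nrm v),
        (∑ y ∈ bx d m, tf m 0 y * G3x d q.n q.θ q.ψ (q.u + a) (q.u + c) (q.u + y)) *
          Hx d q.n q.θ q.ψ (q.u + c) (q.u + v)) =
      ∑ a ∈ (bx d (R1 + nrm v)).image (fun y => q.u + y), Hx d q.n q.θ q.ψ q.u a *
        ∑ c ∈ (bx d (R1 + nrm v)).image (fun y => q.u + y),
        GT (Bn d q.n) (ES (Bn d q.n)) (pH d) (rho q.n q.θ q.ψ) (tf m q.u) a c *
          Hx d q.n q.θ q.ψ c (q.u + v) := by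
    rw [Finset.sum_image (fun x _ y _ h => add_left_cancel h)]
    refine Finset.sum_congr rfl fun a _ => ?_
    rw [Finset.sum_image (fun x _ y _ h => add_left_cancel h), add_zero]
    congr 1
    refine Finset.sum_congr rfl fun c _ => ?_
    rw [GT_exp m hm q.n q.θ q.ψ q.u (hbx m) (fun y hy => hin y (by
      have := (hbx m y).1 hy
      omega))]
  rw [hF, hF']
  refine key.trans ?_
  have e1 : ((bx d m).card : ℝ) * (CL / (1 + R1) * CL + CL * (CL / (1 + R1))) =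
      (2 * ((bx d m).card : ℝ) * CL ^ 2) / (1 + R1) := by
    field_simp
    ring
  rw [e1, div_le_iff₀ ht]
  rw [div_lt_iff₀ hε] at hR1
  nlinarith

end Pool.CL
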