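import Pool.Agent.Helper65.CL.StD
import Pool.Agent.Helper22.NL.StZ

/-!
# Project CL (MP_65faa7), module Mom: moments of the weighted cluster and the expansion
-/

set_option autoImplicit false

open scoped BigOperators ENNReal Topology
open Pool.LE Pool.NL Filter MeasureTheory

namespace Pool.CL

private noncomputable def tp (N : ℕ) (t : ℝ) : ℝ :=
  ∑ r ∈ Finset.range N, (-t) ^ r / (r.factorial : ℝ)

private theorem tp_deriv (N : ℕ) (t : ℝ) : HasDerivAt (tp (N + 1)) (-tp N t) t := by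
  induction N with
  | zero =>
    have h : tp (0 + 1) = fun _ => (1 : ℝ) := by
      funext s; simp [tp]
    rw [h]
    have : -tp 0 t = 0 := by simp [tp]
    rw [this]
    exact hasDerivAt_const t 1
  | succ N ih =>
    have h : tp (N + 1 + 1) = fun s => tp (N + 1) s + (-s) ^ (N + 1) / ((N + 1).factorial : ℝ) := by
      funext s; simp only [tp]; rw [Finset.sum_range_succ]
    rw [h]
    have h2 : -tp (N + 1) t = -tp N t + -((-t) ^ N / (N.factorial : ℝ)) := by
      simp only [tp]; rw [Finset.sum_range_succ]; ring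
    rw [h2]
    refine ih.add ?_
    have h3 := ((hasDerivAt_neg t).pow (N + 1)).div_const ((N + 1).factorial : ℝ)
    refine h3.congr_deriv ?_
    have hf : ((N + 1).factorial : ℝ) = ((N : ℝ) + 1) * (N.factorial : ℝ) := by
      rw [Nat.factorial_succ]; push_cast; ring
    have h4 : (N.factorial : ℝ) ≠ 0 := by exact_mod_cast N.factorial_ne_zero
    have h5 : (N : ℝ) + 1 ≠ 0 := by positivity
    rw [hf]
    simp only [Nat.add_sub_cancel]
    push_cast
    field_simp

private theorem tay (N : ℕ) : ∀ t : ℝ, 0 ≤ t → |Real.exp (-t) - tp N t| ≤ t ^ N / (N.factorial : ℝ) := by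
  induction N with
  | zero =>
    intro t ht
    simp only [tp, Finset.range_zero, Finset.sum_empty, sub_zero, pow_zero, Nat.factorial_zero,
      Nat.cast_one, div_one]
    rw [abs_of_pos (Real.exp_pos _)]
    exact Real.exp_le_one_iff.2 (by linarith)
  | succ N ih =>
    have hf : ((N + 1).factorial : ℝ) = ((N : ℝ) + 1) * (N.factorial : ℝ) := by
      rw [Nat.factorial_succ]; push_cast; ring
    have h4 : (N.factorial : ℝ) ≠ 0 := by exact_mod_cast N.factorial_ne_zero
    have h5 : (N : ℝ) + 1 ≠ 0 := by positivity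
    have hR : ∀ t : ℝ, HasDerivAt (fun s => Real.exp (-s) - tp (N + 1) s)
        (-(Real.exp (-t) - tp N t)) t := by
      intro t
      have h1 := (Real.hasDerivAt_exp (-t)).comp t (hasDerivAt_neg t)
      refine (h1.sub (tp_deriv N t)).congr_deriv ?_
      ring
    have hP : ∀ t : ℝ, HasDerivAt (fun s => s ^ (N + 1) / ((N + 1).factorial : ℝ))
        (t ^ N / (N.factorial : ℝ)) t := by
      intro t
      have h1 := (hasDerivAt_pow (N + 1) t).div_const ((N + 1).factorial : ℝ)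
      refine h1.congr_deriv ?_
      rw [hf]
      simp only [Nat.add_sub_cancel]
      push_cast
      field_simp
    have hzero : tp (N + 1) 0 = 1 := by
      simp only [tp, neg_zero]
      rw [Finset.sum_range_succ']
      simp
    have hA : MonotoneOn (fun s => s ^ (N + 1) / ((N + 1).factorial : ℝ) -
        (Real.exp (-s) - tp (N + 1) s)) (Set.Ici 0) := by
      refine monotoneOn_of_deriv_nonneg (convex_Ici 0) ?_ ?_ ?_
      · exact fun s _ => ((hP s).sub (hR s)).continuousAt.continuousWithinAt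
      · exact fun s _ => ((hP s).sub (hR s)).differentiableAt.differentiableWithinAt
      · intro s hs
        rw [interior_Ici, Set.mem_Ioi] at hs
        have e := ((hP s).sub (hR s)).deriv
        have e' : deriv (fun s => s ^ (N + 1) / ((N + 1).factorial : ℝ) -
          (Real.exp (-s) - tp (N + 1) s)) s = s ^ N / (N.factorial : ℝ) -
            -(Real.exp (-s) - tp N s) := e
        rw [e']
        have := (abs_le.1 (ih s hs.le)).1
        linarith
    have hB : MonotoneOn (fun s => s ^ (N + 1) / ((N + 1).factorial : ℝ) +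
        (Real.exp (-s) - tp (N + 1) s)) (Set.Ici 0) := by
      refine monotoneOn_of_deriv_nonneg (convex_Ici 0) ?_ ?_ ?_
      · exact fun s _ => ((hP s).add (hR s)).continuousAt.continuousWithinAt
      · exact fun s _ => ((hP s).add (hR s)).differentiableAt.differentiableWithinAt
      · intro s hs
        rw [interior_Ici, Set.mem_Ioi] at hs
        have e := ((hP s).add (hR s)).deriv
        have e' : deriv (fun s => s ^ (N + 1) / ((N + 1).factorial : ℝ) +
          (Real.exp (-s) - tp (N + 1) s)) s = s ^ N / (N.factorial : ℝ) +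
            -(Real.exp (-s) - tp N s) := e
        rw [e']
        have := (abs_le.1 (ih s hs.le)).2
        linarith
    intro t ht
    have a1 := hA (Set.mem_Ici.2 le_rfl) (Set.mem_Ici.2 ht) ht
    have a2 := hB (Set.mem_Ici.2 le_rfl) (Set.mem_Ici.2 ht) ht
    simp only [hzero, neg_zero, Real.exp_zero, sub_self, sub_zero, add_zero,
      zero_pow (Nat.succ_ne_zero N), zero_div] at a1 a2
    rw [abs_le]
    constructor <;> linarith

private theorem pow_fac (r : ℕ) : (r : ℝ) ^ r ≤ 3 ^ r * (r.factorial : ℝ) := by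
  have h1 := Real.pow_div_factorial_le_exp (r : ℝ) (Nat.cast_nonneg r) r
  have h4 : (0 : ℝ) < (r.factorial : ℝ) := by exact_mod_cast r.factorial_pos
  rw [div_le_iff₀ h4] at h1
  refine h1.trans (mul_le_mul_of_nonneg_right ?_ h4.le)
  have h2 : Real.exp (r : ℝ) = Real.exp 1 ^ r := by
    rw [← Real.exp_nat_mul, mul_one]
  rw [h2]
  refine pow_le_pow_left₀ (Real.exp_pos _).le ?_ r
  have := Real.exp_one_lt_d9
  linarith

/-- moments of the weighted cluster and the expansion of the average -/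
theorem hMom (hM : StMomS) (hHub : StHub) (hHh : StHh) (hB : StBasic) (hBn : StBn)
    (hY : StY) : StMom := by
  classical
  intro d C₁ B c₀ CL hE
  have hC : 1 ≤ C₁ := hE.env.hC
  have hK : (1 : ℝ) ≤ 12 * C₁ ^ 2 := by nlinarith
  refine ⟨12 * C₁ ^ 2, hK, ?_⟩
  intro n ψ hn hψ
  obtain ⟨hFG, hcard, -, -, -⟩ := hBn d n
  have hp0 : 0 ≤ pH d := hE.env.p0.le
  have hp1 : pH d ≤ 1 := hE.env.p1.trans (by norm_num)
  have hn1 : (1 : ℝ) ≤ n := by exact_mod_cast hn
  have hn0 : (0 : ℝ) < n := by linarith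
  have hχ : 1 ≤ C₁ * (n : ℝ) ^ 2 := by
    have h1 : (1 : ℝ) ≤ (n : ℝ) ^ 2 := one_le_pow₀ hn1
    nlinarith
  have hhub : ∀ x ∈ Bn d n, hh (Bn d n) (ES (Bn d n)) (pH d) x ≤ C₁ * (n : ℝ) ^ 2 :=
    fun x hx => hHub d C₁ B c₀ hE.env n hn x hx
  obtain ⟨hh1, -⟩ := hHh (Zd d) (Bn d n) (ES (Bn d n)) (2 * d) (pH d) hFG hp0 hp1
  obtain ⟨hmono, hconst, hadd, hsub, hmul, hsum, -⟩ := hB (Zd d) (ES (Bn d n)) (pH d) hp0 hp1
  set K : ℝ := 12 * C₁ ^ 2 with hKdef
  -- the mass
  have hM0 : ∀ ω x, 0 ≤ ms ψ (cb d n ω x) := fun ω x => Finset.sum_nonneg fun y _ => (hψ y).1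
  have hMX : ∀ ω x, ms ψ (cb d n ω x) ≤ (Xc (Bn d n) ω x : ℝ) := by
    intro ω x
    have h1 : ms ψ (cb d n ω x) ≤ ∑ _y ∈ cb d n ω x, (1 : ℝ) :=
      Finset.sum_le_sum fun y _ => (hψ y).2
    refine h1.trans (le_of_eq ?_)
    rw [Finset.sum_const, nsmul_eq_mul, mul_one]
    rfl
  have hX : ∀ x ∈ Bn d n, ∀ r : ℕ, eb d n (fun ω => (Xc (Bn d n) ω x : ℝ) ^ (r + 1)) ≤
      K ^ (r + 1) * ((n : ℝ) ^ (2 + 4 * r) * (r.factorial : ℝ)) := by
    intro x hx r
    rcases Nat.eq_zero_or_pos r with h0 | hr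
    · subst h0
      have h := hh1 x
      have h' := hhub x hx
      rw [h] at h'
      have h2 : eb d n (fun ω => (Xc (Bn d n) ω x : ℝ) ^ (0 + 1)) =
          ex (ES (Bn d n)) (pH d) (fun ω => (Xc (Bn d n) ω x : ℝ)) := by
        unfold eb; congr 1; funext ω; rw [zero_add, pow_one]
      rw [h2]
      refine h'.trans ?_
      simp only [zero_add, pow_one, mul_zero, add_zero, Nat.factorial_zero, Nat.cast_one, mul_one]
      refine mul_le_mul_of_nonneg_right ?_ (by positivity)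
      rw [hKdef]; nlinarith
    · have hmom := hM (Zd d) (Bn d n) (ES (Bn d n)) (2 * d) (pH d) (C₁ * (n : ℝ) ^ 2) hFG hp0
        hE.env.p1 hχ hhub x hx r hr
      refine hmom.trans ?_
      have e1 : 2 * (C₁ * (n : ℝ) ^ 2) * (4 * (C₁ * (n : ℝ) ^ 2) ^ 2 * (r : ℝ)) ^ r =
          2 * C₁ * (4 * C₁ ^ 2) ^ r * (n : ℝ) ^ (2 + 4 * r) * (r : ℝ) ^ r := by
        rw [show 4 * (C₁ * (n : ℝ) ^ 2) ^ 2 * (r : ℝ) = (4 * C₁ ^ 2) * (n : ℝ) ^ 4 * (r : ℝ) by ring,
          mul_pow, mul_pow, pow_add, pow_mul]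
        ring
      rw [e1]
      have e2 : K ^ (r + 1) * ((n : ℝ) ^ (2 + 4 * r) * (r.factorial : ℝ)) =
          K * (4 * C₁ ^ 2) ^ r * (n : ℝ) ^ (2 + 4 * r) * (3 ^ r * (r.factorial : ℝ)) := by
        rw [pow_succ, hKdef, show (12 * C₁ ^ 2) ^ r = (4 * C₁ ^ 2) ^ r * 3 ^ r by
          rw [← mul_pow]; congr 1; ring]
        ring
      rw [e2]
      refine mul_le_mul ?_ (pow_fac r) (by positivity) (by positivity)
      refine mul_le_mul_of_nonneg_right ?_ (by positivity)
      refine mul_le_mul_of_nonneg_right ?_ (by positivity)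
      rw [hKdef]; nlinarith
  have hMm : ∀ x ∈ Bn d n, ∀ r : ℕ, eb d n (fun ω => (ms ψ (cb d n ω x)) ^ (r + 1)) ≤
      K ^ (r + 1) * ((n : ℝ) ^ (2 + 4 * r) * (r.factorial : ℝ)) := by
    intro x hx r
    refine le_trans ?_ (hX x hx r)
    exact hmono _ _ fun ω _ => pow_le_pow_left₀ (hM0 ω x) (hMX ω x) (r + 1)
  have hMn : ∀ x, ∀ r : ℕ, 0 ≤ eb d n (fun ω => (ms ψ (cb d n ω x)) ^ (r + 1)) := by
    intro x r
    have h := hmono (fun _ => 0) (fun ω => (ms ψ (cb d n ω x)) ^ (r + 1))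
      fun ω _ => pow_nonneg (hM0 ω x) _
    rw [hconst] at h
    exact h
  have hcardR : ((Bn d n).card : ℝ) = (n : ℝ) ^ d := by rw [hcard]; push_cast; rfl
  have hnd : (0 : ℝ) < (n : ℝ) ^ d := by positivity
  have hK0 : 0 ≤ K := by linarith
  -- averages of bounded functions
  have hav : ∀ (f : Zd d → ℝ) (c : ℝ), (∀ x ∈ Bn d n, |f x| ≤ c) → |av d n f| ≤ c := by
    intro f c hf
    unfold av
    rw [abs_div, abs_of_pos hnd, div_le_iff₀ hnd]
    refine (Finset.abs_sum_le_sum_abs _ _).trans ((Finset.sum_le_sum hf).trans (le_of_eq ?_))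
    rw [Finset.sum_const, nsmul_eq_mul, hcardR]; ring
  have hψM : ∀ x ∈ Bn d n, ∀ r : ℕ,
      |ψ x * eb d n (fun ω => (ms ψ (cb d n ω x)) ^ (r + 1))| ≤
      K ^ (r + 1) * ((n : ℝ) ^ (2 + 4 * r) * (r.factorial : ℝ)) := by
    intro x hx r
    rw [abs_mul, abs_of_nonneg (hψ x).1, abs_of_nonneg (hMn x r)]
    have h1 := hMm x hx r
    have h2 := hMn x r
    calc ψ x * eb d n (fun ω => (ms ψ (cb d n ω x)) ^ (r + 1))
        ≤ 1 * eb d n (fun ω => (ms ψ (cb d n ω x)) ^ (r + 1)) :=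
          mul_le_mul_of_nonneg_right (hψ x).2 h2
      _ ≤ _ := by rw [one_mul]; exact h1
  have hden : ∀ r : ℕ, (0 : ℝ) < (n : ℝ) ^ (2 + 4 * r) * (r.factorial : ℝ) := by
    intro r
    have : (0 : ℝ) < (r.factorial : ℝ) := by exact_mod_cast r.factorial_pos
    positivity
  refine ⟨?_, fun x r hx => hMm x hx r, ?_⟩
  · intro r
    constructor
    · unfold cr av
      refine div_nonneg (div_nonneg (Finset.sum_nonneg fun x _ => ?_) hnd.le) (hden r).le
      exact mul_nonneg (hψ x).1 (hMn x r)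
    · unfold cr
      rw [div_le_iff₀ (hden r)]
      exact (le_abs_self _).trans (hav _ _ fun x hx => hψM x hx r)
  · intro N θ hθ0 hθ1
    obtain ⟨-, hY2⟩ := hY d C₁ B c₀ CL hE n ψ hn hψ
    -- the expansion at one point
    have hpt : ∀ x ∈ Bn d n, |yx d n θ ψ x - ∑ r ∈ Finset.range N, (-θ) ^ r *
        (eb d n (fun ω => (ms ψ (cb d n ω x)) ^ (r + 1)) /
          ((n : ℝ) ^ (2 + 4 * r) * (r.factorial : ℝ)))| ≤ K * (K * θ) ^ N := by
      intro x hx
      rw [(hY2 θ x hθ0 hθ1 hx).2.2]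
      have e1 : eb d n (fun ω => Real.exp (-(θ * ms ψ (cb d n ω x) / (n : ℝ) ^ 4)) *
          ms ψ (cb d n ω x)) / (n : ℝ) ^ 2 = eb d n (fun ω => (1 / (n : ℝ) ^ 2) *
          (Real.exp (-(θ * ms ψ (cb d n ω x) / (n : ℝ) ^ 4)) * ms ψ (cb d n ω x))) := by
        unfold eb; rw [hmul]; ring
      have e2 : ∑ r ∈ Finset.range N, (-θ) ^ r *
          (eb d n (fun ω => (ms ψ (cb d n ω x)) ^ (r + 1)) /
          ((n : ℝ) ^ (2 + 4 * r) * (r.factorial : ℝ))) = eb d n (fun ω =>
            ∑ r ∈ Finset.range N, ((-θ) ^ r / ((n : ℝ) ^ (2 + 4 * r) * (r.factorial : ℝ))) *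
              (ms ψ (cb d n ω x)) ^ (r + 1)) := by
        unfold eb
        rw [hsum ℕ (Finset.range N) (fun r ω => ((-θ) ^ r / ((n : ℝ) ^ (2 + 4 * r) *
          (r.factorial : ℝ))) * (ms ψ (cb d n ω x)) ^ (r + 1))]
        refine Finset.sum_congr rfl fun r _ => ?_
        rw [hmul]; ring
      rw [e1, e2]
      unfold eb
      rw [← hsub]
      set D : ℝ := θ ^ N / ((n : ℝ) ^ (2 + 4 * N) * (N.factorial : ℝ)) with hD
      have hD0 : 0 ≤ D := div_nonneg (pow_nonneg hθ0 N) (hden N).le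
      have hbd : ∀ ω, |1 / (n : ℝ) ^ 2 * (Real.exp (-(θ * ms ψ (cb d n ω x) / (n : ℝ) ^ 4)) *
          ms ψ (cb d n ω x)) - ∑ r ∈ Finset.range N, ((-θ) ^ r / ((n : ℝ) ^ (2 + 4 * r) *
          (r.factorial : ℝ))) * (ms ψ (cb d n ω x)) ^ (r + 1)| ≤
            D * (ms ψ (cb d n ω x)) ^ (N + 1) := by
        intro ω
        set m : ℝ := ms ψ (cb d n ω x) with hm
        have hm0 : 0 ≤ m := hM0 ω x
        have ht : 0 ≤ θ * m / (n : ℝ) ^ 4 := by positivity
        have hT := tay N (θ * m / (n : ℝ) ^ 4) ht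
        have e3 : ∑ r ∈ Finset.range N, ((-θ) ^ r / ((n : ℝ) ^ (2 + 4 * r) *
            (r.factorial : ℝ))) * m ^ (r + 1) = m / (n : ℝ) ^ 2 * tp N (θ * m / (n : ℝ) ^ 4) := by
          unfold tp
          rw [Finset.mul_sum]
          refine Finset.sum_congr rfl fun r _ => ?_
          have hf : (r.factorial : ℝ) ≠ 0 := by exact_mod_cast r.factorial_ne_zero
          rw [show -(θ * m / (n : ℝ) ^ 4) = (-θ) * m / (n : ℝ) ^ 4 by ring, div_pow, mul_pow,
            pow_add, pow_mul, pow_succ]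
          field_simp
          ring
        rw [e3, show 1 / (n : ℝ) ^ 2 * (Real.exp (-(θ * m / (n : ℝ) ^ 4)) * m) -
          m / (n : ℝ) ^ 2 * tp N (θ * m / (n : ℝ) ^ 4) = m / (n : ℝ) ^ 2 *
            (Real.exp (-(θ * m / (n : ℝ) ^ 4)) - tp N (θ * m / (n : ℝ) ^ 4)) by ring, abs_mul,
          abs_of_nonneg (by positivity : 0 ≤ m / (n : ℝ) ^ 2)]
        refine (mul_le_mul_of_nonneg_left hT (by positivity)).trans (le_of_eq ?_)
        have hf : (N.factorial : ℝ) ≠ 0 := by exact_mod_cast N.factorial_ne_zero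
        rw [hD, div_pow, mul_pow, pow_add, pow_mul, pow_succ]
        field_simp
        ring
      have hup : ex (ES (Bn d n)) (pH d) (fun ω => D * (ms ψ (cb d n ω x)) ^ (N + 1)) ≤
          K * (K * θ) ^ N := by
        rw [hmul]
        refine (mul_le_mul_of_nonneg_left (hMm x hx N) hD0).trans (le_of_eq ?_)
        have hden' := (hden N).ne'
        rw [hD, div_mul_eq_mul_div, div_eq_iff hden', mul_pow, pow_succ]
        ring
      have hlo : ex (ES (Bn d n)) (pH d) (fun ω => (-1) * (D * (ms ψ (cb d n ω x)) ^ (N + 1))) =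
          -ex (ES (Bn d n)) (pH d) (fun ω => D * (ms ψ (cb d n ω x)) ^ (N + 1)) := by
        rw [hmul]; ring
      rw [abs_le]
      constructor
      · rw [neg_le_iff_add_nonneg]
        have h := hmono (fun ω => (-1) * (D * (ms ψ (cb d n ω x)) ^ (N + 1)))
          (fun ω => 1 / (n : ℝ) ^ 2 * (Real.exp (-(θ * ms ψ (cb d n ω x) / (n : ℝ) ^ 4)) *
          ms ψ (cb d n ω x)) - ∑ r ∈ Finset.range N, ((-θ) ^ r / ((n : ℝ) ^ (2 + 4 * r) *
          (r.factorial : ℝ))) * (ms ψ (cb d n ω x)) ^ (r + 1))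
          (fun ω _ => by
            have h7 := (abs_le.1 (hbd ω)).1
            linarith)
        rw [hlo] at h
        linarith
      · have h := hmono _ (fun ω => D * (ms ψ (cb d n ω x)) ^ (N + 1))
          (fun ω _ => (abs_le.1 (hbd ω)).2)
        linarith
    have e5 : av d n (fun x => ψ x * yx d n θ ψ x) - ∑ r ∈ Finset.range N, (-θ) ^ r * cr d n r ψ =
        av d n (fun x => ψ x * (yx d n θ ψ x - ∑ r ∈ Finset.range N, (-θ) ^ r *
        (eb d n (fun ω => (ms ψ (cb d n ω x)) ^ (r + 1)) /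
          ((n : ℝ) ^ (2 + 4 * r) * (r.factorial : ℝ))))) := by
      have e6 : ∑ r ∈ Finset.range N, (-θ) ^ r * cr d n r ψ =
          (∑ x ∈ Bn d n, ψ x * ∑ r ∈ Finset.range N, (-θ) ^ r *
        (eb d n (fun ω => (ms ψ (cb d n ω x)) ^ (r + 1)) /
          ((n : ℝ) ^ (2 + 4 * r) * (r.factorial : ℝ)))) / (n : ℝ) ^ d := by
        unfold cr av
        simp only [Finset.mul_sum]
        rw [Finset.sum_comm, Finset.sum_div]
        refine Finset.sum_congr rfl fun r _ => ?_
        rw [Finset.sum_div, Finset.sum_div, Finset.mul_sum, Finset.sum_div]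
        refine Finset.sum_congr rfl fun x _ => ?_
        ring
      rw [e6]
      unfold av
      rw [← sub_div, ← Finset.sum_sub_distrib]
      congr 1
      refine Finset.sum_congr rfl fun x _ => ?_
      ring
    rw [e5]
    refine hav _ _ fun x hx => ?_
    rw [abs_mul, abs_of_nonneg (hψ x).1]
    calc ψ x * _ ≤ 1 * _ := mul_le_mul_of_nonneg_right (hψ x).2 (abs_nonneg _)
      _ ≤ _ := by rw [one_mul]; exact hpt x hx

end Pool.CL
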