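import Pool.Agent.Helper65.CL.StB
import Pool.Agent.Helper84.LE.BWT
import Pool.Agent.Helper84.LE.BGR

/-!
# Project CL, module PD: the weighted two-point function is positive definite
-/

set_option autoImplicit false
set_option linter.unusedSectionVars false

open scoped BigOperators ENNReal Topology
open Pool.LE Pool.NL Filter MeasureTheory

namespace Pool.CL

namespace PDM

variable {V : Type} [DecidableEq V]

theorem mem_clu {L : Finset V} {ω : Finset (Sym2 V)} {x y : V} :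
    y ∈ clu L ω x ↔ y ∈ L ∧ con ω x y := by
  classical
  unfold clu
  rw [Finset.mem_filter]

theorem clu_eq {L : Finset V} {ω : Finset (Sym2 V)} {u v : V} (h : con ω u v) :
    clu L ω u = clu L ω v := by
  ext y
  rw [mem_clu, mem_clu]
  unfold con at h ⊢
  exact ⟨fun hy => ⟨hy.1, h.symm.trans hy.2⟩, fun hy => ⟨hy.1, h.trans hy.2⟩⟩

theorem con_comm {ω : Finset (Sym2 V)} {u v : V} : con ω u v ↔ con ω v u := by
  unfold con
  exact ⟨fun h => h.symm, fun h => h.symm⟩

theorem ind_comm {ω : Finset (Sym2 V)} {u v : V} : ind (con ω u v) = ind (con ω v u) := by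
  unfold ind
  by_cases h : con ω u v
  · rw [if_pos h, if_pos (con_comm.1 h)]
  · rw [if_neg h, if_neg (fun h' => h (con_comm.1 h'))]

theorem ind_mul_clu {L : Finset V} {ω : Finset (Sym2 V)} {u v : V} (g : Finset V → ℝ) :
    ind (con ω u v) * g (clu L ω u) = ind (con ω v u) * g (clu L ω v) := by
  by_cases h : con ω u v
  · rw [clu_eq h, ind_comm]
  · have h' : ¬ con ω v u := fun h' => h (con_comm.1 h')
    unfold ind
    rw [if_neg h, if_neg h', zero_mul, zero_mul]

theorem rp_pos {ρ : V → ℝ} (hρ : ∀ y, 0 < ρ y ∧ ρ y ≤ 1) (C : Finset V) : 0 < rp ρ C := by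
  unfold rp
  exact Finset.prod_pos fun y _ => (hρ y).1

theorem rp_le {ρ : V → ℝ} (hρ : ∀ y, 0 < ρ y ∧ ρ y ≤ 1) (C : Finset V) : rp ρ C ≤ 1 := by
  unfold rp
  exact Finset.prod_le_one (fun y _ => (hρ y).1.le) fun y _ => (hρ y).2

theorem ind_nonneg (A : Prop) : 0 ≤ ind A := by
  unfold ind
  split_ifs
  · exact zero_le_one
  · exact le_rfl

/-- the quadratic form of one configuration -/
theorem quad {L : Finset V} {ω : Finset (Sym2 V)} (ρ f : V → ℝ) :
    ∑ u ∈ L, ∑ v ∈ L, f u * (ind (con ω u v) * rp ρ (clu L ω u)) * f v =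
      ∑ C ∈ L.image (clu L ω), rp ρ C * (∑ v ∈ C, f v) ^ 2 := by
  classical
  have h1 : ∀ u ∈ L, ∑ v ∈ L, f u * (ind (con ω u v) * rp ρ (clu L ω u)) * f v =
      f u * (rp ρ (clu L ω u) * ∑ v ∈ clu L ω u, f v) := by
    intro u _
    have h2 : ∑ v ∈ clu L ω u, f v = ∑ v ∈ L, ind (con ω u v) * f v := by
      unfold clu
      rw [Finset.sum_filter]
      refine Finset.sum_congr rfl fun v _ => ?_
      unfold ind
      by_cases h : con ω u v
      · rw [if_pos h, if_pos h, one_mul]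
      · rw [if_neg h, if_neg h, zero_mul]
    rw [h2, Finset.mul_sum, Finset.mul_sum]
    refine Finset.sum_congr rfl fun v _ => ?_
    ring
  rw [Finset.sum_congr rfl h1,
    ← Finset.sum_fiberwise_of_maps_to (g := clu L ω) (t := L.image (clu L ω))
      (fun u hu => Finset.mem_image_of_mem _ hu)]
  refine Finset.sum_congr rfl fun C hC => ?_
  obtain ⟨x, hx, rfl⟩ := Finset.mem_image.1 hC
  have h3 : L.filter (fun u => clu L ω u = clu L ω x) = clu L ω x := by
    ext u
    rw [Finset.mem_filter]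
    constructor
    · rintro ⟨hu, he⟩
      rw [← he, mem_clu]
      refine ⟨hu, ?_⟩
      unfold con
      exact SimpleGraph.Reachable.refl u
    · intro hu
      exact ⟨(mem_clu.1 hu).1, (clu_eq (mem_clu.1 hu).2).symm⟩
  rw [h3]
  have h4 : ∀ u ∈ clu L ω x, f u * (rp ρ (clu L ω u) * ∑ v ∈ clu L ω u, f v) =
      f u * (rp ρ (clu L ω x) * ∑ v ∈ clu L ω x, f v) := by
    intro u hu
    rw [clu_eq (mem_clu.1 hu).2]
  rw [Finset.sum_congr rfl h4, ← Finset.sum_mul]
  ring

theorem quad_nonneg {L : Finset V} {ω : Finset (Sym2 V)} {ρ : V → ℝ}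
    (hρ : ∀ y, 0 < ρ y ∧ ρ y ≤ 1) (f : V → ℝ) :
    0 ≤ ∑ u ∈ L, ∑ v ∈ L, f u * (ind (con ω u v) * rp ρ (clu L ω u)) * f v := by
  rw [quad]
  exact Finset.sum_nonneg fun C _ => mul_nonneg (rp_pos hρ C).le (sq_nonneg _)

theorem con_empty {u v : V} (h : con (∅ : Finset (Sym2 V)) u v) : u = v := by
  unfold con gr at h
  rw [Finset.coe_empty, SimpleGraph.fromEdgeSet_empty] at h
  exact SimpleGraph.reachable_bot.1 h

theorem quad_pos {L : Finset V} {ρ : V → ℝ} (hρ : ∀ y, 0 < ρ y ∧ ρ y ≤ 1) (f : V → ℝ)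
    (hf : ∃ u ∈ L, f u ≠ 0) :
    0 < ∑ u ∈ L, ∑ v ∈ L,
      f u * (ind (con (∅ : Finset (Sym2 V)) u v) * rp ρ (clu L ∅ u)) * f v := by
  have h1 : ∀ u ∈ L, ∑ v ∈ L,
      f u * (ind (con (∅ : Finset (Sym2 V)) u v) * rp ρ (clu L ∅ u)) * f v =
      rp ρ (clu L ∅ u) * f u ^ 2 := by
    intro u hu
    rw [Finset.sum_eq_single u]
    · have h2 : con (∅ : Finset (Sym2 V)) u u := by
        unfold con
        exact SimpleGraph.Reachable.refl u
      unfold ind
      rw [if_pos h2]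
      ring
    · intro v _ hv
      have h2 : ¬ con (∅ : Finset (Sym2 V)) u v := fun h => hv (con_empty h).symm
      unfold ind
      rw [if_neg h2]
      ring
    · intro h
      exact absurd hu h
  rw [Finset.sum_congr rfl h1]
  obtain ⟨u, hu, hu0⟩ := hf
  exact Finset.sum_pos' (fun x _ => mul_nonneg (rp_pos hρ _).le (sq_nonneg _))
    ⟨u, hu, mul_pos (rp_pos hρ _) (by positivity)⟩

theorem form_eq (L : Finset V) (E : Finset (Sym2 V)) (p : ℝ) (ρ f : V → ℝ) :
    ∑ u ∈ L, ∑ v ∈ L, f u * GK L E p ρ u v * f v =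
      ∑ ω ∈ E.powerset, wt E p ω *
        ∑ u ∈ L, ∑ v ∈ L, f u * (ind (con ω u v) * rp ρ (clu L ω u)) * f v := by
  have h1 : ∀ u ∈ L, ∀ v ∈ L, f u * GK L E p ρ u v * f v =
      ∑ ω ∈ E.powerset, wt E p ω * (f u * (ind (con ω u v) * rp ρ (clu L ω u)) * f v) := by
    intro u _ v _
    unfold GK ex Ex
    rw [Finset.mul_sum, Finset.sum_mul]
    refine Finset.sum_congr rfl fun ω _ => ?_
    rw [smul_eq_mul]
    ring
  rw [Finset.sum_congr rfl fun u hu => Finset.sum_congr rfl (h1 u hu)]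
  have h2 : ∀ u ∈ L, ∑ v ∈ L, ∑ ω ∈ E.powerset,
      wt E p ω * (f u * (ind (con ω u v) * rp ρ (clu L ω u)) * f v) =
      ∑ ω ∈ E.powerset, ∑ v ∈ L,
        wt E p ω * (f u * (ind (con ω u v) * rp ρ (clu L ω u)) * f v) :=
    fun u _ => Finset.sum_comm
  rw [Finset.sum_congr rfl h2, Finset.sum_comm]
  refine Finset.sum_congr rfl fun ω _ => ?_
  rw [Finset.mul_sum]
  refine Finset.sum_congr rfl fun u _ => ?_
  rw [Finset.mul_sum]

end PDM

open PDM in
/-- module PD -/
theorem hPD : StPD := by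
  intro V _ L E D p ρ _ h0 h1 hρ
  have hsym : ∀ u v, GK L E p ρ u v = GK L E p ρ v u := by
    intro u v
    unfold GK ex
    exact Ex_congr fun ω _ => ind_mul_clu (rp ρ)
  refine ⟨⟨fun u _ v _ => hsym u v, ?_⟩, ?_, hsym, ?_⟩
  · intro f hf
    rw [form_eq]
    refine Finset.sum_pos' (fun ω _ => mul_nonneg (wt_nonneg h0 h1.le E ω) (quad_nonneg hρ f))
      ⟨∅, Finset.empty_mem_powerset E, mul_pos ?_ (quad_pos hρ f hf)⟩
    unfold wt
    rw [Finset.card_empty, pow_zero, one_mul]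
    exact pow_pos (by linarith) _
  · intro u v
    constructor
    · unfold GK ex Ex
      refine Finset.sum_nonneg fun ω _ => ?_
      rw [smul_eq_mul]
      exact mul_nonneg (wt_nonneg h0 h1.le E ω) (mul_nonneg (ind_nonneg _) (rp_pos hρ _).le)
    · unfold GK cp pr ex Ex
      refine Finset.sum_le_sum fun ω _ => ?_
      rw [smul_eq_mul, smul_eq_mul]
      refine mul_le_mul_of_nonneg_left ?_ (wt_nonneg h0 h1.le E ω)
      exact mul_le_of_le_one_right (ind_nonneg _) (rp_le hρ _)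
  · intro k u v
    unfold GT ex
    exact Ex_congr fun ω _ => ind_mul_clu (fun C => ms k C * rp ρ C)

end Pool.CL
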