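import Pool.Agent.Helper65.CL.StD

/-! MP_65faa7, project CL: module Pol. -/

set_option autoImplicit false
set_option linter.unusedSectionVars false

open scoped BigOperators ENNReal Topology
open Filter

namespace Pool.CL

theorem hPol : StPol := by
  intro b K hK _ hN r
  induction r using Nat.strong_induction_on with
  | _ r ih =>
    have hK0 : 0 < K := by linarith
    rw [Metric.tendsto_atTop]
    intro δ hδ
    set θ : ℝ := min (1 / K) (δ / (4 * K ^ (r + 2))) with hθ
    have hθ0 : 0 < θ := lt_min (by positivity) (by positivity)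
    have hθ1 : K * θ ≤ 1 := by
      calc K * θ ≤ K * (1 / K) := mul_le_mul_of_nonneg_left (min_le_left _ _) hK0.le
        _ = 1 := by field_simp
    have hθ2 : K ^ (r + 2) * θ ≤ δ / 4 := by
      calc K ^ (r + 2) * θ ≤ K ^ (r + 2) * (δ / (4 * K ^ (r + 2))) :=
            mul_le_mul_of_nonneg_left (min_le_right _ _) (by positivity)
        _ = δ / 4 := by field_simp
    have hθr : 0 < θ ^ r := pow_pos hθ0 r
    obtain ⟨n₀, h₀⟩ := hN (r + 1) (by omega) (θ ^ r * (δ / 4)) (by positivity)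
    have hlim : Tendsto (fun n => ∑ s ∈ Finset.range r, θ ^ s * |b s n|) atTop (𝓝 0) := by
      have h : Tendsto (fun n => ∑ s ∈ Finset.range r, θ ^ s * |b s n|) atTop
          (𝓝 (∑ s ∈ Finset.range r, θ ^ s * |(0 : ℝ)|)) :=
        tendsto_finsetSum _ fun s hs =>
          ((ih s (Finset.mem_range.1 hs)).abs).const_mul (θ ^ s)
      simpa using h
    obtain ⟨n₁, h₁⟩ := (Metric.tendsto_atTop.1 hlim) (θ ^ r * (δ / 4)) (by positivity)
    refine ⟨max n₀ n₁, fun n hn => ?_⟩
    have a0 := h₀ n ((le_max_left _ _).trans hn) θ hθ0.le hθ1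
    have a1 := h₁ n ((le_max_right _ _).trans hn)
    rw [Real.dist_eq, sub_zero] at a1 ⊢
    have a2 : ∑ s ∈ Finset.range r, θ ^ s * |b s n| < θ ^ r * (δ / 4) :=
      lt_of_le_of_lt (le_abs_self _) a1
    have a3 : |∑ s ∈ Finset.range r, θ ^ s * b s n| ≤ ∑ s ∈ Finset.range r, θ ^ s * |b s n| := by
      refine (Finset.abs_sum_le_sum_abs _ _).trans (le_of_eq ?_)
      refine Finset.sum_congr rfl fun s _ => ?_
      rw [abs_mul, abs_of_nonneg (pow_nonneg hθ0.le s)]
    have a4 : K * (K * θ) ^ (r + 1) ≤ θ ^ r * (δ / 4) := by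
      calc K * (K * θ) ^ (r + 1) = θ ^ r * (K ^ (r + 2) * θ) := by ring
        _ ≤ θ ^ r * (δ / 4) := mul_le_mul_of_nonneg_left hθ2 hθr.le
    rw [Finset.sum_range_succ] at a0
    have a5 : θ ^ r * |b r n| = |θ ^ r * b r n| := by
      rw [abs_mul, abs_of_pos hθr]
    have a6 : |θ ^ r * b r n| ≤ |∑ s ∈ Finset.range r, θ ^ s * b s n + θ ^ r * b r n| +
        |∑ s ∈ Finset.range r, θ ^ s * b s n| := by
      have e : θ ^ r * b r n = (∑ s ∈ Finset.range r, θ ^ s * b s n + θ ^ r * b r n) -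
          ∑ s ∈ Finset.range r, θ ^ s * b s n := by ring
      calc |θ ^ r * b r n| = |(∑ s ∈ Finset.range r, θ ^ s * b s n + θ ^ r * b r n) -
          ∑ s ∈ Finset.range r, θ ^ s * b s n| := by rw [← e]
        _ ≤ _ := abs_sub _ _
    have a7 : θ ^ r * |b r n| < θ ^ r * δ := by
      rw [a5]
      have : 0 < θ ^ r * δ := by positivity
      linarith
    exact lt_of_mul_lt_mul_left a7 hθr.le

end Pool.CL
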