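import Pool.Agent.Helper65.CL.StB

/-! # Project CL (MP_65faa7): module Row (limit of the row sums of `S_f`) -/

set_option autoImplicit false
set_option linter.unusedSectionVars false

open scoped BigOperators ENNReal Topology
open Pool.LE Pool.NL Filter MeasureTheory

namespace Pool.CL

namespace RowM

variable {d : ℕ}

theorem tf_nonneg (m : ℕ) (u y : Zd d) : 0 ≤ tf m u y := le_max_left _ _

theorem tf_le_one (m : ℕ) (u y : Zd d) : tf m u y ≤ 1 := by
  unfold tf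
  refine max_le zero_le_one ?_
  have h : (0 : ℝ) ≤ (nrm (y - u) : ℝ) / m := by positivity
  linarith

theorem tf_zero {m : ℕ} (hm : 1 ≤ m) {u y : Zd d} (h : m < nrm (y - u)) : tf m u y = 0 := by
  unfold tf
  refine max_eq_left ?_
  have h1 : (0 : ℝ) < m := by exact_mod_cast hm
  have h2 : (m : ℝ) ≤ nrm (y - u) := by exact_mod_cast h.le
  have h3 : 1 ≤ (nrm (y - u) : ℝ) / m := by
    rw [le_div_iff₀ h1]
    linarith
  linarith

/-- mass of the tent -/
theorem tent_mass (hT : StTauBasic) {p : ℝ} (h0 : 0 ≤ p) (h1 : p ≤ 1)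
    (hbx : ∀ (R : ℕ) (z : Zd d), z ∈ bx d R ↔ nrm z ≤ R) {m : ℕ} (hm : 1 ≤ m) (L : Finset (Zd d))
    (u w : Zd d) : ∑ y ∈ L, tau d p (y - w) * |tf m u y| ≤ ((bx d m).card : ℝ) := by
  classical
  obtain ⟨-, -, -, -, hτ⟩ := hT d p h0 h1
  have h2 : ∀ y ∈ L, tau d p (y - w) * |tf m u y| ≤ if y - u ∈ bx d m then 1 else 0 := by
    intro y _
    have h3 := hτ (y - w)
    split_ifs with h
    · rw [abs_of_nonneg (tf_nonneg m u y)]
      exact mul_le_one₀ h3.2 (tf_nonneg m u y) (tf_le_one m u y)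
    · rw [hbx] at h
      push Not at h
      rw [tf_zero hm h, abs_zero, mul_zero]
  refine le_trans (Finset.sum_le_sum h2) ?_
  rw [← Finset.sum_filter, Finset.sum_const, nsmul_eq_mul, mul_one]
  have h4 : (L.filter (fun y => y - u ∈ bx d m)).card ≤ (bx d m).card := by
    refine Finset.card_le_card_of_injOn (fun y => y - u) ?_ ?_
    · intro y hy
      have hy' := Finset.mem_coe.1 hy
      exact Finset.mem_coe.2 (Finset.mem_filter.1 hy').2
    · intro a _ b _ hab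
      exact sub_left_injective hab
  exact_mod_cast h4

end RowM

open RowM in
theorem hRow (hBx : StBx) (hBd : StBd) (hDF : StDF) (hLocS : StLocS) (hTauBasic : StTauBasic) :
    StRow := by
  classical
  intro d C₁ B c₀ CL hE m hm
  have hd : 1 ≤ d := le_trans (by norm_num) hE.env.hd
  have hp0 : 0 ≤ pH d := hE.env.p0.le
  have hp1 : pH d ≤ 1 := le_trans hE.env.p1 (by norm_num)
  obtain ⟨n₀, hn₀, hBx'⟩ := hBx d C₁ B c₀ CL hE
  obtain ⟨-, hdeep, hbx, -, -, hQ⟩ := hBd d hd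
  obtain ⟨hev, -, hok, -, -, hlim⟩ := hDF d hd
  set η : ℝ := ((bx d m).card : ℝ) with hη
  have hη0 : 0 < η := by
    have h1 : (0 : Zd d) ∈ bx d m := by
      rw [hbx]
      have h2 : nrm (0 : Zd d) = 0 := by
        unfold nrm
        refine Nat.le_zero.1 (Finset.sup_le fun i _ => ?_)
        simp
      rw [h2]
      exact Nat.zero_le _
    have h3 : 0 < (bx d m).card := Finset.card_pos.2 ⟨0, h1⟩
    rw [hη]
    exact Nat.cast_pos.2 h3
  have hCL : 0 < CL := lt_of_lt_of_le zero_lt_one hE.hCL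
  refine hlim _ fun ε hε => ?_
  obtain ⟨R₁, hR₁⟩ := exists_nat_gt (CL * η / ε)
  have hR₁' : CL * η ≤ ε * (2 * (1 + (R₁ : ℝ) ^ 2)) := by
    rw [div_lt_iff₀ hε] at hR₁
    have h1 : (R₁ : ℝ) ≤ 2 * (1 + (R₁ : ℝ) ^ 2) := by nlinarith [sq_nonneg ((R₁ : ℝ) - 1)]
    nlinarith
  choose s hs using fun z : Zd d => hLocS d C₁ B c₀ CL hE m z hm
  refine ⟨fun q => ∑ z ∈ bx d R₁, Sx d q.n q.θ q.ψ (tf m q.u) q.u (q.u + z),
    ∑ z ∈ bx d R₁, s z, tendsto_finsetSum _ fun z _ => hs z, ?_⟩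
  rw [hev]
  refine ⟨max R₁ n₀, fun q hq => ?_⟩
  obtain ⟨hqn, hqu⟩ := hok _ q hq
  obtain ⟨hθ0, hθ1, hψ, hdp⟩ := hq
  have hn : n₀ ≤ q.n := by
    have h1 : n₀ ≤ max R₁ n₀ := le_max_right _ _
    omega
  obtain ⟨-, -, -, -, -, -, hS, -⟩ := hBx' q.n hn q.θ q.ψ hθ0 hθ1 hψ
  have hS1 := hS (tf m q.u) η hη0 (fun w _ => tent_mass hTauBasic hp0 hp1 hbx hm _ q.u w) q.u hqu
  set f : Zd d → ℝ := fun v => Sx d q.n q.θ q.ψ (tf m q.u) q.u v with hf
  -- the translated box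
  set T : Finset (Zd d) := (bx d R₁).image (fun z => q.u + z) with hT
  have hTs : T ⊆ Bn d q.n := by
    intro y hy
    obtain ⟨z, hz, rfl⟩ := Finset.mem_image.1 hy
    refine hdp z ?_
    rw [hbx] at hz ⊢
    exact le_trans hz (le_max_left _ _)
  have hsum : ∑ z ∈ bx d R₁, f (q.u + z) = ∑ v ∈ T, f v := by
    rw [hT, Finset.sum_image]
    intro a _ b _ hab
    exact add_right_injective q.u hab
  have hdiff : (∑ v ∈ Bn d q.n, f v) - ∑ z ∈ bx d R₁, f (q.u + z) = ∑ v ∈ Bn d q.n \ T, f v := by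
    rw [hsum, ← Finset.sum_sdiff hTs]
    ring
  have hgoal : |(∑ v ∈ Bn d q.n, f v) - ∑ z ∈ bx d R₁, f (q.u + z)| ≤ ε := by
    rw [hdiff]
    have h1 : |∑ v ∈ Bn d q.n \ T, f v| ≤ ∑ v ∈ Bn d q.n \ T, |f v| :=
      Finset.abs_sum_le_sum_abs _ _
    have h2 : (2 * (1 + (R₁ : ℝ) ^ 2)) * ∑ v ∈ Bn d q.n \ T, |f v| ≤
        ∑ v ∈ Bn d q.n \ T, Qw (v - q.u) * |f v| := by
      rw [Finset.mul_sum]
      refine Finset.sum_le_sum fun v hv => ?_
      refine mul_le_mul_of_nonneg_right ?_ (abs_nonneg _)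
      have h3 : R₁ < nrm (v - q.u) := by
        by_contra hcon
        push Not at hcon
        refine (Finset.mem_sdiff.1 hv).2 ?_
        rw [hT]
        refine Finset.mem_image.2 ⟨v - q.u, (hbx _ _).2 hcon, ?_⟩
        abel
      have h4 : (R₁ : ℝ) ≤ (nrm (v - q.u) : ℝ) := by exact_mod_cast h3.le
      have h5 := hQ (v - q.u)
      have h6 : (0 : ℝ) ≤ R₁ := Nat.cast_nonneg _
      nlinarith
    have h3 : ∑ v ∈ Bn d q.n \ T, Qw (v - q.u) * |f v| ≤
        ∑ v ∈ Bn d q.n, Qw (v - q.u) * |f v| := by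
      refine Finset.sum_le_sum_of_subset_of_nonneg Finset.sdiff_subset fun v _ _ => ?_
      refine mul_nonneg ?_ (abs_nonneg _)
      have h5 := hQ (v - q.u)
      have h6 : (0 : ℝ) ≤ (nrm (v - q.u) : ℝ) ^ 2 := sq_nonneg _
      linarith
    have h4 : (0 : ℝ) < 2 * (1 + (R₁ : ℝ) ^ 2) := by positivity
    have h5 : (2 * (1 + (R₁ : ℝ) ^ 2)) * ∑ v ∈ Bn d q.n \ T, |f v| ≤
        (2 * (1 + (R₁ : ℝ) ^ 2)) * ε := by
      refine le_trans h2 (le_trans h3 (le_trans hS1 ?_))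
      linarith
    exact le_trans h1 (le_of_mul_le_mul_left h5 h4)
  exact hgoal

end Pool.CL
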