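import Pool.Agent.Helper65.CL.StB
import Pool.Agent.Helper22.NL.M_Basic

/-! # Project CL (MP_65faa7): module Star (the exact identity for `S_k`) -/

set_option autoImplicit false
set_option linter.unusedSectionVars false

open scoped BigOperators ENNReal Topology
open Pool.LE Pool.NL Filter MeasureTheory

namespace Pool.CL

namespace StarM

variable {V : Type} [DecidableEq V]

theorem ap_congr {L : Finset V} {S T : V → V → ℝ} {f g : V → ℝ} {u : V}
    (hS : ∀ v ∈ L, S u v = T u v) (h : ∀ v ∈ L, f v = g v) : ap L S f u = ap L T g u := by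
  unfold ap
  exact Finset.sum_congr rfl fun v hv => by rw [hS v hv, h v hv]

theorem ap_kk (L : Finset V) (A B : V → V → ℝ) (f : V → ℝ) (u : V) :
    ap L (kk L A B) f u = ap L A (ap L B f) u := by
  unfold ap kk
  rw [Finset.sum_congr rfl fun v _ => Finset.sum_mul L (fun w => A u w * B w v) (f v),
    Finset.sum_comm]
  refine Finset.sum_congr rfl fun w _ => ?_
  rw [Finset.mul_sum]
  exact Finset.sum_congr rfl fun v _ => by ring

theorem ap_ind (L : Finset V) (f : V → ℝ) {u : V} (hu : u ∈ L) :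
    ap L (fun a b => ind (a = b)) f u = f u := by
  unfold ap
  rw [Finset.sum_eq_single u]
  · show ind (u = u) * f u = f u
    unfold ind
    rw [if_pos rfl, one_mul]
  · intro v _ hv
    have hv' : ¬ u = v := fun h => hv h.symm
    show ind (u = v) * f v = 0
    unfold ind
    rw [if_neg hv', zero_mul]
  · intro h
    exact absurd hu h

theorem ap_inv {L : Finset V} {G H : V → V → ℝ} (h : Inv L G H) (f : V → ℝ) {u : V}
    (hu : u ∈ L) : ap L H (ap L G f) u = f u := by
  rw [← ap_kk, ← ap_ind L f hu]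
  exact ap_congr (fun v hv => (h u hu v hv).2) (fun _ _ => rfl)

theorem ms_clu (L : Finset V) (f : V → ℝ) (ω : Finset (Sym2 V)) (w : V) :
    ms f (clu L ω w) = ∑ v ∈ L, ind (con ω w v) * f v := by
  classical
  unfold ms clu
  rw [Finset.sum_filter]
  refine Finset.sum_congr rfl fun v _ => ?_
  unfold ind
  split_ifs
  · rw [one_mul]
  · rw [zero_mul]

theorem ap_GT (L : Finset V) (E : Finset (Sym2 V)) (p : ℝ) (ρ k f : V → ℝ) (w : V) :
    ap L (GT L E p ρ k) f w = ex E p (fun ω =>
      ms k (clu L ω w) * ms f (clu L ω w) * rp ρ (clu L ω w)) := by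
  have h : ∀ ω, ms k (clu L ω w) * ms f (clu L ω w) * rp ρ (clu L ω w) =
      ∑ v ∈ L, f v * (ind (con ω w v) * (ms k (clu L ω w) * rp ρ (clu L ω w))) := by
    intro ω
    rw [ms_clu L f ω w, Finset.mul_sum, Finset.sum_mul]
    exact Finset.sum_congr rfl fun v _ => by ring
  rw [show (fun ω => ms k (clu L ω w) * ms f (clu L ω w) * rp ρ (clu L ω w)) = _ from funext h,
    Basic.ex_sum]
  unfold ap
  refine Finset.sum_congr rfl fun v _ => ?_
  rw [Basic.ex_mul, mul_comm]
  rfl

theorem GT_smul (L : Finset V) (E : Finset (Sym2 V)) (p : ℝ) (ρ k : V → ℝ) (c : ℝ) (u v : V) :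
    GT L E p ρ (fun y => c * k y) u v = c * GT L E p ρ k u v := by
  unfold GT
  rw [← Basic.ex_mul]
  congr 1
  funext ω
  have h : ms (fun y => c * k y) (clu L ω u) = c * ms k (clu L ω u) := by
    unfold ms
    rw [Finset.mul_sum]
  rw [h]
  ring

end StarM

open StarM in
theorem hStar (hPD : StPD) (hHinv : StHinv) : StStar := by
  intro V _ L E D p ρ hFG hp0 hp1 hρ k f
  obtain ⟨hpd, -, -, hT⟩ := hPD V L E D p ρ hFG hp0 hp1 hρ
  obtain ⟨hI, hHs, -, -⟩ := hHinv V L (GK L E p ρ) hpd
  have key : ∀ (k f : V → ℝ), ∀ u ∈ L, ap L (SK L E p ρ k) (ap L (GK L E p ρ) f) u =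
      ap L (HK L E p ρ) (ap L (GT L E p ρ k) f) u := by
    intro k f u _
    unfold SK
    rw [ap_kk]
    refine ap_congr (fun _ _ => rfl) fun v _ => ?_
    rw [ap_kk]
    exact ap_congr (fun _ _ => rfl) fun w hw => ap_inv hI f hw
  refine ⟨fun u hu => ?_, fun u v => ?_, fun c u v => ?_⟩
  · rw [key k f u hu, key f k u hu]
    refine ap_congr (fun _ _ => rfl) fun v _ => ?_
    rw [ap_GT, ap_GT]
    congr 1
    funext ω
    ring
  · unfold SK kk
    rw [Finset.sum_congr rfl fun w _ => Finset.mul_sum L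
        (fun w' => GT L E p ρ k w w' * HK L E p ρ w' v) (HK L E p ρ u w), Finset.sum_comm]
    refine Finset.sum_congr rfl fun w _ => ?_
    rw [Finset.mul_sum]
    refine Finset.sum_congr rfl fun w' _ => ?_
    have h1 : HK L E p ρ w v = HK L E p ρ v w := hHs w v
    have h2 : HK L E p ρ u w' = HK L E p ρ w' u := hHs u w'
    rw [h1, h2, hT k w' w]
    ring
  · unfold SK kk
    rw [Finset.mul_sum]
    refine Finset.sum_congr rfl fun w _ => ?_
    have h3 : ∑ w' ∈ L, GT L E p ρ (fun y => c * k y) w w' * HK L E p ρ w' v =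
        c * ∑ w' ∈ L, GT L E p ρ k w w' * HK L E p ρ w' v := by
      rw [Finset.mul_sum]
      exact Finset.sum_congr rfl fun w' _ => by rw [GT_smul, mul_assoc]
    rw [h3]
    ring

end Pool.CL

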