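import Pool.Agent.Helper65.CL.StB

/-!
# Project CL (MP_65faa7): module Tent
The two-point function applied to a tent.
-/

set_option autoImplicit false

open scoped BigOperators ENNReal Topology
open Pool.LE Pool.NL Filter MeasureTheory

namespace Pool.CL

theorem tent_shift {d : ℕ} (S R : Finset (Zd d)) (u : Zd d) (f : Zd d → ℝ)
    (h1 : ∀ y ∈ R, u + y ∈ S) (h2 : ∀ v ∈ S, v - u ∉ R → f v = 0) :
    ∑ v ∈ S, f v = ∑ y ∈ R, f (u + y) := by
  classical
  have h3 : ∑ y ∈ R, f (u + y) = ∑ v ∈ R.image (fun y => u + y), f v := by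
    rw [Finset.sum_image]
    intro a _ b _ hab
    exact add_left_cancel hab
  rw [h3]
  symm
  refine Finset.sum_subset ?_ ?_
  · intro v hv
    obtain ⟨y, hy, rfl⟩ := Finset.mem_image.1 hv
    exact h1 y hy
  · intro v hv hn
    refine h2 v hv ?_
    intro h
    exact hn (Finset.mem_image.2 ⟨v - u, h, by abel⟩)

theorem tent_shle {d : ℕ} (S R : Finset (Zd d)) (u : Zd d) (f g : Zd d → ℝ)
    (h0 : ∀ v, 0 ≤ g v) (h1 : ∀ v, f v ≤ g v) (h2 : ∀ v, v - u ∉ R → f v ≤ 0) :
    ∑ v ∈ S, f v ≤ ∑ y ∈ R, g (u + y) := by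
  classical
  have h3 : ∑ y ∈ R, g (u + y) = ∑ v ∈ R.image (fun y => u + y), g v := by
    rw [Finset.sum_image]
    intro a _ b _ hab
    exact add_left_cancel hab
  rw [h3]
  calc ∑ v ∈ S, f v ≤ ∑ v ∈ S, (if v ∈ R.image (fun y => u + y) then g v else 0) := by
        refine Finset.sum_le_sum fun v _ => ?_
        split_ifs with h
        · exact h1 v
        · refine h2 v ?_
          intro hh
          exact h (Finset.mem_image.2 ⟨v - u, hh, by abel⟩)
    _ = ∑ v ∈ S.filter (fun v => v ∈ R.image (fun y => u + y)), g v := by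
        rw [Finset.sum_filter]
    _ ≤ ∑ v ∈ R.image (fun y => u + y), g v := by
        refine Finset.sum_le_sum_of_subset_of_nonneg ?_ (fun v _ _ => h0 v)
        intro v hv
        exact (Finset.mem_filter.1 hv).2

theorem tent_nn {d : ℕ} (m : ℕ) (u y : Zd d) : 0 ≤ tf m u y := le_max_left _ _

theorem tent_le1 {d : ℕ} (m : ℕ) (u y : Zd d) : tf m u y ≤ 1 := by
  unfold tf
  refine max_le (by norm_num) ?_
  have : (0 : ℝ) ≤ (nrm (y - u) : ℝ) / m := by positivity
  linarith

theorem tent_zero (hBd : StBd) {d : ℕ} (hd : 1 ≤ d) (m : ℕ) (hm : 1 ≤ m) (u y : Zd d)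
    (h : y - u ∉ bx d m) : tf m u y = 0 := by
  have h1 : ¬ nrm (y - u) ≤ m := fun hh => h (((hBd d hd).2.2.1 m (y - u)).2 hh)
  unfold tf
  refine max_eq_left ?_
  have h2 : (m : ℝ) ≤ (nrm (y - u) : ℝ) := by
    exact_mod_cast (not_le.1 h1).le
  have h3 : (0 : ℝ) < m := by exact_mod_cast hm
  have h4 : 1 ≤ (nrm (y - u) : ℝ) / m := (one_le_div h3).2 h2
  linarith

theorem tent_tr {d : ℕ} (m : ℕ) (u y : Zd d) : tf m u (u + y) = tf m 0 y := by
  unfold tf
  rw [add_sub_cancel_left, sub_zero]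

/-- Lipschitz bound -/
theorem tent_lip (hBd : StBd) {d : ℕ} (hd : 1 ≤ d) (m : ℕ) (y z : Zd d) :
    |tf m 0 (y + z) - tf m 0 y| ≤ (nrm z : ℝ) / m := by
  obtain ⟨-, -, -, htri, hneg, -⟩ := hBd d hd
  have h1 : (nrm (y + z) : ℝ) ≤ nrm y + nrm z := by exact_mod_cast htri y z
  have h2 : (nrm y : ℝ) ≤ nrm (y + z) + nrm z := by
    have h3 := htri (y + z) (-z)
    rw [hneg z, add_neg_cancel_right] at h3
    exact_mod_cast h3
  have h4 : |(nrm y : ℝ) - nrm (y + z)| ≤ nrm z := abs_le.2 ⟨by linarith, by linarith⟩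
  unfold tf
  rw [sub_zero, sub_zero]
  have h6 : |max 0 (1 - (nrm (y + z) : ℝ) / m) - max 0 (1 - (nrm y : ℝ) / m)| ≤
      |(1 - (nrm (y + z) : ℝ) / m) - (1 - (nrm y : ℝ) / m)| := by
    rw [max_comm 0, max_comm 0]
    exact abs_max_sub_max_le_abs _ _ _
  refine h6.trans ?_
  have h5 : (1 - (nrm (y + z) : ℝ) / m) - (1 - (nrm y : ℝ) / m) =
      ((nrm y : ℝ) - nrm (y + z)) / m := by ring
  rw [h5, abs_div, Nat.abs_cast]
  exact div_le_div_of_nonneg_right h4 (Nat.cast_nonneg m)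

/-- mass of the two-point function in a centred box, lower bound -/
theorem tent_mass (hTB : StTauBasic) (hBn : StBn) (hCp : StCpTau) (d : ℕ) (C₁ B c₀ : ℝ)
    (env : Env d C₁ B c₀) (k : ℕ) (hk : 1 ≤ k) :
    c₀ * (k : ℝ) ^ 2 ≤ ∑ y ∈ bx d k, tau d (pH d) y := by
  have h0 : 0 ≤ pH d := env.p0.le
  have h1 : pH d ≤ 1 := env.p1.trans (by norm_num)
  have hnn : ∀ x, 0 ≤ tau d (pH d) x := fun x => ((hTB d (pH d) h0 h1).2.2.2.2 x).1
  have h3 := env.A3 k hk
  have h4 : ∀ x ∈ Bn d k, hh (Bn d k) (ES (Bn d k)) (pH d) x ≤ ∑ y ∈ bx d k, tau d (pH d) y := by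
    intro x hx
    unfold hh
    have h5 := tent_shle (Bn d k) (bx d k) x
      (fun y => if y ∈ Bn d k then cp (ES (Bn d k)) (pH d) x y else 0)
      (fun y => tau d (pH d) (y - x)) (fun v => hnn _)
      (fun v => by
        split_ifs
        · exact hCp d k (pH d) x v h0 h1
        · exact hnn _)
      (fun v hv => by
        split_ifs with h
        · exact absurd ((hBn d k).2.2.2.2 x hx v h) hv
        · exact le_refl _)
    have h6 : ∑ v ∈ Bn d k, (if v ∈ Bn d k then cp (ES (Bn d k)) (pH d) x v else 0) =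
        ∑ v ∈ Bn d k, cp (ES (Bn d k)) (pH d) x v :=
      Finset.sum_congr rfl fun v hv => if_pos hv
    rw [← h6]
    refine h5.trans (le_of_eq ?_)
    refine Finset.sum_congr rfl fun y _ => ?_
    rw [add_sub_cancel_left]
  have h7 : c₀ * (k : ℝ) ^ (d + 2) ≤ (k : ℝ) ^ d * ∑ y ∈ bx d k, tau d (pH d) y := by
    refine h3.trans ((Finset.sum_le_sum h4).trans (le_of_eq ?_))
    rw [Finset.sum_const, (hBn d k).2.1, nsmul_eq_mul]
    push_cast
    rfl
  have h8 : (0 : ℝ) < (k : ℝ) ^ d := by positivity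
  refine le_of_mul_le_mul_left ?_ h8
  calc (k : ℝ) ^ d * (c₀ * (k : ℝ) ^ 2) = c₀ * (k : ℝ) ^ (d + 2) := by ring
    _ ≤ _ := h7

/-- the limit function -/
noncomputable def tlim (d m : ℕ) (z : Zd d) : ℝ := ∑ y ∈ bx d m, tau d (pH d) (y - z) * tf m 0 y

theorem tent_lim (hBd : StBd) (hDF : StDF) (hLocG : StLocG) (d : ℕ) (C₁ B c₀ CL : ℝ)
    (env : EnvC d C₁ B c₀ CL) (m : ℕ) (hm : 1 ≤ m) (z : Zd d) :
    Tendsto (fun q : Pt d => ap (Bn d q.n) (Gx d q.n q.θ q.ψ) (tf m q.u) (q.u + z)) (DF d)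
      (𝓝 (tlim d m z)) := by
  have hd : 1 ≤ d := le_trans (by norm_num) env.env.hd
  have h1 : Tendsto (fun q : Pt d => ∑ y ∈ bx d m,
      Gx d q.n q.θ q.ψ (q.u + z) (q.u + y) * tf m 0 y) (DF d) (𝓝 (tlim d m z)) := by
    unfold tlim
    refine tendsto_finsetSum _ fun y _ => ?_
    exact (hLocG d C₁ B c₀ CL env z y).mul_const _
  refine h1.congr' ?_
  refine ((hDF d hd).1 _).2 ⟨m, fun q hq => ?_⟩
  obtain ⟨-, -, -, hq4⟩ := hq
  show ∑ y ∈ bx d m, Gx d q.n q.θ q.ψ (q.u + z) (q.u + y) * tf m 0 y =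
    ∑ v ∈ Bn d q.n, Gx d q.n q.θ q.ψ (q.u + z) v * tf m q.u v
  rw [tent_shift (Bn d q.n) (bx d m) q.u
    (fun v => Gx d q.n q.θ q.ψ (q.u + z) v * tf m q.u v) hq4]
  · refine Finset.sum_congr rfl fun y _ => ?_
    rw [tent_tr]
  · intro v _ hv
    simp only [tent_zero hBd hd m hm q.u v hv, mul_zero]

theorem tent_two (hBd : StBd) (d : ℕ) (hd : 1 ≤ d) (m : ℕ) (hm : 1 ≤ m) (z : Zd d)
    (hz : nrm z ≤ m) :
    tlim d m z = ∑ y ∈ bx d (2 * m), tau d (pH d) y * tf m 0 (y + z) := by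
  obtain ⟨-, -, hbx, htri, hneg, -⟩ := hBd d hd
  unfold tlim
  have h1 : ∑ y ∈ bx d (2 * m), tau d (pH d) y * tf m 0 (y + z) =
      ∑ y ∈ bx d m, tau d (pH d) (-z + y) * tf m 0 ((-z + y) + z) := by
    refine tent_shift (bx d (2 * m)) (bx d m) (-z)
      (fun y => tau d (pH d) y * tf m 0 (y + z)) ?_ ?_
    · intro y hy
      rw [hbx] at hy ⊢
      have h2 := htri (-z) y
      rw [hneg z] at h2
      omega
    · intro v _ hv
      have h3 : tf m 0 (v + z) = 0 := by
        refine tent_zero hBd hd m hm 0 (v + z) ?_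
        rw [sub_zero]
        rwa [sub_neg_eq_add] at hv
      simp only [h3, mul_zero]
  rw [h1]
  refine Finset.sum_congr rfl fun y _ => ?_
  rw [neg_add_eq_sub, sub_add_cancel]

/-- the two-point function applied to a tent -/
theorem hTent (_hBx : StBx) (hBd : StBd) (hDF : StDF) (hLocG : StLocG) (hA1w : StA1w)
    (hTB : StTauBasic) (hBn : StBn) (hCp : StCpTau) : StTent := by
  intro d C₁ B c₀ CL env
  have hd : 1 ≤ d := le_trans (by norm_num) env.env.hd
  have h0 : 0 ≤ pH d := env.env.p0.le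
  have h1 : pH d ≤ 1 := env.env.p1.trans (by norm_num)
  have hnn : ∀ x, 0 ≤ tau d (pH d) x := fun x => ((hTB d (pH d) h0 h1).2.2.2.2 x).1
  have hC₁ : 1 ≤ C₁ := env.env.hC
  obtain ⟨CA, hCA1, hCA⟩ := hA1w d C₁ B c₀ CL env
  obtain ⟨-, -, hbx, htri, hneg, -⟩ := hBd d hd
  have htau0 : tau d (pH d) 0 = 1 := by
    unfold tau
    rw [(hTB d (pH d) h0 h1).2.1]
    simp
  have hup : ∀ (m : ℕ) (z : Zd d), 1 ≤ m → 0 ≤ tlim d m z ∧ tlim d m z ≤ CA * (m : ℝ) ^ 2 := by
    intro m z hm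
    refine ⟨Finset.sum_nonneg fun y _ => mul_nonneg (hnn _) (tent_nn _ _ _), ?_⟩
    refine le_trans (Finset.sum_le_sum fun y _ => ?_) (hCA m z hm)
    exact mul_le_of_le_one_right (hnn _) (tent_le1 _ _ _)
  refine ⟨min 1 (c₀ / 18), CA + 4 * C₁, lt_min one_pos (by linarith [env.env.hc]), by linarith,
    ?_, ?_⟩
  · intro m hm
    have hmR : (1 : ℝ) ≤ m := by exact_mod_cast hm
    have hm0 : (0 : ℝ) < m := by linarith
    refine ⟨tlim d m, fun z => tent_lim hBd hDF hLocG d C₁ B c₀ CL env m hm z, ?_, ?_, ?_⟩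
    · -- lower bound
      by_cases hm1 : m = 1
      · subst hm1
        have h2 : (1 : ℝ) ≤ tlim d 1 0 := by
          unfold tlim
          have h3 : (0 : Zd d) ∈ bx d 1 := by
            rw [hbx]
            have : nrm (0 : Zd d) = 0 := by simp [nrm]
            omega
          refine le_trans ?_ (Finset.single_le_sum
            (f := fun y : Zd d => tau d (pH d) (y - 0) * tf 1 0 y)
            (fun y _ => mul_nonneg (hnn _) (tent_nn _ _ _)) h3)
          have h4 : tf 1 (0 : Zd d) 0 = 1 := by simp [tf, nrm]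
          simp only [sub_zero, htau0, h4, mul_one, le_refl]
        calc min 1 (c₀ / 18) * ((1 : ℕ) : ℝ) ^ 2 = min 1 (c₀ / 18) := by push_cast; ring
          _ ≤ 1 := min_le_left _ _
          _ ≤ _ := h2
      · have hk : 1 ≤ m / 2 := by omega
        have hmass := tent_mass hTB hBn hCp d C₁ B c₀ env.env (m / 2) hk
        have hk3 : (m : ℝ) ≤ 3 * ((m / 2 : ℕ) : ℝ) := by
          have : m ≤ 3 * (m / 2) := by omega
          exact_mod_cast this
        have h5 : (1 / 2 : ℝ) * ∑ y ∈ bx d (m / 2), tau d (pH d) y ≤ tlim d m 0 := by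
          unfold tlim
          rw [Finset.mul_sum]
          refine le_trans ?_ (Finset.sum_le_sum_of_subset_of_nonneg
            (s := bx d (m / 2)) ?_ (fun y _ _ => mul_nonneg (hnn _) (tent_nn _ _ _)))
          · refine Finset.sum_le_sum fun y hy => ?_
            rw [sub_zero, mul_comm]
            refine mul_le_mul_of_nonneg_left ?_ (hnn _)
            rw [hbx] at hy
            have h6 : 2 * (nrm y : ℝ) ≤ m := by
              have : 2 * nrm y ≤ m := by omega
              exact_mod_cast this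
            unfold tf
            refine le_trans ?_ (le_max_right _ _)
            rw [sub_zero]
            have h7 : (nrm y : ℝ) / m ≤ 1 / 2 := by
              rw [div_le_iff₀ hm0]
              linarith
            linarith
          · intro y hy
            rw [hbx] at hy ⊢
            omega
        have h8 : (m : ℝ) ^ 2 ≤ 9 * ((m / 2 : ℕ) : ℝ) ^ 2 := by nlinarith
        calc min 1 (c₀ / 18) * (m : ℝ) ^ 2 ≤ c₀ / 18 * (m : ℝ) ^ 2 :=
              mul_le_mul_of_nonneg_right (min_le_right _ _) (by positivity)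
          _ ≤ c₀ / 18 * (9 * ((m / 2 : ℕ) : ℝ) ^ 2) :=
              mul_le_mul_of_nonneg_left h8 (by linarith [env.env.hc])
          _ = (1 / 2 : ℝ) * (c₀ * ((m / 2 : ℕ) : ℝ) ^ 2) := by ring
          _ ≤ (1 / 2 : ℝ) * ∑ y ∈ bx d (m / 2), tau d (pH d) y := by linarith
          _ ≤ _ := h5
    · refine (hup m 0 hm).2.trans ?_
      exact mul_le_mul_of_nonneg_right (by linarith) (by positivity)
    · intro z
      rcases le_total (nrm z) m with hz | hz
      · have h2 := tent_two hBd d hd m hm z hz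
        have hz0 : nrm (0 : Zd d) ≤ m := by simp [nrm]
        have h3 := tent_two hBd d hd m hm 0 hz0
        rw [h2, h3, ← Finset.sum_sub_distrib]
        refine (Finset.abs_sum_le_sum_abs _ _).trans ?_
        have h4 : ∀ y ∈ bx d (2 * m), |tau d (pH d) y * tf m 0 (y + z) -
            tau d (pH d) y * tf m 0 (y + 0)| ≤ tau d (pH d) y * ((nrm z : ℝ) / m) := by
          intro y _
          rw [← mul_sub, abs_mul, abs_of_nonneg (hnn y), add_zero]
          exact mul_le_mul_of_nonneg_left (tent_lip hBd hd m y z) (hnn y)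
        refine (Finset.sum_le_sum h4).trans ?_
        rw [← Finset.sum_mul]
        have h5 := env.env.A1 (2 * m) (by omega)
        have h6 : (0 : ℝ) ≤ (nrm z : ℝ) / m := by positivity
        refine (mul_le_mul_of_nonneg_right h5 h6).trans ?_
        have h7 : C₁ * ((2 * m : ℕ) : ℝ) ^ 2 * ((nrm z : ℝ) / m) = 4 * C₁ * m * nrm z := by
          push_cast
          field_simp
          ring
        rw [h7]
        have h8 : (0 : ℝ) ≤ (m : ℝ) * nrm z := by positivity
        nlinarith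
      · have h2 := hup m z hm
        have h3 := hup m 0 hm
        have h4 : |tlim d m z - tlim d m 0| ≤ CA * (m : ℝ) ^ 2 :=
          abs_le.2 ⟨by linarith [h2.1, h3.2], by linarith [h2.2, h3.1]⟩
        refine h4.trans ?_
        have h5 : (m : ℝ) ≤ nrm z := by exact_mod_cast hz
        have h6 : (m : ℝ) ^ 2 ≤ (m : ℝ) * nrm z := by nlinarith
        calc CA * (m : ℝ) ^ 2 ≤ CA * ((m : ℝ) * nrm z) :=
              mul_le_mul_of_nonneg_left h6 (by linarith)
          _ ≤ (CA + 4 * C₁) * ((m : ℝ) * nrm z) :=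
              mul_le_mul_of_nonneg_right (by linarith) (by positivity)
          _ = _ := by ring
  · intro m u w n hm
    have hm0 : (0 : ℝ) ≤ (m : ℝ) ^ 2 := by positivity
    have h2 := tent_shle (Bn d n) (bx d m) u (fun y => tau d (pH d) (y - w) * |tf m u y|)
      (fun y => tau d (pH d) (y - w)) (fun v => hnn _)
      (fun v => by
        rw [abs_of_nonneg (tent_nn _ _ _)]
        exact mul_le_of_le_one_right (hnn _) (tent_le1 _ _ _))
      (fun v hv => by
        rw [tent_zero hBd hd m hm u v hv, abs_zero, mul_zero])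
    refine h2.trans ?_
    have h3 : ∑ y ∈ bx d m, tau d (pH d) (u + y - w) =
        ∑ y ∈ bx d m, tau d (pH d) (y - (w - u)) := by
      refine Finset.sum_congr rfl fun y _ => ?_
      congr 1
      abel
    rw [h3]
    refine (hCA m (w - u) hm).trans ?_
    exact mul_le_mul_of_nonneg_right (by linarith) hm0

end Pool.CL
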