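import Pool.Agent.Helper65.CL.StB
import Pool.Agent.Helper65.CL.StD
import Pool.Agent.Helper84.LE.M_Box
import Pool.Agent.Helper22.NL.M_Bn

/-!
# Project CL (MP_65faa7), module Vf: the vertex factor
-/

set_option autoImplicit false

open scoped BigOperators ENNReal Topology
open Pool.LE Pool.NL Filter MeasureTheory

namespace Pool.CL

namespace VfM

theorem av_mono {d n : ℕ} {f g : Zd d → ℝ} (h : ∀ x ∈ Bn d n, f x ≤ g x) :
    av d n f ≤ av d n g := by
  unfold av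
  exact div_le_div_of_nonneg_right (Finset.sum_le_sum h) (by positivity)

theorem av_add (d n : ℕ) (f g : Zd d → ℝ) :
    av d n (fun x => f x + g x) = av d n f + av d n g := by
  unfold av
  rw [Finset.sum_add_distrib, add_div]

theorem av_mul (d n : ℕ) (c : ℝ) (f : Zd d → ℝ) :
    av d n (fun x => c * f x) = c * av d n f := by
  unfold av
  rw [← Finset.mul_sum, mul_div_assoc]

theorem av_le {d n : ℕ} (hn : 1 ≤ n) {f : Zd d → ℝ} {M : ℝ} (h : ∀ x ∈ Bn d n, f x ≤ M) :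
    av d n f ≤ M := by
  have hc : (Bn d n).card = n ^ d := (Pool.NL.hBn Pool.LE.hBox d n).2.1
  unfold av
  have hn' : (0 : ℝ) < (n : ℝ) ^ d := by
    have : (0 : ℝ) < n := by exact_mod_cast hn
    positivity
  rw [div_le_iff₀ hn']
  refine (Finset.sum_le_card_nsmul _ _ _ h).trans (le_of_eq ?_)
  rw [hc, nsmul_eq_mul]
  push_cast
  ring

theorem yx_one {d n : ℕ} (x : Zd d) :
    yx d n 0 (fun _ => 1) x = hh (Bn d n) (ES (Bn d n)) (pH d) x / (n : ℝ) ^ 2 := by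
  unfold yx ap hh
  congr 1
  refine Finset.sum_congr rfl fun v _ => ?_
  rw [mul_one]
  unfold Gx GK cp pr ex
  congr 1
  funext ω
  have h1 : rp (rho (d := d) n 0 (fun _ => 1)) (clu (Bn d n) ω x) = 1 := by
    unfold rp rho
    refine Finset.prod_eq_one fun z _ => ?_
    rw [zero_mul, zero_div, neg_zero, Real.exp_zero]
  rw [h1, mul_one]

theorem av_low {d : ℕ} {C₁ B c₀ : ℝ} (hE : Env d C₁ B c₀) {n : ℕ} (hn : 1 ≤ n) :
    c₀ ≤ av d n (yx d n 0 (fun _ => 1)) := by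
  have hn0 : (0 : ℝ) < n := by exact_mod_cast hn
  have h1 : av d n (yx d n 0 (fun _ => 1)) =
      (∑ x ∈ Bn d n, hh (Bn d n) (ES (Bn d n)) (pH d) x) / (n : ℝ) ^ (d + 2) := by
    unfold av
    rw [Finset.sum_congr rfl fun x _ => yx_one x, ← Finset.sum_div, div_div]
    congr 1
    ring
  rw [h1, le_div_iff₀ (by positivity)]
  exact hE.A3 n hn

end VfM

open VfM

theorem hVf (hVm : StVm) (hY : StY) (_hBx : StBx) : StVf := by
  intro d C₁ B c₀ CL hE
  obtain ⟨C, hC, hm⟩ := hVm d C₁ B c₀ CL hE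
  have hc : 0 < c₀ := hE.env.hc
  have hC1 : 1 ≤ C₁ := hE.env.hC
  choose V hV using hm
  -- difference of two scales
  have hdiff : ∀ m m' : ℕ, ∀ (h : 1 ≤ m) (h' : 1 ≤ m'),
      |V m h - V m' h'| ≤ (C / m + C / m') / c₀ := by
    intro m m' h h'
    rw [le_div_iff₀ hc]
    refine le_of_forall_pos_le_add fun ε hε => ?_
    obtain ⟨n₁, hn₁, h1⟩ := hV m h (ε / 2) (half_pos hε)
    obtain ⟨n₂, hn₂, h2⟩ := hV m' h' (ε / 2) (half_pos hε)
    set n : ℕ := max n₁ n₂ with hn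
    have hn1 : 1 ≤ n := hn₁.trans (le_max_left _ _)
    have hU : U01 (fun _ : Zd d => (1 : ℝ)) := fun _ => ⟨zero_le_one, le_refl _⟩
    have h3 := h1 n (le_max_left _ _) 0 (fun _ => 1) le_rfl zero_le_one hU
    have h4 := h2 n (le_max_right _ _) 0 (fun _ => 1) le_rfl zero_le_one hU
    have h5 : |V m h - V m' h'| * c₀ ≤ |V m h - V m' h'| * av d n (yx d n 0 (fun _ => 1)) :=
      mul_le_mul_of_nonneg_left (av_low hE.env hn1) (abs_nonneg _)
    refine h5.trans ?_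
    rw [← av_mul]
    have h6 : av d n (fun x => |V m h - V m' h'| * yx d n 0 (fun _ => 1) x) ≤
        av d n (fun u => |sx d n 0 (fun _ => 1) u / (n : ℝ) ^ 2 -
            V m h * yx d n 0 (fun _ => 1) u| +
          |sx d n 0 (fun _ => 1) u / (n : ℝ) ^ 2 - V m' h' * yx d n 0 (fun _ => 1) u|) := by
      refine av_mono fun x hx => ?_
      have h7 := ((hY d C₁ B c₀ CL hE n (fun _ => 1) hn1 hU).2 0 x le_rfl zero_le_one hx).1
      have h8 : |V m h - V m' h'| * yx d n 0 (fun _ => 1) x =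
          |(sx d n 0 (fun _ => 1) x / (n : ℝ) ^ 2 - V m' h' * yx d n 0 (fun _ => 1) x) -
            (sx d n 0 (fun _ => 1) x / (n : ℝ) ^ 2 - V m h * yx d n 0 (fun _ => 1) x)| := by
        rw [← abs_of_nonneg h7, ← abs_mul, abs_of_nonneg h7]
        congr 1
        ring
      rw [h8]
      refine (abs_sub _ _).trans (le_of_eq ?_)
      rw [add_comm]
    refine h6.trans ?_
    rw [av_add]
    linarith
  -- the limit
  let s : ℕ → ℝ := fun m => V (m + 1) (Nat.succ_le_succ (Nat.zero_le m))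
  have hs : ∀ N i j : ℕ, N ≤ i → N ≤ j → |s i - s j| ≤ 2 * C / c₀ * (1 / ((N : ℝ) + 1)) := by
    intro N i j hi hj
    refine (hdiff (i + 1) (j + 1) _ _).trans ?_
    have e1 : C / ((i + 1 : ℕ) : ℝ) ≤ C * (1 / ((N : ℝ) + 1)) := by
      rw [div_eq_mul_one_div]
      refine mul_le_mul_of_nonneg_left ?_ hC.le
      refine one_div_le_one_div_of_le (by positivity) ?_
      push_cast
      have : (N : ℝ) ≤ i := by exact_mod_cast hi
      linarith
    have e2 : C / ((j + 1 : ℕ) : ℝ) ≤ C * (1 / ((N : ℝ) + 1)) := by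
      rw [div_eq_mul_one_div]
      refine mul_le_mul_of_nonneg_left ?_ hC.le
      refine one_div_le_one_div_of_le (by positivity) ?_
      push_cast
      have : (N : ℝ) ≤ j := by exact_mod_cast hj
      linarith
    have e3 : 2 * C / c₀ * (1 / ((N : ℝ) + 1)) = (2 * (C * (1 / ((N : ℝ) + 1)))) / c₀ := by ring
    rw [e3]
    refine div_le_div_of_nonneg_right ?_ hc.le
    linarith
  have hb : Tendsto (fun N : ℕ => 2 * C / c₀ * (1 / ((N : ℝ) + 1))) atTop (𝓝 0) := by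
    have := (tendsto_one_div_add_atTop_nhds_zero_nat (𝕜 := ℝ)).const_mul (2 * C / c₀)
    rwa [mul_zero] at this
  have hcau : CauchySeq s := by
    refine cauchySeq_of_le_tendsto_0 (fun N : ℕ => 2 * C / c₀ * (1 / ((N : ℝ) + 1))) ?_ hb
    intro n m N hn hm
    rw [Real.dist_eq]
    exact hs N n m hn hm
  obtain ⟨W, hW⟩ := cauchySeq_tendsto_of_complete hcau
  have hsW : ∀ i : ℕ, |s i - W| ≤ 2 * C / c₀ * (1 / ((i : ℝ) + 1)) := by
    intro i
    have h1 : Tendsto (fun j => |s i - s j|) atTop (𝓝 |s i - W|) :=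
      (tendsto_const_nhds.sub hW).abs
    refine le_of_tendsto h1 ?_
    filter_upwards [eventually_ge_atTop i] with j hj
    exact hs i i j le_rfl hj
  refine ⟨W, fun ε hε => ?_⟩
  -- choose the scale
  have hb1 : Tendsto (fun N : ℕ => C * (1 / ((N : ℝ) + 1))) atTop (𝓝 0) := by
    have := (tendsto_one_div_add_atTop_nhds_zero_nat (𝕜 := ℝ)).const_mul C
    rwa [mul_zero] at this
  have hb2 : Tendsto (fun N : ℕ => 2 * C / c₀ * (1 / ((N : ℝ) + 1)) * C₁) atTop (𝓝 0) := by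
    have := hb.mul_const C₁
    rwa [zero_mul] at this
  have hε3 : 0 < ε / 3 := by positivity
  obtain ⟨i, hi1, hi2⟩ := ((hb1.eventually (gt_mem_nhds hε3)).and
    (hb2.eventually (gt_mem_nhds hε3))).exists
  obtain ⟨n₀, hn₀, h1⟩ := hV (i + 1) (Nat.succ_le_succ (Nat.zero_le i)) (ε / 3) hε3
  refine ⟨n₀, hn₀, fun n hn θ ψ hθ0 hθ1 hU => ?_⟩
  have hn1 : 1 ≤ n := hn₀.trans hn
  have h2 := h1 n hn θ ψ hθ0 hθ1 hU
  have h3 : av d n (fun u => |sx d n θ ψ u / (n : ℝ) ^ 2 - W * yx d n θ ψ u|) ≤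
      av d n (fun u => |sx d n θ ψ u / (n : ℝ) ^ 2 - s i * yx d n θ ψ u| +
        2 * C / c₀ * (1 / ((i : ℝ) + 1)) * C₁) := by
    refine av_mono fun x hx => ?_
    obtain ⟨h4, h5, -⟩ := (hY d C₁ B c₀ CL hE n ψ hn1 hU).2 θ x hθ0 hθ1 hx
    have h6 : sx d n θ ψ x / (n : ℝ) ^ 2 - W * yx d n θ ψ x =
        (sx d n θ ψ x / (n : ℝ) ^ 2 - s i * yx d n θ ψ x) + (s i - W) * yx d n θ ψ x := by ring
    rw [h6]
    refine (abs_add_le _ _).trans (add_le_add_right ?_ _)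
    rw [abs_mul, abs_of_nonneg h4]
    exact mul_le_mul (hsW i) h5 h4 (by positivity)
  refine h3.trans ?_
  rw [av_add]
  have h7 : av d n (fun _ : Zd d => 2 * C / c₀ * (1 / ((i : ℝ) + 1)) * C₁) ≤ ε / 3 :=
    av_le hn1 fun _ _ => hi2.le
  have h8 : C / ((i + 1 : ℕ) : ℝ) = C * (1 / ((i : ℝ) + 1)) := by
    push_cast
    ring
  rw [h8] at h2
  have h9 : av d n (fun u => |sx d n θ ψ u / (n : ℝ) ^ 2 - s i * yx d n θ ψ u|) ≤
      C * (1 / ((i : ℝ) + 1)) + ε / 3 := h2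
  have h10 : C * (1 / ((i : ℝ) + 1)) < ε / 3 := hi1
  linarith

end Pool.CL
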