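import Pool.Agent.Helper65.CL.StD
import Pool.Agent.Helper65.CL.M_Bx

/-!
# Project CL (MP_65faa7): the vertex factor at scale `m`
-/

set_option autoImplicit false

open scoped BigOperators ENNReal Topology
open Pool.LE Pool.NL Filter MeasureTheory

namespace Pool.CL

namespace VmM

theorem ptw {sx row gu yu e1 e2 N t0 s : ℝ} (hN : 0 < N) (ht : 0 < t0)
    (h : sx * gu = N * (row * yu + e2) - e1) :
    |sx / N - s / t0 * yu| ≤
      (|t0 - gu| * |sx / N| + |e2| + |e1| / N + |row - s| * |yu|) / t0 := by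
  have h1 : sx / N - s / t0 * yu =
      ((t0 - gu) * (sx / N) + e2 - e1 / N + (row - s) * yu) / t0 := by
    field_simp
    linear_combination h
  rw [h1, abs_div, abs_of_pos ht]
  apply div_le_div_of_nonneg_right _ ht.le
  have h2 : |(t0 - gu) * (sx / N)| = |t0 - gu| * |sx / N| := abs_mul _ _
  have h3 : |(row - s) * yu| = |row - s| * |yu| := abs_mul _ _
  have h4 : |e1 / N| = |e1| / N := by rw [abs_div, abs_of_pos hN]
  rw [← h2, ← h3, ← h4]
  calc |(t0 - gu) * (sx / N) + e2 - e1 / N + (row - s) * yu|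
      ≤ |(t0 - gu) * (sx / N) + e2 - e1 / N| + |(row - s) * yu| := abs_add_le _ _
    _ ≤ |(t0 - gu) * (sx / N) + e2| + |e1 / N| + |(row - s) * yu| := by
        have := abs_sub ((t0 - gu) * (sx / N) + e2) (e1 / N)
        linarith
    _ ≤ |(t0 - gu) * (sx / N)| + |e2| + |e1 / N| + |(row - s) * yu| := by
        have := abs_add_le ((t0 - gu) * (sx / N)) e2
        linarith

theorem ident {V : Type} (L : Finset V) (a b g y : V → ℝ) (N gu yu : ℝ)
    (h : ∑ v ∈ L, a v * g v = ∑ v ∈ L, b v * (N * y v)) :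
    (∑ v ∈ L, a v) * gu = N * ((∑ v ∈ L, b v) * yu + ∑ v ∈ L, b v * (y v - yu)) -
      ∑ v ∈ L, a v * (g v - gu) := by
  have h1 : ∑ v ∈ L, b v * (y v - yu) = ∑ v ∈ L, b v * y v - (∑ v ∈ L, b v) * yu := by
    rw [Finset.sum_mul, ← Finset.sum_sub_distrib]
    apply Finset.sum_congr rfl
    intro v _
    ring
  have h2 : ∑ v ∈ L, a v * (g v - gu) = ∑ v ∈ L, a v * g v - (∑ v ∈ L, a v) * gu := by
    rw [Finset.sum_mul, ← Finset.sum_sub_distrib]
    apply Finset.sum_congr rfl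
    intro v _
    ring
  have h3 : ∑ v ∈ L, b v * (N * y v) = N * ∑ v ∈ L, b v * y v := by
    rw [Finset.mul_sum]
    apply Finset.sum_congr rfl
    intro v _
    ring
  rw [h1, h2, h, h3]
  ring

theorem abs_sum_mul_le {V : Type} (L : Finset V) (a x : V → ℝ) :
    |∑ v ∈ L, a v * x v| ≤ ∑ v ∈ L, |a v| * |x v| := by
  refine le_trans (Finset.abs_sum_le_sum_abs _ _) (le_of_eq ?_)
  apply Finset.sum_congr rfl
  intro v _
  exact abs_mul _ _

end VmM

open VmM BxM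

theorem hVm (hStar : StStar) (hBx : StBx) (hBd : StBd) (hDF : StDF) (hRow : StRow)
    (hTent : StTent) (hLoc1 : StLoc1) (hY : StY) : StVm := by
  classical
  intro d C₁ B c₀ CL envC
  have env := envC.env
  have hd1 : 1 ≤ d := le_trans (by norm_num) env.hd
  have hC1 : 0 < C₁ := lt_of_lt_of_le one_pos env.hC
  have hCL : 0 < CL := lt_of_lt_of_le one_pos envC.hCL
  have hp0 : 0 ≤ pH d := env.p0.le
  have hp1 : pH d < 1 := by
    have := envC.half
    linarith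
  obtain ⟨c, C, hc, hC, hT1, hT2⟩ := hTent d C₁ B c₀ CL envC
  have hC0 : 0 < C := lt_of_lt_of_le one_pos hC
  obtain ⟨hbd1, hbd2, hbd3, -, -, hbd6⟩ := hBd d hd1
  refine ⟨2 * C * CL * C₁ / c, by positivity, ?_⟩
  intro m hm
  have hm1 : (1 : ℝ) ≤ m := by exact_mod_cast hm
  have hm0 : (0 : ℝ) < m := by linarith
  obtain ⟨t, htT, ht0, -, htz⟩ := hT1 m hm
  have htpos : 0 < t 0 := lt_of_lt_of_le (by positivity) ht0
  obtain ⟨s, hs⟩ := hRow d C₁ B c₀ CL envC m hm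
  refine ⟨s / t 0, ?_⟩
  intro ε hε
  obtain ⟨δ, hδdef⟩ : ∃ δ : ℝ, δ = ε * c / (3 * (3 * CL * C₁ + C₁)) := ⟨_, rfl⟩
  have hδ : 0 < δ := by
    rw [hδdef]
    positivity
  have hδc : δ * (3 * CL * C₁ + C₁) / c = ε / 3 := by
    rw [hδdef]
    field_simp
  -- the deep points
  have hev : ∀ᶠ q in DF d,
      |(∑ v ∈ Bn d q.n, Sx d q.n q.θ q.ψ (tf m q.u) q.u v) - s| ≤ δ ∧
      ∀ z ∈ bx d m, |ap (Bn d q.n) (Gx d q.n q.θ q.ψ) (tf m q.u) (q.u + z) - t z| ≤ δ := by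
    apply Filter.Eventually.and
    · have h := Metric.tendsto_nhds.mp hs δ hδ
      filter_upwards [h] with q hq
      rw [Real.dist_eq] at hq
      exact hq.le
    · rw [Filter.eventually_all_finset]
      intro z _
      have h := Metric.tendsto_nhds.mp (htT z) δ hδ
      filter_upwards [h] with q hq
      rw [Real.dist_eq] at hq
      exact hq.le
  obtain ⟨R, hR⟩ := ((hDF d hd1).1 _).mp hev
  obtain ⟨n1, hn1, hB1⟩ := hBx d C₁ B c₀ CL envC
  obtain ⟨n2, hn2, hL1⟩ := hLoc1 d C₁ B c₀ CL envC (CL * (C * (m : ℝ) ^ 2)) (ε * c / 3)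
    (by positivity) (by positivity)
  obtain ⟨M, hMdef⟩ : ∃ M : ℝ, M = CL * C₁ + |s / t 0| * C₁ := ⟨_, rfl⟩
  have hM0 : 0 ≤ M := by
    rw [hMdef]
    positivity
  refine ⟨max (max n1 n2) (⌈3 * (M * (2 * d * R)) / ε⌉₊ + 1), ?_, ?_⟩
  · exact le_trans hn1 (le_trans (le_max_left _ _) (le_max_left _ _))
  intro n hn θ ψ hθ0 hθ1 hψ
  have hnn1 : n1 ≤ n := le_trans (le_trans (le_max_left _ _) (le_max_left _ _)) hn
  have hnn2 : n2 ≤ n := le_trans (le_trans (le_max_right _ _) (le_max_left _ _)) hn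
  have hnn3 : ⌈3 * (M * (2 * d * R)) / ε⌉₊ + 1 ≤ n := le_trans (le_max_right _ _) hn
  have hn0 : 1 ≤ n := le_trans hn1 hnn1
  have hnR : (1 : ℝ) ≤ n := by exact_mod_cast hn0
  have hnpos : (0 : ℝ) < n := by linarith
  have hN : (0 : ℝ) < (n : ℝ) ^ 2 := by positivity
  obtain ⟨-, -, -, hGb, -, -, hSk, hSK⟩ := hB1 n hnn1 θ ψ hθ0 hθ1 hψ
  obtain ⟨hFG, hcard, -, -, -⟩ := bnF d n
  have hρ : ∀ y, 0 < rho n θ ψ y ∧ rho n θ ψ y ≤ 1 :=
    fun y => ⟨rho_pos n θ ψ y, rho_le n θ ψ hθ0 hψ y⟩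
  have hyb : ∀ x ∈ Bn d n, |yx d n θ ψ x| ≤ C₁ := by
    intro x hx
    obtain ⟨h1, h2, -⟩ := (hY d C₁ B c₀ CL envC n ψ hn0 hψ).2 θ x hθ0 hθ1 hx
    rw [abs_of_nonneg h1]
    exact h2
  have hψ1 : ∀ y, |ψ y| ≤ 1 := by
    intro y
    rw [abs_of_nonneg (hψ y).1]
    exact (hψ y).2
  have hQ1 : ∀ z : Zd d, 1 + (nrm z : ℝ) ≤ Qw z := by
    intro z
    have h := hbd6 z
    nlinarith [sq_nonneg ((nrm z : ℝ) - 1), sq_nonneg (nrm z : ℝ)]
  have hQ0 : ∀ z : Zd d, 1 ≤ Qw z := by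
    intro z
    have h := hQ1 z
    have h2 : (0 : ℝ) ≤ nrm z := Nat.cast_nonneg _
    linarith
  -- row sums of S_ψ
  have hsxQ : ∀ u ∈ Bn d n, ∑ v ∈ Bn d n, Qw (v - u) * |Sx d n θ ψ ψ u v| ≤
      CL * (C₁ * (n : ℝ) ^ 2) := by
    intro u hu
    have h := hSK ψ 1 one_pos hψ1 u hu
    rw [one_mul] at h
    exact h
  have hsx : ∀ u ∈ Bn d n, |sx d n θ ψ u / (n : ℝ) ^ 2| ≤ CL * C₁ := by
    intro u hu
    rw [abs_div, abs_of_pos hN, div_le_iff₀ hN]
    calc |sx d n θ ψ u| ≤ ∑ v ∈ Bn d n, |Sx d n θ ψ ψ u v| := Finset.abs_sum_le_sum_abs _ _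
      _ ≤ ∑ v ∈ Bn d n, Qw (v - u) * |Sx d n θ ψ ψ u v| := by
          apply Finset.sum_le_sum
          intro v _
          have h := mul_le_mul_of_nonneg_right (hQ0 (v - u)) (abs_nonneg (Sx d n θ ψ ψ u v))
          rw [one_mul] at h
          exact h
      _ ≤ CL * (C₁ * (n : ℝ) ^ 2) := hsxQ u hu
      _ = CL * C₁ * (n : ℝ) ^ 2 := by ring
  -- kernel of the tents
  have hker : ∀ u ∈ Bn d n, ∑ v ∈ Bn d n, Qw (v - u) * |Sx d n θ ψ (tf m u) u v| ≤
      CL * (C * (m : ℝ) ^ 2) := by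
    intro u hu
    exact hSk (tf m u) (C * (m : ℝ) ^ 2) (by positivity) (fun w _ => hT2 m u w n hm) u hu
  have hav := hL1 n hnn2 θ ψ (fun u v => Sx d n θ ψ (tf m u) u v) hθ0 hθ1 hψ hker
  -- bound for `G f`
  have hgb : ∀ u v : Zd d, |ap (Bn d n) (Gx d n θ ψ) (tf m u) v| ≤ C * (m : ℝ) ^ 2 := by
    intro u v
    unfold ap
    refine le_trans (abs_sum_mul_le _ _ _) (le_trans ?_ (hT2 m u v n hm))
    apply Finset.sum_le_sum
    intro y _
    apply mul_le_mul_of_nonneg_right _ (abs_nonneg _)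
    obtain ⟨h1, h2, -⟩ := hGb v y
    rw [abs_of_nonneg h1]
    exact le_trans h2 (cpTau d n (pH d) v y hp0 hp1.le)
  -- pointwise estimate
  have hpt : ∀ u ∈ Bn d n, |sx d n θ ψ u / (n : ℝ) ^ 2 - s / t 0 * yx d n θ ψ u| ≤
      (2 * C * CL * C₁ / c / m + ε / 3) +
      (∑ v ∈ Bn d n, |Sx d n θ ψ (tf m u) u v| * |yx d n θ ψ v - yx d n θ ψ u|) / c +
      (if ¬ deep d n R u then M else 0) := by
    intro u hu
    have hW0 : 0 ≤ ∑ v ∈ Bn d n, |Sx d n θ ψ (tf m u) u v| * |yx d n θ ψ v - yx d n θ ψ u| :=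
      Finset.sum_nonneg (fun v _ => mul_nonneg (abs_nonneg _) (abs_nonneg _))
    by_cases hdeep : deep d n R u
    · rw [if_neg (not_not.mpr hdeep), add_zero]
      obtain ⟨hr1, hr2⟩ := hR ⟨n, θ, ψ, u⟩ ⟨hθ0, hθ1, hψ, hdeep⟩
      simp only at hr1 hr2
      have hstar := (hStar (Zd d) (Bn d n) (ES (Bn d n)) (2 * d) (pH d) (rho n θ ψ) hFG hp0 hp1 hρ
        ψ (tf m u)).1 u hu
      have hid : ∑ v ∈ Bn d n, Sx d n θ ψ ψ u v * ap (Bn d n) (Gx d n θ ψ) (tf m u) v =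
          ∑ v ∈ Bn d n, Sx d n θ ψ (tf m u) u v * ((n : ℝ) ^ 2 * yx d n θ ψ v) := by
        have e : ∀ v, (n : ℝ) ^ 2 * yx d n θ ψ v = ap (Bn d n) (Gx d n θ ψ) ψ v := by
          intro v
          unfold yx
          field_simp
        simp only [e]
        exact hstar
      have hmain := ident (Bn d n) (fun v => Sx d n θ ψ ψ u v) (fun v => Sx d n θ ψ (tf m u) u v)
        (fun v => ap (Bn d n) (Gx d n θ ψ) (tf m u) v) (fun v => yx d n θ ψ v) ((n : ℝ) ^ 2)
        (ap (Bn d n) (Gx d n θ ψ) (tf m u) u) (yx d n θ ψ u) hid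
      have hp := ptw (t0 := t 0) (s := s) hN htpos hmain
      have hgu : |ap (Bn d n) (Gx d n θ ψ) (tf m u) u - t 0| ≤ δ := by
        have h := hr2 0 ((hbd3 m 0).mpr (by
          have : nrm (0 : Zd d) = 0 := by
            unfold nrm
            simp
          rw [this]
          exact Nat.zero_le _))
        rw [add_zero] at h
        exact h
      have hgv : ∀ v : Zd d, |ap (Bn d n) (Gx d n θ ψ) (tf m u) v -
          ap (Bn d n) (Gx d n θ ψ) (tf m u) u| ≤ (2 * C * m + 2 * δ) * Qw (v - u) := by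
        intro v
        have hz0 : (0 : ℝ) ≤ nrm (v - u) := Nat.cast_nonneg _
        have hb : |ap (Bn d n) (Gx d n θ ψ) (tf m u) v -
            ap (Bn d n) (Gx d n θ ψ) (tf m u) u| ≤ 2 * C * m * nrm (v - u) + 2 * δ := by
          by_cases hvm : nrm (v - u) ≤ m
          · have h1 := hr2 (v - u) ((hbd3 m (v - u)).mpr hvm)
            have e : u + (v - u) = v := by abel
            rw [e] at h1
            have h2 := htz (v - u)
            have h3 := abs_le.mp h1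
            have h4 := abs_le.mp h2
            have h5 := abs_le.mp hgu
            have h6 : 0 ≤ C * m * nrm (v - u) := by positivity
            rw [abs_le]
            constructor
            · linarith [h3.1, h4.1, h5.2]
            · linarith [h3.2, h4.2, h5.1]
          · have h1 := hgb u v
            have h2 := hgb u u
            have h3 : (m : ℝ) ≤ nrm (v - u) := by
              have : m ≤ nrm (v - u) := by omega
              exact_mod_cast this
            have h4 : |ap (Bn d n) (Gx d n θ ψ) (tf m u) v -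
              ap (Bn d n) (Gx d n θ ψ) (tf m u) u| ≤ C * (m : ℝ) ^ 2 + C * (m : ℝ) ^ 2 :=
              le_trans (abs_sub _ _) (add_le_add h1 h2)
            have h5 : C * (m : ℝ) ^ 2 ≤ C * m * nrm (v - u) := by
              have h6 : 0 ≤ C * m := by positivity
              nlinarith
            linarith
        refine le_trans hb ?_
        have h1 := hQ1 (v - u)
        have h2 : 0 ≤ 2 * C * m + 2 * δ := by positivity
        have h3 := mul_le_mul_of_nonneg_left h1 h2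
        have h4 : 0 ≤ 2 * C * m := by positivity
        have h5 : 0 ≤ 2 * δ * nrm (v - u) := by positivity
        nlinarith
      have he1 : |∑ v ∈ Bn d n, Sx d n θ ψ ψ u v *
          (ap (Bn d n) (Gx d n θ ψ) (tf m u) v - ap (Bn d n) (Gx d n θ ψ) (tf m u) u)| /
            (n : ℝ) ^ 2 ≤ (2 * C * m + 2 * δ) * (CL * C₁) := by
        rw [div_le_iff₀ hN]
        refine le_trans (abs_sum_mul_le _ _ _) ?_
        calc ∑ v ∈ Bn d n, |Sx d n θ ψ ψ u v| *
              |ap (Bn d n) (Gx d n θ ψ) (tf m u) v - ap (Bn d n) (Gx d n θ ψ) (tf m u) u|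
            ≤ ∑ v ∈ Bn d n, (2 * C * m + 2 * δ) * (Qw (v - u) * |Sx d n θ ψ ψ u v|) := by
              apply Finset.sum_le_sum
              intro v _
              have h := mul_le_mul_of_nonneg_left (hgv v) (abs_nonneg (Sx d n θ ψ ψ u v))
              linarith
          _ = (2 * C * m + 2 * δ) * ∑ v ∈ Bn d n, Qw (v - u) * |Sx d n θ ψ ψ u v| := by
              rw [Finset.mul_sum]
          _ ≤ (2 * C * m + 2 * δ) * (CL * (C₁ * (n : ℝ) ^ 2)) :=
              mul_le_mul_of_nonneg_left (hsxQ u hu) (by positivity)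
          _ = (2 * C * m + 2 * δ) * (CL * C₁) * (n : ℝ) ^ 2 := by ring
      have he2 : |∑ v ∈ Bn d n, Sx d n θ ψ (tf m u) u v * (yx d n θ ψ v - yx d n θ ψ u)| ≤
          ∑ v ∈ Bn d n, |Sx d n θ ψ (tf m u) u v| * |yx d n θ ψ v - yx d n θ ψ u| :=
        abs_sum_mul_le _ _ _
      have h1 : |t 0 - ap (Bn d n) (Gx d n θ ψ) (tf m u) u| * |sx d n θ ψ u / (n : ℝ) ^ 2| ≤
          δ * (CL * C₁) := by
        rw [abs_sub_comm]
        exact mul_le_mul hgu (hsx u hu) (abs_nonneg _) hδ.le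
      have h2 : |(∑ v ∈ Bn d n, Sx d n θ ψ (tf m u) u v) - s| * |yx d n θ ψ u| ≤ δ * C₁ :=
        mul_le_mul hr1 (hyb u hu) (abs_nonneg _) hδ.le
      refine le_trans hp ?_
      have hX0 : 0 ≤ δ * (3 * CL * C₁ + C₁) + 2 * C * m * (CL * C₁) := by positivity
      have hnum : |t 0 - ap (Bn d n) (Gx d n θ ψ) (tf m u) u| * |sx d n θ ψ u / (n : ℝ) ^ 2| +
          |∑ v ∈ Bn d n, Sx d n θ ψ (tf m u) u v * (yx d n θ ψ v - yx d n θ ψ u)| +
          |∑ v ∈ Bn d n, Sx d n θ ψ ψ u v * (ap (Bn d n) (Gx d n θ ψ) (tf m u) v -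
            ap (Bn d n) (Gx d n θ ψ) (tf m u) u)| / (n : ℝ) ^ 2 +
          |(∑ v ∈ Bn d n, Sx d n θ ψ (tf m u) u v) - s| * |yx d n θ ψ u| ≤
          δ * (3 * CL * C₁ + C₁) + 2 * C * m * (CL * C₁) +
          ∑ v ∈ Bn d n, |Sx d n θ ψ (tf m u) u v| * |yx d n θ ψ v - yx d n θ ψ u| := by
        have e : (2 * C * m + 2 * δ) * (CL * C₁) = 2 * C * m * (CL * C₁) + 2 * (δ * (CL * C₁)) := by
          ring
        have e2 : δ * (3 * CL * C₁ + C₁) = 3 * (δ * (CL * C₁)) + δ * C₁ := by ring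
        rw [e2]
        rw [e] at he1
        linarith
      refine le_trans (div_le_div_of_nonneg_right hnum htpos.le) ?_
      have hcm : c * (m : ℝ) ^ 2 ≤ t 0 := ht0
      have hcm0 : 0 < c * (m : ℝ) ^ 2 := by positivity
      refine le_trans (div_le_div_of_nonneg_left (add_nonneg hX0 hW0) hcm0 hcm) ?_
      have hm2 : (1 : ℝ) ≤ (m : ℝ) ^ 2 := by nlinarith
      have q1 : δ * (3 * CL * C₁ + C₁) / (c * (m : ℝ) ^ 2) ≤ ε / 3 := by
        rw [← hδc]
        apply div_le_div_of_nonneg_left (by positivity) hc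
        nlinarith
      have q2 : 2 * C * m * (CL * C₁) / (c * (m : ℝ) ^ 2) = 2 * C * CL * C₁ / c / m := by
        field_simp
      have q3 : (∑ v ∈ Bn d n, |Sx d n θ ψ (tf m u) u v| * |yx d n θ ψ v - yx d n θ ψ u|) /
          (c * (m : ℝ) ^ 2) ≤
          (∑ v ∈ Bn d n, |Sx d n θ ψ (tf m u) u v| * |yx d n θ ψ v - yx d n θ ψ u|) / c := by
        apply div_le_div_of_nonneg_left hW0 hc
        nlinarith
      rw [add_div, add_div, q2]
      linarith
    · rw [if_pos hdeep]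
      have h1 : |sx d n θ ψ u / (n : ℝ) ^ 2 - s / t 0 * yx d n θ ψ u| ≤ M := by
        rw [hMdef]
        refine le_trans (abs_sub _ _) (add_le_add (hsx u hu) ?_)
        rw [abs_mul]
        exact mul_le_mul_of_nonneg_left (hyb u hu) (abs_nonneg _)
      have h2 : 0 ≤ 2 * C * CL * C₁ / c / m + ε / 3 := by positivity
      have h3 : 0 ≤ (∑ v ∈ Bn d n, |Sx d n θ ψ (tf m u) u v| *
        |yx d n θ ψ v - yx d n θ ψ u|) / c := div_nonneg hW0 hc.le
      linarith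
  -- average
  have hnd : (0 : ℝ) < (n : ℝ) ^ d := by positivity
  have hsum : ∑ u ∈ Bn d n, |sx d n θ ψ u / (n : ℝ) ^ 2 - s / t 0 * yx d n θ ψ u| ≤
      (n : ℝ) ^ d * (2 * C * CL * C₁ / c / m + ε / 3) +
      (∑ u ∈ Bn d n, ∑ v ∈ Bn d n, |Sx d n θ ψ (tf m u) u v| *
        |yx d n θ ψ v - yx d n θ ψ u|) / c +
      (((Bn d n).filter (fun u => ¬ deep d n R u)).card : ℝ) * M := by
    refine le_trans (Finset.sum_le_sum hpt) (le_of_eq ?_)
    rw [Finset.sum_add_distrib, Finset.sum_add_distrib, Finset.sum_const, hcard, nsmul_eq_mul,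
      ← Finset.sum_div, ← Finset.sum_filter, Finset.sum_const, nsmul_eq_mul]
    push_cast
    ring
  have hcb := hbd1 n R hn0
  unfold av
  rw [div_le_iff₀ hnd]
  refine le_trans hsum ?_
  have hA : (∑ u ∈ Bn d n, ∑ v ∈ Bn d n, |Sx d n θ ψ (tf m u) u v| *
      |yx d n θ ψ v - yx d n θ ψ u|) ≤ ε * c / 3 * (n : ℝ) ^ d := by
    have h := hav
    unfold av at h
    rw [div_le_iff₀ hnd] at h
    exact h
  have hA2 : (∑ u ∈ Bn d n, ∑ v ∈ Bn d n, |Sx d n θ ψ (tf m u) u v| *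
      |yx d n θ ψ v - yx d n θ ψ u|) / c ≤ ε / 3 * (n : ℝ) ^ d := by
    rw [div_le_iff₀ hc]
    refine le_trans hA (le_of_eq ?_)
    ring
  have hpow : (n : ℝ) ^ (d - 1) * n = (n : ℝ) ^ d := by
    rw [← pow_succ]
    congr 1
    omega
  have hnlow : 3 * (M * (2 * d * R)) / ε ≤ n := by
    have h1 : (⌈3 * (M * (2 * d * R)) / ε⌉₊ : ℝ) ≤ n := by
      have : ⌈3 * (M * (2 * d * R)) / ε⌉₊ ≤ n := by omega
      exact_mod_cast this
    exact le_trans (Nat.le_ceil _) h1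
  have hB2 : (((Bn d n).filter (fun u => ¬ deep d n R u)).card : ℝ) * M ≤ ε / 3 * (n : ℝ) ^ d := by
    have h1 := mul_le_mul_of_nonneg_right hcb hM0
    refine le_trans h1 ?_
    rw [← hpow]
    have h2 : 3 * (M * (2 * d * R)) ≤ n * ε := by
      rw [div_le_iff₀ hε] at hnlow
      exact hnlow
    have h3 : 0 ≤ (n : ℝ) ^ (d - 1) := by positivity
    nlinarith [mul_le_mul_of_nonneg_left h2 h3]
  nlinarith

end Pool.CL
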