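import Pool.Agent.Helper65.CL.StD
import Pool.Agent.Helper84.LE.BWT
import Pool.Agent.Helper84.LE.M_Box
import Pool.Agent.Helper22.NL.StZ
import Pool.Agent.Helper22.NL.M_Bn

/-! MP_65faa7, project CL: module Y. -/

set_option autoImplicit false
set_option linter.unusedSectionVars false
set_option linter.unusedVariables false

open scoped BigOperators ENNReal
open Pool.LE Pool.NL

namespace Pool.CL

theorem y_rp {d : ℕ} (n : ℕ) (θ : ℝ) (ψ : Zd d → ℝ) (C : Finset (Zd d)) :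
    rp (rho n θ ψ) C = Real.exp (-(θ * ms ψ C / (n : ℝ) ^ 4)) := by
  unfold rp rho ms
  rw [← Real.exp_sum, Finset.sum_neg_distrib, Finset.mul_sum, Finset.sum_div]

theorem y_cont {d : ℕ} (n : ℕ) (ψ : Zd d → ℝ) (x : Zd d) :
    Continuous (fun s : ℝ => yx d n s ψ x) := by
  unfold yx ap Gx GK ex Ex
  simp only [y_rp, smul_eq_mul]
  fun_prop

theorem y_eq {d : ℕ} (n : ℕ) (θ : ℝ) (ψ : Zd d → ℝ) (x : Zd d) :
    yx d n θ ψ x = eb d n (fun ω => Real.exp (-(θ * ms ψ (cb d n ω x) / (n : ℝ) ^ 4)) *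
      ms ψ (cb d n ω x)) / (n : ℝ) ^ 2 := by
  classical
  unfold yx
  congr 1
  unfold ap Gx GK eb ex Ex
  simp only [Finset.sum_mul]
  rw [Finset.sum_comm]
  refine Finset.sum_congr rfl fun ω _ => ?_
  simp only [smul_eq_mul, y_rp]
  have h : ms ψ (cb d n ω x) = ∑ v ∈ Bn d n, ind (con ω x v) * ψ v := by
    unfold ms cb clu ind
    rw [Finset.sum_filter]
    refine Finset.sum_congr rfl fun v _ => ?_
    split_ifs <;> simp
  have h2 : clu (Bn d n) ω x = cb d n ω x := rfl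
  rw [h2]
  generalize Real.exp (-(θ * ms ψ (cb d n ω x) / (n : ℝ) ^ 4)) = e
  rw [h, Finset.mul_sum, Finset.mul_sum]
  refine Finset.sum_congr rfl fun v _ => ?_
  ring

theorem hY (hHub : StHub) (hPD : StPD) (hStar : StStar) (hDer : StDer) : StY := by
  intro d C₁ B c₀ CL hE n ψ hn hψ
  refine ⟨y_cont n ψ, ?_⟩
  intro θ x h0 h1 hx
  have hn' : (0 : ℝ) < n := by exact_mod_cast hn
  have hn2 : (0 : ℝ) < (n : ℝ) ^ 2 := by positivity
  have hFG := (Pool.NL.hBn Pool.LE.hBox d n).1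
  have hp0 : 0 ≤ pH d := hE.env.p0.le
  have hp1 : pH d < 1 := lt_of_le_of_lt hE.env.p1 (by norm_num)
  have hρ : ∀ y, 0 < rho n θ ψ y ∧ rho n θ ψ y ≤ 1 := by
    intro y
    unfold rho
    refine ⟨Real.exp_pos _, Real.exp_le_one_iff.2 ?_⟩
    have : 0 ≤ θ * ψ y / (n : ℝ) ^ 4 := div_nonneg (mul_nonneg h0 (hψ y).1) (by positivity)
    linarith
  obtain ⟨-, hG, -, -⟩ := hPD (Zd d) (Bn d n) (ES (Bn d n)) (2 * d) (pH d) (rho n θ ψ) hFG hp0 hp1 hρ
  refine ⟨?_, ?_, y_eq n θ ψ x⟩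
  · unfold yx ap Gx
    exact div_nonneg (Finset.sum_nonneg fun v _ => mul_nonneg (hG x v).1 (hψ v).1) hn2.le
  · unfold yx ap Gx
    rw [div_le_iff₀ hn2]
    refine le_trans ?_ (hHub d C₁ B c₀ hE.env n hn x hx)
    unfold hh
    refine Finset.sum_le_sum fun v _ => ?_
    calc GK (Bn d n) (ES (Bn d n)) (pH d) (rho n θ ψ) x v * ψ v
        ≤ GK (Bn d n) (ES (Bn d n)) (pH d) (rho n θ ψ) x v * 1 :=
          mul_le_mul_of_nonneg_left (hψ v).2 (hG x v).1
      _ ≤ cp (ES (Bn d n)) (pH d) x v := by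
          rw [mul_one]
          exact (hG x v).2

end Pool.CL
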