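import Pool.Agent.Helper65.CL.StE
import Pool.Agent.Helper22.NL.Asm

/-! # Project CL, module Zfin: from the box to the uniform variables -/

set_option autoImplicit false

open scoped BigOperators ENNReal Topology
open Pool.LE Pool.NL Filter MeasureTheory

namespace Pool.CL

theorem hZfin (hEnvC : StEnvC) (hZ : StZbox) (hLawE : Pool.NL.StLawE) (hClZ : Pool.NL.StClZ)
    (hPc : Pool.LE.StPc) (hBasic : Pool.NL.StBasic) (hBn : Pool.NL.StBn) : StZfin := by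
  obtain ⟨d₀, h0⟩ := hEnvC
  refine ⟨d₀, fun d hd => ?_⟩
  obtain ⟨C₁, B, c₀, CL, E⟩ := h0 d hd
  have hd1 : 1 ≤ d := le_trans (by norm_num) E.env.hd
  have hpc : pcU d = pH d := pcU_eq hPc hd1 E.half
  obtain ⟨a, ha, hlim⟩ := hZ d C₁ B c₀ CL E
  have hp0 : 0 ≤ pH d := E.env.p0.le
  have hp1 : pH d ≤ 1 := E.env.p1.trans (by norm_num)
  refine ⟨a, ha, fun ε hε => ?_⟩
  rw [hpc]
  obtain ⟨hu, hl⟩ := hlim (ε / 2) (half_pos hε)
  -- the joint event
  set A₁ : ℕ → Finset (Sym2 (Zd d)) → Prop := fun n ω => ∃ x ∈ Bn d n,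
    (a - ε / 2) * (n : ℝ) ^ 4 * Real.log n ≤ XB d n ω x with hA₁
  set A₂ : ℕ → Finset (Sym2 (Zd d)) → Prop := fun n ω => ∀ x ∈ Bn d n,
    (XB d n ω x : ℝ) ≤ (a + ε / 2) * (n : ℝ) ^ 4 * Real.log n with hA₂
  have hjoint : ∀ n, pB d n (pH d) (A₁ n) + pB d n (pH d) (A₂ n) - 1 ≤
      pB d n (pH d) (fun ω => A₁ n ω ∧ A₂ n ω) := by
    intro n
    obtain ⟨hmono, hconst, hadd, hsub, _, _, _, _, _, _⟩ := hBasic (Zd d) (ES (Bn d n)) (pH d) hp0 hp1
    unfold pB pr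
    have h1 : ex (ES (Bn d n)) (pH d) (fun _ => (1 : ℝ)) = 1 := hconst 1
    have := hmono (fun ω => (ind (A₁ n ω) + ind (A₂ n ω)) - 1) (fun ω => ind (A₁ n ω ∧ A₂ n ω))
      (by
        intro ω _
        unfold ind
        by_cases a : A₁ n ω <;> by_cases b : A₂ n ω <;> simp [a, b])
    rw [hsub (fun ω => ind (A₁ n ω) + ind (A₂ n ω)) (fun _ => 1), hadd, h1] at this
    exact this
  have hjl : Tendsto (fun n : ℕ => pB d n (pH d) (A₁ n) + pB d n (pH d) (A₂ n) - 1) atTop (𝓝 1) := by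
    have := (hl.add hu).sub_const 1
    simpa using this
  have h2 : Tendsto (fun n : ℕ => ENNReal.ofReal
      (pB d n (pH d) (A₁ n) + pB d n (pH d) (A₂ n) - 1)) atTop (𝓝 1) := by
    have := (ENNReal.continuous_ofReal.tendsto 1).comp hjl
    rw [ENNReal.ofReal_one] at this
    exact this
  refine tendsto_of_tendsto_of_tendsto_of_le_of_le' h2 tendsto_const_nhds ?_
    (Eventually.of_forall fun n => prob_le_one)
  filter_upwards [eventually_ge_atTop 2] with n hn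
  have hsub : {ω | A₁ n (opE (ES (Bn d n)) (pH d) ω) ∧ A₂ n (opE (ES (Bn d n)) (pH d) ω)} ⊆
      {ω | |(maxZ d n (pH d) ω : ℝ) / ((n : ℝ) ^ 4 * Real.log n) - a| < ε} := by
    intro ω hω
    obtain ⟨⟨x, hx, hxl⟩, hup⟩ := hω
    have hn2 : (2 : ℝ) ≤ n := by exact_mod_cast hn
    have hlog : 0 < Real.log n := Real.log_pos (by linarith)
    have hpos : 0 < (n : ℝ) ^ 4 * Real.log n := by positivity
    have hlow : (a - ε / 2) * ((n : ℝ) ^ 4 * Real.log n) ≤ maxZ d n (pH d) ω := by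
      rw [← mul_assoc]
      refine hxl.trans ?_
      have h3 := (hClZ d n (pH d) ω x hx).1
      rw [← h3]
      have : cZ d n (pH d) ω x ≤ maxZ d n (pH d) ω :=
        Finset.le_sup (f := cZ d n (pH d) ω) hx
      exact_mod_cast this
    have hhigh : (maxZ d n (pH d) ω : ℝ) ≤ (a + ε / 2) * ((n : ℝ) ^ 4 * Real.log n) := by
      have hne : (BU d n).Nonempty := ⟨x, hx⟩
      obtain ⟨y, hy, hmy⟩ := Finset.exists_mem_eq_sup (BU d n) hne (cZ d n (pH d) ω)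
      have h3 := (hClZ d n (pH d) ω y hy).1
      have h4 := hup y hy
      unfold maxZ
      rw [hmy, h3, ← mul_assoc]
      exact h4
    have e1 : a - ε / 2 ≤ (maxZ d n (pH d) ω : ℝ) / ((n : ℝ) ^ 4 * Real.log n) := (le_div_iff₀ hpos).2 hlow
    have e2 : (maxZ d n (pH d) ω : ℝ) / ((n : ℝ) ^ 4 * Real.log n) ≤ a + ε / 2 := (div_le_iff₀ hpos).2 hhigh
    show |(maxZ d n (pH d) ω : ℝ) / ((n : ℝ) ^ 4 * Real.log n) - a| < ε
    rw [abs_lt]
    constructor <;> linarith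
  calc ENNReal.ofReal (pB d n (pH d) (A₁ n) + pB d n (pH d) (A₂ n) - 1)
      ≤ ENNReal.ofReal (pB d n (pH d) (fun ω => A₁ n ω ∧ A₂ n ω)) :=
        ENNReal.ofReal_le_ofReal (hjoint n)
    _ = PU d {ω | A₁ n (opE (ES (Bn d n)) (pH d) ω) ∧ A₂ n (opE (ES (Bn d n)) (pH d) ω)} := by
        exact ((hLawE d (ES (Bn d n)) (pH d) (fun ω => A₁ n ω ∧ A₂ n ω)
          (hBn d n).2.2.1 hp0 hp1).1).symm
    _ ≤ PU d {ω | |(maxZ d n (pH d) ω : ℝ) / ((n : ℝ) ^ 4 * Real.log n) - a| < ε} := measure_mono hsub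

end Pool.CL
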