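import Pool.Agent.Helper65.Base.All
import Pool.Agent.Helper65.CL.M_A1w
import Pool.Agent.Helper65.CL.M_Ar
import Pool.Agent.Helper65.CL.M_ArC
import Pool.Agent.Helper65.CL.M_Arp
import Pool.Agent.Helper65.CL.M_Bd
import Pool.Agent.Helper65.CL.M_Bx
import Pool.Agent.Helper65.CL.M_Cmp
import Pool.Agent.Helper65.CL.M_Coe
import Pool.Agent.Helper65.CL.M_CrLim
import Pool.Agent.Helper65.CL.M_D1
import Pool.Agent.Helper65.CL.M_DF
import Pool.Agent.Helper65.CL.M_Der
import Pool.Agent.Helper65.CL.M_EnvC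
import Pool.Agent.Helper65.CL.M_Grad
import Pool.Agent.Helper65.CL.M_Hinv
import Pool.Agent.Helper65.CL.M_Loc1
import Pool.Agent.Helper65.CL.M_Loc3
import Pool.Agent.Helper65.CL.M_LocG
import Pool.Agent.Helper65.CL.M_LocH
import Pool.Agent.Helper65.CL.M_LocS
import Pool.Agent.Helper65.CL.M_Mom
import Pool.Agent.Helper65.CL.M_PD
import Pool.Agent.Helper65.CL.M_Pol
import Pool.Agent.Helper65.CL.M_Row
import Pool.Agent.Helper65.CL.M_Star
import Pool.Agent.Helper65.CL.M_T0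
import Pool.Agent.Helper65.CL.M_Tent
import Pool.Agent.Helper65.CL.M_Tr
import Pool.Agent.Helper65.CL.M_Vf
import Pool.Agent.Helper65.CL.M_Vm
import Pool.Agent.Helper65.CL.M_Y
import Pool.Agent.Helper65.CL.M_Zfin

/-! # Project CL (MP_65faa7): the modules together -/

set_option autoImplicit false

namespace Pool.CL.A

open Pool.CL

theorem aPD : StPD := hPD
theorem aHinv : StHinv := hHinv
theorem aTr : StTr := hTr
theorem aBd : StBd := hBd
theorem aPol : StPol := hPol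
theorem aT0 : StT0 := hT0 BB.hHub BB.hHh BB.hBn
theorem aAr : StAr := hAr aT0
theorem aArp : StArp := hArp aT0 aAr
theorem aBx : StBx := hBx aPD aHinv
theorem aDer : StDer := hDer aPD aHinv
theorem aStar : StStar := hStar aPD aHinv
theorem aY : StY := hY BB.hHub aPD aStar aDer
theorem aDF : StDF := hDF aBd
theorem aLocG : StLocG := hLocG aTr aBd aDF aBx
theorem aLocH : StLocH := hLocH aBx aBd aDF aLocG
theorem aLoc3 : StLoc3 := hLoc3 aTr aBd aDF aBx
theorem aLocS : StLocS := hLocS aBx aBd aDF aLocH aLoc3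
theorem aRow : StRow := hRow aBx aBd aDF aLocS BB.hTauBasic
theorem aA1w : StA1w := hA1w aPD aTr aBd BB.hBox BB.hBn BB.hBasic BB.hTauDom BB.hTauBasic BB.hT
theorem aTent : StTent := hTent aBx aBd aDF aLocG aA1w BB.hTauBasic BB.hBn BB.hCpTau
theorem aMom : StMom := hMom BB.hMomS BB.hHub BB.hHh BB.hBasic BB.hBn aY
theorem aCmp : StCmp := hCmp aY aT0 aAr aArp
theorem aCoe : StCoe := hCoe aY aAr aCmp aMom aPol

/-- everything which depends on the regularity lemma -/
theorem aGrad (hReg : StReg) : StGrad := hGrad hReg aY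
theorem aLoc1 (hReg : StReg) : StLoc1 := hLoc1 aBd aY (aGrad hReg)
theorem aVm (hReg : StReg) : StVm := hVm aStar aBx aBd aDF aRow aTent (aLoc1 hReg) aY
theorem aVf (hReg : StReg) : StVf := hVf (aVm hReg) aY aBx
theorem aD1 (hReg : StReg) (hYeq : StYeq) : StD1 := hD1 aBx aBd (aLoc1 hReg) aY aT0 hYeq
theorem aCrLim (hReg : StReg) (hYeq : StYeq) (hCC : StCC) : StCrLim :=
  hCrLim (aVf hReg) (aD1 hReg hYeq) hCC aCoe (hArC hCC)

theorem aEnvC (hLT : StLTd) : StEnvC :=
  hEnvC hLT BB.hEnv BB.hG3 BB.hB8 BB.hCvA BB.hKpTau BB.wSum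

theorem aZfin (hLT : StLTd) (hZ : StZbox) : StZfin :=
  hZfin (aEnvC hLT) hZ BB.hLawE BB.hClZ BB.hPc BB.hBasic BB.hBn

end Pool.CL.A
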