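import Pool.Agent.Helper22.NL.StI
import Pool.Agent.Helper56.WF.St

/-!
# Project CL (MP_65faa7): existence of the limit of the largest critical cluster
Definitions. Paper proof: /team-store/MP_65faa7-v2.md
-/

set_option autoImplicit false

open scoped BigOperators ENNReal Topology
open Pool.LE Pool.NL Filter MeasureTheory

namespace Pool.CL

section Ker

variable {V : Type} [DecidableEq V]

/-- composition of kernels over `L` -/
noncomputable def kk (L : Finset V) (S T : V → V → ℝ) (u v : V) : ℝ := ∑ w ∈ L, S u w * T w v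

/-- application of a kernel to a function -/
noncomputable def ap (L : Finset V) (S : V → V → ℝ) (f : V → ℝ) (u : V) : ℝ := ∑ v ∈ L, S u v * f v

open Classical in
/-- the inverse kernel on `L` -/
noncomputable def kinv (L : Finset V) (S : V → V → ℝ) (u v : V) : ℝ :=
  if h : u ∈ L ∧ v ∈ L then
    ((Matrix.of fun a b : {x // x ∈ L} => S a.1 b.1)⁻¹) ⟨u, h.1⟩ ⟨v, h.2⟩ else 0

/-- positive definite symmetric kernel on `L` -/
structure PD (L : Finset V) (S : V → V → ℝ) : Prop where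
  symm : ∀ u ∈ L, ∀ v ∈ L, S u v = S v u
  pos : ∀ f : V → ℝ, (∃ u ∈ L, f u ≠ 0) → 0 < ∑ u ∈ L, ∑ v ∈ L, f u * S u v * f v

/-- `B` is the inverse of `A` on `L` -/
def Inv (L : Finset V) (A B : V → V → ℝ) : Prop := ∀ u ∈ L, ∀ v ∈ L,
  kk L A B u v = ind (u = v) ∧ kk L B A u v = ind (u = v)

/-- total mass of a finite set -/
noncomputable def ms (k : V → ℝ) (C : Finset V) : ℝ := ∑ y ∈ C, k y

/-- product of the weights over a finite set -/
noncomputable def rp (ρ : V → ℝ) (C : Finset V) : ℝ := ∏ y ∈ C, ρ y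

/-- weighted two-point function `E[1(u ↔ v) ρ(C_u)]` -/
noncomputable def GK (L : Finset V) (E : Finset (Sym2 V)) (p : ℝ) (ρ : V → ℝ) (u v : V) : ℝ :=
  ex E p (fun ω => ind (con ω u v) * rp ρ (clu L ω u))

/-- three-point kernel `E[1(u ↔ v) k(C_u) ρ(C_u)]` -/
noncomputable def GT (L : Finset V) (E : Finset (Sym2 V)) (p : ℝ) (ρ k : V → ℝ) (u v : V) : ℝ :=
  ex E p (fun ω => ind (con ω u v) * (ms k (clu L ω u) * rp ρ (clu L ω u)))

/-- the inverse of the weighted two-point function -/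
noncomputable def HK (L : Finset V) (E : Finset (Sym2 V)) (p : ℝ) (ρ : V → ℝ) : V → V → ℝ :=
  kinv L (GK L E p ρ)

/-- `S_k = G⁻¹ G3_k G⁻¹` -/
noncomputable def SK (L : Finset V) (E : Finset (Sym2 V)) (p : ℝ) (ρ k : V → ℝ) : V → V → ℝ :=
  kk L (HK L E p ρ) (kk L (GT L E p ρ k) (HK L E p ρ))

/-- values in `[0,1]` -/
def U01 (ψ : V → ℝ) : Prop := ∀ y, 0 ≤ ψ y ∧ ψ y ≤ 1

end Ker

/-! ## The lattice at the critical point -/

/-- maximum norm -/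
def nrm {d : ℕ} (z : Zd d) : ℕ := Finset.univ.sup fun i => (z i).natAbs

/-- the points at distance at least `R` from the complement of the box -/
def deep (d n R : ℕ) (u : Zd d) : Prop := ∀ y ∈ bx d R, u + y ∈ Bn d n

/-- a leaving event -/
def far {d : ℕ} (r : ℕ) (ω : Finset (Sym2 (Zd d))) : Prop := ∃ y : Zd d, r ≤ nrm y ∧ con ω 0 y

/-- the conclusion of the weighted lace expansion -/
def LTb (d : ℕ) (CL : ℝ) : Prop := ∀ (L : Finset (Zd d)) (E : Finset (Sym2 (Zd d)))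
  (ρ k : Zd d → ℝ) (η : ℝ), (E : Set (Sym2 (Zd d))) ⊆ latE d → (∀ e ∈ E, ∀ v ∈ e, v ∈ L) →
  (∀ y, 0 < ρ y ∧ ρ y ≤ 1) → (∀ v ∈ L, 7 / 8 ≤ ex E (pH d) (fun ω => rp ρ (clu L ω v))) → 0 < η →
  (∀ w ∈ L, ∑ y ∈ L, tau d (pH d) (y - w) * |k y| ≤ η) →
    (∀ u ∈ L, ∑ v ∈ L, Qw (v - u) * |HK L E (pH d) ρ u v| ≤ CL) ∧
    (∀ u ∈ L, ∑ v ∈ L, Qw (v - u) * |SK L E (pH d) ρ k u v| ≤ CL * η)

/-- all facts about the critical point which are used -/
structure EnvC (d : ℕ) (C₁ B c₀ CL : ℝ) : Prop where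
  env : Env d C₁ B c₀
  half : pH d < 1 / 2
  g3 : ∀ E : Finset (Sym2 (Zd d)), (E : Set (Sym2 (Zd d))) ⊆ latE d → G3 E (pH d)
  g3z : G3Z d (pH d)
  hsum : SumQ (hS d (pH d))
  hle : nQ (hS d (pH d)) ≤ 1 / 200
  hsym : SymF (hS d (pH d))
  gdl : gS d (pH d) = dl (hS d (pH d))
  gsum : SumQ (gS d (pH d))
  gsym : SymF (gS d (pH d))
  crit : 2 * (d : ℝ) * pH d * FT (gS d (pH d)) 0 = 1
  arm : ∀ ε : ℝ, 0 < ε → ∃ r : ℕ, ∀ R : ℕ, pr (Eb d R) (pH d) (far r) ≤ ε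
  kp8 : ∀ x y : Zd d, kp (tk d (pH d)) 8 x y ≤ ENNReal.ofReal B
  hCL : 1 ≤ CL
  lt : LTb d CL

/-! ## The box -/

/-- expectation in the box -/
noncomputable def eb (d n : ℕ) (f : Finset (Sym2 (Zd d)) → ℝ) : ℝ := ex (ES (Bn d n)) (pH d) f

/-- cluster in the box -/
noncomputable def cb (d n : ℕ) (ω : Finset (Sym2 (Zd d))) (x : Zd d) : Finset (Zd d) :=
  clu (Bn d n) ω x

/-- two-point function of the box -/
noncomputable def G0 (d n : ℕ) : Zd d → Zd d → ℝ := cp (ES (Bn d n)) (pH d)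

/-- the operator `n⁻² G0` -/
noncomputable def T0 (d n : ℕ) (f : Zd d → ℝ) (v : Zd d) : ℝ := ap (Bn d n) (G0 d n) f v / (n : ℝ) ^ 2

/-- average over the box -/
noncomputable def av (d n : ℕ) (f : Zd d → ℝ) : ℝ := (∑ x ∈ Bn d n, f x) / (n : ℝ) ^ d

/-- the weights `exp (-θ ψ(y) / n^4)` -/
noncomputable def rho {d : ℕ} (n : ℕ) (θ : ℝ) (ψ : Zd d → ℝ) (y : Zd d) : ℝ :=
  Real.exp (-(θ * ψ y / (n : ℝ) ^ 4))

/-- weighted two-point function of the box -/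
noncomputable def Gx (d n : ℕ) (θ : ℝ) (ψ : Zd d → ℝ) : Zd d → Zd d → ℝ :=
  GK (Bn d n) (ES (Bn d n)) (pH d) (rho n θ ψ)

/-- its inverse -/
noncomputable def Hx (d n : ℕ) (θ : ℝ) (ψ : Zd d → ℝ) : Zd d → Zd d → ℝ :=
  HK (Bn d n) (ES (Bn d n)) (pH d) (rho n θ ψ)

/-- the kernel `S_k` of the box -/
noncomputable def Sx (d n : ℕ) (θ : ℝ) (ψ k : Zd d → ℝ) : Zd d → Zd d → ℝ :=
  SK (Bn d n) (ES (Bn d n)) (pH d) (rho n θ ψ) k

/-- weighted three-point function of the box -/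
noncomputable def G3x (d n : ℕ) (θ : ℝ) (ψ : Zd d → ℝ) (x y z : Zd d) : ℝ :=
  eb d n (fun ω => ind (con ω x y ∧ con ω x z) * rp (rho n θ ψ) (cb d n ω x))

/-- `y_θ(x) = n⁻² E[ψ(C_x) exp (-θ n⁻⁴ ψ(C_x))]` -/
noncomputable def yx (d n : ℕ) (θ : ℝ) (ψ : Zd d → ℝ) (x : Zd d) : ℝ :=
  ap (Bn d n) (Gx d n θ ψ) ψ x / (n : ℝ) ^ 2

/-- row sums of `S_ψ` -/
noncomputable def sx (d n : ℕ) (θ : ℝ) (ψ : Zd d → ℝ) (u : Zd d) : ℝ :=
  ∑ v ∈ Bn d n, Sx d n θ ψ ψ u v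

/-- the rescaled moments `c_r` -/
noncomputable def cr (d n r : ℕ) (ψ : Zd d → ℝ) : ℝ :=
  av d n (fun x => ψ x * eb d n (fun ω => (ms ψ (cb d n ω x)) ^ (r + 1))) /
    ((n : ℝ) ^ (2 + 4 * r) * (r.factorial : ℝ))

/-- tent function of radius `m` around `u` -/
noncomputable def tf {d : ℕ} (m : ℕ) (u y : Zd d) : ℝ := max 0 (1 - (nrm (y - u) : ℝ) / m)

/-- a box, a parameter, a source and a point of the box -/
structure Pt (d : ℕ) where
  n : ℕ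
  θ : ℝ
  ψ : Zd d → ℝ
  u : Zd d

/-- points at distance `R` from the complement -/
def okp {d : ℕ} (R : ℕ) (q : Pt d) : Prop := 0 ≤ q.θ ∧ q.θ ≤ 1 ∧ U01 q.ψ ∧ deep d q.n R q.u

/-- the filter `distance to the complement → ∞` -/
noncomputable def DF (d : ℕ) : Filter (Pt d) := ⨅ R : ℕ, 𝓟 {q | okp R q}

/-! ## The class of sequences with a continuous limit -/

/-- uniformly bounded sequences of functions on the boxes which are close in average to a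
continuous function -/
def CC (d : ℕ) (f : ℕ → Zd d → ℝ) : Prop :=
  (∃ M : ℝ, ∀ n x, |f n x| ≤ M) ∧ ∀ ε : ℝ, 0 < ε → ∃ g : (Fin d → ℝ) → ℝ, Continuous g ∧
    ∃ n₀ : ℕ, ∀ n : ℕ, n₀ ≤ n →
      av d n (fun x => |f n x - g (fun i => ((x i : ℝ) + 1) / ((n : ℝ) + 1))|) ≤ ε

/-- the Dirichlet eigenfunctions -/
noncomputable def phk (d n : ℕ) (k : Fin d → ℕ) (x : Zd d) : ℝ :=
  ∏ i, Real.sin (Real.pi * (k i : ℝ) * ((x i : ℝ) + 1) / ((n : ℝ) + 1))

end Pool.CL
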