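import Pool.Agent.Helper65.CL.StD
import Pool.Agent.Helper84.LE.M_Box
import Pool.Agent.Helper22.NL.StZ
import Pool.Agent.Helper22.NL.M_Bn

/-! MP_65faa7, project CL: module Yeq, the exact equation for `y`. -/

set_option autoImplicit false

open scoped BigOperators ENNReal Topology
open Pool.LE Pool.NL Filter MeasureTheory

namespace Pool.CL

namespace Yeq

theorem rho_eq {d : ℕ} (n : ℕ) (s : ℝ) (ψ : Zd d → ℝ) :
    rho n s ψ = fun y => Real.exp (-(s * (ψ y / (n : ℝ) ^ 4))) := by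
  funext y
  unfold rho
  rw [mul_div_assoc]

theorem rp_one {V : Type} [DecidableEq V] (C : Finset V) : rp (fun _ : V => (1 : ℝ)) C = 1 := by
  unfold rp
  exact Finset.prod_const_one

theorem GK_one {V : Type} [DecidableEq V] (L : Finset V) (E : Finset (Sym2 V)) (p : ℝ) (u v : V) :
    GK L E p (fun _ => (1 : ℝ)) u v = cp E p u v := by
  unfold GK cp pr ex
  simp only [rp_one, mul_one]

end Yeq

open Yeq

theorem hYeq (hPD : StPD) (hHinv : StHinv) (hStar : StStar) (hDer : StDer) : StYeq := by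
  classical
  intro d C₁ B c₀ CL hE
  refine ⟨1, le_rfl, ?_⟩
  intro n hn θ ψ h0 h1 hψ x hx
  have hn' : (0 : ℝ) < n := by exact_mod_cast hn
  have hn2 : (n : ℝ) ^ 2 ≠ 0 := by positivity
  have hn4 : (n : ℝ) ^ 4 ≠ 0 := by positivity
  have hFG := (Pool.NL.hBn Pool.LE.hBox d n).1
  have hp0 : 0 ≤ pH d := hE.env.p0.le
  have hp1 : pH d < 1 := lt_of_le_of_lt hE.env.p1 (by norm_num)
  obtain ⟨φ, hφ⟩ : ∃ φ : Zd d → ℝ, φ = fun y => ψ y / (n : ℝ) ^ 4 := ⟨_, rfl⟩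
  have hφ0 : ∀ y, 0 ≤ φ y := by
    intro y
    rw [hφ]
    exact div_nonneg (hψ y).1 (by positivity)
  have hrho : ∀ s : ℝ, rho n s ψ = fun y => Real.exp (-(s * φ y)) := by
    intro s
    rw [rho_eq, hφ]
  have hρ : ∀ s : ℝ, 0 ≤ s → ∀ y, 0 < rho n s ψ y ∧ rho n s ψ y ≤ 1 := by
    intro s hs y
    rw [hrho]
    refine ⟨Real.exp_pos _, ?_⟩
    show Real.exp (-(s * φ y)) ≤ 1
    rw [← Real.exp_zero]
    exact Real.exp_le_exp.mpr (by nlinarith [mul_nonneg hs (hφ0 y)])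
  have hcont : ∀ u v, ContinuousOn (fun s : ℝ => Sx d n s ψ ψ u v) (Set.Ici 0) := by
    intro u v
    have h := (hDer (Zd d) (Bn d n) (ES (Bn d n)) (2 * d) (pH d) φ hFG hp0 hp1 hφ0 u v).2.1 ψ
    unfold Sx
    simp only [hrho]
    exact h
  refine ⟨hcont, ?_⟩
  -- inverses
  have hI : Inv (Bn d n) (Gx d n θ ψ) (Hx d n θ ψ) :=
    (hHinv (Zd d) (Bn d n) _ (hPD (Zd d) (Bn d n) (ES (Bn d n)) (2 * d) (pH d) _ hFG hp0 hp1
      (hρ θ h0)).1).1
  have hI0 : Inv (Bn d n) (GK (Bn d n) (ES (Bn d n)) (pH d) (fun _ => (1 : ℝ)))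
      (HK (Bn d n) (ES (Bn d n)) (pH d) (fun _ => (1 : ℝ))) :=
    (hHinv (Zd d) (Bn d n) _ (hPD (Zd d) (Bn d n) (ES (Bn d n)) (2 * d) (pH d) _ hFG hp0 hp1
      (fun _ => ⟨one_pos, le_rfl⟩)).1).1
  -- the function Y
  obtain ⟨Y, hY⟩ : ∃ Y : Zd d → ℝ, Y = ap (Bn d n) (Gx d n θ ψ) ψ := ⟨_, rfl⟩
  have hYy : ∀ v, Y v = (n : ℝ) ^ 2 * yx d n θ ψ v := by
    intro v
    unfold yx
    rw [hY]
    field_simp
  have happ : ∀ (A K : Zd d → Zd d → ℝ) (f : Zd d → ℝ) (u : Zd d),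
      (∀ v ∈ Bn d n, kk (Bn d n) A K u v = ind (u = v)) → u ∈ Bn d n →
      ap (Bn d n) A (ap (Bn d n) K f) u = f u := by
    intro A K f u hk hu
    unfold ap
    have e1 : ∑ v ∈ Bn d n, A u v * ∑ w ∈ Bn d n, K v w * f w =
        ∑ w ∈ Bn d n, kk (Bn d n) A K u w * f w := by
      unfold kk
      simp only [Finset.mul_sum, Finset.sum_mul]
      rw [Finset.sum_comm]
      refine Finset.sum_congr rfl fun w _ => Finset.sum_congr rfl fun v _ => ?_
      ring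
    rw [e1]
    have e2 : ∀ w ∈ Bn d n, kk (Bn d n) A K u w * f w = if w = u then f u else 0 := by
      intro w hw
      rw [hk w hw]
      unfold ind
      by_cases h : u = w
      · rw [if_pos h, if_pos h.symm, one_mul, h]
      · rw [if_neg h, if_neg (fun h' => h h'.symm), zero_mul]
    rw [Finset.sum_congr rfl e2, Finset.sum_ite_eq' (Bn d n) u, if_pos hu]
  -- the integrated kernel
  obtain ⟨J, hJ⟩ : ∃ J : Zd d → Zd d → ℝ, J = fun u v => ∫ s in (0 : ℝ)..θ, Sx d n s ψ ψ u v :=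
    ⟨_, rfl⟩
  have hH : ∀ u v, Hx d n θ ψ u v =
      HK (Bn d n) (ES (Bn d n)) (pH d) (fun _ => (1 : ℝ)) u v + J u v / (n : ℝ) ^ 4 := by
    intro u v
    have h := (hDer (Zd d) (Bn d n) (ES (Bn d n)) (2 * d) (pH d) φ hFG hp0 hp1 hφ0 u v).2.2 θ h0
    unfold Hx
    rw [hrho, h, hJ]
    congr 1
    show _ = (∫ s in (0 : ℝ)..θ, Sx d n s ψ ψ u v) / (n : ℝ) ^ 4
    rw [div_eq_mul_inv, ← intervalIntegral.integral_mul_const]
    refine intervalIntegral.integral_congr ?_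
    intro s hs
    rw [Set.uIcc_of_le h0] at hs
    beta_reduce
    have h3 := (hStar (Zd d) (Bn d n) (ES (Bn d n)) (2 * d) (pH d) (rho n s ψ) hFG hp0 hp1
      (hρ s hs.1) ψ ψ).2.2 (((n : ℝ) ^ 4)⁻¹) u v
    have e : (fun y => ((n : ℝ) ^ 4)⁻¹ * ψ y) = φ := by
      rw [hφ]
      funext y
      rw [div_eq_mul_inv, mul_comm]
    rw [e] at h3
    rw [← hrho, h3]
    unfold Sx
    ring
  -- first equation
  have h2 : ∀ u ∈ Bn d n, ap (Bn d n) (HK (Bn d n) (ES (Bn d n)) (pH d) (fun _ => (1 : ℝ))) Y u =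
      ψ u - (∫ s in (0 : ℝ)..θ, ap (Bn d n) (Sx d n s ψ ψ) (yx d n θ ψ) u) / (n : ℝ) ^ 2 := by
    intro u hu
    have a1 : ap (Bn d n) (Hx d n θ ψ) Y u = ψ u := by
      rw [hY]
      exact happ _ _ ψ u (fun v hv => (hI u hu v hv).2) hu
    have a2 : ap (Bn d n) (Hx d n θ ψ) Y u =
        ap (Bn d n) (HK (Bn d n) (ES (Bn d n)) (pH d) (fun _ => (1 : ℝ))) Y u +
          (∑ v ∈ Bn d n, J u v * yx d n θ ψ v) / (n : ℝ) ^ 2 := by
      unfold ap
      rw [Finset.sum_div, ← Finset.sum_add_distrib]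
      refine Finset.sum_congr rfl fun v _ => ?_
      rw [hH u v, hYy v]
      field_simp
    have a3 : (∫ s in (0 : ℝ)..θ, ap (Bn d n) (Sx d n s ψ ψ) (yx d n θ ψ) u) =
        ∑ v ∈ Bn d n, J u v * yx d n θ ψ v := by
      unfold ap
      rw [intervalIntegral.integral_finsetSum]
      · refine Finset.sum_congr rfl fun v _ => ?_
        rw [hJ, ← intervalIntegral.integral_mul_const]
      · intro v _
        refine ContinuousOn.intervalIntegrable ?_
        refine ContinuousOn.mul ?_ continuousOn_const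
        refine (hcont u v).mono ?_
        rw [Set.uIcc_of_le h0]
        exact Set.Icc_subset_Ici_self
    rw [a3]
    linarith
  -- apply G0
  have h4 : ap (Bn d n) (G0 d n) (ap (Bn d n) (HK (Bn d n) (ES (Bn d n)) (pH d)
      (fun _ => (1 : ℝ))) Y) x = Y x := by
    refine happ _ _ Y x (fun v hv => ?_) hx
    have := (hI0 x hx v hv).1
    unfold kk at this ⊢
    unfold G0
    simp only [GK_one] at this
    exact this
  have h5 : ap (Bn d n) (G0 d n) (ap (Bn d n) (HK (Bn d n) (ES (Bn d n)) (pH d)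
      (fun _ => (1 : ℝ))) Y) x = ap (Bn d n) (G0 d n) (fun u => ψ u - (∫ s in (0 : ℝ)..θ,
      ap (Bn d n) (Sx d n s ψ ψ) (yx d n θ ψ) u) / (n : ℝ) ^ 2) x := by
    unfold ap
    refine Finset.sum_congr rfl fun u hu => ?_
    congr 1
    exact h2 u hu
  unfold T0
  rw [← h5, h4, hYy x]
  field_simp

end Pool.CL
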