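import Pool.Agent.Helper65.CL.All
import Pool.Agent.Helper65.CL.M_Yeq
import Pool.Agent.Helper22.CM.AllZ
import Pool.Agent.Helper26.CL.Out
import Pool.Agent.Helper69.LT.All
import Pool.Agent.Helper69.RG.All

/-! # Project CL (MP_65faa7): the limit of the largest zero-boundary cluster -/

set_option autoImplicit false

namespace Pool.CL.A

open Pool.CL

theorem cYeq : StYeq := hYeq aPD aHinv aStar aDer
theorem cReg : StReg := Pool.RG.allReg
theorem cVf : StVf := aVf cReg
theorem cD1 : StD1 := aD1 cReg cYeq
theorem cCrLim : StCrLim := aCrLim cReg cYeq hCC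
theorem cEnvC : StEnvC := aEnvC Pool.LT.hLTd
theorem cZbox : StZbox := Pool.CM.allZ cCrLim aMom cReg
theorem cZfin : StZfin := aZfin Pool.LT.hLTd cZbox

end Pool.CL.A
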