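import Pool.Agent.Helper65.CL.StE
import Pool.Agent.Helper84.LE.M_Box
import Pool.Agent.Helper84.LE.M_SymT
import Pool.Agent.Helper84.LE.BGR
import Pool.Agent.Helper84.LE.BWT
import Pool.Agent.Helper22.NL.M_Basic

/-! # Project CL, module EnvC: the environment exists -/

set_option autoImplicit false

open scoped BigOperators ENNReal Topology
open Pool.LE Pool.NL Filter MeasureTheory

namespace Pool.CL

namespace EnvCM

theorem nb_step {d : ℕ} (x b : Zd d) (h : b ∈ nb x) (i : Fin d) : b i ≤ x i + 1 := by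
  obtain ⟨-, -, hnb, -⟩ := Pool.LE.hBox d
  obtain ⟨j, hj | hj⟩ := (hnb x b).1 h
  · rw [hj, Pi.add_apply]
    by_cases hij : i = j
    · subst hij
      rw [Pi.single_eq_same]
    · rw [Pi.single_eq_of_ne hij]
      omega
  · rw [hj, Pi.sub_apply]
    by_cases hij : i = j
    · subst hij
      rw [Pi.single_eq_same]
      omega
    · rw [Pi.single_eq_of_ne hij]
      omega

theorem ivt {d : ℕ} {S : Finset (Zd d)} {ω : Finset (Sym2 (Zd d))}
    (hω : ω ⊆ ES S) (i : Fin d) (r : ℤ) {x y : Zd d} (q : (gr ω).Walk x y) :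
    x i ≤ r → r ≤ y i → ∃ z : Zd d, z i = r ∧ con ω x z := by
  induction q with
  | nil =>
    intro h1 h2
    exact ⟨_, le_antisymm h1 h2, SimpleGraph.Reachable.refl _⟩
  | cons hadj q ih =>
    rename_i u v w
    intro h1 h2
    rcases eq_or_lt_of_le h1 with h3 | h3
    · exact ⟨u, h3, SimpleGraph.Reachable.refl _⟩
    · obtain ⟨-, -, -, -, -, -, -, hES, -⟩ := Pool.LE.hBox d
      have h4 : v ∈ nb u := ((hES S u v).1 (hω (gr_adj.1 hadj).1)).2.2
      have h5 := nb_step u v h4 i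
      obtain ⟨z, hz, hc⟩ := ih (by omega) h2
      exact ⟨z, hz, hadj.reachable.trans hc⟩

/-- reflection of the coordinate `i` -/
noncomputable def flp {d : ℕ} (i : Fin d) : Zd d ≃ Zd d := sgpE (1 : Equiv.Perm (Fin d)) (Function.update 1 i (-1))

theorem flp_zero {d : ℕ} (i : Fin d) : flp i 0 = 0 := sgp_zero _ _

theorem flp_apply {d : ℕ} (i : Fin d) (y : Zd d) : flp i y i = -y i := by
  change ((Function.update (1 : Fin d → ℤˣ) i (-1) i : ℤˣ) : ℤ) * y ((1 : Equiv.Perm (Fin d)) i) = -y i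
  rw [Function.update_self]
  simp

theorem arm_flp {d R r : ℕ} (i : Fin d) {ω : Finset (Sym2 (Zd d))} (hω : ω ⊆ Eb d R) {y : Zd d}
    (hy : y i ≤ -(r : ℤ)) (hc : con ω 0 y) :
    Pool.WF.armF i r (ω.map (flp i).toEmbedding.sym2Map) := by
  have h1 : ω.map (flp i).toEmbedding.sym2Map ⊆ Eb d R := by
    rw [← sgp_Eb (1 : Equiv.Perm (Fin d)) (Function.update 1 i (-1)) R]
    exact Finset.map_subset_map.2 hω
  have h2 := (tsl_con (flp i) ω 0 y).2 hc
  rw [flp_zero] at h2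
  obtain ⟨q⟩ := h2
  obtain ⟨z, hz, hcz⟩ := ivt (S := bx d R) h1 i (r : ℤ) q (by simp) (by rw [flp_apply]; omega)
  exact ⟨z, hz, hcz⟩

theorem far_cases {d R r : ℕ} (hr : 1 ≤ r) {ω : Finset (Sym2 (Zd d))} (hω : ω ⊆ Eb d R) (h : far r ω) :
    ∃ i : Fin d, Pool.WF.armF i r ω ∨ Pool.WF.armF i r (ω.map (flp i).toEmbedding.sym2Map) := by
  obtain ⟨y, hy, hc⟩ := h
  unfold nrm at hy
  rw [Finset.le_sup_iff (by exact hr)] at hy
  obtain ⟨i, -, hi⟩ := hy
  refine ⟨i, ?_⟩
  rcases le_total 0 (y i) with h0 | h0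
  · left
    obtain ⟨q⟩ := hc
    obtain ⟨z, hz, hcz⟩ := ivt (S := bx d R) hω i (r : ℤ) q (by simp) (by omega)
    exact ⟨z, hz, hcz⟩
  · right
    exact arm_flp i hω (by omega) hc

theorem Pr_flp {d R : ℕ} (i : Fin d) (p : ℝ) (A : Finset (Sym2 (Zd d)) → Prop) :
    Pr (Eb d R) p (fun ω => A (ω.map (flp i).toEmbedding.sym2Map)) = Pr (Eb d R) p A := by
  classical
  have h := tsl_ExE_map (flp i).toEmbedding (Eb d R) p (fun ω => if A ω then 1 else 0)
  have h2 : (Eb d R).map (flp i).toEmbedding.sym2Map = Eb d R := sgp_Eb _ _ R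
  rw [h2] at h
  exact h.symm

theorem Pr_far {d R r : ℕ} (hr : 1 ≤ r) (p : ℝ) :
    Pr (Eb d R) p (far r) ≤ ∑ i : Fin d, 2 * ⨆ R : ℕ, Pr (Eb d R) p (Pool.WF.armF i r) := by
  calc Pr (Eb d R) p (far r)
      ≤ Pr (Eb d R) p (fun ω => ∃ i : Fin d, Pool.WF.armF i r ω ∨
          Pool.WF.armF i r (ω.map (flp i).toEmbedding.sym2Map)) :=
        Pr_mono fun ω hω h => far_cases hr hω h
    _ ≤ ∑' i : Fin d, Pr (Eb d R) p (fun ω => Pool.WF.armF i r ω ∨
          Pool.WF.armF i r (ω.map (flp i).toEmbedding.sym2Map)) := Pr_exists_le _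
    _ = ∑ i : Fin d, Pr (Eb d R) p (fun ω => Pool.WF.armF i r ω ∨
          Pool.WF.armF i r (ω.map (flp i).toEmbedding.sym2Map)) := tsum_fintype _
    _ ≤ ∑ i : Fin d, 2 * ⨆ R : ℕ, Pr (Eb d R) p (Pool.WF.armF i r) := by
        refine Finset.sum_le_sum fun i _ => ?_
        refine (Pr_or_le _ _).trans ?_
        rw [Pr_flp, ← two_mul]
        gcongr
        exact le_iSup (fun R : ℕ => Pr (Eb d R) p (Pool.WF.armF i r)) R

end EnvCM

open EnvCM

theorem hEnvC (hLT : StLTd) (hEnv : Pool.NL.StEnv) (hG3 : Pool.NL.StG3) (hB8 : Pool.LE.StB8)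
    (hCvA : Pool.LE.StCvA) (hKp : Pool.NL.StKpTau) (hSum : Pool.WF.StSum) : StEnvC := by
  obtain ⟨d1, h1⟩ := hLT
  obtain ⟨d2, h2⟩ := hEnv
  obtain ⟨d3, h3⟩ := hG3
  obtain ⟨d4, -, h4⟩ := hB8
  obtain ⟨C, hC, d5, h5⟩ := hKp 8
  obtain ⟨d6, hd6, h6⟩ := hSum
  refine ⟨max (max (max d1 d2) (max d3 d4)) (max d5 d6), fun d hd => ?_⟩
  have e1 : d1 ≤ d := by
    exact le_trans (le_trans (le_max_left _ _) (le_trans (le_max_left _ _) (le_max_left _ _))) hd
  have e2 : d2 ≤ d := le_trans (le_trans (le_max_right _ _) (le_trans (le_max_left _ _) (le_max_left _ _))) hd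
  have e3 : d3 ≤ d := le_trans (le_trans (le_max_left _ _) (le_trans (le_max_right _ _) (le_max_left _ _))) hd
  have e4 : d4 ≤ d := le_trans (le_trans (le_max_right _ _) (le_trans (le_max_right _ _) (le_max_left _ _))) hd
  have e5 : d5 ≤ d := le_trans (le_trans (le_max_left _ _) (le_max_right _ _)) hd
  have e6 : d6 ≤ d := le_trans (le_trans (le_max_right _ _) (le_max_right _ _)) hd
  obtain ⟨CL, hCL, hlt⟩ := h1 d e1
  obtain ⟨hp12, C₁, B, c₀, E⟩ := h2 d e2
  obtain ⟨hg3z, hg3⟩ := h3 d e3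
  obtain ⟨hp0, -, -, heta, hcrit⟩ := h4 d e4
  have hetatop : eta d (pH d) ≠ ⊤ := ne_top_of_le_ne_top ENNReal.ofReal_ne_top heta
  obtain ⟨-, k1, k2, k3, k4, k5, k6⟩ := hCvA d (pH d) hetatop
  have hp1 : pH d ≤ 1 := by linarith
  refine ⟨C₁, max B C, c₀, CL, ?_⟩
  exact
    { env :=
        { hd := E.hd
          p0 := E.p0
          p1 := E.p1
          hC := E.hC
          hB := E.hB.trans (le_max_left _ _)
          hc := E.hc
          A1 := E.A1
          A2 := fun x y => (E.A2 x y).trans (ENNReal.ofReal_le_ofReal (le_max_left _ _))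
          A3 := E.A3 }
      half := hp12
      g3 := hg3
      g3z := hg3z
      hsum := k1
      hle := k2.trans (by
        have := ENNReal.toReal_mono ENNReal.ofReal_ne_top heta
        rwa [ENNReal.toReal_ofReal (by norm_num)] at this)
      hsym := k3
      gdl := k4
      gsum := k5
      gsym := k6
      crit := hcrit
      kp8 := fun x y => ((h5 d e5 x y).1).trans (ENNReal.ofReal_le_ofReal (le_max_right _ _))
      hCL := hCL
      lt := hlt
      arm := by
        intro ε hε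
        have ht : Tendsto (fun r : ℕ => ∑ i : Fin d, 2 * ⨆ R : ℕ, Pr (Eb d R) (pH d) (Pool.WF.armF i r))
            atTop (𝓝 0) := by
          have : Tendsto (fun r : ℕ => ∑ i : Fin d, 2 * ⨆ R : ℕ, Pr (Eb d R) (pH d) (Pool.WF.armF i r))
              atTop (𝓝 (∑ i : Fin d, 2 * 0)) := by
            refine tendsto_finsetSum _ fun i _ => ?_
            refine ENNReal.Tendsto.const_mul ?_ (Or.inr (by norm_num))
            exact ENNReal.tendsto_atTop_zero_of_tsum_ne_top (h6 d e6 i)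
          simpa using this
        have hε' : (0 : ENNReal) < ENNReal.ofReal ε := ENNReal.ofReal_pos.2 hε
        obtain ⟨r, hr1, hr2⟩ := ((ht.eventually (ge_mem_nhds hε')).and (eventually_ge_atTop 1)).exists
        refine ⟨r, fun R => ?_⟩
        obtain ⟨-, -, -, -, -, -, hpr, -⟩ := Pool.NL.hBasic (Zd d) (Eb d R) (pH d) hp0.le hp1
        obtain ⟨-, -, hqE, -⟩ := hpr (far r)
        have h7 := (Pr_far (R := R) hr2 (pH d)).trans hr1
        rw [hqE] at h7
        exact (ENNReal.ofReal_le_ofReal_iff hε.le).1 h7 }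

end Pool.CL
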