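import Pool.Agent.Helper65.CL.StD
import Pool.Agent.Helper22.NL.StZ

/-!
# Project CL (MP_65faa7), module T0: bounds for the operator `T0`
-/

set_option autoImplicit false

open scoped BigOperators ENNReal Topology
open Pool.LE Pool.NL Filter MeasureTheory

namespace Pool.CL

/-- bounds for `T0` -/
theorem hT0 (hHub : StHub) (hHh : StHh) (hBn : StBn) : StT0 := by
  classical
  intro d C₁ B c₀ CL hE n f g hn
  have hp0 : 0 ≤ pH d := hE.env.p0.le
  have hp1 : pH d ≤ 1 := hE.env.p1.trans (by norm_num)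
  have hFG : FG (Bn d n) (ES (Bn d n)) (2 * d) := (hBn d n).1
  have hcp : ∀ x y, G0 d n x y = G0 d n y x ∧ 0 ≤ G0 d n x y := by
    intro x y
    have h := (hHh (Zd d) (Bn d n) (ES (Bn d n)) (2 * d) (pH d) hFG hp0 hp1).2.1 x y
    exact ⟨h.1, h.2.1⟩
  have hsum : ∀ x ∈ Bn d n, ∑ y ∈ Bn d n, G0 d n x y ≤ C₁ * (n : ℝ) ^ 2 :=
    fun x hx => hHub d C₁ B c₀ hE.env n hn x hx
  have hn0 : (0 : ℝ) < (n : ℝ) ^ 2 := by
    have : (0 : ℝ) < n := by exact_mod_cast hn
    positivity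
  have hnd : (0 : ℝ) < (n : ℝ) ^ d := by
    have : (0 : ℝ) < n := by exact_mod_cast hn
    positivity
  have h1 : ∀ x ∈ Bn d n, |T0 d n f x - T0 d n g x| ≤ T0 d n (fun v => |f v - g v|) x := by
    intro x _
    unfold T0 ap
    rw [← sub_div, ← Finset.sum_sub_distrib, abs_div, abs_of_pos hn0]
    refine div_le_div_of_nonneg_right ?_ hn0.le
    refine (Finset.abs_sum_le_sum_abs _ _).trans (Finset.sum_le_sum fun y _ => ?_)
    rw [← mul_sub, abs_mul, abs_of_nonneg (hcp x y).2]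
  refine ⟨h1, ?_, ?_⟩
  · intro M hM x hx
    have hM0 : 0 ≤ M := (abs_nonneg _).trans (hM x hx)
    unfold T0 ap
    rw [abs_div, abs_of_pos hn0, div_le_iff₀ hn0]
    calc |∑ y ∈ Bn d n, G0 d n x y * f y|
        ≤ ∑ y ∈ Bn d n, |G0 d n x y * f y| := Finset.abs_sum_le_sum_abs _ _
      _ ≤ ∑ y ∈ Bn d n, G0 d n x y * M := Finset.sum_le_sum fun y hy => by
          rw [abs_mul, abs_of_nonneg (hcp x y).2]
          exact mul_le_mul_of_nonneg_left (hM y hy) (hcp x y).2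
      _ = (∑ y ∈ Bn d n, G0 d n x y) * M := by rw [Finset.sum_mul]
      _ ≤ C₁ * (n : ℝ) ^ 2 * M := mul_le_mul_of_nonneg_right (hsum x hx) hM0
      _ = C₁ * M * (n : ℝ) ^ 2 := by ring
  · unfold av
    rw [← mul_div_assoc]
    refine div_le_div_of_nonneg_right ?_ hnd.le
    refine (Finset.sum_le_sum h1).trans ?_
    unfold T0 ap
    rw [← Finset.sum_div, div_le_iff₀ hn0, Finset.sum_comm]
    calc ∑ y ∈ Bn d n, ∑ x ∈ Bn d n, G0 d n x y * |f y - g y|
        = ∑ y ∈ Bn d n, (∑ x ∈ Bn d n, G0 d n y x) * |f y - g y| := by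
          refine Finset.sum_congr rfl fun y _ => ?_
          rw [Finset.sum_mul]
          refine Finset.sum_congr rfl fun x _ => ?_
          rw [(hcp x y).1]
      _ ≤ ∑ y ∈ Bn d n, C₁ * (n : ℝ) ^ 2 * |f y - g y| :=
          Finset.sum_le_sum fun y hy => mul_le_mul_of_nonneg_right (hsum y hy) (abs_nonneg _)
      _ = C₁ * (∑ x ∈ Bn d n, |f x - g x|) * (n : ℝ) ^ 2 := by
          rw [← Finset.mul_sum]; ring

end Pool.CL
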